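import Mathlib

set_option autoImplicit false

namespace Pool.Agent.Lib.MP_1b8c51_co

/-- underlying simple graph of the Good-de Bruijn digraph on words of length `t` over `r` letters -/
def deBruijn (r t : ℕ) : SimpleGraph (Fin t → Fin r) :=
  SimpleGraph.fromRel fun x y => ∀ i j : Fin t, (j : ℕ) = i + 1 → y i = x j

/-- a rotation system: a cyclic order of the darts leaving each vertex -/
def IsRotation {V : Type} (G : SimpleGraph V) (σ : Equiv.Perm G.Dart) : Prop :=
  (∀ d : G.Dart, (σ d).fst = d.fst) ∧ ∀ d e : G.Dart, d.fst = e.fst → σ.SameCycle d e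

/-- number of faces of the embedding given by a rotation system: orbits of `d ↦ σ (reverse d)` -/
noncomputable def faces {V : Type} (G : SimpleGraph V) (σ : Equiv.Perm G.Dart) : ℕ :=
  Nat.card (Quotient (Equiv.Perm.SameCycle.setoid
    (σ * Function.Involutive.toPerm SimpleGraph.Dart.symm SimpleGraph.Dart.symm_involutive)))

/-- orientable genus of a finite connected graph with an edge: the least `g` such that some
rotation system has Euler characteristic `V - E + F ≥ 2 - 2 g` -/
noncomputable def genus {V : Type} (G : SimpleGraph V) : ℕ :=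
  sInf {g : ℕ | ∃ σ : Equiv.Perm G.Dart, IsRotation G σ ∧
    Nat.card G.edgeSet + 2 ≤ Nat.card V + faces G σ + 2 * g}

end Pool.Agent.Lib.MP_1b8c51_co
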