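import Pool.Agent.Lib.MP_1b8c51_co.Upper

set_option autoImplicit false

namespace Pool.Agent.Lib.MP_1b8c51_co

open Finset Function

variable {n t : ℕ}

def low (c : ZMod 2) (a : Fin (n + 1)) : Fin (n + 1) := if par a = c then a else a - 1

lemma low_inj {c : ZMod 2} {a b : Fin (n + 1)} (h : low c a = low c b) (hp : par a = par b) :
    a = b := by
  unfold low at h
  rw [hp] at h
  split_ifs at h
  · exact h
  · exact sub_left_injective h

lemma zmod2_ne {a c : ZMod 2} (h : a ≠ c) : a + 1 = c := by revert a c; decide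

lemma zmod2_succ_ne (a : ZMod 2) : a + 1 ≠ a := by revert a; decide

lemma low_mate {c : ZMod 2} {a : Fin (n + 1)} (h : par (mate c a) = par a + 1) :
    low c (mate c a) = low c a := by
  unfold low
  rw [h]
  unfold mate
  by_cases hc : par a = c
  · rw [if_pos hc, if_pos hc, if_neg (by rw [hc]; exact zmod2_succ_ne c), add_sub_cancel_right]
  · rw [if_neg hc, if_neg hc, if_pos (zmod2_ne hc)]

lemma sum_rotL {A : Type} [AddCommMonoid A] (f : Fin (n + 1) → A) (e : Wd (n + 1) (t + 1)) :
    ∑ i, f (rotL e i) = ∑ i, f (e i) :=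
  Equiv.sum_comp (Equiv.addRight (1 : Fin (t + 1))) (fun i => f (e i))

lemma sum_rotR {A : Type} [AddCommMonoid A] (f : Fin (n + 1) → A) (e : Wd (n + 1) (t + 1)) :
    ∑ i, f (rotR e i) = ∑ i, f (e i) := by
  rw [← sum_rotL f (rotR e), rotL_rotR]

lemma sum_upd {A : Type} [AddCommGroup A] (f : Fin (n + 1) → A) (e : Wd (n + 1) (t + 1))
    (j : Fin (t + 1)) (a : Fin (n + 1)) :
    ∑ i, f (update e j a i) = ∑ i, f (e i) + (f a - f (e j)) := by
  rw [← Finset.add_sum_erase _ _ (mem_univ j), ← Finset.add_sum_erase _ (fun i => f (e i))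
    (mem_univ j), update_self,
    Finset.sum_congr rfl (fun i hi => by rw [update_of_ne (ne_of_mem_erase hi)])]
  abel

lemma chi_psi (off : Wd (n + 1) t → Fin (n + 1)) (m : Md (n + 1) t)
    (h1 : m.2 = true → ¬ m.1 0 = stop (chi m) (m.1 0) (off (suf m.1)) →
      par (mate (chi m) (m.1 0)) = par (m.1 0) + 1)
    (h2 : m.2 = false → ¬ m.1 (Fin.last t) = stop (chi m) (m.1 (Fin.last t)) (off (pre m.1)) →
      par (mate (chi m) (m.1 (Fin.last t))) = par (m.1 (Fin.last t)) + 1) :
    chi (psi off m) = chi m := by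
  obtain ⟨e, b⟩ := m
  cases b
  · simp only [psi, Bool.false_eq_true, if_false]
    split_ifs with h
    · simp only [chi, Sm, sum_rotR]
    · have := h2 rfl h
      dsimp only at this
      generalize mate (chi (e, false)) (e (Fin.last t)) = a at this
      simp only [chi, Sm, sum_upd, this, if_true]
      simp
  · simp only [psi, if_true]
    split_ifs with h
    · simp only [chi, Sm, sum_rotL]
    · have := h1 rfl h
      dsimp only at this
      generalize mate (chi (e, true)) (e 0) = a at this
      simp only [chi, Sm, sum_upd, this, Bool.false_eq_true, if_false, if_true, add_sub_cancel_left,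
        add_assoc]
      congr 1

lemma card_first (g : Wd (n + 1) t → Fin (n + 1)) :
    (univ.filter (fun e : Wd (n + 1) (t + 1) => e 0 = g (suf e))).card = (n + 1) ^ t := by
  have : (n + 1) ^ t = (univ : Finset (Wd (n + 1) t)).card := by simp
  rw [this]
  refine Finset.card_bij' (fun e _ => suf e) (fun x _ => Fin.cons (g x) x) (fun _ _ => mem_univ _)
    ?_ ?_ ?_
  · intro x _
    simp only [mem_filter, mem_univ, true_and, Fin.cons_zero]
    rfl
  · intro e he
    have h : e 0 = g (suf e) := (mem_filter.1 he).2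
    rw [← h]
    exact Fin.cons_self_tail e
  · intro x _; rfl

lemma card_last (g : Wd (n + 1) t → Fin (n + 1)) :
    (univ.filter (fun e : Wd (n + 1) (t + 1) => e (Fin.last t) = g (pre e))).card = (n + 1) ^ t := by
  have : (n + 1) ^ t = (univ : Finset (Wd (n + 1) t)).card := by simp
  have hp : ∀ (x : Wd (n + 1) t) (a : Fin (n + 1)),
      pre (Fin.snoc (α := fun _ => Fin (n + 1)) x a) = x := by
    intro x a; funext i; simp [pre]
  rw [this]
  refine Finset.card_bij' (fun e _ => pre e) (fun x _ => Fin.snoc (α := fun _ => Fin (n + 1)) x (g x))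
    (fun _ _ => mem_univ _) ?_ ?_ ?_
  · intro x _
    simp only [mem_filter, mem_univ, true_and, Fin.snoc_last, hp]
  · intro e he
    have h : e (Fin.last t) = g (pre e) := (mem_filter.1 he).2
    rw [← h]
    exact Fin.snoc_init_self e
  · intro x _; exact hp _ _

lemma card_passT (off : Wd (n + 1) t → Fin (n + 1)) :
    (univ.filter (fun e : Wd (n + 1) (t + 1) =>
      e 0 = stop (chi (e, true)) (e 0) (off (suf e)))).card = (n + 1) ^ t := by
  rw [← card_first (fun x => if Sm x = 0 then off x - 1 else off x)]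
  congr 1
  refine Finset.filter_congr (fun e _ => ?_)
  simp [stop, chi, Sm_suf e]

lemma card_passF (off : Wd (n + 1) t → Fin (n + 1)) :
    (univ.filter (fun e : Wd (n + 1) (t + 1) =>
      e (Fin.last t) = stop (chi (e, false)) (e (Fin.last t)) (off (pre e)))).card = (n + 1) ^ t := by
  rw [← card_last (fun x => if Sm x + 1 = 0 then off x - 1 else off x)]
  congr 1
  refine Finset.filter_congr (fun e _ => ?_)
  have : chi ((e, false) : Md (n + 1) t) = par (e (Fin.last t)) + (Sm (pre e) + 1) := by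
    simp only [chi, Sm_pre e, Bool.false_eq_true, if_false]; ring
  simp [stop, this]

lemma eq_of_ends {e e' : Wd (n + 1) (t + 1)} {c : ZMod 2} (hs : Sm e = Sm e')
    (h : ∀ i, i ≠ Fin.last t → e i = e' i) (hl : low c (e (Fin.last t)) = low c (e' (Fin.last t))) :
    e = e' := by
  have hp : pre e = pre e' := funext (fun i => h _ (Fin.castSucc_ne_last i))
  rw [Sm_pre e, Sm_pre e', hp] at hs
  have h2 := low_inj hl (add_left_cancel hs)
  funext i
  by_cases hi : i = Fin.last t
  · rw [hi, h2]
  · exact h i hi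

section even

variable (hn : 2 ∣ n + 1)
include hn

lemma par_add (a b : Fin (n + 1)) : par (a + b) = par a + par b := by
  unfold par
  rw [Fin.val_add, ← Nat.cast_add, ZMod.natCast_eq_natCast_iff', Nat.mod_mod_of_dvd _ hn]

lemma par_one : par (1 : Fin (n + 1)) = 1 := by
  unfold par
  rw [Fin.val_one', Nat.mod_eq_of_lt (by omega), Nat.cast_one]

omit hn in
lemma par_zero : par (0 : Fin (n + 1)) = 0 := by simp [par]

lemma par_sub (a b : Fin (n + 1)) : par (a - b) = par a + par b := by
  have := par_add hn (a - b) b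
  rw [sub_add_cancel] at this
  rw [this, add_assoc, CharTwo.add_self_eq_zero, add_zero]

lemma par_mate (c : ZMod 2) (a : Fin (n + 1)) : par (mate c a) = par a + 1 := by
  unfold mate
  split_ifs
  · rw [par_add hn, par_one hn]
  · rw [par_sub hn, par_one hn]

lemma par_low (a : Fin (n + 1)) : par (low 0 a) = 0 := by
  unfold low
  split_ifs with h
  · exact h
  · rw [par_sub hn, par_one hn]; exact zmod2_ne h

omit hn in
def Hs {k : ℕ} (e : Wd (n + 1) k) : Fin (n + 1) := ∑ i, low 0 (e i)

lemma par_Hs {k : ℕ} (e : Wd (n + 1) k) : par (Hs e) = 0 := by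
  unfold Hs
  refine Finset.sum_induction _ (fun a => par a = 0) ?_ par_zero (fun i _ => par_low hn _)
  intro a b ha hb
  rw [par_add hn, ha, hb, add_zero]

lemma stop_iff (c : ZMod 2) (a H : Fin (n + 1)) (hH : par H = 0) :
    a = stop c a (1 - H) ↔ c = 0 ∧ low 0 a + H = 0 := by
  unfold stop
  by_cases hc : par a = c
  · rw [if_pos hc]
    constructor
    · intro h
      have h1 : par a = 0 := by
        rw [h, par_sub hn, par_sub hn, par_one hn, hH]; decide
      refine ⟨hc.symm.trans h1, ?_⟩
      rw [low, if_pos h1, h]; abel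
    · rintro ⟨h1, h2⟩
      rw [low, if_pos (hc.trans h1)] at h2
      rw [eq_neg_of_add_eq_zero_left h2]; abel
  · rw [if_neg hc]
    constructor
    · intro h
      have h1 : par a = 1 := by
        rw [h, par_sub hn, par_one hn, hH]; decide
      refine ⟨?_, ?_⟩
      · rw [← zmod2_ne hc, h1]; decide
      · rw [low, if_neg (by rw [h1]; decide), h]; abel
    · rintro ⟨h1, h2⟩
      rw [low, if_neg (by rw [← h1]; exact hc)] at h2
      rw [← sub_add_cancel a 1, eq_neg_of_add_eq_zero_left h2]; abel

omit hn in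
def offE (x : Wd (n + 1) t) : Fin (n + 1) := 1 - Hs x

omit hn in
def Sp (m : Md (n + 1) t) : Prop := chi m = 0 ∧ Hs m.1 = 0

omit hn in
instance : DecidablePred (Sp : Md (n + 1) t → Prop) := fun _ => instDecidableAnd

lemma passT_iff (e : Wd (n + 1) (t + 1)) :
    e 0 = stop (chi (e, true)) (e 0) (offE (suf e)) ↔ Sp (e, true) := by
  rw [offE, stop_iff hn _ _ _ (par_Hs hn _)]
  simp [Sp, Hs, Fin.sum_univ_succ, suf]

lemma passF_iff (e : Wd (n + 1) (t + 1)) :
    e (Fin.last t) = stop (chi (e, false)) (e (Fin.last t)) (offE (pre e)) ↔ Sp (e, false) := by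
  rw [offE, stop_iff hn _ _ _ (par_Hs hn _)]
  simp [Sp, Hs, Fin.sum_univ_castSucc, pre, add_comm]

omit hn in
def nrm (c : ZMod 2) (e : Wd (n + 1) (t + 1)) : Wd (n + 1) (t + 1) :=
  fun i => if i = 0 ∨ i = Fin.last t then low c (e i) else e i

omit hn in
def cyc (e : Wd (n + 1) (t + 1)) : Finset (Wd (n + 1) (t + 1)) :=
  univ.image (fun j : Fin (t + 1) => fun i => e (i + j))

omit hn in
lemma cyc_rotL (e : Wd (n + 1) (t + 1)) : cyc (rotL e) = cyc e := by
  ext x
  simp only [cyc, mem_image, mem_univ, true_and, rotL]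
  constructor
  · rintro ⟨j, rfl⟩
    exact ⟨j + 1, by funext i; rw [add_assoc]⟩
  · rintro ⟨j, rfl⟩
    exact ⟨j - 1, by funext i; congr 1; abel⟩

omit hn in
def labE (m : Md (n + 1) t) :
    (ZMod 2 × Wd (n + 1) (t + 1)) ⊕ (Bool × Finset (Wd (n + 1) (t + 1))) :=
  if Sp m then Sum.inr (m.2, cyc m.1) else Sum.inl (chi m, nrm (chi m) m.1)

lemma nrm_update (c : ZMod 2) (e : Wd (n + 1) (t + 1)) (j : Fin (t + 1))
    (hj : j = 0 ∨ j = Fin.last t) : nrm c (update e j (mate c (e j))) = nrm c e := by
  funext i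
  unfold nrm
  by_cases hi : i = j
  · subst hi
    rw [if_pos hj, if_pos hj, update_self, low_mate (par_mate hn _ _)]
  · rw [update_of_ne hi]

lemma Hs_update (e : Wd (n + 1) (t + 1)) (j : Fin (t + 1)) :
    Hs (update e j (mate 0 (e j))) = Hs e := by
  unfold Hs
  rw [sum_upd, low_mate (par_mate hn _ _), sub_self, add_zero]

lemma labE_psi (m : Md (n + 1) t) : labE (psi offE m) = labE m := by
  have hc : chi (psi offE m) = chi m :=
    chi_psi _ _ (fun _ _ => par_mate hn _ _) (fun _ _ => par_mate hn _ _)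
  obtain ⟨e, b⟩ := m
  cases b
  · by_cases h : Sp ((e, false) : Md (n + 1) t)
    · have h1 : psi offE (e, false) = (rotR e, false) := by
        simp only [psi, Bool.false_eq_true, if_false, if_pos ((passF_iff hn e).2 h)]
      have h2 : Sp ((rotR e, false) : Md (n + 1) t) :=
        ⟨by rw [← h1, hc]; exact h.1, (sum_rotR (low 0) e).trans h.2⟩
      rw [h1, labE, labE, if_pos h, if_pos h2, ← cyc_rotL, rotL_rotR]
    · have h1 : psi offE (e, false) =
          (update e (Fin.last t) (mate (chi (e, false)) (e (Fin.last t))), true) := by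
        simp only [psi, Bool.false_eq_true, if_false, if_neg (fun h' => h ((passF_iff hn e).1 h'))]
      have h2 : ¬ Sp (psi offE (e, false)) := by
        rintro ⟨a, b⟩
        rw [hc] at a
        rw [h1, a] at b
        exact h ⟨a, (Hs_update hn e _).symm.trans b⟩
      rw [labE, labE, if_neg h, if_neg h2, hc, h1, nrm_update hn _ _ _ (Or.inr rfl)]
  · by_cases h : Sp ((e, true) : Md (n + 1) t)
    · have h1 : psi offE (e, true) = (rotL e, true) := by
        simp only [psi, if_true, if_pos ((passT_iff hn e).2 h)]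
      have h2 : Sp ((rotL e, true) : Md (n + 1) t) :=
        ⟨by rw [← h1, hc]; exact h.1, (sum_rotL (low 0) e).trans h.2⟩
      rw [h1, labE, labE, if_pos h, if_pos h2, cyc_rotL]
    · have h1 : psi offE (e, true) = (update e 0 (mate (chi (e, true)) (e 0)), false) := by
        simp only [psi, if_true, if_neg (fun h' => h ((passT_iff hn e).1 h'))]
      have h2 : ¬ Sp (psi offE (e, true)) := by
        rintro ⟨a, b⟩
        rw [hc] at a
        rw [h1, a] at b
        exact h ⟨a, (Hs_update hn e _).symm.trans b⟩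
      rw [labE, labE, if_neg h, if_neg h2, hc, h1, nrm_update hn _ _ _ (Or.inl rfl)]

lemma card_labE (ht : 1 ≤ t) :
    ((n + 1 : ℝ) ^ (t + 1) - (n + 1) ^ t) / 2 + 2 * (n + 1) ^ t / (t + 1) ≤
      ((univ.image (labE : Md (n + 1) t → _)).card : ℝ) := by
  set A1 := (univ.filter (fun e : Wd (n + 1) (t + 1) => ¬ Sp ((e, true) : Md (n + 1) t))) with hA1
  set A2 := (univ.filter (fun e : Wd (n + 1) (t + 1) => Sp ((e, true) : Md (n + 1) t))) with hA2
  set A3 := (univ.filter (fun e : Wd (n + 1) (t + 1) => Sp ((e, false) : Md (n + 1) t))) with hA3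
  have c2 : A2.card = (n + 1) ^ t := by
    rw [← card_passT offE]; congr 1
    exact Finset.filter_congr (fun e _ => (passT_iff hn e).symm)
  have c3 : A3.card = (n + 1) ^ t := by
    rw [← card_passF offE]; congr 1
    exact Finset.filter_congr (fun e _ => (passF_iff hn e).symm)
  have c1 : A2.card + A1.card = (n + 1) ^ (t + 1) := by
    rw [Finset.card_filter_add_card_filter_not]; simp
  have h0l : (0 : Fin (t + 1)) ≠ Fin.last t := by
    intro h; have := congrArg Fin.val h; simp at this; omega
  have d1 : A1.card ≤ 2 * (A1.image (fun e => labE ((e, true) : Md (n + 1) t))).card := by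
    refine Finset.card_le_mul_card_image _ _ (fun l _ => ?_)
    have : (univ : Finset (ZMod 2)).card = 2 := by simp
    refine le_trans (Finset.card_le_card_of_injOn (fun e => par (e 0)) (fun _ _ => by simp) ?_)
      this.le
    intro e he e' he' hp
    simp only [coe_filter, hA1, mem_filter, mem_univ, true_and, Set.mem_ofPred_eq] at he he'
    have h1 := he.2.trans he'.2.symm
    rw [labE, labE, if_neg he.1, if_neg he'.1, Sum.inl.injEq, Prod.mk.injEq] at h1
    obtain ⟨h2, h3⟩ := h1
    rw [← h2] at h3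
    refine eq_of_ends (c := chi ((e, true) : Md (n + 1) t)) (by simpa [chi] using h2) ?_ ?_
    · intro i hi
      have h4 := congrFun h3 i
      by_cases h0 : i = 0
      · subst h0
        simp only [nrm, true_or, if_true] at h4
        exact low_inj h4 hp
      · simpa [nrm, h0, hi] using h4
    · simpa [nrm] using congrFun h3 (Fin.last t)
  have d2 : ∀ b : Bool, ∀ A : Finset (Wd (n + 1) (t + 1)),
      (∀ e ∈ A, Sp ((e, b) : Md (n + 1) t)) →
      A.card ≤ (t + 1) * (A.image (fun e => labE ((e, b) : Md (n + 1) t))).card := by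
    intro b A hA
    refine Finset.card_le_mul_card_image _ _ (fun l hl => ?_)
    obtain ⟨e0, he0, rfl⟩ := mem_image.1 hl
    refine le_trans (Finset.card_le_card (t := cyc e0) ?_) (Finset.card_image_le.trans (by simp))
    intro e he
    obtain ⟨h1, h2⟩ := mem_filter.1 he
    rw [labE, labE, if_pos (hA e h1), if_pos (hA e0 he0), Sum.inr.injEq, Prod.mk.injEq] at h2
    rw [← h2.2]
    exact mem_image.2 ⟨0, mem_univ _, by funext i; rw [add_zero]⟩
  have d3 := d2 true A2 (fun e he => (mem_filter.1 he).2)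
  have d4 := d2 false A3 (fun e he => (mem_filter.1 he).2)
  set B1 := A1.image (fun e => labE ((e, true) : Md (n + 1) t)) with hB1
  set B2 := A2.image (fun e => labE ((e, true) : Md (n + 1) t)) with hB2
  set B3 := A3.image (fun e => labE ((e, false) : Md (n + 1) t)) with hB3
  have m1 : ∀ l ∈ B1, ∃ z, l = Sum.inl z := by
    intro l hl
    obtain ⟨e, he, rfl⟩ := mem_image.1 hl
    exact ⟨_, by rw [labE, if_neg (mem_filter.1 he).2]⟩
  have m2 : ∀ l ∈ B2, ∃ z, l = Sum.inr (true, z) := by
    intro l hl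
    obtain ⟨e, he, rfl⟩ := mem_image.1 hl
    exact ⟨_, by rw [labE, if_pos (mem_filter.1 he).2]⟩
  have m3 : ∀ l ∈ B3, ∃ z, l = Sum.inr (false, z) := by
    intro l hl
    obtain ⟨e, he, rfl⟩ := mem_image.1 hl
    exact ⟨_, by rw [labE, if_pos (mem_filter.1 he).2]⟩
  have e1 : Disjoint B2 B3 := by
    rw [Finset.disjoint_left]
    intro l h2 h3
    obtain ⟨z, rfl⟩ := m2 l h2
    obtain ⟨z', h⟩ := m3 _ h3
    simp at h
  have e2 : Disjoint B1 (B2 ∪ B3) := by
    rw [Finset.disjoint_left]
    intro l h1 h2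
    obtain ⟨z, rfl⟩ := m1 l h1
    rcases mem_union.1 h2 with h2 | h2
    · obtain ⟨z', h⟩ := m2 _ h2
      simp at h
    · obtain ⟨z', h⟩ := m3 _ h2
      simp at h
  have e3 : B1 ∪ (B2 ∪ B3) ⊆ univ.image (labE : Md (n + 1) t → _) := by
    intro l hl
    simp only [mem_union, hB1, hB2, hB3, mem_image] at hl
    rcases hl with ⟨e, _, rfl⟩ | ⟨e, _, rfl⟩ | ⟨e, _, rfl⟩ <;>
      exact mem_image.2 ⟨_, mem_univ _, rfl⟩
  have e4 := Finset.card_le_card e3
  rw [Finset.card_union_of_disjoint e2, Finset.card_union_of_disjoint e1] at e4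
  rw [c2] at d3 c1
  rw [c3] at d4
  have f1 : ((n + 1 : ℝ)) ^ t + A1.card = (n + 1) ^ (t + 1) := by exact_mod_cast c1
  have f2 : (A1.card : ℝ) ≤ 2 * B1.card := by exact_mod_cast d1
  have f3 : ((n + 1 : ℝ)) ^ t ≤ (t + 1) * B2.card := by exact_mod_cast d3
  have f4 : ((n + 1 : ℝ)) ^ t ≤ (t + 1) * B3.card := by exact_mod_cast d4
  have f5 : (B1.card : ℝ) + (B2.card + B3.card) ≤
      ((univ.image (labE : Md (n + 1) t → _)).card : ℝ) := by exact_mod_cast e4
  have f6 : 2 * ((n + 1 : ℝ)) ^ t / (t + 1) ≤ B2.card + B3.card := by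
    rw [div_le_iff₀ (by positivity)]; nlinarith
  linarith

end even

end Pool.Agent.Lib.MP_1b8c51_co
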