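import Pool.Agent.Lib.MP_1b8c51_co.UniC

set_option autoImplicit false

namespace Pool.Agent.Lib.MP_1b8c51_co.Ex

open Finset Function Equiv

/-! Exact counts for words of length two, the refined Euler bound and the parity of the Euler
characteristic. -/

section parity

variable {D : Type} [Fintype D] [DecidableEq D]

lemma card_orbits_eq (f : Perm D) : Nat.card (Quotient (Perm.SameCycle.setoid f)) + f.support.card =
    Fintype.card D + Multiset.card f.cycleType := by
  classical
  let g : Quotient (Perm.SameCycle.setoid f) → (↥f.supportᶜ) ⊕ ↥f.cycleFactorsFinset :=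
    Quotient.lift (fun x => if h : x ∈ f.support then
        Sum.inr ⟨f.cycleOf x, Perm.cycleOf_mem_cycleFactorsFinset_iff.2 h⟩
      else Sum.inl ⟨x, mem_compl.2 h⟩) (by
      intro x y (h : f.SameCycle x y)
      by_cases hx : x ∈ f.support
      · have hy : y ∈ f.support := h.mem_support_iff.1 hx
        simp only [dif_pos hx, dif_pos hy, h.cycleOf_eq]
      · obtain rfl : x = y := h.eq_of_left (Perm.notMem_support.1 hx)
        rfl)
  have hg : Bijective g := by
    constructor
    · rintro ⟨x⟩ ⟨y⟩ h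
      change (if h : x ∈ f.support then _ else _) = (if h : y ∈ f.support then _ else _) at h
      refine Quotient.sound (?_ : f.SameCycle x y)
      by_cases hx : x ∈ f.support <;> by_cases hy : y ∈ f.support <;>
        simp only [hx, hy, dif_pos, dif_neg, not_false_iff, Sum.inr.injEq, Sum.inl.injEq,
          Subtype.mk.injEq, reduceCtorEq] at h
      · exact (Perm.sameCycle_iff_cycleOf_eq_of_mem_support hx hy).2 h
      · rw [h]
    · rintro (⟨x, hx⟩ | ⟨c, hc⟩)
      · exact ⟨Quotient.mk _ x, dif_neg (mem_compl.1 hx)⟩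
      · obtain ⟨x, hx, -⟩ := (Perm.mem_cycleFactorsFinset_iff.1 hc).1
        have h1 := Perm.mem_support.2 hx
        have h2 := Perm.mem_cycleFactorsFinset_support_le hc h1
        refine ⟨Quotient.mk _ x, (dif_pos h2).trans ?_⟩
        simp only [Sum.inr.injEq, Subtype.mk.injEq]
        exact (Perm.cycle_is_cycleOf h1 hc).symm
  rw [Nat.card_eq_of_bijective g hg, Nat.card_sum, Nat.card_eq_fintype_card,
    Nat.card_eq_fintype_card, Fintype.card_coe, Fintype.card_coe, card_compl, Perm.cycleType_def,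
    Multiset.card_map]
  have := card_le_univ f.support
  change _ + f.cycleFactorsFinset.card + _ = _ + f.cycleFactorsFinset.card
  omega

lemma sign_eq (f : Perm D) : Perm.sign f =
    (-1) ^ (Fintype.card D + Nat.card (Quotient (Perm.SameCycle.setoid f))) := by
  have h := card_orbits_eq f
  rw [Perm.sign_of_cycleType, Perm.sum_cycleType]
  refine neg_one_pow_congr ?_
  rw [Nat.even_iff, Nat.even_iff]
  omega

lemma orbits_parity (f g : Perm D) : (Nat.card (Quotient (Perm.SameCycle.setoid f)) +
    Nat.card (Quotient (Perm.SameCycle.setoid g)) +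
    Nat.card (Quotient (Perm.SameCycle.setoid (f * g))) + Fintype.card D) % 2 = 0 := by
  have h := Perm.sign_mul f g
  rw [sign_eq, sign_eq, sign_eq, ← pow_add] at h
  have h2 := congrArg (· * (-1 : ℤˣ) ^ (Fintype.card D +
    Nat.card (Quotient (Perm.SameCycle.setoid (f * g))))) h
  simp only [← pow_add] at h2
  rw [Even.neg_one_pow (Even.add_self _), eq_comm, neg_one_pow_eq_one_iff_even (by decide),
    Nat.even_iff] at h2
  omega

lemma card_orbits_invol (f : Perm D) (h1 : ∀ x, f (f x) = x) (h2 : ∀ x, f x ≠ x) :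
    2 * Nat.card (Quotient (Perm.SameCycle.setoid f)) = Fintype.card D := by
  have a : (Nat.card (Quotient (Perm.SameCycle.setoid f)) : ℝ) ≤ ∑ _d : D, (1 / 2 : ℝ) := by
    refine card_orbits_le f _ fun d => ?_
    have : ({d, f d} : Finset D) ⊆ orb f d := by
      intro x hx
      simp only [orb, mem_filter, mem_univ, true_and]
      rcases mem_insert.1 hx with rfl | hx
      · exact Perm.SameCycle.refl _ _
      · rw [mem_singleton.1 hx]
        exact sameCycle_iterate f d 1
    have h3 := card_le_card this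
    rw [card_pair (h2 d).symm] at h3
    have h4 : (2 : ℝ) ≤ (orb f d).card := by exact_mod_cast h3
    rw [sum_const, nsmul_eq_mul]
    linarith
  have b : ∑ _d : D, (1 / 2 : ℝ) ≤ Nat.card (Quotient (Perm.SameCycle.setoid f)) := by
    refine card_orbits_ge_sum f _ fun d => ?_
    have h3 : (orb f d).card ≤ 2 :=
      card_orb_le f (e := d) (by simp [orb, Perm.SameCycle.refl]) two_pos (h1 d)
    have h4 : ((orb f d).card : ℝ) ≤ 2 := by exact_mod_cast h3
    rw [sum_const, nsmul_eq_mul]
    linarith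
  rw [sum_const, nsmul_eq_mul, card_univ] at a b
  have : (2 * Nat.card (Quotient (Perm.SameCycle.setoid f)) : ℝ) = Fintype.card D := by linarith
  exact_mod_cast this

end parity

variable {r : ℕ}

open Classical in
lemma card_at (x : Wd r 2) :
    (univ.filter fun d : Dt r 2 => d.fst = x).card + (if x 0 = x 1 then 2 else 1) = 2 * r := by
  rw [SimpleGraph.dart_fst_fiber_card_eq_degree, ← SimpleGraph.card_neighborFinset_eq_degree]
  let A : Finset (Wd r 2) := univ.image fun c => ![x 1, c]
  let B : Finset (Wd r 2) := univ.image fun c => ![c, x 0]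
  have hA : ∀ y, y ∈ A ↔ y 0 = x 1 := fun y => by
    simp only [A, mem_image, mem_univ, true_and, ext_two]
    exact ⟨fun ⟨_, h, _⟩ => h.symm, fun h => ⟨y 1, h.symm, rfl⟩⟩
  have hB : ∀ y, y ∈ B ↔ x 0 = y 1 := fun y => by
    simp only [B, mem_image, mem_univ, true_and, ext_two]
    exact ⟨fun ⟨_, _, h⟩ => h, fun h => ⟨y 0, rfl, h⟩⟩
  have cA : A.card = r := by
    rw [card_image_of_injective _ fun c c' h => congrFun h 1]; simp
  have cB : B.card = r := by
    rw [card_image_of_injective _ fun c c' h => congrFun h 0]; simp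
  have cI : A ∩ B = {![x 1, x 0]} := by
    ext y
    simp only [mem_inter, hA, hB, mem_singleton, ext_two]
    exact ⟨fun h => ⟨h.1, h.2.symm⟩, fun h => ⟨h.1, h.2.symm⟩⟩
  have hN : (deBruijn r 2).neighborFinset x = (A ∪ B).erase x := by
    ext y
    simp only [SimpleGraph.mem_neighborFinset, adj_iff, arc_two, mem_erase, mem_union, hA, hB,
      ne_comm]
  have h := card_union_add_card_inter A B
  rw [cI, card_singleton, cA, cB] at h
  rw [hN]
  split_ifs with h0
  · have := card_erase_add_one (mem_union_left B ((hA x).2 h0))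
    omega
  · rw [erase_eq_of_notMem (by simp only [mem_union, hA, hB]; tauto)]
    omega

open Classical in
lemma card_diag : (univ.filter fun x : Wd r 2 => x 0 = x 1).card = r := by
  have : (univ.filter fun x : Wd r 2 => x 0 = x 1) = univ.image fun c => ![c, c] := by
    ext y
    simp only [mem_filter, mem_image, mem_univ, true_and, ext_two]
    exact ⟨fun h => ⟨y 0, rfl, h⟩, fun ⟨_, h, h'⟩ => h.symm.trans h'⟩
  rw [this, card_image_of_injective _ fun c c' h => congrFun h 0]
  simp

lemma card_darts : Fintype.card (Dt r 2) + r ^ 2 + r = 2 * r ^ 3 := by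
  classical
  have h1 := card_eq_sum_card_fiberwise (s := (univ : Finset (Dt r 2))) (t := univ)
    (f := fun d => d.fst) fun _ _ => mem_univ _
  have h2 := sum_congr rfl fun x (_ : x ∈ (univ : Finset (Wd r 2))) => card_at x
  have h3 : ∀ x : Wd r 2, (if x 0 = x 1 then 2 else 1) = 1 + if x 0 = x 1 then 1 else 0 :=
    fun x => by split_ifs <;> rfl
  simp only [sum_add_distrib, h3, sum_boole, sum_const, card_univ, smul_eq_mul, Nat.cast_id,
    card_diag, Fintype.card_fun, Fintype.card_fin] at h2
  rw [card_univ] at h1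
  rw [← h1] at h2
  have : r ^ 2 * (2 * r) = 2 * r ^ 3 := by ring
  omega

open Classical in
lemma card_loop (g : Perm (Dt r 2)) :
    (univ.filter fun d => arc (g d).fst (g d).fst).card + 2 * r = 2 * r ^ 2 := by
  have h0 : (univ.filter fun d => arc (g d).fst (g d).fst).card =
      (univ.filter fun d : Dt r 2 => d.fst 0 = d.fst 1).card :=
    card_equiv g fun d => by simp only [mem_filter, mem_univ, true_and, arc_two]
  have h1 := card_eq_sum_card_fiberwise (s := univ.filter fun d : Dt r 2 => d.fst 0 = d.fst 1)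
    (t := univ.filter fun x : Wd r 2 => x 0 = x 1) (f := fun d => d.fst) fun d hd => by
      simpa using hd
  have h2 : ∑ x ∈ univ.filter fun x : Wd r 2 => x 0 = x 1,
      (((univ.filter fun d : Dt r 2 => d.fst 0 = d.fst 1).filter fun d => d.fst = x).card + 2) =
      ∑ _x ∈ univ.filter fun x : Wd r 2 => x 0 = x 1, 2 * r := by
    refine sum_congr rfl fun x hx => ?_
    have hx' := (mem_filter.1 hx).2
    have := card_at x
    rw [if_pos hx'] at this
    rw [← this, filter_filter]
    congr 2
    ext d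
    simp only [mem_filter, mem_univ, true_and, and_iff_right_iff_imp]
    rintro rfl
    exact hx'
  simp only [sum_add_distrib, sum_const, smul_eq_mul, card_diag] at h2
  have : r * (2 * r) = 2 * r ^ 2 := by ring
  omega

open Classical in
lemma card_tri {σ : Perm (Dt r 2)} (hσ : IsRotation (deBruijn r 2) σ) :
    (univ.filter (Tri σ)).card ≤ (r * r - r) * (r - 2) := by
  let T : Finset (Fin r × Fin r × Fin r) := (offDiag univ).biUnion fun p =>
    ((univ.erase p.1).erase p.2).image fun c => (p.1, p.2, c)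
  have hT : T.card ≤ (r * r - r) * (r - 2) := by
    refine card_biUnion_le.trans ((sum_le_card_nsmul _ _ (r - 2) fun p hp => ?_).trans ?_)
    · refine card_image_le.trans ?_
      rw [card_erase_of_mem (mem_erase.2 ⟨(mem_offDiag.1 hp).2.2.symm, mem_univ _⟩),
        card_erase_of_mem (mem_univ _)]
      simp only [card_univ, Fintype.card_fin]
      omega
    · rw [offDiag_card]
      simp
  refine le_trans (card_le_card_of_injOn (fun d => if d.snd 0 = d.fst 1 then
    (d.fst 0, d.fst 1, d.snd 1) else (d.snd 0, d.snd 1, d.fst 1)) (fun d hd => ?_)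
      fun d hd e he h => ?_) hT
  · have h := (mem_filter.1 (mem_coe.1 hd)).2
    have a := h.cases hσ
    obtain ⟨-, b, c, e⟩ := h
    simp only [arc_two] at a b c e
    simp only [T, mem_coe, mem_biUnion, mem_offDiag, mem_univ, true_and, mem_image, mem_erase,
      and_true]
    split_ifs with h0
    · refine ⟨(d.fst 0, d.fst 1), b, d.snd 1, ⟨fun k => c (h0.trans k.symm), fun k => ?_⟩, rfl⟩
      rcases a with a | a
      · exact e (a.2.1.trans (k.trans a.2.2))
      · exact e (a.2.2.trans (h0.symm.trans a.2.1))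
    · refine ⟨(d.snd 0, d.snd 1), c, d.fst 1, ⟨fun k => ?_, fun k => h0 k.symm⟩, rfl⟩
      exact b ((a.resolve_left fun a => h0 a.1).1.trans k.symm)
  · have hd' := (mem_filter.1 (mem_coe.1 hd)).2
    have he' := (mem_filter.1 (mem_coe.1 he)).2
    have a := (adj_iff.1 d.adj).2
    have b := (adj_iff.1 e.adj).2
    simp only [arc_two] at a b
    have key : d = e ∨ d.symm = e := by
      dsimp only at h
      split_ifs at h with h1 h2 h2 <;> simp only [Prod.mk.injEq] at h
      · exact Or.inl (dart_ext (ext_two.2 ⟨h.1, h.2.1⟩) (ext_two.2 ⟨by rw [h1, h2, h.2.1], h.2.2⟩))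
      · exact Or.inr (dart_ext (ext_two.2 ⟨by
          change d.snd 0 = _
          rw [h1, b.resolve_left h2, h.2.1], h.2.2⟩) (ext_two.2 ⟨h.1, h.2.1⟩))
      · exact Or.inr (dart_ext (ext_two.2 ⟨h.1, h.2.1⟩) (ext_two.2 ⟨by
          change d.fst 0 = _
          rw [h2, a.resolve_left h1, h.2.1], h.2.2⟩))
      · exact Or.inl (dart_ext (ext_two.2 ⟨by
          rw [a.resolve_left h1, b.resolve_left h2, h.2.1], h.2.2⟩) (ext_two.2 ⟨h.1, h.2.1⟩))
    rcases key with k | k
    · exact k
    · exact (Tri.symm_not hσ hd' (k ▸ he')).elim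

open Classical in
lemma card_three {σ : Perm (Dt r 2)} (hσ : IsRotation (deBruijn r 2) σ) (hr : 2 ≤ r) :
    ((univ.filter fun d => (fp σ)^[3] d = d).card : ℝ) ≤ r * (r - 1) * (r + 4) := by
  have h1 := card_loop (r := r) 1
  have h2 := card_loop (fp σ)
  have h3 := card_loop (fp σ * fp σ)
  have h4 : (univ.filter fun d => (fp σ)^[3] d = d) ⊆ univ.filter (Tri σ) ∪
      (univ.filter fun d => arc ((1 : Perm (Dt r 2)) d).fst ((1 : Perm (Dt r 2)) d).fst) ∪
      (univ.filter fun d => arc (fp σ d).fst (fp σ d).fst) ∪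
      (univ.filter fun d => arc ((fp σ * fp σ) d).fst ((fp σ * fp σ) d).fst) := by
    intro d hd
    rw [mem_union, mem_union, mem_union, mem_filter, mem_filter, mem_filter, mem_filter]
    simp only [mem_filter, mem_univ, true_and, Perm.coe_mul, comp_apply,
      Perm.coe_one, id, fst_fp hσ, Tri] at hd ⊢
    tauto
  have h5 := (card_le_card h4).trans ((card_union_le _ _).trans (Nat.add_le_add_right
    ((card_union_le _ _).trans (Nat.add_le_add_right (card_union_le _ _) _)) _))
  have h6 := card_tri hσ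
  have h7 : (univ.filter fun d => (fp σ)^[3] d = d).card + 6 * r ≤
      (r * r - r) * (r - 2) + 6 * r ^ 2 := by omega
  have h8 := (Nat.cast_le (α := ℝ)).2 h7
  push_cast [Nat.cast_sub hr, Nat.cast_sub (Nat.le_mul_self r)] at h8
  linarith

lemma no_two {σ : Perm (Dt r 2)} (hσ : IsRotation (deBruijn r 2) σ) (hr : 2 ≤ r) (d : Dt r 2) :
    fp σ (fp σ d) ≠ d := fun h1 => by
  classical
  have h2 : σ d.symm = d.symm := by
    refine dart_ext (hσ.1 _) ?_
    have := fst_fp hσ (fp σ d)
    rw [h1] at this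
    exact this.symm
  have h3 : (univ.filter fun e : Dt r 2 => e.fst = d.snd).card ≤ 1 :=
    card_le_one.2 fun a ha b hb =>
      ((hσ.2 d.symm a (mem_filter.1 ha).2.symm).eq_of_left h2).symm.trans
        ((hσ.2 d.symm b (mem_filter.1 hb).2.symm).eq_of_left h2)
  have h4 := card_at d.snd
  split_ifs at h4 <;> omega

/-- refined Euler bound: at most `7 (r^3 - r) / 12` faces -/
theorem faces_le {σ : Perm (Dt r 2)} (hσ : IsRotation (deBruijn r 2) σ) (hr : 2 ≤ r) :
    12 * faces (deBruijn r 2) σ + 7 * r ≤ 7 * r ^ 3 := by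
  classical
  let w : Dt r 2 → ℝ := fun d => 1 / 4 + (if (fp σ)^[3] d = d then 1 / 12 else 0)
  have hw : ∀ d, 1 / 4 ≤ w d := fun d => by simp only [w]; split_ifs <;> norm_num
  have h : (faces (deBruijn r 2) σ : ℝ) ≤ ∑ d, w d := card_orbits_le (fp σ) w fun d => by
    refine le_trans ?_ (sum_range_le_orb (fp σ) w (fun d => by linarith [hw d]) d)
    have h0 := period_pos (fp σ) d
    have h1 : ∀ i, (fp σ)^[minimalPeriod (fp σ) d] ((fp σ)^[i] d) = (fp σ)^[i] d := fun i => by
      rw [← iterate_add_apply, add_comm, iterate_add_apply, iterate_minimalPeriod]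
    have key : ∀ c : ℝ, (∀ i, c ≤ w ((fp σ)^[i] d)) → 1 ≤ minimalPeriod (fp σ) d * c →
        1 ≤ ∑ i ∈ range (minimalPeriod (fp σ) d), w ((fp σ)^[i] d) := fun c h2 h3 =>
      h3.trans (by
        simpa using card_nsmul_le_sum (range (minimalPeriod (fp σ) d)) _ c fun i _ => h2 i)
    rcases (show minimalPeriod (fp σ) d = 1 ∨ minimalPeriod (fp σ) d = 2 ∨
      minimalPeriod (fp σ) d = 3 ∨ 4 ≤ minimalPeriod (fp σ) d by omega) with h | h | h | h
    · have h2 := h1 0
      rw [h] at h2
      simp only [iterate_one, iterate_zero, id] at h2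
      exact absurd (by rw [h2, h2]) (no_two hσ hr d)
    · have h2 := h1 0
      rw [h] at h2
      exact absurd h2 (no_two hσ hr d)
    · refine key (1 / 3) (fun i => ?_) (by rw [h]; norm_num)
      simp only [w, if_pos (h ▸ h1 i)]
      norm_num
    · have : (4 : ℝ) ≤ minimalPeriod (fp σ) d := by exact_mod_cast h
      exact key (1 / 4) (fun i => hw _) (by linarith)
  simp only [w, sum_add_distrib, ← sum_filter, sum_const, nsmul_eq_mul, card_univ] at h
  have h2 := card_three hσ hr
  have h3 : (Fintype.card (Dt r 2) : ℝ) + r ^ 2 + r = 2 * r ^ 3 := by exact_mod_cast card_darts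
  have : (12 * faces (deBruijn r 2) σ + 7 * r : ℝ) ≤ 7 * r ^ 3 := by nlinarith
  exact_mod_cast this

lemma card_edges : 2 * Nat.card (deBruijn r 2).edgeSet + r ^ 2 + r = 2 * r ^ 3 := by
  rw [← card_darts_eq, card_darts]

lemma orbits_rot {σ : Perm (Dt r 2)} (hσ : IsRotation (deBruijn r 2) σ) (hr : 2 ≤ r) :
    Nat.card (Quotient (Perm.SameCycle.setoid σ)) = r ^ 2 := by
  classical
  have hit : ∀ n d, (σ^[n] d).fst = d.fst := fun n d => by
    induction n with
    | zero => rfl
    | succ n ih => rw [iterate_succ_apply', hσ.1, ih]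
  let g : Quotient (Perm.SameCycle.setoid σ) → Wd r 2 := Quotient.lift (fun d => d.fst) (by
    intro a b (h : σ.SameCycle a b)
    obtain ⟨n, rfl⟩ := exists_iterate_of_sameCycle h
    exact (hit n a).symm)
  rw [Nat.card_eq_of_bijective g ⟨?_, fun x => ?_⟩, card_vertices]
  · rintro ⟨a⟩ ⟨b⟩ h
    exact Quotient.sound (hσ.2 a b h)
  · have h4 := card_at x
    obtain ⟨d, hd⟩ : (univ.filter fun d : Dt r 2 => d.fst = x).Nonempty :=
      card_pos.1 (by split_ifs at h4 <;> omega)
    exact ⟨Quotient.mk _ d, (mem_filter.1 hd).2⟩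

/-- the Euler characteristic is even -/
theorem euler_even {σ : Perm (Dt r 2)} (hσ : IsRotation (deBruijn r 2) σ) (hr : 2 ≤ r) :
    (r ^ 2 + Nat.card (deBruijn r 2).edgeSet + faces (deBruijn r 2) σ) % 2 = 0 := by
  classical
  let α : Perm (Dt r 2) :=
    Function.Involutive.toPerm SimpleGraph.Dart.symm SimpleGraph.Dart.symm_involutive
  have h1 := orbits_parity σ α
  have h2 := card_orbits_invol α SimpleGraph.Dart.symm_involutive SimpleGraph.Dart.symm_ne
  have h3 : Nat.card (Quotient (Perm.SameCycle.setoid (σ * α))) = faces (deBruijn r 2) σ := rfl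
  have h4 := card_darts_eq (r := r) (t := 2)
  rw [orbits_rot hσ hr, h3] at h1
  omega

/-- the lower bound: `24 γ ≥ 5 r^3 - 18 r^2 + r + 24 = (r-3)(r+1)(5r-8)` -/
theorem lower (hr : 2 ≤ r) :
    5 * r ^ 3 + r + 24 ≤ 24 * genus (deBruijn r 2) + 18 * r ^ 2 := by
  obtain ⟨σ, hσ, h1⟩ := exists_min_rot r 2
  have h2 : (12 * faces (deBruijn r 2) σ + 7 * r : ℝ) ≤ 7 * r ^ 3 := by
    exact_mod_cast faces_le hσ hr
  have h3 : (Fintype.card (Dt r 2) : ℝ) + r ^ 2 + r = 2 * r ^ 3 := by exact_mod_cast card_darts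
  have : (5 * r ^ 3 + r + 24 : ℝ) ≤ 24 * genus (deBruijn r 2) + 18 * r ^ 2 := by linarith
  exact_mod_cast this

/-- a rotation system that loses fewer than two faces is optimal -/
theorem upper {σ : Perm (Dt r 2)} (hσ : IsRotation (deBruijn r 2) σ) (hr : 2 ≤ r)
    (hF : 7 * r ^ 3 < 12 * faces (deBruijn r 2) σ + 7 * r + 24) :
    24 * genus (deBruijn r 2) + 18 * r ^ 2 < 5 * r ^ 3 + r + 48 := by
  have h1 := euler_even hσ hr
  have h2 := card_edges (r := r)
  have h3 := faces_le hσ hr
  have h4 : 18 * r ^ 2 < 5 * r ^ 3 + r + 48 := by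
    rcases (show r = 2 ∨ r = 3 ∨ 4 ≤ r by omega) with rfl | rfl | h
    · norm_num
    · norm_num
    · nlinarith [Nat.mul_le_mul_right (r ^ 2) h]
  have h5 : genus (deBruijn r 2) ≤
      (Nat.card (deBruijn r 2).edgeSet + 2 - (r ^ 2 + faces (deBruijn r 2) σ)) / 2 := by
    refine Nat.sInf_le ⟨σ, hσ, ?_⟩
    rw [card_vertices]
    omega
  omega

theorem exact_of {σ : Perm (Dt r 2)} (hσ : IsRotation (deBruijn r 2) σ) (hr : 2 ≤ r)
    (hF : 7 * r ^ 3 < 12 * faces (deBruijn r 2) σ + 7 * r + 24) :
    (genus (deBruijn r 2) : ℤ) = ⌈((r : ℚ) - 3) * (r + 1) * (5 * r - 8) / 24⌉ := by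
  have h1 : (5 * r ^ 3 + r + 24 : ℚ) ≤ 24 * genus (deBruijn r 2) + 18 * r ^ 2 := by
    exact_mod_cast lower hr
  have h2 : (24 * genus (deBruijn r 2) + 18 * r ^ 2 : ℚ) < 5 * r ^ 3 + r + 48 := by
    exact_mod_cast upper hσ hr hF
  rw [eq_comm, Int.ceil_eq_iff]
  push_cast
  constructor <;> linarith

end Pool.Agent.Lib.MP_1b8c51_co.Ex
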