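import Pool.Agent.Lib.MP_1b8c51_co.Odd

set_option autoImplicit false

namespace Pool.Agent.Lib.MP_1b8c51_co

open Finset Function

variable {r n t : ℕ}

lemma card_vertices : Nat.card (Wd r t) = r ^ t := by simp

lemma genus_le_of {σ : Equiv.Perm (Dt r t)} (hσ : IsRotation (deBruijn r t) σ) (ht : 1 ≤ t)
    {X B : ℝ} (hX : X ≤ faces (deBruijn r t) σ) (hB : 0 ≤ B)
    (h : ((r : ℝ) * r ^ t + 3 - r ^ t - X) / 2 ≤ B) : (genus (deBruijn r t) : ℝ) ≤ B := by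
  set E := Nat.card (deBruijn r t).edgeSet with hE
  set F := faces (deBruijn r t) σ with hF
  have h1 : genus (deBruijn r t) ≤ (E + 2 - (r ^ t + F) + 1) / 2 := by
    refine Nat.sInf_le ⟨σ, hσ, ?_⟩
    rw [card_vertices]
    omega
  have h2 : (E : ℝ) ≤ r * r ^ t := by
    have h3 := card_darts_le (r := r) ht
    rw [card_darts_eq] at h3
    push_cast at h3
    linarith
  by_cases hc : E + 2 ≤ r ^ t + F
  · have : genus (deBruijn r t) = 0 := by omega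
    rw [this]; simpa using hB
  · have h4 : 2 * genus (deBruijn r t) + (r ^ t + F) ≤ E + 3 := by omega
    have h5 : 2 * (genus (deBruijn r t) : ℝ) + (r ^ t + F) ≤ E + 3 := by exact_mod_cast h4
    linarith

theorem upper_even (hn : 2 ∣ n + 1) (ht : 1 ≤ t) : (genus (deBruijn (n + 1) t) : ℝ) ≤
    n * (n + 1) ^ t / 4 - (n + 1) ^ t / (t + 1) + ((n + 1) ^ 3 + (n + 1) ^ 2 + 2) := by
  obtain ⟨σ, h1, h2⟩ := faces_ge ht offE labE (labE_psi hn)
  have h3 := card_labE hn ht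
  have h4 : ((univ.image (labE : Md (n + 1) t → _)).card : ℝ) ≤
      faces (deBruijn (n + 1) t) σ + (n + 1) ^ 2 * (2 * (n + 1)) := by exact_mod_cast h2
  have hn1 : (1 : ℝ) ≤ n := by exact_mod_cast (by omega : 1 ≤ n)
  have hp : (0 : ℝ) < (n + 1) ^ t := by positivity
  refine genus_le_of h1 ht (X := ((n + 1 : ℝ) ^ (t + 1) - (n + 1) ^ t) / 2 +
    2 * (n + 1) ^ t / (t + 1) - (n + 1) ^ 2 * (2 * (n + 1))) (by linarith) ?_ ?_
  · have h6 : (0 : ℝ) ≤ (n + 1) ^ 3 := by positivity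
    rcases Nat.lt_or_ge t 3 with h | h
    · have h5 : ((n + 1 : ℝ)) ^ t / (t + 1) ≤ (n + 1) ^ 2 :=
        (div_le_self hp.le (by have : (0 : ℝ) ≤ t := by positivity
                               linarith)).trans
          (pow_le_pow_right₀ (by linarith) (by omega))
      have h7 : (0 : ℝ) ≤ n * (n + 1) ^ t / 4 := by positivity
      linarith
    · have h5 : ((n + 1 : ℝ)) ^ t / (t + 1) ≤ (n + 1) ^ t / 4 := by
        refine div_le_div_of_nonneg_left hp.le (by norm_num) ?_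
        have : (3 : ℝ) ≤ t := by exact_mod_cast h
        linarith
      have h7 : (0 : ℝ) ≤ (n + 1) ^ 2 := by positivity
      nlinarith
  · push_cast
    have h7 : (0 : ℝ) ≤ (n + 1) ^ 2 := by positivity
    have h8 : 2 * ((n + 1 : ℝ)) ^ t / (t + 1) = 2 * ((n + 1) ^ t / (t + 1)) := by ring
    rw [pow_succ, h8]
    nlinarith

theorem upper_odd (hn : 2 ∣ n) (ht : 1 ≤ t) : (genus (deBruijn (n + 1) t) : ℝ) ≤
    n * (n + 1) ^ t / 4 + ((n + 1) ^ 3 + (n + 1) ^ 2 + 2) := by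
  obtain ⟨σ, h1, h2⟩ := faces_ge ht (fun _ => 0) labO (labO_psi hn)
  have h3 := card_labO (t := t) hn
  have h4 : ((univ.image (labO : Md (n + 1) t → _)).card : ℝ) ≤
      faces (deBruijn (n + 1) t) σ + (n + 1) ^ 2 * (2 * (n + 1)) := by exact_mod_cast h2
  refine genus_le_of h1 ht (X := ((n + 1 : ℝ) ^ (t + 1) - (n + 1) ^ t) / 2 -
    (n + 1) ^ 2 * (2 * (n + 1))) (by linarith) (by positivity) ?_
  push_cast
  have h7 : (0 : ℝ) ≤ (n + 1) ^ 2 := by positivity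
  rw [pow_succ]
  nlinarith

lemma pow_four_le (k : ℕ) : (k + 3) ^ 4 ≤ 1000 * 2 ^ k := by
  rcases Nat.lt_or_ge k 3 with h | h
  · interval_cases k <;> norm_num
  · obtain ⟨j, rfl⟩ : ∃ j, k = j + 3 := ⟨k - 3, by omega⟩
    clear h
    induction j with
    | zero => norm_num
    | succ j ih =>
      have : (j + 1 + 3 + 3) ^ 4 ≤ 2 * (j + 3 + 3) ^ 4 := by ring_nf; omega
      calc _ ≤ 2 * (j + 3 + 3) ^ 4 := this
        _ ≤ 2 * (1000 * 2 ^ (j + 3)) := Nat.mul_le_mul_left 2 ih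
        _ = _ := by ring

lemma one_le_ratio (hr : 2 ≤ r) (ht : 1 ≤ t) : (1 : ℝ) ≤ 1000 * (r ^ t / t ^ 2) := by
  have h1 : t ^ 2 ≤ 1000 * r ^ t :=
    calc t ^ 2 ≤ (t + 3) ^ 2 := Nat.pow_le_pow_left (by omega) 2
      _ ≤ (t + 3) ^ 4 := Nat.pow_le_pow_right (by omega) (by omega)
      _ ≤ 1000 * 2 ^ t := pow_four_le t
      _ ≤ 1000 * r ^ t := Nat.mul_le_mul_left _ (Nat.pow_le_pow_left hr t)
  have ht' : (0 : ℝ) < t := by exact_mod_cast ht
  rw [← mul_div_assoc, le_div_iff₀ (by positivity), one_mul]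
  exact_mod_cast h1

lemma small_le_ratio (hr : 2 ≤ r) (ht : 1 ≤ t) :
    ((t / 2 + 3 : ℕ) : ℝ) ^ 2 * r ^ (t / 2 + 2) ≤ 4000 * r ^ 2 * (r ^ t / t ^ 2) := by
  have h1 : (t / 2 + 3) ^ 2 * r ^ (t / 2 + 2) * t ^ 2 ≤ 4000 * r ^ 2 * r ^ t := by
    set k := t / 2 with hk
    have a1 : t ^ 2 ≤ (2 * (k + 3)) ^ 2 := Nat.pow_le_pow_left (by omega) 2
    have a2 : 2 ^ k * r ^ k ≤ r ^ t :=
      calc 2 ^ k * r ^ k ≤ r ^ k * r ^ k := Nat.mul_le_mul_right _ (Nat.pow_le_pow_left hr k)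
        _ = r ^ (k + k) := by ring
        _ ≤ r ^ t := Nat.pow_le_pow_right (by omega) (by omega)
    calc _ ≤ (k + 3) ^ 2 * r ^ (k + 2) * (2 * (k + 3)) ^ 2 := Nat.mul_le_mul_left _ a1
      _ = 4 * r ^ 2 * r ^ k * (k + 3) ^ 4 := by ring
      _ ≤ 4 * r ^ 2 * r ^ k * (1000 * 2 ^ k) := Nat.mul_le_mul_left _ (pow_four_le k)
      _ = 4000 * r ^ 2 * (2 ^ k * r ^ k) := by ring
      _ ≤ _ := Nat.mul_le_mul_left _ a2
  have ht' : (0 : ℝ) < t := by exact_mod_cast ht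
  rw [← mul_div_assoc, le_div_iff₀ (by positivity)]
  exact_mod_cast h1

theorem lower (hr : 2 ≤ r) (ht : 1 ≤ t) :
    ((r : ℝ) - 1) * r ^ t / 4 - r ^ t / t - 5000 * r ^ 3 * (r ^ t / t ^ 2) ≤
      genus (deBruijn r t) := by
  have hr' : (2 : ℝ) ≤ r := by exact_mod_cast hr
  have ht' : (0 : ℝ) < t := by exact_mod_cast ht
  have hV : (0 : ℝ) < r ^ t := by positivity
  have hr3 : (r : ℝ) ≤ r ^ 3 := le_self_pow₀ (by linarith) (by norm_num)
  have hr2 : (r : ℝ) ^ 2 ≤ r ^ 3 := pow_le_pow_right₀ (by linarith) (by norm_num)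
  rcases Nat.lt_or_ge t 4 with h4 | h4
  · have h1 : (t : ℝ) ≤ 3 := by exact_mod_cast (by omega : t ≤ 3)
    have h2 : (r : ℝ) ^ t / 9 ≤ r ^ t / t ^ 2 :=
      div_le_div_of_nonneg_left hV.le (by positivity) (by nlinarith)
    have h3 : (0 : ℝ) ≤ r ^ t / t := by positivity
    have h5 : (0 : ℝ) ≤ genus (deBruijn r t) := by positivity
    have h6 : 5000 * (r : ℝ) ^ 3 * (r ^ t / 9) ≤ 5000 * r ^ 3 * (r ^ t / t ^ 2) :=
      mul_le_mul_of_nonneg_left h2 (by positivity)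
    nlinarith
  · have hne : {g : ℕ | ∃ σ : Equiv.Perm (deBruijn r t).Dart, IsRotation (deBruijn r t) σ ∧
        Nat.card (deBruijn r t).edgeSet + 2 ≤
          Nat.card (Wd r t) + faces (deBruijn r t) σ + 2 * g}.Nonempty := by
      obtain ⟨σ, s1, s2, _⟩ := exists_rot (fun d : Dt r t => d.fst) (fun _ => False) id
        (fun _ h => h.elim) (fun _ _ h => h.elim)
      exact ⟨Nat.card (deBruijn r t).edgeSet + 1, σ, ⟨s1, s2⟩, by omega⟩
    obtain ⟨σ, hσ, h0⟩ := Nat.sInf_mem hne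
    have h1 : Nat.card (deBruijn r t).edgeSet + 2 ≤
        Nat.card (Wd r t) + faces (deBruijn r t) σ + 2 * genus (deBruijn r t) := h0
    rw [card_vertices] at h1
    have h2 : (Nat.card (deBruijn r t).edgeSet : ℝ) + 2 ≤
        r ^ t + faces (deBruijn r t) σ + 2 * genus (deBruijn r t) := by exact_mod_cast h1
    have h3 := faces_le hσ hr h4
    have h5 := card_darts_ge (r := r) (by omega) ht
    have h6 : (Fintype.card (Dt r t) : ℝ) = 2 * Nat.card (deBruijn r t).edgeSet := by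
      exact_mod_cast card_darts_eq
    have h7 := one_le_ratio hr ht
    have h8 := mul_le_mul_of_nonneg_left (small_le_ratio hr ht) (show (0 : ℝ) ≤ 2 * r by positivity)
    have h9 : (1 / 4 - 1 / (t : ℝ)) * (2 * ((r : ℝ) ^ t - r ^ 2)) =
        r ^ t / 2 - r ^ 2 / 2 - 2 * (r ^ t / t) + 2 * r ^ 2 / t := by ring
    have h10 : (0 : ℝ) ≤ 2 * r ^ 2 / t := by positivity
    have h11 : 2 * (r : ℝ) * (8 * r ^ t / t ^ 2) = 16 * r * (r ^ t / t ^ 2) := by ring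
    have h12 : (0 : ℝ) ≤ r ^ t / t ^ 2 := by positivity
    rw [h9, h11] at h3
    generalize (r : ℝ) ^ t / t ^ 2 = q at *
    have h13 : (r : ℝ) * q ≤ r ^ 3 * q := mul_le_mul_of_nonneg_right hr3 h12
    have h14 : (r : ℝ) ^ 3 * 1 ≤ r ^ 3 * (1000 * q) := mul_le_mul_of_nonneg_left h7 (by positivity)
    nlinarith

theorem leading (hr : 2 ≤ r) : ∃ C : ℝ, ∀ t : ℕ, 1 ≤ t →
    ((r : ℝ) - 1) * r ^ t / 4 - r ^ t / t - C * r ^ t / t ^ 2 ≤ genus (deBruijn r t) ∧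
    (genus (deBruijn r t) : ℝ) ≤ ((r : ℝ) - 1) * r ^ t / 4 + C := by
  refine ⟨5000 * r ^ 3, fun t ht => ⟨?_, ?_⟩⟩
  · rw [mul_div_assoc (5000 * (r : ℝ) ^ 3)]; exact lower hr ht
  · obtain ⟨n, rfl⟩ : ∃ n, r = n + 1 := ⟨r - 1, by omega⟩
    have hn : (0 : ℝ) ≤ n := by positivity
    have h1 : ((n + 1 : ℝ)) ^ 3 + (n + 1) ^ 2 + 2 ≤ 5000 * (n + 1) ^ 3 := by nlinarith [sq_nonneg (n : ℝ)]
    push_cast
    rw [add_sub_cancel_right]
    rcases Nat.even_or_odd n with h | h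
    · have := upper_odd h.two_dvd ht
      linarith
    · have h2 := upper_even h.add_one.two_dvd ht
      have h3 : (0 : ℝ) ≤ (n + 1) ^ t / (t + 1) := by positivity
      linarith

theorem two_term (hr : 2 ≤ r) (he : Even r) : ∃ C : ℝ, ∀ t : ℕ, 1 ≤ t →
    |(genus (deBruijn r t) : ℝ) - (((r : ℝ) - 1) * r ^ t / 4 - r ^ t / t)| ≤ C * r ^ t / t ^ 2 := by
  refine ⟨5000 * r ^ 3, fun t ht => ?_⟩
  rw [mul_div_assoc (5000 * (r : ℝ) ^ 3), abs_le]
  refine ⟨by linarith [lower hr ht], ?_⟩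
  have h7 := one_le_ratio hr ht
  obtain ⟨n, rfl⟩ : ∃ n, r = n + 1 := ⟨r - 1, by omega⟩
  have hn : (0 : ℝ) ≤ n := by positivity
  have ht' : (0 : ℝ) < t := by exact_mod_cast ht
  have h2 := upper_even he.two_dvd ht
  push_cast at h7 ⊢
  rw [add_sub_cancel_right]
  have h3 : ((n + 1 : ℝ)) ^ t / t - (n + 1) ^ t / (t + 1) ≤ (n + 1) ^ t / t ^ 2 := by
    rw [div_sub_div _ _ ht'.ne' (by positivity), div_le_div_iff₀ (by positivity) (by positivity)]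
    have : (0 : ℝ) ≤ (n + 1) ^ t * t := by positivity
    nlinarith
  have h4 : ((n + 1 : ℝ)) ^ 3 + (n + 1) ^ 2 + 2 ≤ 4 * (n + 1) ^ 3 := by nlinarith [sq_nonneg (n : ℝ)]
  have h5 : (1 : ℝ) ≤ (n + 1) ^ 3 := one_le_pow₀ (by linarith)
  have h12 : (0 : ℝ) ≤ (n + 1) ^ t / t ^ 2 := by positivity
  generalize ((n + 1 : ℝ)) ^ t / t ^ 2 = q at *
  have h14 : ((n + 1 : ℝ)) ^ 3 * 1 ≤ (n + 1) ^ 3 * (1000 * q) :=
    mul_le_mul_of_nonneg_left h7 (by positivity)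
  have h15 : 1 * q ≤ (n + 1) ^ 3 * q := mul_le_mul_of_nonneg_right h5 h12
  nlinarith

end Pool.Agent.Lib.MP_1b8c51_co
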