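import Pool.Agent.Lib.MP_1b8c51_co.Defs

set_option autoImplicit false

namespace Pool.Agent.Lib.MP_1b8c51_co

open Finset Function

section orbits

variable {D : Type} [Fintype D]

open Classical in
/-- the orbit of a point as a finite set -/
noncomputable def orb (φ : Equiv.Perm D) (d : D) : Finset D := univ.filter (φ.SameCycle d)

lemma orb_eq {φ : Equiv.Perm D} {d e : D} (h : φ.SameCycle d e) : orb φ d = orb φ e := by
  classical
  ext x
  simp only [orb, mem_filter, mem_univ, true_and]
  exact ⟨fun h1 => h.symm.trans h1, fun h1 => h.trans h1⟩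

lemma card_orbits_le (φ : Equiv.Perm D) (w : D → ℝ) (h : ∀ d, 1 ≤ ∑ e ∈ orb φ d, w e) :
    (Nat.card (Quotient (Equiv.Perm.SameCycle.setoid φ)) : ℝ) ≤ ∑ d, w d := by
  classical
  let _ : Fintype (Quotient (Equiv.Perm.SameCycle.setoid φ)) := Fintype.ofFinite _
  rw [Nat.card_eq_fintype_card, ← Finset.sum_fiberwise_of_maps_to
    (t := (univ : Finset (Quotient (Equiv.Perm.SameCycle.setoid φ))))
    (g := fun d => Quotient.mk (Equiv.Perm.SameCycle.setoid φ) d) (fun _ _ => mem_univ _)]
  have : ((Fintype.card (Quotient (Equiv.Perm.SameCycle.setoid φ)) : ℕ) : ℝ) =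
      ∑ _q : Quotient (Equiv.Perm.SameCycle.setoid φ), (1 : ℝ) := by simp
  rw [this]
  refine Finset.sum_le_sum (fun q _ => ?_)
  obtain ⟨d, rfl⟩ := Quotient.exists_rep q
  refine (h d).trans (le_of_eq (Finset.sum_congr ?_ (fun _ _ => rfl)))
  ext x
  simp only [orb, mem_filter, mem_univ, true_and]
  rw [Quotient.eq]
  exact ⟨fun h1 => h1.symm, fun h1 => Equiv.Perm.SameCycle.symm h1⟩

omit [Fintype D] in
lemma sameCycle_iterate (φ : Equiv.Perm D) (d : D) (n : ℕ) : φ.SameCycle d (φ^[n] d) :=
  ⟨(n : ℤ), by rw [zpow_natCast, Equiv.Perm.coe_pow]⟩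

lemma period_pos (φ : Equiv.Perm D) (d : D) : 0 < minimalPeriod φ d :=
  minimalPeriod_pos_of_mem_periodicPts (φ.injective.mem_periodicPts d)

lemma sum_range_le_orb (φ : Equiv.Perm D) (w : D → ℝ) (hw : ∀ d, 0 ≤ w d) (d : D) :
    ∑ i ∈ range (minimalPeriod φ d), w (φ^[i] d) ≤ ∑ e ∈ orb φ d, w e := by
  classical
  rw [← Finset.sum_image (s := range (minimalPeriod φ d)) (g := fun i => φ^[i] d) (f := w)]
  · refine Finset.sum_le_sum_of_subset_of_nonneg ?_ (fun _ _ _ => hw _)
    intro x hx
    obtain ⟨i, _, rfl⟩ := mem_image.1 hx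
    simp only [orb, mem_filter, mem_univ, true_and]
    exact sameCycle_iterate φ d i
  · intro i hi j hj hij
    exact iterate_injOn_Iio_minimalPeriod (by simpa using hi) (by simpa using hj) hij

lemma exists_iterate_of_sameCycle {φ : Equiv.Perm D} {d e : D} (h : φ.SameCycle d e) :
    ∃ n : ℕ, φ^[n] d = e := by
  classical
  obtain ⟨n, _, hn⟩ := h.exists_pow_eq'
  exact ⟨n, by rw [← hn, Equiv.Perm.coe_pow]⟩

/-- lower bound for the number of orbits from an invariant labelling of a model -/
lemma card_orbits_ge {M Λ : Type} [Fintype M] [DecidableEq Λ] (φ : Equiv.Perm D) (ψ : M → M)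
    (good : M → Prop) [DecidablePred good] (μ : ∀ m, good m → D)
    (hinj : ∀ m hm m' hm', μ m hm = μ m' hm' → m = m')
    (hconj : ∀ m hm hm', φ (μ m hm) = μ (ψ m) hm') (L : M → Λ) (hL : ∀ m, L (ψ m) = L m) :
    (univ.image L).card ≤ Nat.card (Quotient (Equiv.Perm.SameCycle.setoid φ)) +
      (univ.filter (fun m => ¬ good m)).card := by
  classical
  set B := (univ.filter (fun m => ¬ good m)).image L with hB
  have h1 : (univ.image L).card ≤ (univ.image L \ B).card + B.card := Finset.card_le_card_sdiff_add_card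
  have h2 : B.card ≤ (univ.filter (fun m => ¬ good m)).card := Finset.card_image_le
  have hgood : ∀ m, L m ∉ B → good m := by
    intro m hm
    by_contra hc
    exact hm (mem_image.2 ⟨m, by simp [hc], rfl⟩)
  have hLit : ∀ m n, L (ψ^[n] m) = L m := by
    intro m n
    induction n with
    | zero => rfl
    | succ n ih => rw [iterate_succ_apply', hL, ih]
  have hit : ∀ m (hm : L m ∉ B) n, φ^[n] (μ m (hgood m hm)) =
      μ (ψ^[n] m) (hgood _ (by rw [hLit]; exact hm)) := by
    intro m hm n
    induction n with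
    | zero => rfl
    | succ n ih =>
      rw [iterate_succ_apply', ih, hconj _ _ (hgood _ (by rw [hL, hLit]; exact hm))]
      congr 1
      exact (iterate_succ_apply' ψ n m).symm
  have hch : ∀ l : ↥(univ.image L \ B), ∃ m, L m = l.1 := by
    intro l
    obtain ⟨m, _, hm⟩ := mem_image.1 (mem_sdiff.1 l.2).1
    exact ⟨m, hm⟩
  choose rep hrep using hch
  have hrepB : ∀ l, L (rep l) ∉ B := fun l => by rw [hrep]; exact (mem_sdiff.1 l.2).2
  have h3 : Nat.card ↥(univ.image L \ B) ≤
      Nat.card (Quotient (Equiv.Perm.SameCycle.setoid φ)) := by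
    refine Nat.card_le_card_of_injective
      (fun l => Quotient.mk (Equiv.Perm.SameCycle.setoid φ) (μ (rep l) (hgood _ (hrepB l)))) ?_
    intro l l' hll
    have hs : φ.SameCycle (μ (rep l) (hgood _ (hrepB l))) (μ (rep l') (hgood _ (hrepB l'))) :=
      Quotient.exact hll
    obtain ⟨n, hn⟩ := exists_iterate_of_sameCycle hs
    rw [hit _ (hrepB l)] at hn
    have := hinj _ _ _ _ hn
    apply Subtype.ext
    rw [← hrep l, ← hrep l', ← this, hLit]
  rw [Nat.card_eq_fintype_card, Fintype.card_coe] at h3
  omega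

/-- a map that is transitive on the fibres of `v` over good points extends to a rotation -/
lemma exists_rot {V : Type} (v : D → V) (good : V → Prop) (τ : D → D)
    (h1 : ∀ d, good (v d) → v (τ d) = v d)
    (h2 : ∀ d e, good (v d) → v d = v e → ∃ n, τ^[n] d = e) :
    ∃ σ : Equiv.Perm D, (∀ d, v (σ d) = v d) ∧ (∀ d e, v d = v e → σ.SameCycle d e) ∧
      ∀ d, good (v d) → σ d = τ d := by
  classical
  let l : V → List D := fun x => (univ.filter (fun d => v d = x)).toList
  have hl : ∀ x d, d ∈ l x ↔ v d = x := by intro x d; simp [l]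
  let τ' : D → D := fun d => if good (v d) then τ d else (l (v d)).formPerm d
  have k1 : ∀ d, v (τ' d) = v d := by
    intro d
    by_cases hg : good (v d)
    · simp only [τ', if_pos hg]; exact h1 d hg
    · simp only [τ', if_neg hg]
      exact (hl _ _).1 (List.formPerm_apply_mem_of_mem ((hl _ _).2 rfl))
  have k1' : ∀ d n, v (τ'^[n] d) = v d := by
    intro d n
    induction n with
    | zero => rfl
    | succ n ih => rw [iterate_succ_apply', k1, ih]
  have k2 : ∀ d e, v d = v e → ∃ n, τ'^[n] d = e := by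
    intro d e hde
    by_cases hg : good (v d)
    · obtain ⟨n, hn⟩ := h2 d e hg hde
      refine ⟨n, ?_⟩
      rw [← hn]
      clear hn
      induction n with
      | zero => rfl
      | succ n ih =>
        rw [iterate_succ_apply', iterate_succ_apply', ← ih]
        have : good (v (τ'^[n] d)) := by rw [k1']; exact hg
        simp only [τ'] at this ⊢
        rw [if_pos this]
    · have hc := (Finset.nodup_toList (univ.filter (fun d' => v d' = v d))).isCycleOn_formPerm
      have hs : (l (v d)).formPerm.SameCycle d e :=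
        hc.2 (by simp) (by simp [hde])
      obtain ⟨n, hn⟩ := exists_iterate_of_sameCycle hs
      refine ⟨n, ?_⟩
      rw [← hn]
      clear hn
      induction n with
      | zero => rfl
      | succ n ih =>
        rw [iterate_succ_apply', iterate_succ_apply', ← ih]
        have h5 : v (τ'^[n] d) = v d := k1' d n
        have : ¬ good (v (τ'^[n] d)) := by rw [h5]; exact hg
        simp only [τ'] at this h5 ⊢
        rw [if_neg this, h5]
  have k3 : Function.Surjective τ' := by
    intro e
    obtain ⟨n, hn⟩ := k2 (τ' e) e (k1 e)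
    refine ⟨τ'^[n] e, ?_⟩
    rw [← iterate_succ_apply' τ' n e, iterate_succ_apply, hn]
  have k4 : Function.Bijective τ' := Finite.surjective_iff_bijective.1 k3
  refine ⟨Equiv.ofBijective τ' k4, k1, ?_, ?_⟩
  · intro d e hde
    obtain ⟨n, hn⟩ := k2 d e hde
    rw [← hn]
    exact sameCycle_iterate (Equiv.ofBijective τ' k4) d n
  · intro d hg
    show τ' d = τ d
    simp only [τ', if_pos hg]

end orbits

end Pool.Agent.Lib.MP_1b8c51_co
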