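import Pool.Agent.Lib.MP_1b8c51_co.Words

set_option autoImplicit false

namespace Pool.Agent.Lib.MP_1b8c51_co

open Finset Function

variable {r t : ℕ}

abbrev Dt (r t : ℕ) : Type := (deBruijn r t).Dart

noncomputable def enc (x : Wd r t) : ℕ := (Fintype.equivFin (Wd r t) x : ℕ)

lemma enc_inj {x y : Wd r t} (h : enc x = enc y) : x = y :=
  (Fintype.equivFin (Wd r t)).injective (Fin.ext h)

/-- a chosen orientation of the darts -/
def O (d : Dt r t) : Prop := arc d.fst d.snd ∧ (arc d.snd d.fst → enc d.fst < enc d.snd)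

lemma O_symm (d : Dt r t) : O d.symm ↔ ¬ O d := by
  have h := adj_iff.1 d.adj
  have h1 : enc d.fst ≠ enc d.snd := fun h' => h.1 (enc_inj h')
  show arc d.snd d.fst ∧ (arc d.fst d.snd → enc d.snd < enc d.fst) ↔
    ¬ (arc d.fst d.snd ∧ (arc d.snd d.fst → enc d.fst < enc d.snd))
  constructor
  · rintro ⟨a, b⟩ ⟨c, e⟩
    have := b c
    have := e a
    omega
  · intro hn
    by_cases c : arc d.fst d.snd
    · have hn' : ¬ (arc d.snd d.fst → enc d.fst < enc d.snd) := fun e => hn ⟨c, e⟩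
      rw [Classical.not_imp] at hn'
      exact ⟨hn'.1, fun _ => by have := hn'.2; omega⟩
    · exact ⟨h.2.resolve_left c, fun c' => absurd c' c⟩

lemma arc_of_not_O {d : Dt r t} (h : ¬ O d) : arc d.snd d.fst := ((O_symm d).2 h).1

lemma exists_O (hr : 1 ≤ r) {x : Wd r t} (hx : Good x) : ∃ d : Dt r t, d.fst = x ∧ O d := by
  let e : Wd r (t + 1) := Fin.snoc (α := fun _ => Fin r) x ⟨0, hr⟩
  have he : pre e = x := by funext i; simp [pre, e]
  have hg : Good (vtx (e, true)) := by show Good (pre e); rw [he]; exact hx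
  refine ⟨mu (e, true) hg, he, arc_pre_suf e, fun h => ?_⟩
  exact absurd ⟨arc_pre_suf e, h⟩ (hg (suf e))

lemma exists_not_O (hr : 1 ≤ r) {x : Wd r t} (hx : Good x) : ∃ d : Dt r t, d.fst = x ∧ ¬ O d := by
  let e : Wd r (t + 1) := Fin.cons ⟨0, hr⟩ x
  have he : suf e = x := by funext i; simp [suf, e]
  have hg : Good (vtx (e, false)) := by show Good (suf e); rw [he]; exact hx
  refine ⟨mu (e, false) hg, he, fun h => ?_⟩
  exact absurd ⟨h.1, arc_pre_suf e⟩ (hg (pre e))

lemma exists_change (b : ℕ → Prop) {m n : ℕ} (hmn : m ≤ n) (h0 : b m) (h1 : ¬ b n) :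
    ∃ k, m ≤ k ∧ k < n ∧ b k ∧ ¬ b (k + 1) := by
  induction n with
  | zero =>
    have : m = 0 := by omega
    subst this; exact absurd h0 h1
  | succ n ih =>
    have hm : m ≤ n := by
      rcases Nat.lt_or_ge n m with h | h
      · have : m = n + 1 := by omega
        subst this; exact absurd h0 h1
      · exact h
    by_cases hb : b n
    · exact ⟨n, hm, by omega, hb, h1⟩
    · obtain ⟨k, k1, k2, k3⟩ := ih hm hb
      exact ⟨k, k1, by omega, k3⟩

/-- the face permutation -/
def fp (σ : Equiv.Perm (Dt r t)) : Equiv.Perm (Dt r t) :=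
  σ * Function.Involutive.toPerm SimpleGraph.Dart.symm SimpleGraph.Dart.symm_involutive

lemma fp_apply (σ : Equiv.Perm (Dt r t)) (d : Dt r t) : fp σ d = σ d.symm := rfl

open Classical in
noncomputable def base (σ : Equiv.Perm (Dt r t)) (d : Dt r t) : ℝ :=
  if (O (fp σ d) ↔ O d) then 1 / t else 1 / 4

open Classical in
noncomputable def ex1 (x : Wd r t) : ℝ :=
  ∑ l ∈ Ico 1 t, if Per 0 l x then (1 / (l : ℝ) - 1 / t) else 0

open Classical in
noncomputable def ex2 (x : Wd r t) : ℝ :=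
  if ∃ p q, p < q ∧ q ≤ t / 2 + 2 ∧ Per p q x then 1 else 0

noncomputable def wt (σ : Equiv.Perm (Dt r t)) (d : Dt r t) : ℝ :=
  base σ d + ex1 d.fst + ex2 d.fst

lemma term_nonneg {l : ℕ} (hl : l ∈ Ico 1 t) : (0 : ℝ) ≤ 1 / (l : ℝ) - 1 / t := by
  rw [mem_Ico] at hl
  have h1 : (0 : ℝ) < l := by exact_mod_cast hl.1
  have h2 : (l : ℝ) ≤ t := by exact_mod_cast hl.2.le
  have := one_div_le_one_div_of_le h1 h2
  linarith

lemma ex1_nonneg (x : Wd r t) : 0 ≤ ex1 x := by
  refine Finset.sum_nonneg (fun l hl => ?_)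
  split_ifs
  · exact term_nonneg hl
  · exact le_rfl

lemma ex2_nonneg (x : Wd r t) : 0 ≤ ex2 x := by
  unfold ex2; split_ifs <;> norm_num

lemma base_ge (ht : 4 ≤ t) (σ : Equiv.Perm (Dt r t)) (d : Dt r t) : 1 / (t : ℝ) ≤ base σ d := by
  unfold base
  split_ifs
  · exact le_rfl
  · exact one_div_le_one_div_of_le (by norm_num) (by exact_mod_cast ht)

lemma base_le_wt (σ : Equiv.Perm (Dt r t)) (d : Dt r t) : base σ d ≤ wt σ d := by
  have := ex1_nonneg d.fst
  have := ex2_nonneg d.fst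
  unfold wt; linarith

lemma wt_nonneg (ht : 4 ≤ t) (σ : Equiv.Perm (Dt r t)) (d : Dt r t) : 0 ≤ wt σ d :=
  le_trans (le_trans (by positivity) (base_ge ht σ d)) (base_le_wt σ d)

lemma wt_turn (σ : Equiv.Perm (Dt r t)) {d : Dt r t} (h : ¬ (O (fp σ d) ↔ O d)) :
    1 / 4 ≤ wt σ d := by
  refine le_trans (le_of_eq ?_) (base_le_wt σ d)
  unfold base; rw [if_neg h]

section

variable {σ : Equiv.Perm (Dt r t)} (hσ : IsRotation (deBruijn r t) σ)
include hσ

lemma fst_succ (d : Dt r t) (i : ℕ) : ((fp σ)^[i + 1] d).fst = ((fp σ)^[i] d).snd := by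
  rw [iterate_succ_apply', fp_apply, hσ.1]; rfl

lemma arc_fwd (d : Dt r t) (i : ℕ) (h : O ((fp σ)^[i] d)) :
    arc ((fp σ)^[i] d).fst ((fp σ)^[i + 1] d).fst := by
  rw [fst_succ hσ]; exact h.1

lemma arc_bwd (d : Dt r t) (i : ℕ) (h : ¬ O ((fp σ)^[i] d)) :
    arc ((fp σ)^[i + 1] d).fst ((fp σ)^[i] d).fst := by
  rw [fst_succ hσ]; exact arc_of_not_O h

lemma per_of_directed (d : Dt r t) {l : ℕ} (hl : (fp σ)^[l] d = d)
    (h : ∀ i, O ((fp σ)^[i] d) ↔ O d) : Per 0 l d.fst := by
  intro i j _ hij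
  by_cases ho : O d
  · have := run_fwd (fun i => ((fp σ)^[i] d).fst) 0 l
      (fun k _ => by simpa using arc_fwd hσ d k ((h k).2 ho)) i j (by omega)
    simpa [hl] using this
  · have := run_bwd (fun i => ((fp σ)^[i] d).fst) 0 l
      (fun k _ => by simpa using arc_bwd hσ d k (fun h' => ho ((h k).1 h'))) i j (by omega)
    simpa [hl] using this

lemma orbit_A (ht : 4 ≤ t) (d : Dt r t) (h : ∀ i, O ((fp σ)^[i] d) ↔ O d) :
    1 ≤ ∑ i ∈ range (minimalPeriod (fp σ) d), wt σ ((fp σ)^[i] d) := by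
  set l := minimalPeriod (fp σ) d with hl
  have hl0 : 0 < l := period_pos _ _
  have hl0' : (0 : ℝ) < l := by exact_mod_cast hl0
  have ht' : (0 : ℝ) < t := by exact_mod_cast (by omega : 0 < t)
  by_cases hlt : l < t
  · have : ∀ i ∈ range l, 1 / (l : ℝ) ≤ wt σ ((fp σ)^[i] d) := by
      intro i _
      have hper : Per 0 l ((fp σ)^[i] d).fst := by
        refine per_of_directed hσ _ ?_ ?_
        · rw [← iterate_add_apply, add_comm, iterate_add_apply, iterate_minimalPeriod]
        · intro k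
          rw [← iterate_add_apply, h, h]
      have h1 : 1 / (l : ℝ) - 1 / t ≤ ex1 ((fp σ)^[i] d).fst := by
        classical
        unfold ex1
        refine le_trans (le_of_eq ?_) (Finset.single_le_sum (f := fun l : ℕ =>
          if Per 0 l ((fp σ)^[i] d).fst then (1 / (l : ℝ) - 1 / t) else 0) (a := l)
          (fun l hl => ?_) (mem_Ico.2 ⟨hl0, hlt⟩))
        · simp only [if_pos hper]
        · split_ifs
          · exact term_nonneg hl
          · exact le_rfl
      have h2 := base_ge ht σ ((fp σ)^[i] d)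
      have h3 := ex2_nonneg ((fp σ)^[i] d).fst
      unfold wt; linarith
    have h4 := Finset.card_nsmul_le_sum _ _ _ this
    rw [card_range, nsmul_eq_mul] at h4
    rwa [mul_one_div_cancel hl0'.ne'] at h4
  · have : ∀ i ∈ range l, 1 / (t : ℝ) ≤ wt σ ((fp σ)^[i] d) := fun i _ =>
      (base_ge ht σ _).trans (base_le_wt σ _)
    have h4 := Finset.card_nsmul_le_sum _ _ _ this
    rw [card_range, nsmul_eq_mul] at h4
    refine le_trans ?_ h4
    rw [mul_one_div, le_div_iff₀ ht', one_mul]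
    exact_mod_cast (by omega : t ≤ l)

lemma special_of_short (hr : 1 ≤ r) (ht : 4 ≤ t) (d : Dt r t) {p q : ℕ} (hp : 1 ≤ p) (hq : 1 ≤ q)
    (hl : (fp σ)^[p + q] d = d) (hs : p + q ≤ t / 2 + 2)
    (h1 : ∀ i < p, O ((fp σ)^[i] d)) (h2 : ∀ i, p ≤ i → i < p + q → ¬ O ((fp σ)^[i] d)) :
    ∃ p q, p < q ∧ q ≤ t / 2 + 2 ∧ Per p q d.fst := by
  set v : ℕ → Wd r t := fun i => ((fp σ)^[i] d).fst with hv
  have hv0 : v 0 = d.fst := rfl
  have hvl : v (p + q) = d.fst := by simp only [hv, hl]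
  have f1 := run_fwd v 0 p (fun k hk => by rw [zero_add]; exact arc_fwd hσ d k (h1 k hk))
  have f2 := run_bwd v p q (fun k hk => arc_bwd hσ d (p + k) (h2 _ (by omega) (by omega)))
  rw [zero_add, hv0] at f1
  rw [hvl] at f2
  rcases lt_trichotomy p q with hpq | hpq | hpq
  · refine ⟨p, q, hpq, by omega, fun i j hi hij => ?_⟩
    rw [← f1 ⟨i - p, by omega⟩ i (by simp; omega), ← f2 ⟨i - p, by omega⟩ j (by simp; omega)]
  · subst hpq
    by_cases hg : Good d.fst
    · exfalso
      have a1 : arc d.fst (v 1) := arc_fwd hσ d 0 (h1 0 hp)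
      have a2 : arc d.fst (v (p + (p - 1))) := by
        have := arc_bwd hσ d (p + (p - 1)) (h2 _ (by omega) (by omega))
        rwa [show p + (p - 1) + 1 = p + p by omega, hl] at this
      have g1 := run_fwd v 1 (p - 1) (fun k hk => arc_fwd hσ d (1 + k) (h1 _ (by omega)))
      have g2 := run_bwd v p (p - 1) (fun k hk => arc_bwd hσ d (p + k) (h2 _ (by omega) (by omega)))
      rw [show 1 + (p - 1) = p by omega] at g1
      have e1 : v 1 = v (p + (p - 1)) := by
        funext i
        by_cases hi : (i : ℕ) + 1 < t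
        · rw [a1 i ⟨i + 1, hi⟩ rfl, a2 i ⟨i + 1, hi⟩ rfl]
        · rw [← g1 ⟨t - p, by omega⟩ i (by simp; omega), ← g2 ⟨t - p, by omega⟩ i (by simp; omega)]
      have e2 : ((fp σ)^[p + (p - 1)] d).symm = d := by
        apply SimpleGraph.Dart.ext
        apply Prod.ext
        · show ((fp σ)^[p + (p - 1)] d).snd = d.fst
          rw [← fst_succ hσ, show p + (p - 1) + 1 = p + p by omega, hl]
        · show v (p + (p - 1)) = d.snd
          rw [← e1]
          exact fst_succ hσ d 0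
      have e3 : σ d = d := by
        have : fp σ ((fp σ)^[p + (p - 1)] d) = d := by
          rw [← iterate_succ_apply' (fp σ), show (p + (p - 1)).succ = p + p by omega, hl]
        rwa [fp_apply, e2] at this
      obtain ⟨d', hd', hn⟩ := exists_not_O hr hg
      obtain ⟨n, hn'⟩ := exists_iterate_of_sameCycle (hσ.2 d d' hd'.symm)
      rw [iterate_fixed e3] at hn'
      rw [← hn'] at hn
      exact hn (h1 0 hp)
    · exact ⟨0, 2, by omega, by omega, per_of_not_good hg⟩
  · refine ⟨q, p, hpq, by omega, fun i j hi hij => ?_⟩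
    rw [← f2 ⟨i - q, by omega⟩ i (by simp; omega), ← f1 ⟨i - q, by omega⟩ j (by simp; omega)]

lemma orbit_B (hr : 1 ≤ r) (ht : 4 ≤ t) (d : Dt r t) (h0 : O d)
    (h1 : ¬ O ((fp σ)^[minimalPeriod (fp σ) d - 1] d)) :
    1 ≤ ∑ i ∈ range (minimalPeriod (fp σ) d), wt σ ((fp σ)^[i] d) := by
  classical
  set l := minimalPeriod (fp σ) d with hl
  have hl0 : 0 < l := period_pos _ _
  have hper : (fp σ)^[l] d = d := iterate_minimalPeriod
  set b : ℕ → Prop := fun i => O ((fp σ)^[i] d) with hb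
  have hturn : ∀ i, ¬ (b (i + 1) ↔ b i) → 1 / 4 ≤ wt σ ((fp σ)^[i] d) := by
    intro i hi
    refine wt_turn σ ?_
    rwa [← iterate_succ_apply' (fp σ)]
  have hex : ∃ i, ¬ b i := ⟨l - 1, h1⟩
  set p := Nat.find hex with hp
  have hp1 : ¬ b p := Nat.find_spec hex
  have hp2 : ∀ i < p, b i := fun i hi => not_not.1 (Nat.find_min hex hi)
  have hp3 : p ≤ l - 1 := Nat.find_min' hex h1
  have hp4 : 1 ≤ p := by
    rcases Nat.eq_zero_or_pos p with h | h
    · rw [h] at hp1; exact absurd h0 hp1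
    · exact h
  have t1 : 1 / 4 ≤ wt σ ((fp σ)^[p - 1] d) := by
    refine hturn _ ?_
    rw [show p - 1 + 1 = p by omega]
    exact fun h => hp1 (h.2 (hp2 _ (by omega)))
  have t4 : 1 / 4 ≤ wt σ ((fp σ)^[l - 1] d) := by
    refine hturn _ ?_
    rw [show l - 1 + 1 = l by omega]
    refine fun h => h1 (h.1 ?_)
    show O ((fp σ)^[l] d)
    rw [hper]; exact h0
  by_cases hc : ∃ i, p ≤ i ∧ i < l ∧ b i
  · obtain ⟨i, i1, i2, i3⟩ := hc
    obtain ⟨k, k1, k2, k3, k4⟩ := exists_change (fun i => ¬ b i) i1 hp1 (not_not.2 i3)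
    obtain ⟨k', k1', k2', k3', k4'⟩ := exists_change b (show i ≤ l - 1 by omega) i3 h1
    have t2 := hturn k (fun h => k4 (fun h' => k3 (h.1 h')))
    have t3 := hturn k' (fun h => k4' (h.2 k3'))
    have hsub : ({p - 1, k, k', l - 1} : Finset ℕ) ⊆ range l := by
      intro x hx
      simp only [mem_insert, mem_singleton] at hx
      rw [mem_range]; omega
    refine le_trans ?_ (Finset.sum_le_sum_of_subset_of_nonneg hsub (fun _ _ _ => wt_nonneg ht σ _))
    rw [sum_insert (by simp; omega), sum_insert (by simp; omega), sum_insert (by simp; omega),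
      sum_singleton]
    linarith
  · have hc' : ∀ i, p ≤ i → i < p + (l - p) → ¬ b i := fun i h1 h2 h3 => hc ⟨i, h1, by omega, h3⟩
    by_cases hs : l ≤ t / 2 + 2
    · have := special_of_short hσ hr ht d hp4 (show 1 ≤ l - p by omega)
        (by rw [show p + (l - p) = l by omega]; exact hper) (by omega) hp2 hc'
      have h2 : 1 ≤ wt σ ((fp σ)^[0] d) := by
        have h3 : ex2 d.fst = 1 := by unfold ex2; rw [if_pos this]
        have h4 := ex1_nonneg d.fst
        have h5 : 0 ≤ base σ d := le_trans (by positivity) (base_ge ht σ d)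
        show 1 ≤ wt σ d
        unfold wt; linarith
      exact h2.trans (Finset.single_le_sum (f := fun i => wt σ ((fp σ)^[i] d))
        (fun _ _ => wt_nonneg ht σ _) (mem_range.2 hl0))
    · have hsub : ({p - 1, l - 1} : Finset ℕ) ⊆ range l := by
        intro x hx
        simp only [mem_insert, mem_singleton] at hx
        rw [mem_range]; omega
      rw [← Finset.sum_sdiff hsub, sum_insert (by simp; omega), sum_singleton]
      have h4 := Finset.card_nsmul_le_sum (range l \ {p - 1, l - 1}) (fun i => wt σ ((fp σ)^[i] d))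
        (1 / (t : ℝ)) (fun i _ => (base_ge ht σ _).trans (base_le_wt σ _))
      rw [Finset.card_sdiff_of_subset hsub, card_range, Finset.card_pair (by omega),
        nsmul_eq_mul] at h4
      have ht' : (0 : ℝ) < t := by exact_mod_cast (by omega : 0 < t)
      have h5 : (1 : ℝ) / 2 ≤ ((l - 2 : ℕ) : ℝ) * (1 / t) := by
        rw [mul_one_div, div_le_div_iff₀ (by norm_num) ht', one_mul]
        exact_mod_cast (by omega : t ≤ (l - 2) * 2)
      linarith

lemma orbit_weight (hr : 1 ≤ r) (ht : 4 ≤ t) (d : Dt r t) : 1 ≤ ∑ e ∈ orb (fp σ) d, wt σ e := by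
  by_cases h : ∀ i, O ((fp σ)^[i] d) ↔ O d
  · exact (orbit_A hσ ht d h).trans (sum_range_le_orb _ _ (wt_nonneg ht σ) d)
  · have hl0 : 0 < minimalPeriod (fp σ) d := period_pos _ _
    have hex : ∃ k, ¬ O ((fp σ)^[k] d) ∧ O ((fp σ)^[k + 1] d) := by
      obtain ⟨i, hi⟩ := not_forall.1 h
      by_cases ho : O d
      · have h1 : ¬ O ((fp σ)^[i] d) := fun h' => hi ⟨fun _ => ho, fun _ => h'⟩
        have h2 : (fp σ)^[minimalPeriod (fp σ) d * i] d = d :=
          (isPeriodicPt_minimalPeriod (fp σ) d).mul_const i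
        obtain ⟨k, _, _, k3, k4⟩ := exists_change (fun i => ¬ O ((fp σ)^[i] d))
          (Nat.le_mul_of_pos_left i hl0) h1 (by rw [h2]; exact not_not.2 ho)
        exact ⟨k, k3, not_not.1 k4⟩
      · have h1 : O ((fp σ)^[i] d) := by
          by_contra h'
          exact hi ⟨fun a => absurd a h', fun a => absurd a ho⟩
        obtain ⟨k, _, _, k3, k4⟩ := exists_change (fun i => ¬ O ((fp σ)^[i] d))
          (Nat.zero_le i) ho (not_not.2 h1)
        exact ⟨k, k3, not_not.1 k4⟩
    obtain ⟨k, k1, k2⟩ := hex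
    rw [orb_eq (sameCycle_iterate (fp σ) d (k + 1))]
    refine (orbit_B hσ hr ht _ k2 ?_).trans (sum_range_le_orb _ _ (wt_nonneg ht σ) _)
    rw [minimalPeriod_apply_iterate ((fp σ).injective.mem_periodicPts d), ← iterate_add_apply,
      show minimalPeriod (fp σ) d - 1 + (k + 1) = k + minimalPeriod (fp σ) d by omega,
      iterate_add_apply, iterate_minimalPeriod]
    exact k1

end

end Pool.Agent.Lib.MP_1b8c51_co
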