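import Pool.Agent.Lib.MP_1b8c51_co.Lower

set_option autoImplicit false

namespace Pool.Agent.Lib.MP_1b8c51_co

open Finset Function

variable {r t : ℕ}

open Classical in
noncomputable def goodSet (r t : ℕ) : Finset (Wd r t) := univ.filter Good

lemma card_goodSet (hr : 1 ≤ r) : (r : ℝ) ^ t - r ^ 2 ≤ (goodSet r t).card := by
  classical
  have h1 := card_bad (t := t) hr
  have h2 := Finset.card_filter_add_card_filter_not (s := (univ : Finset (Wd r t))) Good
  have h3 : (univ : Finset (Wd r t)).card = r ^ t := by simp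
  have h4 : r ^ t ≤ (goodSet r t).card + r ^ 2 := by
    unfold goodSet
    have : (univ.filter (fun x : Wd r t => ¬ Good x)).card ≤ r ^ 2 := h1
    omega
  have h5 : ((r ^ t : ℕ) : ℝ) ≤ (((goodSet r t).card + r ^ 2 : ℕ) : ℝ) := by exact_mod_cast h4
  push_cast at h5
  linarith

lemma sum_fst_le (ht : 1 ≤ t) (f : Wd r t → ℝ) (hf : ∀ x, 0 ≤ f x) :
    ∑ d : Dt r t, f d.fst ≤ 2 * r * ∑ x, f x := by
  classical
  rw [← Finset.sum_fiberwise_of_maps_to (t := (univ : Finset (Wd r t)))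
    (g := fun d : Dt r t => d.fst) (fun _ _ => mem_univ _), Finset.mul_sum]
  refine Finset.sum_le_sum (fun x _ => ?_)
  rw [Finset.sum_congr rfl (g := fun _ => f x) (fun d hd => by rw [(mem_filter.1 hd).2]),
    sum_const, nsmul_eq_mul]
  refine mul_le_mul_of_nonneg_right ?_ (hf x)
  exact_mod_cast card_darts_at ht x

lemma card_darts_le (ht : 1 ≤ t) : (Fintype.card (Dt r t) : ℝ) ≤ 2 * r * r ^ t := by
  have := sum_fst_le (r := r) ht (fun _ => 1) (fun _ => zero_le_one)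
  simpa using this

lemma card_darts_ge (hr : 1 ≤ r) (ht : 1 ≤ t) :
    2 * (r : ℝ) * (r ^ t - r ^ 2) ≤ Fintype.card (Dt r t) := by
  classical
  have h1 : Fintype.card (Dt r t) =
      ∑ x, (univ.filter (fun d : Dt r t => d.fst = x)).card :=
    Finset.card_eq_sum_card_fiberwise (fun _ _ => mem_univ _)
  have h2 : (goodSet r t).card • (2 * r) ≤
      ∑ x ∈ goodSet r t, (univ.filter (fun d : Dt r t => d.fst = x)).card :=
    Finset.card_nsmul_le_sum _ _ _ (fun x hx => card_darts_at_good ht (mem_filter.1 hx).2)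
  have h3 : ∑ x ∈ goodSet r t, (univ.filter (fun d : Dt r t => d.fst = x)).card ≤
      ∑ x, (univ.filter (fun d : Dt r t => d.fst = x)).card :=
    Finset.sum_le_sum_of_subset (subset_univ _)
  have h4 : (goodSet r t).card * (2 * r) ≤ Fintype.card (Dt r t) := by
    rw [h1]; exact le_trans h2 h3
  have h5 : ((goodSet r t).card : ℝ) * (2 * r) ≤ Fintype.card (Dt r t) := by exact_mod_cast h4
  have h6 := card_goodSet (t := t) hr
  have h7 : (0 : ℝ) ≤ 2 * r := by positivity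
  nlinarith

lemma card_darts_eq : Fintype.card (Dt r t) = 2 * Nat.card (deBruijn r t).edgeSet := by
  classical
  have := SimpleGraph.dart_card_eq_twice_card_edges (deBruijn r t)
  rw [SimpleGraph.edgeFinset_card, ← Nat.card_eq_fintype_card, ← Nat.card_eq_fintype_card] at this
  rw [← Nat.card_eq_fintype_card, this]

lemma sum_aux (n : ℕ) : ∑ j ∈ range n, ((j : ℝ) * (j + 1) / 2 ^ j) ≤
    8 - 2 * (n ^ 2 + 3 * n + 4) / 2 ^ n := by
  induction n with
  | zero => norm_num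
  | succ n ih =>
    rw [sum_range_succ]
    have h : (0 : ℝ) < 2 ^ n := by positivity
    have : (8 : ℝ) - 2 * (((n + 1 : ℕ) : ℝ) ^ 2 + 3 * ((n + 1 : ℕ) : ℝ) + 4) / 2 ^ (n + 1) =
        8 - 2 * (n ^ 2 + 3 * n + 4) / 2 ^ n + n * (n + 1) / 2 ^ n := by
      push_cast
      field_simp
      ring
    rw [this]
    linarith

lemma sum_ex1 (hr : 2 ≤ r) (ht : 1 ≤ t) : ∑ x : Wd r t, ex1 x ≤ 8 * r ^ t / t ^ 2 := by
  classical
  have ht' : (0 : ℝ) < t := by exact_mod_cast ht
  have hr' : (2 : ℝ) ≤ r := by exact_mod_cast hr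
  unfold ex1
  rw [Finset.sum_comm]
  have h1 : ∀ l ∈ Ico 1 t, (∑ x : Wd r t, if Per 0 l x then (1 / (l : ℝ) - 1 / t) else 0) ≤
      r ^ t / t ^ 2 * (((t - l : ℕ) : ℝ) * ((t - l : ℕ) + 1) / 2 ^ (t - l)) := by
    intro l hl
    have hn := term_nonneg hl
    rw [mem_Ico] at hl
    rw [← Finset.sum_filter, sum_const, nsmul_eq_mul]
    have h2 : ((univ.filter (fun x : Wd r t => Per 0 l x)).card : ℝ) ≤ r ^ l := by
      exact_mod_cast card_Per (t := t) (by omega) (show 0 < l by omega)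
    obtain ⟨j, rfl⟩ : ∃ j, t = l + j := ⟨t - l, by omega⟩
    rw [show l + j - l = j by omega]
    have hl' : (1 : ℝ) ≤ l := by exact_mod_cast hl.1
    have hj : (0 : ℝ) ≤ j := by positivity
    have h3 : (r : ℝ) ^ l ≤ r ^ (l + j) / 2 ^ j := by
      rw [le_div_iff₀ (by positivity), pow_add]
      exact mul_le_mul_of_nonneg_left (pow_le_pow_left₀ (by norm_num) hr' j) (by positivity)
    have h4 : 1 / (l : ℝ) - 1 / ((l + j : ℕ) : ℝ) ≤ j * (j + 1) / ((l + j : ℕ) : ℝ) ^ 2 := by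
      push_cast
      rw [div_sub_div _ _ (by positivity) (by positivity), div_le_div_iff₀ (by positivity)
        (by positivity)]
      have : 0 ≤ (j : ℝ) * j * (l + j) * (l - 1) := by
        have : (0 : ℝ) ≤ l - 1 := by linarith
        positivity
      nlinarith
    calc _ ≤ (r : ℝ) ^ (l + j) / 2 ^ j * (j * (j + 1) / ((l + j : ℕ) : ℝ) ^ 2) :=
          mul_le_mul (h2.trans h3) h4 hn (by positivity)
      _ = _ := by ring
  refine (Finset.sum_le_sum h1).trans ?_
  rw [← Finset.mul_sum]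
  have h5 : ∑ l ∈ Ico 1 t, (((t - l : ℕ) : ℝ) * ((t - l : ℕ) + 1) / 2 ^ (t - l)) ≤ 8 := by
    have h6 : ∑ l ∈ Ico 1 t, (((t - l : ℕ) : ℝ) * ((t - l : ℕ) + 1) / 2 ^ (t - l)) ≤
        ∑ j ∈ range t, ((j : ℝ) * (j + 1) / 2 ^ j) := by
      rw [← Finset.sum_image (s := Ico 1 t) (g := fun l => t - l)
        (f := fun j : ℕ => ((j : ℝ) * (j + 1) / 2 ^ j))]
      · refine Finset.sum_le_sum_of_subset_of_nonneg ?_ (fun _ _ _ => by positivity)
        intro x hx
        obtain ⟨l, hl, rfl⟩ := mem_image.1 hx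
        rw [mem_Ico] at hl
        rw [mem_range]; omega
      · intro a ha b hb hab
        simp only [coe_Ico, Set.mem_Ico] at ha hb hab
        omega
    have h7 := sum_aux t
    have h8 : (0 : ℝ) ≤ 2 * (t ^ 2 + 3 * t + 4) / 2 ^ t := by positivity
    linarith
  calc _ ≤ (r : ℝ) ^ t / t ^ 2 * 8 := mul_le_mul_of_nonneg_left h5 (by positivity)
    _ = _ := by ring

lemma sum_ex2 (hr : 1 ≤ r) :
    ∑ x : Wd r t, ex2 x ≤ ((t / 2 + 3 : ℕ) : ℝ) ^ 2 * r ^ (t / 2 + 2) := by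
  classical
  unfold ex2
  rw [← Finset.sum_filter, sum_const, nsmul_eq_mul, mul_one]
  have h1 : univ.filter (fun x : Wd r t => ∃ p q, p < q ∧ q ≤ t / 2 + 2 ∧ Per p q x) ⊆
      ((range (t / 2 + 3) ×ˢ range (t / 2 + 3)).filter (fun z => z.1 < z.2)).biUnion
        (fun z => univ.filter (fun x : Wd r t => Per z.1 z.2 x)) := by
    intro x hx
    obtain ⟨p, q, h1, h2, h3⟩ := (mem_filter.1 hx).2
    simp only [mem_biUnion, mem_filter, mem_product, mem_range, mem_univ, true_and]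
    exact ⟨(p, q), ⟨⟨by show p < _; omega, by show q < _; omega⟩, h1⟩, h3⟩
  have h2 := (Finset.card_le_card h1).trans (Finset.card_biUnion_le_card_mul _ _ (r ^ (t / 2 + 2))
    (fun z hz => by
      simp only [mem_filter, mem_product, mem_range] at hz
      exact (card_Per hr hz.2).trans (Nat.pow_le_pow_right hr (by omega))))
  have h3 : ((range (t / 2 + 3) ×ˢ range (t / 2 + 3)).filter (fun z => z.1 < z.2)).card ≤
      (t / 2 + 3) ^ 2 := by
    refine (Finset.card_filter_le _ _).trans (le_of_eq ?_)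
    simp [sq]
  have h4 := h2.trans (Nat.mul_le_mul_right _ h3)
  exact_mod_cast h4

section

variable {σ : Equiv.Perm (Dt r t)} (hσ : IsRotation (deBruijn r t) σ)
include hσ

lemma fst_iterate (d : Dt r t) (n : ℕ) : (σ^[n] d).fst = d.fst := by
  induction n with
  | zero => rfl
  | succ n ih => rw [iterate_succ_apply', hσ.1, ih]

lemma exists_switch (Q : Dt r t → Prop) {d e : Dt r t} (h : d.fst = e.fst) (h1 : Q d) (h2 : ¬ Q e) :
    ∃ c : Dt r t, c.fst = d.fst ∧ Q c ∧ ¬ Q (σ c) := by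
  obtain ⟨n, hn⟩ := exists_iterate_of_sameCycle (hσ.2 d e h)
  obtain ⟨k, _, _, k3, k4⟩ := exists_change (fun i => Q (σ^[i] d)) (Nat.zero_le n) h1
    (by rw [hn]; exact h2)
  exact ⟨σ^[k] d, fst_iterate hσ d k, k3, by rwa [iterate_succ_apply'] at k4⟩

open Classical in
lemma card_pass (hr : 1 ≤ r) :
    2 * (goodSet r t).card ≤ (univ.filter (fun d : Dt r t => (O (fp σ d) ↔ O d))).card := by
  have key : ∀ Q : Dt r t → Prop, (∀ x, Good x → ∃ d : Dt r t, d.fst = x ∧ Q d) →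
      (∀ x, Good x → ∃ d : Dt r t, d.fst = x ∧ ¬ Q d) →
      (goodSet r t).card ≤ (univ.filter (fun d : Dt r t => Q d.symm ∧ ¬ Q (fp σ d))).card := by
    intro Q q1 q2
    refine le_trans (Finset.card_le_card ?_) (Finset.card_image_le (f := fun d : Dt r t => d.snd))
    intro x hx
    obtain ⟨d, d1, d2⟩ := q1 x (mem_filter.1 hx).2
    obtain ⟨e, e1, e2⟩ := q2 x (mem_filter.1 hx).2
    obtain ⟨c, c1, c2, c3⟩ := exists_switch hσ Q (d1.trans e1.symm) d2 e2
    refine mem_image.2 ⟨c.symm, mem_filter.2 ⟨mem_univ _, ?_, ?_⟩, c1.trans d1⟩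
    · rwa [SimpleGraph.Dart.symm_symm]
    · rwa [fp_apply, SimpleGraph.Dart.symm_symm]
  have k1 := key O (fun x hx => exists_O hr hx) (fun x hx => exists_not_O hr hx)
  have k2 := key (fun d => ¬ O d) (fun x hx => exists_not_O hr hx)
    (fun x hx => by simpa using exists_O hr hx)
  have k3 : Disjoint (univ.filter (fun d : Dt r t => O d.symm ∧ ¬ O (fp σ d)))
      (univ.filter (fun d : Dt r t => ¬ O d.symm ∧ ¬ ¬ O (fp σ d))) := by
    rw [Finset.disjoint_filter]
    intro d _ h1 h2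
    exact h2.1 h1.1
  have k4 := Finset.card_union_of_disjoint k3
  have k5 : (univ.filter (fun d : Dt r t => O d.symm ∧ ¬ O (fp σ d))) ∪
      (univ.filter (fun d : Dt r t => ¬ O d.symm ∧ ¬ ¬ O (fp σ d))) ⊆
      univ.filter (fun d : Dt r t => (O (fp σ d) ↔ O d)) := by
    intro d hd
    simp only [mem_union, mem_filter, mem_univ, true_and, O_symm] at hd ⊢
    tauto
  have k6 := Finset.card_le_card k5
  have k2' : (goodSet r t).card ≤
      (univ.filter (fun d : Dt r t => ¬ O d.symm ∧ ¬ ¬ O (fp σ d))).card := by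
    refine k2.trans (le_of_eq ?_)
    congr
  omega

lemma sum_base (hr : 1 ≤ r) (ht : 4 ≤ t) : ∑ d, base σ d ≤
    (Fintype.card (Dt r t) : ℝ) / 4 - (1 / 4 - 1 / t) * (2 * (r ^ t - r ^ 2)) := by
  classical
  have h1 : ∀ d, base σ d =
      1 / 4 - (1 / 4 - 1 / (t : ℝ)) * (if (O (fp σ d) ↔ O d) then 1 else 0) := by
    intro d
    unfold base
    split_ifs <;> ring
  rw [Finset.sum_congr rfl (fun d _ => h1 d), Finset.sum_sub_distrib, ← Finset.mul_sum,
    Finset.sum_boole, sum_const, card_univ, nsmul_eq_mul]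
  have h2 : (0 : ℝ) ≤ 1 / 4 - 1 / t := by
    have : 1 / (t : ℝ) ≤ 1 / 4 := one_div_le_one_div_of_le (by norm_num) (by exact_mod_cast ht)
    linarith
  have h3 : (2 : ℝ) * (goodSet r t).card ≤
      (univ.filter (fun d : Dt r t => (O (fp σ d) ↔ O d))).card := by
    exact_mod_cast card_pass hσ hr
  have h4 := card_goodSet (t := t) hr
  have h5 := mul_le_mul_of_nonneg_left (show 2 * ((r : ℝ) ^ t - r ^ 2) ≤ _ from
    le_trans (by linarith) h3) h2
  linarith

theorem faces_le (hr : 2 ≤ r) (ht : 4 ≤ t) : (faces (deBruijn r t) σ : ℝ) ≤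
    (Fintype.card (Dt r t) : ℝ) / 4 - (1 / 4 - 1 / t) * (2 * (r ^ t - r ^ 2)) +
      2 * r * (8 * r ^ t / t ^ 2) + 2 * r * (((t / 2 + 3 : ℕ) : ℝ) ^ 2 * r ^ (t / 2 + 2)) := by
  have h1 := card_orbits_le (fp σ) (wt σ) (orbit_weight hσ (by omega) ht)
  have h2 : ∑ d, wt σ d = ∑ d, base σ d + ∑ d : Dt r t, ex1 d.fst + ∑ d : Dt r t, ex2 d.fst := by
    simp only [wt, Finset.sum_add_distrib]
  have h3 := sum_base hσ (by omega) ht
  have h4 := sum_fst_le (r := r) (show 1 ≤ t by omega) ex1 ex1_nonneg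
  have h5 := sum_fst_le (r := r) (show 1 ≤ t by omega) ex2 ex2_nonneg
  have h6 := mul_le_mul_of_nonneg_left (sum_ex1 hr (show 1 ≤ t by omega))
    (show (0 : ℝ) ≤ 2 * r by positivity)
  have h7 := mul_le_mul_of_nonneg_left (sum_ex2 (t := t) (show 1 ≤ r by omega))
    (show (0 : ℝ) ≤ 2 * r by positivity)
  have h8 : (faces (deBruijn r t) σ : ℝ) ≤ ∑ d, wt σ d := h1
  linarith

end

end Pool.Agent.Lib.MP_1b8c51_co
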