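import Pool.Agent.Lib.MP_1b8c51_co.Even

set_option autoImplicit false

namespace Pool.Agent.Lib.MP_1b8c51_co

open Finset Function

section lists

variable {α : Type} [DecidableEq α]

def strip (R : α) (l : List α) : List α :=
  (l.dropWhile (fun a => decide (a = R))).rdropWhile (fun a => decide (a = R))

def nl (f : α → α) (l : List α) : List α := (l.reverse.modifyHead f).reverse

def lab (R : α) (f : α → α) (l : List α) : List α := nl f ((strip R l).modifyHead f)

lemma strip_cons_R (R : α) (l : List α) : strip R (R :: l) = strip R l := by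
  simp [strip]

lemma strip_concat_R (R : α) (l : List α) : strip R (l ++ [R]) = strip R l := by
  unfold strip
  rw [List.dropWhile_append]
  split_ifs with h
  · rw [List.isEmpty_iff] at h
    simp [h]
  · exact List.rdropWhile_concat_pos _ _ _ (by simp)

lemma strip_cons {R a : α} (h : a ≠ R) (l : List α) :
    strip R (a :: l) = a :: l.rdropWhile (fun a => decide (a = R)) := by
  unfold strip
  rw [List.dropWhile_cons_of_neg (by simpa using h)]
  unfold List.rdropWhile
  rw [List.reverse_cons, List.dropWhile_append]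
  split_ifs with h'
  · rw [List.isEmpty_iff] at h'
    simp [h', h]
  · simp

lemma strip_concat {R a : α} (h : a ≠ R) (l : List α) :
    strip R (l ++ [a]) = l.dropWhile (fun a => decide (a = R)) ++ [a] := by
  unfold strip
  rw [List.dropWhile_append]
  split_ifs with h'
  · rw [List.isEmpty_iff] at h'
    simp [h', h, List.rdropWhile_singleton]
  · exact List.rdropWhile_concat_neg _ _ _ (by simpa using h)

omit [DecidableEq α] in
lemma nl_concat (f : α → α) (l : List α) (a : α) : nl f (l ++ [a]) = l ++ [f a] := by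
  simp [nl]

lemma lab_cons {R a a' : α} {f : α → α} (h : a ≠ R) (h' : a' ≠ R) (hf : f a' = f a) (l : List α) :
    lab R f (a' :: l) = lab R f (a :: l) := by
  unfold lab
  rw [strip_cons h, strip_cons h', List.modifyHead_cons, List.modifyHead_cons, hf]

lemma lab_concat {R a a' : α} {f : α → α} (h : a ≠ R) (h' : a' ≠ R) (hf : f a' = f a)
    (l : List α) : lab R f (l ++ [a']) = lab R f (l ++ [a]) := by
  unfold lab
  rw [strip_concat h, strip_concat h']
  cases l.dropWhile (fun a => decide (a = R)) with
  | nil => simp [hf]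
  | cons x xs =>
    rw [List.cons_append, List.cons_append, List.modifyHead_cons, List.modifyHead_cons,
      ← List.cons_append, ← List.cons_append, nl_concat, nl_concat, hf]

lemma decomp (R : α) (l : List α) :
    ∃ p, l = l.rdropWhile (fun a => decide (a = R)) ++ List.replicate p R := by
  refine ⟨(l.rtakeWhile (fun a => decide (a = R))).length, ?_⟩
  rw [← List.eq_replicate_of_mem (fun b hb => by simpa using List.mem_rtakeWhile_imp hb),
    List.rdropWhile_append_rtakeWhile]

lemma lab_inj {R a a' : α} {f : α → α} {g : α → ZMod 2} (h : a ≠ R) (h' : a' ≠ R)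
    (hinj : ∀ x y, f x = f y → g x = g y → x = y) (hff : f (f a) = f a) (hff' : f (f a') = f a')
    {l l' : List α} (hlen : l.length = l'.length) (hg : g a = g a')
    (hs : (l.map g).sum = (l'.map g).sum) (hl : lab R f (a :: l) = lab R f (a' :: l')) :
    a :: l = a' :: l' := by
  unfold lab at hl
  rw [strip_cons h, strip_cons h', List.modifyHead_cons, List.modifyHead_cons] at hl
  obtain ⟨p, hp⟩ := decomp R l
  obtain ⟨p', hp'⟩ := decomp R l'
  generalize l.rdropWhile (fun a => decide (a = R)) = k at hl hp
  generalize l'.rdropWhile (fun a => decide (a = R)) = k' at hl hp'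
  have hk : k.length = k'.length := by
    have := congrArg List.length hl
    simpa [nl] using this
  have hpp : p = p' := by
    rw [hp, hp'] at hlen
    simp at hlen; omega
  subst hpp hp hp'
  rcases List.eq_nil_or_concat k with rfl | ⟨z, b, rfl⟩
  · have : k' = [] := List.length_eq_zero_iff.1 hk.symm
    subst this
    have h1 : f (f a) = f (f a') := by simpa [nl] using hl
    rw [hinj a a' (by rw [← hff, h1, hff']) hg]
  · rcases List.eq_nil_or_concat k' with rfl | ⟨z', b', rfl⟩
    · simp at hk
    · simp only [List.concat_eq_append] at *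
      rw [← List.cons_append, ← List.cons_append, nl_concat, nl_concat] at hl
      have h1 := List.append_inj' hl rfl
      obtain ⟨h2, h3⟩ := List.cons.inj h1.1
      subst h3
      have h4 : f b = f b' := (List.cons.inj h1.2).1
      have h5 : g b = g b' := by simpa using hs
      rw [hinj a a' h2 hg, hinj b b' h4 h5]

end lists

variable {n t : ℕ}

def Rc (c : ZMod 2) : Fin (n + 1) := if c = 0 then -1 else 0

lemma par_add_one {a : Fin (n + 1)} (h : a ≠ -1) : par (a + 1) = par a + 1 := by
  unfold par; rw [val_add_one h]; push_cast; rfl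

lemma par_sub_one {a : Fin (n + 1)} (h : a ≠ 0) : par (a - 1) = par a + 1 := by
  have h1 : par a = par (a - 1) + 1 := by
    unfold par; rw [← val_sub_one h]; push_cast; rfl
  rw [h1, add_assoc, CharTwo.add_self_eq_zero, add_zero]

def labO (m : Md (n + 1) t) : ZMod 2 × List (Fin (n + 1)) :=
  (chi m, lab (Rc (chi m)) (low (chi m)) (List.ofFn m.1))

lemma ofFn_suf (e : Wd (n + 1) (t + 1)) : List.ofFn e = e 0 :: List.ofFn (suf e) := List.ofFn_succ

lemma ofFn_pre (e : Wd (n + 1) (t + 1)) : List.ofFn e = List.ofFn (pre e) ++ [e (Fin.last t)] :=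
  List.ofFn_succ_last

section odd

variable (hn : 2 ∣ n)
include hn

lemma par_neg_one : par (-1 : Fin (n + 1)) = 0 := by
  unfold par
  rw [Fin.coe_neg_one, ZMod.natCast_eq_zero_iff]; exact hn

lemma stop_iffO (c : ZMod 2) (a : Fin (n + 1)) : a = stop c a 0 ↔ a = Rc c := by
  unfold stop Rc
  rcases zmod2 c with rfl | rfl
  · rw [if_pos rfl]
    split_ifs with h
    · rw [zero_sub]
    · exact ⟨fun h' => absurd (by rw [h', par_zero]) h, fun h' => absurd (by rw [h', par_neg_one hn]) h⟩
  · rw [if_neg (show (1 : ZMod 2) ≠ 0 by decide)]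
    split_ifs with h
    · rw [zero_sub]
      refine ⟨fun h' => ?_, fun h' => ?_⟩
      · rw [h', par_neg_one hn] at h; exact absurd h (by decide)
      · rw [h', par_zero] at h; exact absurd h (by decide)
    · rfl

lemma ne_neg_one {c : ZMod 2} {a : Fin (n + 1)} (h : a ≠ Rc c) (hc : par a = c) : a ≠ -1 := by
  intro h'
  rw [h', par_neg_one hn] at hc
  exact h (by rw [← hc, h']; simp [Rc])

omit hn in
lemma ne_zero' {c : ZMod 2} {a : Fin (n + 1)} (h : a ≠ Rc c) (hc : par a ≠ c) : a ≠ 0 := by
  intro h'
  rw [h', par_zero] at hc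
  exact h (by rw [h', Rc, if_neg (Ne.symm hc)])

lemma par_mateO {c : ZMod 2} {a : Fin (n + 1)} (h : a ≠ Rc c) : par (mate c a) = par a + 1 := by
  unfold mate
  split_ifs with hc
  · exact par_add_one (ne_neg_one hn h hc)
  · exact par_sub_one (ne_zero' h hc)

lemma par_Rc (c : ZMod 2) : par (Rc c : Fin (n + 1)) = 0 := by
  unfold Rc
  split_ifs
  · exact par_neg_one hn
  · exact par_zero

lemma mate_ne {c : ZMod 2} {a : Fin (n + 1)} (h : a ≠ Rc c) : mate c a ≠ Rc c := by
  intro h'
  have h1 := par_mateO hn h
  rw [h', par_Rc hn] at h1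
  unfold mate at h'
  split_ifs at h' with hc
  · have hc1 : c = 1 := by rw [← hc]; revert h1; generalize par a = u; revert u; decide
    rw [hc1, Rc, if_neg (by decide)] at h'
    exact ne_neg_one hn h hc (eq_neg_of_add_eq_zero_left h')
  · have hc0 : c = 0 := by rw [← zmod2_ne hc, ← h1]
    rw [hc0, Rc, if_pos rfl] at h'
    exact ne_zero' h hc (by rw [← sub_add_cancel a 1, h', neg_add_cancel])

omit hn in
lemma low_low {c : ZMod 2} {a : Fin (n + 1)} (h : a ≠ Rc c) : low c (low c a) = low c a := by
  by_cases hc : par a = c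
  · rw [low, low, if_pos hc, if_pos hc]
  · have : low c a = a - 1 := by rw [low, if_neg hc]
    rw [this, low, if_pos (by rw [par_sub_one (ne_zero' h hc)]; exact zmod2_ne hc)]

lemma labO_psi (m : Md (n + 1) t) : labO (psi (fun _ => 0) m) = labO m := by
  have hc : chi (psi (fun _ => 0) m) = chi m :=
    chi_psi _ _ (fun _ h => par_mateO hn (fun h' => h ((stop_iffO hn _ _).2 h')))
      (fun _ h => par_mateO hn (fun h' => h ((stop_iffO hn _ _).2 h')))
  unfold labO
  rw [hc]
  congr 1
  obtain ⟨e, b⟩ := m
  cases b
  · simp only [psi, Bool.false_eq_true, if_false, stop_iffO hn]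
    split_ifs with h
    · dsimp only
      rw [ofFn_suf (rotR e), ofFn_pre e, suf_rotR, rotR_zero, h, lab, lab, strip_cons_R,
        strip_concat_R]
    · dsimp only
      rw [ofFn_pre e, ofFn_pre (update _ _ _), pre_update, update_self]
      exact lab_concat h (mate_ne hn h) (low_mate (par_mateO hn h)) _
  · simp only [psi, if_true, stop_iffO hn]
    split_ifs with h
    · dsimp only
      rw [ofFn_pre (rotL e), ofFn_suf e, pre_rotL, rotL_last, h, lab, lab, strip_cons_R,
        strip_concat_R]
    · dsimp only
      rw [ofFn_suf e, ofFn_suf (update _ _ _), suf_update, update_self]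
      exact lab_cons h (mate_ne hn h) (low_mate (par_mateO hn h)) _

lemma card_labO : ((n + 1 : ℝ) ^ (t + 1) - (n + 1) ^ t) / 2 ≤
      ((univ.image (labO : Md (n + 1) t → _)).card : ℝ) := by
  set A1 := (univ.filter (fun e : Wd (n + 1) (t + 1) =>
    ¬ e 0 = stop (chi ((e, true) : Md (n + 1) t)) (e 0) 0)) with hA1
  have c1 : (n + 1) ^ t + A1.card = (n + 1) ^ (t + 1) := by
    rw [← card_passT (fun _ => 0), Finset.card_filter_add_card_filter_not]; simp
  have d1 : A1.card ≤ 2 * (A1.image (fun e => labO ((e, true) : Md (n + 1) t))).card := by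
    refine Finset.card_le_mul_card_image _ _ (fun l _ => ?_)
    have : (univ : Finset (ZMod 2)).card = 2 := by simp
    refine le_trans (Finset.card_le_card_of_injOn (fun e => par (e 0)) (fun _ _ => by simp) ?_)
      this.le
    intro e he e' he' hp
    simp only [coe_filter, hA1, mem_filter, mem_univ, true_and, Set.mem_ofPred_eq,
      stop_iffO hn] at he he'
    have h1 := he.2.trans he'.2.symm
    rw [labO, labO, Prod.mk.injEq] at h1
    obtain ⟨h2, h3⟩ := h1
    have h4 := he'.1
    rw [← h2] at h3 h4
    dsimp only at h3 hp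
    rw [ofFn_suf e, ofFn_suf e'] at h3
    have h5 : Sm (suf e) = Sm (suf e') := by
      have h6 : Sm e = Sm e' := by simpa [chi] using h2
      rw [Sm_suf e, Sm_suf e', hp] at h6
      exact add_left_cancel h6
    apply List.ofFn_injective
    rw [ofFn_suf e, ofFn_suf e']
    refine lab_inj (g := par) he.1 h4 (fun x y => low_inj) (low_low he.1) (low_low h4) (by simp) hp
      ?_ h3
    rw [List.map_ofFn, List.map_ofFn, List.sum_ofFn, List.sum_ofFn]
    exact h5
  have e3 : A1.image (fun e => labO ((e, true) : Md (n + 1) t)) ⊆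
      univ.image (labO : Md (n + 1) t → _) := by
    intro l hl
    obtain ⟨e, _, rfl⟩ := mem_image.1 hl
    exact mem_image.2 ⟨_, mem_univ _, rfl⟩
  have e4 := d1.trans (Nat.mul_le_mul_left 2 (Finset.card_le_card e3))
  have f1 : ((n + 1 : ℝ)) ^ t + A1.card = (n + 1) ^ (t + 1) := by exact_mod_cast c1
  have f2 : (A1.card : ℝ) ≤ 2 * ((univ.image (labO : Md (n + 1) t → _)).card : ℝ) := by
    exact_mod_cast e4
  linarith

end odd

end Pool.Agent.Lib.MP_1b8c51_co
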