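import Pool.Agent.Lib.MP_1b8c51_co.RYEmb

set_option autoImplicit false

/-! The faces of the periodic rule close up, for every size. -/

namespace Pool.Agent.Lib.MP_1b8c51_co.RY

/-- face map of a rotation rule -/
def ph (R : Q → Q) (q : Q) : Q := R (rev q)

/-- the rule given by side and letter functions -/
noncomputable def rotG (S Y : ℕ → ℕ → ℕ → ℕ → ℕ) (q : Q) : Q :=
  dart q.1 q.2.1 (S q.1 q.2.1 q.2.2.1 q.2.2.2) (Y q.1 q.2.1 q.2.2.1 q.2.2.2)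

lemma rotB_G (D : Dat) (N : ℕ) : rotB D N = rotG (sB D N) (yB D N) := rfl
lemma rotP_G (D : Dat) (N : ℕ) : rotP D N = rotG (sP D N) (yP D N) := rfl

section G

variable (S Y : ℕ → ℕ → ℕ → ℕ → ℕ)

lemma rotG_1 (q : Q) : (rotG S Y q).1 = q.1 := rfl
lemma rotG_2 (q : Q) : (rotG S Y q).2.1 = q.2.1 := rfl

lemma rotG_shape (q : Q) : (rotG S Y q).2.2.1 = q.2.1 ∨ (rotG S Y q).2.2.2 = q.1 := by
  simp only [rotG, dart_eq]; split_ifs <;> simp

lemma rotK_eq (a b c d : ℕ) (f : ℕ → ℕ → Bool) :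
    rotK S Y a b c d f = f (rotG S Y (a, b, c, d)).2.2.1 (rotG S Y (a, b, c, d)).2.2.2 := by
  simp only [rotK, frc_eq, rotG, dart_eq]
  by_cases h : S a b c d = 0
  · rw [if_pos h, h]; rfl
  · rw [if_neg h, show Nat.beq (S a b c d) 0 = false from by simpa [← Bool.not_eq_true] using h]
    rfl

lemma phK (q : Q) (f : ℕ → ℕ → Bool) : rotK S Y q.2.2.1 q.2.2.2 q.1 q.2.1 f =
    f (ph (rotG S Y) q).2.2.1 (ph (rotG S Y) q).2.2.2 := rotK_eq _ _ _ _ _ _ _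

lemma ph_eta (q : Q) : ph (rotG S Y) q =
    (q.2.2.1, q.2.2.2, (ph (rotG S Y) q).2.2.1, (ph (rotG S Y) q).2.2.2) := rfl

lemma ph_step {q : Q} {e f : ℕ}
    (h : (rotK S Y q.2.2.1 q.2.2.2 q.1 q.2.1 fun u v => eq2 u v e f) = true) :
    ph (rotG S Y) q = (q.2.2.1, q.2.2.2, e, f) := by
  rw [phK, eq2_true] at h
  rw [ph_eta, h.1, h.2]

def Dir1 (φ : Q → Q) (a b x : ℕ) : Prop :=
  φ (a, b, b, x) = (b, x, x, a) ∧ φ (b, x, x, a) = (x, a, a, b) ∧ φ (x, a, a, b) = (a, b, b, x)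

def Dir2 (φ : Q → Q) (a b x : ℕ) : Prop :=
  φ (b, x, a, b) = (a, b, x, a) ∧ φ (a, b, x, a) = (x, a, b, x) ∧ φ (x, a, b, x) = (b, x, a, b)

lemma dir1_sound {a b x : ℕ} (h : dir1 S Y a b x = true) : Dir1 (ph (rotG S Y)) a b x := by
  simp only [dir1, selB_and] at h
  exact ⟨ph_step S Y (q := (a, b, b, x)) h.1, ph_step S Y (q := (b, x, x, a)) h.2.1,
    ph_step S Y (q := (x, a, a, b)) h.2.2⟩

lemma dir2_sound {a b x : ℕ} (h : dir2 S Y a b x = true) : Dir2 (ph (rotG S Y)) a b x := by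
  simp only [dir2, selB_and] at h
  exact ⟨ph_step S Y (q := (b, x, a, b)) h.1, ph_step S Y (q := (a, b, x, a)) h.2.1,
    ph_step S Y (q := (x, a, b, x)) h.2.2⟩

lemma ok_ph {r : ℕ} {q : Q} (h : Ok r q)
    (h1 : ok2 r q.2.2.1 q.2.2.2 (ph (rotG S Y) q).2.2.1 (ph (rotG S Y) q).2.2.2 = true) :
    Ok r (ph (rotG S Y) q) := by
  simp only [ok2, selB_and, Nat.blt_eq] at h1
  have h2 := h1.2.2
  rw [selB_true, eq2_true] at h2
  refine ⟨h.2.2.1, h.2.2.2.1, h1.1, h1.2.1, ?_, rotG_shape S Y (rev q)⟩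
  rcases h2 with h2 | h2
  · simp at h2
  · exact h2.1

end G

def Fin4 (N : ℕ) (q : Q) : Prop := q.1 < N ∨ q.2.1 < N ∨ q.2.2.1 < N ∨ q.2.2.2 < N

def NearQ (N : ℕ) (q : Q) (z : ℕ) : Prop :=
  N ≤ z ∨ Nr N q.1 z ∨ Nr N q.2.1 z ∨ Nr N q.2.2.1 z ∨ Nr N q.2.2.2 z

lemma fin4_true (N a b c d : ℕ) : fin4 N a b c d = true ↔ Fin4 N (a, b, c, d) := by
  simp only [fin4, selB_or, Nat.blt_eq, Fin4]

lemma nr_true (N u z : ℕ) : nr N u z = true ↔ Nr N u z := by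
  simp only [nr, selB_true, Nat.ble_eq, Nr]
  simp only [Bool.false_eq_true, and_false, false_or, and_true]
  omega

structure Good (N r : ℕ) (φ : Q → Q) (q : Q) : Prop where
  ok : Ok r (φ q)
  fin : Fin4 N (φ q)
  n1 : NearQ N q (φ q).2.2.1
  n2 : NearQ N q (φ q).2.2.2
  n3 : NearQ N q (φ (φ q)).2.2.1
  n4 : NearQ N q (φ (φ q)).2.2.2
  cl : φ (φ (φ q)) = q ∨ (q.1 ≠ q.2.1 ∧ φ (φ (φ (φ q))) = q)

variable {D : Dat} {N : ℕ}

lemma goodB_sound {q : Q} {x : ℕ} (hq : Ok (N + D.k) q) (hx : x = q.2.2.1 ∨ x = q.2.2.2)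
    (h : goodB D N q.1 q.2.1 q.2.2.1 q.2.2.2 x = true) : Good N (N + D.k) (ph (rotB D N)) q := by
  have hn : ∀ z, near N q.1 q.2.1 x z = true → NearQ N q z := fun z hz => by
    simp only [near, selB_or, nr_true, Nat.ble_eq] at hz
    rcases hx with hx | hx <;> rw [hx] at hz <;> unfold NearQ <;> tauto
  rw [rotB_G]
  set φ := ph (rotG (sB D N) (yB D N)) with hφ
  rw [goodB, phK, ← hφ] at h
  erw [phK _ _ (φ q), ← hφ, phK _ _ (φ (φ q)), ← hφ, phK _ _ (φ (φ (φ q))), ← hφ] at h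
  simp only [selB_and] at h
  obtain ⟨h1, h2, h3, h4, h5, h6, h7⟩ := h
  refine ⟨ok_ph _ _ hq h1, (fin4_true _ _ _ _ _).1 h2, hn _ h3, hn _ h4, hn _ h5, hn _ h6, ?_⟩
  rw [selB_or, selB_and, eq2_true, eq2_true, selB_true, selB_and, eq2_true, eq2_true] at h7
  rcases h7 with h7 | h7 | h7
  · left
    rw [hφ, ph_eta, ← hφ, h7.1.1, h7.1.2, h7.2.1, h7.2.2]
  · simp at h7
  · right
    refine ⟨by simpa using h7.1, ?_⟩
    rw [hφ, ph_eta, ← hφ, h7.2.1.1, h7.2.1.2, h7.2.2.1, h7.2.2.2]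

lemma nr_self {N u : ℕ} (h : u < N) : Nr N u u := ⟨h, Or.inl (by simp [dl_eq])⟩

lemma near_mem {q : Q} {z : ℕ} (h : z = q.1 ∨ z = q.2.1 ∨ z = q.2.2.1 ∨ z = q.2.2.2) :
    NearQ N q z := by
  by_cases h1 : N ≤ z
  · exact Or.inl h1
  have := nr_self (N := N) (u := z) (by omega)
  unfold NearQ
  rcases h with h | h | h | h <;> rw [← h] <;> tauto

lemma Dir1.good {φ : Q → Q} {r a b x : ℕ} (h : Dir1 φ a b x) (ha : a < r) (hb : b < r) (hx : x < r)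
    (hbx : b ≠ x) (hf : a < N ∨ b < N ∨ x < N) : Good N r φ (a, b, b, x) := by
  obtain ⟨h1, h2, h3⟩ := h
  refine ⟨?_, ?_, ?_, ?_, ?_, ?_, Or.inl (by rw [h1, h2, h3])⟩
  · rw [h1]; exact ⟨hb, hx, hx, ha, fun h => hbx h.1, Or.inl rfl⟩
  · rw [h1]; unfold Fin4; tauto
  all_goals simp only [h1, h2]; exact near_mem (by simp)

lemma Dir2.good {φ : Q → Q} {r a b x : ℕ} (h : Dir2 φ a b x) (ha : a < r) (hb : b < r) (hx : x < r)
    (hab : a ≠ b) (hf : a < N ∨ b < N ∨ x < N) : Good N r φ (b, x, a, b) := by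
  obtain ⟨h1, h2, h3⟩ := h
  refine ⟨?_, ?_, ?_, ?_, ?_, ?_, Or.inl (by rw [h1, h2, h3])⟩
  · rw [h1]; exact ⟨ha, hb, hx, ha, fun h => hab h.2.symm, Or.inr rfl⟩
  · rw [h1]; unfold Fin4; tauto
  all_goals simp only [h1, h2]; exact near_mem (by simp)

/-- everything about the two darts and the directed triangle of the word `a b x` -/
structure Trip (N r : ℕ) (φ : Q → Q) (a b x : ℕ) : Prop where
  g1 : ¬ (a = b ∧ b = x) → Good N r φ (a, b, b, x)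
  g2 : ¬ (a = b ∧ b = x) → Good N r φ (b, x, a, b)
  dir : a ≠ b → b ≠ x → a ≠ x → Dir1 φ a b x ∨ Dir2 φ a b x

lemma tripB_sound {a b x : ℕ} (ha : a < N + D.k) (hb : b < N + D.k) (hx : x < N + D.k)
    (hf : a < N ∨ b < N ∨ x < N) (h : tripB D N a b x = true) :
    red N (D.m + 8) 4 a b x = true ∨ Trip N (N + D.k) (ph (rotB D N)) a b x := by
  rw [tripB, selB_or] at h
  refine h.imp id fun h => ?_
  have o1 : ¬ (a = b ∧ b = x) → Ok (N + D.k) (a, b, b, x) := fun h0 =>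
    ⟨ha, hb, hb, hx, h0, Or.inl rfl⟩
  have o2 : ¬ (a = b ∧ b = x) → Ok (N + D.k) (b, x, a, b) := fun h0 =>
    ⟨hb, hx, ha, hb, fun h1 => h0 ⟨h1.1.symm, h1.2.symm⟩, Or.inr rfl⟩
  have k1 : ∀ h0, goodB D N a b b x x = true → _ := fun h0 =>
    goodB_sound (q := (a, b, b, x)) (o1 h0) (Or.inr rfl)
  have k2 : ∀ h0, goodB D N b x a b a = true → _ := fun h0 =>
    goodB_sound (q := (b, x, a, b)) (o2 h0) (Or.inl rfl)
  rw [selB_true] at h
  simp only [selB_or, selB_and, Nat.beq_eq] at h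
  rcases h with ⟨h1, h2⟩ | ⟨h1, h2⟩
  · exact ⟨fun h0 => k1 h0 (h2.resolve_left h0).1, fun h0 => k2 h0 (h2.resolve_left h0).2,
      fun _ _ _ => by tauto⟩
  · rw [selB_true, selB_and] at h2
    push Not at h1
    rcases h2 with ⟨h2, h3⟩ | ⟨_, h2, h3⟩
    · have := dir1_sound _ _ h2
      exact ⟨fun _ => this.good ha hb hx h1.2.1 hf, fun h0 => k2 h0 h3, fun _ _ _ => Or.inl this⟩
    · have := dir2_sound _ _ h2
      exact ⟨fun h0 => k1 h0 h3, fun _ => this.good ha hb hx h1.1 hf, fun _ _ _ => Or.inr this⟩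

section emb

variable {K N' k : ℕ} {f : ℕ → ℕ} {S S' : ℕ → Prop} {φ φ' : Q → Q}

lemma Emb.lt (E : Emb K N N' f S S') {z : ℕ} (h : z < N + k) : f z < N' + k := by
  by_cases h1 : z < N
  · have := E.fin z h1; omega
  · obtain ⟨j, rfl⟩ := Nat.exists_eq_add_of_le (not_lt.1 h1)
    rw [E.inf]; omega

lemma Emb.le (E : Emb K N N' f S S') {z : ℕ} (h : N ≤ z) : N' ≤ f z := by
  obtain ⟨j, rfl⟩ := Nat.exists_eq_add_of_le h
  rw [E.inf]; omega

lemma Emb.ok (E : Emb K N N' f S S') {q : Q} (h : Ok (N + k) q) : Ok (N' + k) (mp f q) := by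
  obtain ⟨h1, h2, h3, h4, h5, h6⟩ := h
  refine ⟨E.lt h1, E.lt h2, E.lt h3, E.lt h4, fun h => h5 ⟨E.inj _ _ h.1, E.inj _ _ h.2⟩, ?_⟩
  exact h6.imp (congrArg f) (congrArg f)

lemma Emb.fin4 (E : Emb K N N' f S S') {q : Q} (h : Fin4 N q) : Fin4 N' (mp f q) :=
  h.imp (E.fin _) (Or.imp (E.fin _) (Or.imp (E.fin _) (E.fin _)))

lemma Emb.near (E : Emb K N N' f S S') {q : Q} (hq : All S' q) {z : ℕ} (h : NearQ N q z) :
    NearQ N' (mp f q) (f z) ∧ S z := by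
  by_cases h1 : N ≤ z
  · exact ⟨Or.inl (E.le h1), E.top _ h1⟩
  have h2 : z < N := by omega
  rcases h with h | h | h | h | h
  · exact absurd h h1
  · exact (E.nr _ _ h2 hq.1 h).imp_left fun h => Or.inr (Or.inl h)
  · exact (E.nr _ _ h2 hq.2.1 h).imp_left fun h => Or.inr (Or.inr (Or.inl h))
  · exact (E.nr _ _ h2 hq.2.2.1 h).imp_left fun h => Or.inr (Or.inr (Or.inr (Or.inl h)))
  · exact (E.nr _ _ h2 hq.2.2.2 h).imp_left fun h => Or.inr (Or.inr (Or.inr (Or.inr h)))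

lemma Emb.all (E : Emb K N N' f S S') {q : Q} (h : All S' q) : All S q :=
  ⟨E.sub _ h.1, E.sub _ h.2.1, E.sub _ h.2.2.1, E.sub _ h.2.2.2⟩

lemma Good.emb (E : Emb K N N' f S S') (hs : ∀ q, (φ q).1 = q.2.2.1 ∧ (φ q).2.1 = q.2.2.2)
    (hc : ∀ q, All S q → All S (φ q) → φ' (mp f q) = mp f (φ q)) {q : Q} (hq : All S' q)
    (G : Good N (N + k) φ q) : Good N' (N' + k) φ' (mp f q) := by
  have a0 := E.all hq
  have a1 : All S (φ q) := ⟨(hs q).1 ▸ a0.2.2.1, (hs q).2 ▸ a0.2.2.2, (E.near hq G.n1).2,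
    (E.near hq G.n2).2⟩
  have a2 : All S (φ (φ q)) := ⟨(hs _).1 ▸ a1.2.2.1, (hs _).2 ▸ a1.2.2.2, (E.near hq G.n3).2,
    (E.near hq G.n4).2⟩
  have e1 := hc q a0 a1
  have e2 := hc _ a1 a2
  refine ⟨e1 ▸ E.ok G.ok, e1 ▸ E.fin4 G.fin, e1 ▸ (E.near hq G.n1).1, e1 ▸ (E.near hq G.n2).1,
    by rw [e1, e2]; exact (E.near hq G.n3).1, by rw [e1, e2]; exact (E.near hq G.n4).1, ?_⟩
  rcases G.cl with h | ⟨h0, h⟩
  · left; rw [e1, e2, hc _ a2 (h.symm ▸ a0), h]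
  · right
    have a3 : All S (φ (φ (φ q))) := ⟨(hs _).1 ▸ a2.2.2.1, (hs _).2 ▸ a2.2.2.2,
      by rw [← (hs _).1, h]; exact a0.1, by rw [← (hs _).2, h]; exact a0.2.1⟩
    exact ⟨fun h1 => h0 (E.inj _ _ h1), by rw [e1, e2, hc _ a2 a3, hc _ a3 (h.symm ▸ a0), h]⟩

lemma Dir1.emb (hc : ∀ q, All S q → All S (φ q) → φ' (mp f q) = mp f (φ q)) {a b x : ℕ}
    (ha : S a) (hb : S b) (hx : S x) (h : Dir1 φ a b x) : Dir1 φ' (f a) (f b) (f x) := by
  obtain ⟨h1, h2, h3⟩ := h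
  have e1 := hc (a, b, b, x) ⟨ha, hb, hb, hx⟩ (h1 ▸ ⟨hb, hx, hx, ha⟩)
  have e2 := hc (b, x, x, a) ⟨hb, hx, hx, ha⟩ (h2 ▸ ⟨hx, ha, ha, hb⟩)
  have e3 := hc (x, a, a, b) ⟨hx, ha, ha, hb⟩ (h3 ▸ ⟨ha, hb, hb, hx⟩)
  rw [h1] at e1; rw [h2] at e2; rw [h3] at e3
  exact ⟨e1, e2, e3⟩

lemma Dir2.emb (hc : ∀ q, All S q → All S (φ q) → φ' (mp f q) = mp f (φ q)) {a b x : ℕ}
    (ha : S a) (hb : S b) (hx : S x) (h : Dir2 φ a b x) : Dir2 φ' (f a) (f b) (f x) := by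
  obtain ⟨h1, h2, h3⟩ := h
  have e1 := hc (b, x, a, b) ⟨hb, hx, ha, hb⟩ (h1 ▸ ⟨ha, hb, hx, ha⟩)
  have e2 := hc (a, b, x, a) ⟨ha, hb, hx, ha⟩ (h2 ▸ ⟨hx, ha, hb, hx⟩)
  have e3 := hc (x, a, b, x) ⟨hx, ha, hb, hx⟩ (h3 ▸ ⟨hb, hx, ha, hb⟩)
  rw [h1] at e1; rw [h2] at e2; rw [h3] at e3
  exact ⟨e1, e2, e3⟩

lemma Emb.phB (E : Emb D.K N N' f S S') (q : Q) (h : All S q) (h' : All S (ph (RY.rotB D N) q)) :
    ph (RY.rotB D N') (mp f q) = mp f (ph (RY.rotB D N) q) :=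
  E.rotB (q := rev q) ⟨h.2.2.1, h.2.2.2, h.1, h.2.1⟩ h'

lemma Trip.emb (E : Emb D.K N N' f S S') {a b x : ℕ} (ha : S' a) (hb : S' b) (hx : S' x)
    (T : Trip N (N + k) (ph (rotB D N)) a b x) :
    Trip N' (N' + k) (ph (rotB D N')) (f a) (f b) (f x) where
  g1 h := (T.g1 fun h1 => h ⟨congrArg f h1.1, congrArg f h1.2⟩).emb E (fun _ => ⟨rfl, rfl⟩) E.phB
    ⟨ha, hb, hb, hx⟩
  g2 h := (T.g2 fun h1 => h ⟨congrArg f h1.1, congrArg f h1.2⟩).emb E (fun _ => ⟨rfl, rfl⟩) E.phB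
    ⟨hb, hx, ha, hb⟩
  dir h1 h2 h3 := (T.dir (fun h => h1 (congrArg f h)) (fun h => h2 (congrArg f h))
    (fun h => h3 (congrArg f h))).imp (Dir1.emb E.phB (E.sub _ ha) (E.sub _ hb) (E.sub _ hx))
      (Dir2.emb E.phB (E.sub _ ha) (E.sub _ hb) (E.sub _ hx))

end emb

/-- removal of the block of `p` letters at the place `t` -/
def out (t p u : ℕ) : ℕ := if u < t then u else u - p

lemma aw_spec {N M p z u : ℕ} (hM : 0 < M) (hz : z + M ≤ N) (h : aw (N + p) M p z u = true) :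
    ins (z + M) p (out (z + M) p u) = u ∧ Away N (z + M) M (out (z + M) p u) := by
  rw [aw, selB_or, selB_true] at h
  simp only [Nat.ble_eq, Nat.add_eq, Nat.mul_eq] at h
  simp only [ins, out, Away]
  split_ifs <;> omega

lemma red_spec {N M p a b x : ℕ} (hM : 0 < M) (h : red (N + p) M p a b x = true) :
    ∃ t a0 b0 x0, t ≤ N ∧ M ≤ t ∧ 2 * M ≤ N ∧ ins t p a0 = a ∧ ins t p b0 = b ∧ ins t p x0 = x ∧
      Away N t M a0 ∧ Away N t M b0 ∧ Away N t M x0 := by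
  have key : ∀ z u v, redAt (N + p) M p z u v = true → z + M ≤ N ∧ 2 * M ≤ N ∧
      aw (N + p) M p z z = true ∧ aw (N + p) M p z u = true ∧ aw (N + p) M p z v = true := by
    intro z u v h
    simp only [redAt, selB_and, Nat.ble_eq, Nat.add_eq] at h
    refine ⟨by omega, ?_, h.2⟩
    have h1 := h.2.1
    rw [aw, selB_or, selB_true] at h1
    simp only [Nat.ble_eq, Nat.add_eq, Nat.mul_eq] at h1
    omega
  simp only [red, selB_or] at h
  rcases h with h | h | h <;> obtain ⟨h1, h2, h3, h4, h5⟩ := key _ _ _ h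
  · exact ⟨_, _, _, _, h1, by omega, h2, (aw_spec hM h1 h3).1, (aw_spec hM h1 h4).1, (aw_spec hM h1 h5).1,
      (aw_spec hM h1 h3).2, (aw_spec hM h1 h4).2, (aw_spec hM h1 h5).2⟩
  · exact ⟨_, _, _, _, h1, by omega, h2, (aw_spec hM h1 h4).1, (aw_spec hM h1 h3).1, (aw_spec hM h1 h5).1,
      (aw_spec hM h1 h4).2, (aw_spec hM h1 h3).2, (aw_spec hM h1 h5).2⟩
  · exact ⟨_, _, _, _, h1, by omega, h2, (aw_spec hM h1 h4).1, (aw_spec hM h1 h5).1, (aw_spec hM h1 h3).1,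
      (aw_spec hM h1 h4).2, (aw_spec hM h1 h5).2, (aw_spec hM h1 h3).2⟩

lemma red_le {N M p a b x : ℕ} (h : red N M p a b x = true) : 2 * M + p ≤ N := by
  have key : ∀ z u v, redAt N M p z u v = true → 2 * M + p ≤ N := by
    intro z u v h
    simp only [redAt, selB_and, Nat.ble_eq, Nat.add_eq] at h
    have h1 := h.2.1
    rw [aw, selB_or, selB_true] at h1
    simp only [Nat.ble_eq, Nat.add_eq, Nat.mul_eq] at h1
    omega
  simp only [red, selB_or] at h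
  rcases h with h | h | h <;> exact key _ _ _ h

lemma aw_iff (N M p z u : ℕ) : aw N M p z u = true ↔
    N ≤ u ∨ (u ≤ z ∧ z + (2 * M + p) ≤ u + N) ∨ (z < u ∧ z + (2 * M + p) ≤ u) := by
  rw [aw, selB_or, selB_true]
  simp only [Nat.ble_eq, Nat.add_eq, Nat.mul_eq, not_le]

lemma red_large {N M p a b x : ℕ} (hM : 4 ≤ M) (hN : 3 * (2 * M + p) ≤ N + 2)
    (h : a < 4 ∨ b < 4 ∨ x < 4) : red N M p a b x = true := by
  simp only [red, redAt, selB_or, selB_and, aw_iff, Nat.ble_eq, Nat.add_eq]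
  omega

/-- normal position of a triple -/
def Rep (N a b x : ℕ) : Prop := a < 4 ∨ (N ≤ a ∧ b < 4) ∨ (N ≤ a ∧ N ≤ b ∧ x < 4)

lemma sh_sh {N j z : ℕ} (hj : j ≤ N) : sh N j (sh N (N - j) z) = z := by
  simp only [sh]; split_ifs <;> omega

lemma exists_rep {N a b x : ℕ} (hf : a < N ∨ b < N ∨ x < N) : ∃ j, j % 4 = 0 ∧ j ≤ N ∧
    Rep N (sh N (N - j) a) (sh N (N - j) b) (sh N (N - j) x) := by
  by_cases ha : a < N
  · exact ⟨a - a % 4, by omega, by omega, Or.inl (by simp only [sh]; split_ifs <;> omega)⟩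
  by_cases hb : b < N
  · exact ⟨b - b % 4, by omega, by omega,
      Or.inr (Or.inl (by simp only [sh]; split_ifs <;> omega))⟩
  · exact ⟨x - x % 4, by omega, by omega,
      Or.inr (Or.inr (by simp only [sh]; split_ifs <;> omega))⟩

lemma sh_lt {N j k z : ℕ} (hj : j ≤ N) (h : z < N + k) : sh N j z < N + k := by
  simp only [sh]; split_ifs <;> omega

lemma chk_rep (hA : ∀ a, a < 4 → chkA D N a = true) (hI : chkI D N = true) {a b x : ℕ}
    (ha : a < N + D.k) (hb : b < N + D.k) (hx : x < N + D.k) (h : Rep N a b x) :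
    tripB D N a b x = true := by
  rcases h with h | ⟨h1, h2⟩ | ⟨h1, h2, h3⟩
  · exact allB_true (allB_true (hA a h) b hb) x hx
  · obtain ⟨i, rfl⟩ := Nat.exists_eq_add_of_le h1
    have := allB_true hI i (by omega)
    rw [selB_and] at this
    exact allB_true (allB_true this.1 b h2) x hx
  · obtain ⟨i, rfl⟩ := Nat.exists_eq_add_of_le h1
    obtain ⟨j, rfl⟩ := Nat.exists_eq_add_of_le h2
    have := allB_true hI i (by omega)
    rw [selB_and] at this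
    exact allB_true (allB_true this.2 j (by omega)) x h3

theorem trip_all (hK : D.K < 2 * D.m) (hm : 5 ≤ D.m) {N0 : ℕ} (h8 : 8 ≤ N0)
    (h0 : N0 ≤ 2 * (D.m + 8))
    (hc : ∀ N, N % 4 = 0 → N0 ≤ N → N + 2 < 3 * (2 * (D.m + 8) + 4) →
      (∀ a, a < 4 → chkA D N a = true) ∧ chkI D N = true) (N : ℕ) :
    N % 4 = 0 → N0 ≤ N → ∀ a b x, a < N + D.k → b < N + D.k → x < N + D.k →
      (a < N ∨ b < N ∨ x < N) → Trip N (N + D.k) (ph (rotB D N)) a b x := by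
  induction N using Nat.strong_induction_on with
  | _ N ih =>
  intro h4 hN
  have hr : ∀ a b x, a < N + D.k → b < N + D.k → x < N + D.k → Rep N a b x →
      Trip N (N + D.k) (ph (rotB D N)) a b x := by
    intro a b x ha hb hx hR
    have hf : a < N ∨ b < N ∨ x < N := by unfold Rep at hR; omega
    have h1 : red N (D.m + 8) 4 a b x = true ∨ Trip N (N + D.k) (ph (rotB D N)) a b x := by
      by_cases h2 : N + 2 < 3 * (2 * (D.m + 8) + 4)
      · exact tripB_sound ha hb hx hf (chk_rep (hc N h4 hN h2).1 (hc N h4 hN h2).2 ha hb hx hR)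
      · exact Or.inl (red_large (by omega) (by omega) (by unfold Rep at hR; omega))
    refine h1.elim (fun h1 => ?_) id
    have h2 := red_le h1
    obtain ⟨N1, rfl⟩ : ∃ N1, N = N1 + 4 := ⟨N - 4, by omega⟩
    obtain ⟨t, a0, b0, x0, t1, -, t3, rfl, rfl, rfl, wa, wb, wx⟩ := red_spec (by omega) h1
    refine Trip.emb (emb_ins hK hm (by omega) (by norm_num) t1) wa wb wx
      (ih N1 (by omega) (by omega) (by omega) a0 b0 x0 ?_ ?_ ?_ ?_)
    all_goals simp only [ins] at *; split_ifs at * <;> omega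
  intro a b x ha hb hx hf
  obtain ⟨j, j1, j2, j3⟩ := exists_rep hf
  have := Trip.emb (emb_sh D.K (by omega) h4 j1 j2) trivial trivial trivial
    (hr _ _ _ (sh_lt (by omega) ha) (sh_lt (by omega) hb) (sh_lt (by omega) hx) j3)
  rwa [sh_sh j2, sh_sh j2, sh_sh j2] at this

end Pool.Agent.Lib.MP_1b8c51_co.RY
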