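import Pool.Agent.Lib.MP_1b8c51_co.RYMain

set_option autoImplicit false

/-! Faster forms of the Boolean checks. -/

namespace Pool.Agent.Lib.MP_1b8c51_co.RY

noncomputable section

abbrev RK : Type := ℕ → ℕ → ℕ → ℕ → (ℕ → ℕ → Bool) → Bool

def fr (n : ℕ) (f : ℕ → Bool) : Bool := Nat.rec true (fun m _ => f m) (Nat.add n 1)

def rotF2 (D : Dat) (N a b s x : ℕ) (f : ℕ → ℕ → Bool) : Bool :=
  fr (byte D N a b s x) fun w => fr (newy N a b x w) fun y =>
    selB (Nat.beq (Nat.mod w 2) 0) (f b y) (f y a)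

def rotF (D : Dat) (N a b c d : ℕ) (f : ℕ → ℕ → Bool) : Bool :=
  selB (Nat.beq c b) (rotF2 D N a b 0 d f) (rotF2 D N a b 1 c f)

def rotFP (D : Dat) (N a b c d : ℕ) (f : ℕ → ℕ → Bool) : Bool :=
  fr (pat D N a b c d) fun p => selB (Nat.beq p 0) (rotF D N a b c d f)
    (fr (dec D.W N (Nat.sub (Nat.div p 2) 1)) fun y =>
      selB (Nat.beq (Nat.mod p 2) 0) (f b y) (f y a))

def goodG (R : RK) (D : Dat) (N a b c d x : ℕ) : Bool :=
  R c d a b fun e1 f1 => R e1 f1 c d fun e2 f2 =>
  R e2 f2 e1 f1 fun e3 f3 =>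
    selB (ok2 (Nat.add N D.k) c d e1 f1) (selB (fin4 N c d e1 f1)
      (selB (near N a b x e1) (selB (near N a b x f1) (selB (near N a b x e2) (selB (near N a b x f2)
        (selB (selB (eq2 e2 f2 a b) (eq2 e3 f3 c d) false) true
          (selB (Nat.beq a b) false (selB (eq2 e3 f3 a b)
            (R e3 f3 e2 f2 fun e4 f4 => eq2 e4 f4 c d) false)))
        false) false) false) false) false) false

def dir1G (R : RK) (a b x : ℕ) : Bool :=
  selB (R b x a b fun e f => eq2 e f x a)
    (selB (R x a b x fun e f => eq2 e f a b) (R a b x a fun e f => eq2 e f b x) false)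
    false

def dir2G (R : RK) (a b x : ℕ) : Bool :=
  selB (R a b b x fun e f => eq2 e f x a)
    (selB (R x a a b fun e f => eq2 e f b x) (R b x x a fun e f => eq2 e f a b) false)
    false

def tripG (R : RK) (D : Dat) (N a b x : ℕ) : Bool :=
  selB (red N (Nat.add D.m 8) 4 a b x) true
    (selB (selB (Nat.beq a b) true (selB (Nat.beq b x) true (Nat.beq a x)))
      (selB (selB (Nat.beq a b) (Nat.beq b x) false) true
        (selB (goodG R D N a b b x x) (goodG R D N b x a b a) false))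
      (selB (dir1G R a b x) (goodG R D N b x a b a)
        (selB (dir2G R a b x) (goodG R D N a b b x x) false)))

def chkAG (R : RK) (D : Dat) (N a : ℕ) : Bool :=
  allB (Nat.add N D.k) fun b => allB (Nat.add N D.k) fun x => tripG R D N a b x

def chkIG (R : RK) (D : Dat) (N : ℕ) : Bool :=
  allB D.k fun i => selB (allB 4 fun b => allB (Nat.add N D.k) fun x => tripG R D N (Nat.add N i) b x)
    (allB D.k fun j => allB 4 fun x => tripG R D N (Nat.add N i) (Nat.add N j) x) false

def walkG (R : RK) (a b n : ℕ) : ℕ → ℕ → ℕ → (ℕ → Bool) → Bool :=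
  Nat.rec (fun _ _ M f => f M)
    (fun _ ih c d M f => R a b c d fun e g =>
      ih e g (Nat.lor M (Nat.shiftLeft 1 (cod b c d))) f) n

def conG (R : RK) (r a b : ℕ) : Bool :=
  walkG R a b (Nat.mul 2 r) b (sel (Nat.beq b 0) 1 0) 0 (fullB r a b)

def conG2 (R : RK) (r a b c d e f : ℕ) : Bool :=
  walkG R a b (Nat.mul 2 r) c d 0 fun M => walkG R a b (Nat.mul 2 r) e f M (fullB r a b)

def vtxG (R : RK) (D : Dat) (N a b : ℕ) : Bool :=
  selB (red N 28 8 a b a) true (conG R (Nat.add N D.k) a b)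

def chkVG (R : RK) (D : Dat) (N : ℕ) : Bool :=
  selB (allB 4 fun a => allB (Nat.add N D.k) fun b => vtxG R D N a b)
    (allB D.k fun i => allB 4 fun b => vtxG R D N (Nat.add N i) b) false

def chkPVG (R : RK) (D : Dat) (N : ℕ) : Bool :=
  allB (Nat.add D.W D.k) fun i => allB (Nat.add D.W D.k) fun j =>
    selB (pv D N (dec D.W N i) (dec D.W N j))
      (selB (eq2 i j D.p0.1 D.p0.2.1)
        (conG2 R (Nat.add N D.k) (dec D.W N i) (dec D.W N j)
          (dec D.W N D.p0.2.2.1) (dec D.W N D.p0.2.2.2) (dec D.W N D.q0.2.2.1)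
          (dec D.W N D.q0.2.2.2))
        (conG R (Nat.add N D.k) (dec D.W N i) (dec D.W N j))) true

def goodPG (R R' : RK) (D : Dat) (N a b c d : ℕ) : Bool :=
  selB (isP D N a b c d)
    (selB (R c d a b fun e1 f1 => R e1 f1 c d fun e2 f2 =>
      R e2 f2 e1 f1 fun e3 f3 =>
        selB (ok2 (Nat.add N D.k) c d e1 f1) (selB (isP D N c d e1 f1)
          (selB (selB (eq2 e2 f2 a b) (eq2 e3 f3 c d) false) true
            (selB (selB (Nat.beq a b) (memX D N a b c d) true) (selB (eq2 e3 f3 a b)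
              (R e3 f3 e2 f2 fun e4 f4 => eq2 e4 f4 c d) false) false))
          false) false)
      (selB (fin4 N a b c d)
        (R' c d a b fun e f => isP D N c d e f) true) false)
    (fin4 N a b c d)

def tripPG (R R' : RK) (D : Dat) (N a b x : ℕ) : Bool :=
  selB (selB (Nat.beq a b) (Nat.beq b x) false) true
    (selB (goodPG R R' D N a b b x) (selB (goodPG R R' D N b x a b)
      (selB (selB (Nat.beq a b) true (selB (Nat.beq b x) true (Nat.beq a x))) true
        (selB (dir1G R a b x) true (dir2G R a b x))) false) false)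

def chkPG (R R' : RK) (D : Dat) (N : ℕ) : Bool :=
  allB (Nat.add D.W D.k) fun i => allB (Nat.add D.W D.k) fun j => allB (Nat.add D.W D.k) fun l =>
    tripPG R R' D N (dec D.W N i) (dec D.W N j) (dec D.W N l)

def fA (D : Dat) (N a : ℕ) : Bool := chkAG (rotF D N) D N a
def fI (D : Dat) (N : ℕ) : Bool := chkIG (rotF D N) D N
def fV (D : Dat) (N : ℕ) : Bool := chkVG (rotF D N) D N
def fW (D : Dat) (N : ℕ) : Bool := chkPVG (rotFP D N) D N
def fP (D : Dat) (N : ℕ) : Bool := chkPG (rotFP D N) (rotF D N) D N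

end

lemma fr_eq (n : ℕ) (f : ℕ → Bool) : fr n f = f n := rfl

lemma selB_beq (u v : ℕ) (x y : Bool) : selB (Nat.beq u v) x y = if u = v then x else y := by
  by_cases h : u = v
  · rw [if_pos h, h, Nat.beq_refl]; rfl
  · rw [if_neg h, show Nat.beq u v = false from by simpa [← Bool.not_eq_true] using h]; rfl

lemma rotF_eq (D : Dat) (N : ℕ) : rotF D N = rotK (sB D N) (yB D N) := by
  funext a b c d f
  simp only [rotF, rotF2, rotK, fr_eq, frc_eq, sB, yB, side_eq, third_eq]
  rw [selB_beq]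
  split_ifs <;> rfl

lemma rotFP_eq (D : Dat) (N : ℕ) : rotFP D N = rotK (sP D N) (yP D N) := by
  funext a b c d f
  simp only [rotFP, rotF_eq, rotK, fr_eq, frc_eq, sP, yP, sel_beq]
  rw [selB_beq]
  split_ifs <;> rfl

lemma walkG_eq (S Y : ℕ → ℕ → ℕ → ℕ → ℕ) : walkG (rotK S Y) = walk S Y := by
  funext a b n
  simp only [walkG, walk, frc_eq]

lemma conG_eq (S Y : ℕ → ℕ → ℕ → ℕ → ℕ) : conG (rotK S Y) = conB S Y := by
  funext r a b
  rw [conG, conB, walkG_eq]

lemma conG2_eq (S Y : ℕ → ℕ → ℕ → ℕ → ℕ) : conG2 (rotK S Y) = conB2 S Y := by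
  funext r a b c d e f
  rw [conG2, conB2, walkG_eq]

variable {D : Dat} {N : ℕ}

lemma fA_to {a : ℕ} (h : fA D N a = true) : chkA D N a = true := by
  rw [fA, rotF_eq] at h; exact h

lemma fI_to (h : fI D N = true) : chkI D N = true := by
  rw [fI, rotF_eq] at h; exact h

lemma fV_to (h : fV D N = true) : chkV D N = true := by
  simp only [fV, rotF_eq, chkVG, vtxG, conG_eq] at h; exact h

lemma fW_to (h : fW D N = true) : chkPV D N = true := by
  simp only [fW, rotFP_eq, chkPVG, conG_eq, conG2_eq] at h; exact h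

lemma fP_to (h : fP D N = true) : chkP D N = true := by
  rw [fP, rotF_eq, rotFP_eq] at h; exact h

end Pool.Agent.Lib.MP_1b8c51_co.RY
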