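import Pool.Agent.Lib.MP_1b8c51_co.RYD1
import Pool.Agent.Lib.MP_1b8c51_co.RYFast

set_option autoImplicit false

namespace Pool.Agent.Lib.MP_1b8c51_co.RY

theorem D1_fv68 : fV D1 68 = true := by decide +kernel
theorem D1_fv60 : fV D1 60 = true := by decide +kernel
theorem D1_fv56 : fV D1 56 = true := by decide +kernel
theorem D1_fv100 : fV D1 100 = true := by decide +kernel
theorem D1_fv40 : fV D1 40 = true := by decide +kernel
theorem D1_fv116 : fV D1 116 = true := by decide +kernel
theorem D1_fa48_3 : fA D1 48 3 = true := by decide +kernel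
theorem D1_fa40_3 : fA D1 40 3 = true := by decide +kernel
theorem D1_fa40_0 : fA D1 40 0 = true := by decide +kernel
theorem D1_fa52_0 : fA D1 52 0 = true := by decide +kernel
theorem D1_fa36_1 : fA D1 36 1 = true := by decide +kernel
theorem D1_fa56_1 : fA D1 56 1 = true := by decide +kernel
theorem D1_fa32_2 : fA D1 32 2 = true := by decide +kernel
theorem D1_fa60_2 : fA D1 60 2 = true := by decide +kernel
theorem D1_fa64_2 : fA D1 64 2 = true := by decide +kernel
theorem D1_fa28_2 : fA D1 28 2 = true := by decide +kernel
theorem D1_fa68_2 : fA D1 68 2 = true := by decide +kernel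
theorem D1_fa72_3 : fA D1 72 3 = true := by decide +kernel
theorem D1_fv124 : fV D1 124 = true := by decide +kernel
theorem D1_fa76_0 : fA D1 76 0 = true := by decide +kernel
theorem D1_fa80_3 : fA D1 80 3 = true := by decide +kernel
theorem D1_fa80_0 : fA D1 80 0 = true := by decide +kernel
theorem D1_fa24_0 : fA D1 24 0 = true := by decide +kernel
theorem D1_fa20_0 : fA D1 20 0 = true := by decide +kernel
theorem D1_fi24 : fI D1 24 = true := by decide +kernel
theorem D1_fi44 : fI D1 44 = true := by decide +kernel
theorem D1_fi84 : fI D1 84 = true := by decide +kernel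
theorem D1_fi76 : fI D1 76 = true := by decide +kernel
theorem D1_fi60 : fI D1 60 = true := by decide +kernel
theorem D1_fw40 : fW D1 40 = true := by decide +kernel
theorem D1_fw36 : fW D1 36 = true := by decide +kernel

end Pool.Agent.Lib.MP_1b8c51_co.RY
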