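import Pool.Agent.Lib.MP_1b8c51_co.RYD1
import Pool.Agent.Lib.MP_1b8c51_co.RYFast

set_option autoImplicit false

namespace Pool.Agent.Lib.MP_1b8c51_co.RY

theorem D1_fv72 : fV D1 72 = true := by decide +kernel
theorem D1_fv84 : fV D1 84 = true := by decide +kernel
theorem D1_ff : chkF D1 = true := by decide +kernel
theorem D1_fv52 : fV D1 52 = true := by decide +kernel
theorem D1_fv112 : fV D1 112 = true := by decide +kernel
theorem D1_fv32 : fV D1 32 = true := by decide +kernel
theorem D1_fa44_2 : fA D1 44 2 = true := by decide +kernel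
theorem D1_fa48_2 : fA D1 48 2 = true := by decide +kernel
theorem D1_fa40_2 : fA D1 40 2 = true := by decide +kernel
theorem D1_fa52_2 : fA D1 52 2 = true := by decide +kernel
theorem D1_fa36_3 : fA D1 36 3 = true := by decide +kernel
theorem D1_fa56_3 : fA D1 56 3 = true := by decide +kernel
theorem D1_fv28 : fV D1 28 = true := by decide +kernel
theorem D1_fa32_0 : fA D1 32 0 = true := by decide +kernel
theorem D1_fa60_0 : fA D1 60 0 = true := by decide +kernel
theorem D1_fa28_3 : fA D1 28 3 = true := by decide +kernel
theorem D1_fa68_3 : fA D1 68 3 = true := by decide +kernel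
theorem D1_fa68_0 : fA D1 68 0 = true := by decide +kernel
theorem D1_fa72_1 : fA D1 72 1 = true := by decide +kernel
theorem D1_fa76_2 : fA D1 76 2 = true := by decide +kernel
theorem D1_fa84_2 : fA D1 84 2 = true := by decide +kernel
theorem D1_fa80_2 : fA D1 80 2 = true := by decide +kernel
theorem D1_fa24_2 : fA D1 24 2 = true := by decide +kernel
theorem D1_fa20_2 : fA D1 20 2 = true := by decide +kernel
theorem D1_fi28 : fI D1 28 = true := by decide +kernel
theorem D1_fi48 : fI D1 48 = true := by decide +kernel
theorem D1_fi56 : fI D1 56 = true := by decide +kernel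
theorem D1_fi72 : fI D1 72 = true := by decide +kernel
theorem D1_fw64 : fW D1 64 = true := by decide +kernel
theorem D1_fw48 : fW D1 48 = true := by decide +kernel
theorem D1_fw28 : fW D1 28 = true := by decide +kernel
theorem D1_fp20 : fP D1 20 = true := by decide +kernel

end Pool.Agent.Lib.MP_1b8c51_co.RY
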