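import Pool.Agent.Lib.MP_1b8c51_co.RYD1
import Pool.Agent.Lib.MP_1b8c51_co.RYFast

set_option autoImplicit false

namespace Pool.Agent.Lib.MP_1b8c51_co.RY

theorem D1_fv76 : fV D1 76 = true := by decide +kernel
theorem D1_fv80 : fV D1 80 = true := by decide +kernel
theorem D1_fv96 : fV D1 96 = true := by decide +kernel
theorem D1_fv104 : fV D1 104 = true := by decide +kernel
theorem D1_fv44 : fV D1 44 = true := by decide +kernel
theorem D1_fv36 : fV D1 36 = true := by decide +kernel
theorem D1_fa44_0 : fA D1 44 0 = true := by decide +kernel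
theorem D1_fa48_0 : fA D1 48 0 = true := by decide +kernel
theorem D1_fa52_3 : fA D1 52 3 = true := by decide +kernel
theorem D1_fv120 : fV D1 120 = true := by decide +kernel
theorem D1_fa36_0 : fA D1 36 0 = true := by decide +kernel
theorem D1_fa56_0 : fA D1 56 0 = true := by decide +kernel
theorem D1_fa32_1 : fA D1 32 1 = true := by decide +kernel
theorem D1_fa60_1 : fA D1 60 1 = true := by decide +kernel
theorem D1_fa64_1 : fA D1 64 1 = true := by decide +kernel
theorem D1_fa28_1 : fA D1 28 1 = true := by decide +kernel
theorem D1_fa68_1 : fA D1 68 1 = true := by decide +kernel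
theorem D1_fa72_2 : fA D1 72 2 = true := by decide +kernel
theorem D1_fa76_3 : fA D1 76 3 = true := by decide +kernel
theorem D1_fa76_1 : fA D1 76 1 = true := by decide +kernel
theorem D1_fa84_1 : fA D1 84 1 = true := by decide +kernel
theorem D1_fa80_1 : fA D1 80 1 = true := by decide +kernel
theorem D1_fa24_1 : fA D1 24 1 = true := by decide +kernel
theorem D1_fa20_1 : fA D1 20 1 = true := by decide +kernel
theorem D1_fi36 : fI D1 36 = true := by decide +kernel
theorem D1_fi20 : fI D1 20 = true := by decide +kernel
theorem D1_fi80 : fI D1 80 = true := by decide +kernel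
theorem D1_fi64 : fI D1 64 = true := by decide +kernel
theorem D1_fw56 : fW D1 56 = true := by decide +kernel
theorem D1_fw52 : fW D1 52 = true := by decide +kernel
theorem D1_fw24 : fW D1 24 = true := by decide +kernel
theorem D1_fw20 : fW D1 20 = true := by decide +kernel

end Pool.Agent.Lib.MP_1b8c51_co.RY
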