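import Pool.Agent.Lib.MP_1b8c51_co.RYD1f0
import Pool.Agent.Lib.MP_1b8c51_co.RYD1f1
import Pool.Agent.Lib.MP_1b8c51_co.RYD1f2
import Pool.Agent.Lib.MP_1b8c51_co.RYD1f3

set_option autoImplicit false

namespace Pool.Agent.Lib.MP_1b8c51_co.RY

theorem D1_fchecks : Checks D1 20 where
  hK := by decide
  hm := by decide
  hm' := by decide
  h8 := by decide
  h0 := by decide
  hW := by decide
  hX := by decide
  o1 := by unfold Ok; decide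
  o2 := by unfold Ok; decide
  o3 := rfl
  o4 := rfl
  cF := D1_ff
  cA N h1 h2 h3 := by
    replace h3 : N + 2 < 90 := h3
    rcases (show N = 20 ∨ N = 24 ∨ N = 28 ∨ N = 32 ∨ N = 36 ∨ N = 40 ∨ N = 44 ∨ N = 48 ∨ N = 52 ∨ N = 56 ∨ N = 60 ∨ N = 64 ∨ N = 68 ∨ N = 72 ∨ N = 76 ∨ N = 80 ∨ N = 84 by omega) with rfl | rfl | rfl | rfl | rfl | rfl | rfl | rfl | rfl | rfl | rfl | rfl | rfl | rfl | rfl | rfl | rfl
    · exact ⟨four (fA_to D1_fa20_0) (fA_to D1_fa20_1) (fA_to D1_fa20_2) (fA_to D1_fa20_3), fI_to D1_fi20⟩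
    · exact ⟨four (fA_to D1_fa24_0) (fA_to D1_fa24_1) (fA_to D1_fa24_2) (fA_to D1_fa24_3), fI_to D1_fi24⟩
    · exact ⟨four (fA_to D1_fa28_0) (fA_to D1_fa28_1) (fA_to D1_fa28_2) (fA_to D1_fa28_3), fI_to D1_fi28⟩
    · exact ⟨four (fA_to D1_fa32_0) (fA_to D1_fa32_1) (fA_to D1_fa32_2) (fA_to D1_fa32_3), fI_to D1_fi32⟩
    · exact ⟨four (fA_to D1_fa36_0) (fA_to D1_fa36_1) (fA_to D1_fa36_2) (fA_to D1_fa36_3), fI_to D1_fi36⟩
    · exact ⟨four (fA_to D1_fa40_0) (fA_to D1_fa40_1) (fA_to D1_fa40_2) (fA_to D1_fa40_3), fI_to D1_fi40⟩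
    · exact ⟨four (fA_to D1_fa44_0) (fA_to D1_fa44_1) (fA_to D1_fa44_2) (fA_to D1_fa44_3), fI_to D1_fi44⟩
    · exact ⟨four (fA_to D1_fa48_0) (fA_to D1_fa48_1) (fA_to D1_fa48_2) (fA_to D1_fa48_3), fI_to D1_fi48⟩
    · exact ⟨four (fA_to D1_fa52_0) (fA_to D1_fa52_1) (fA_to D1_fa52_2) (fA_to D1_fa52_3), fI_to D1_fi52⟩
    · exact ⟨four (fA_to D1_fa56_0) (fA_to D1_fa56_1) (fA_to D1_fa56_2) (fA_to D1_fa56_3), fI_to D1_fi56⟩
    · exact ⟨four (fA_to D1_fa60_0) (fA_to D1_fa60_1) (fA_to D1_fa60_2) (fA_to D1_fa60_3), fI_to D1_fi60⟩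
    · exact ⟨four (fA_to D1_fa64_0) (fA_to D1_fa64_1) (fA_to D1_fa64_2) (fA_to D1_fa64_3), fI_to D1_fi64⟩
    · exact ⟨four (fA_to D1_fa68_0) (fA_to D1_fa68_1) (fA_to D1_fa68_2) (fA_to D1_fa68_3), fI_to D1_fi68⟩
    · exact ⟨four (fA_to D1_fa72_0) (fA_to D1_fa72_1) (fA_to D1_fa72_2) (fA_to D1_fa72_3), fI_to D1_fi72⟩
    · exact ⟨four (fA_to D1_fa76_0) (fA_to D1_fa76_1) (fA_to D1_fa76_2) (fA_to D1_fa76_3), fI_to D1_fi76⟩
    · exact ⟨four (fA_to D1_fa80_0) (fA_to D1_fa80_1) (fA_to D1_fa80_2) (fA_to D1_fa80_3), fI_to D1_fi80⟩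
    · exact ⟨four (fA_to D1_fa84_0) (fA_to D1_fa84_1) (fA_to D1_fa84_2) (fA_to D1_fa84_3), fI_to D1_fi84⟩
  cV N h1 h2 h3 := by
    rcases (show N = 20 ∨ N = 24 ∨ N = 28 ∨ N = 32 ∨ N = 36 ∨ N = 40 ∨ N = 44 ∨ N = 48 ∨ N = 52 ∨ N = 56 ∨ N = 60 ∨ N = 64 ∨ N = 68 ∨ N = 72 ∨ N = 76 ∨ N = 80 ∨ N = 84 ∨ N = 88 ∨ N = 92 ∨ N = 96 ∨ N = 100 ∨ N = 104 ∨ N = 108 ∨ N = 112 ∨ N = 116 ∨ N = 120 ∨ N = 124 by omega) with rfl | rfl | rfl | rfl | rfl | rfl | rfl | rfl | rfl | rfl | rfl | rfl | rfl | rfl | rfl | rfl | rfl | rfl | rfl | rfl | rfl | rfl | rfl | rfl | rfl | rfl | rfl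
    · exact fV_to D1_fv20
    · exact fV_to D1_fv24
    · exact fV_to D1_fv28
    · exact fV_to D1_fv32
    · exact fV_to D1_fv36
    · exact fV_to D1_fv40
    · exact fV_to D1_fv44
    · exact fV_to D1_fv48
    · exact fV_to D1_fv52
    · exact fV_to D1_fv56
    · exact fV_to D1_fv60
    · exact fV_to D1_fv64
    · exact fV_to D1_fv68
    · exact fV_to D1_fv72
    · exact fV_to D1_fv76
    · exact fV_to D1_fv80
    · exact fV_to D1_fv84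
    · exact fV_to D1_fv88
    · exact fV_to D1_fv92
    · exact fV_to D1_fv96
    · exact fV_to D1_fv100
    · exact fV_to D1_fv104
    · exact fV_to D1_fv108
    · exact fV_to D1_fv112
    · exact fV_to D1_fv116
    · exact fV_to D1_fv120
    · exact fV_to D1_fv124
  cP N h1 h2 h3 := by
    replace h3 : N < 18 ∨ N < 24 := h3
    obtain rfl : N = 20 := by omega
    · exact fP_to D1_fp20
  cPV N h1 h2 h3 := by
    replace h3 : N < 68 := h3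
    rcases (show N = 20 ∨ N = 24 ∨ N = 28 ∨ N = 32 ∨ N = 36 ∨ N = 40 ∨ N = 44 ∨ N = 48 ∨ N = 52 ∨ N = 56 ∨ N = 60 ∨ N = 64 by omega) with rfl | rfl | rfl | rfl | rfl | rfl | rfl | rfl | rfl | rfl | rfl | rfl
    · exact fW_to D1_fw20
    · exact fW_to D1_fw24
    · exact fW_to D1_fw28
    · exact fW_to D1_fw32
    · exact fW_to D1_fw36
    · exact fW_to D1_fw40
    · exact fW_to D1_fw44
    · exact fW_to D1_fw48
    · exact fW_to D1_fw52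
    · exact fW_to D1_fw56
    · exact fW_to D1_fw60
    · exact fW_to D1_fw64

end Pool.Agent.Lib.MP_1b8c51_co.RY
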