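import Pool.Agent.Lib.MP_1b8c51_co.RYD2
import Pool.Agent.Lib.MP_1b8c51_co.RYFast

set_option autoImplicit false

namespace Pool.Agent.Lib.MP_1b8c51_co.RY

theorem D2_fv68 : fV D2 68 = true := by decide +kernel
theorem D2_fv60 : fV D2 60 = true := by decide +kernel
theorem D2_fv56 : fV D2 56 = true := by decide +kernel
theorem D2_fv100 : fV D2 100 = true := by decide +kernel
theorem D2_fv40 : fV D2 40 = true := by decide +kernel
theorem D2_fp28 : fP D2 28 = true := by decide +kernel
theorem D2_fa48_2 : fA D2 48 2 = true := by decide +kernel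
theorem D2_fa52_2 : fA D2 52 2 = true := by decide +kernel
theorem D2_fa44_2 : fA D2 44 2 = true := by decide +kernel
theorem D2_fa56_3 : fA D2 56 3 = true := by decide +kernel
theorem D2_fa56_0 : fA D2 56 0 = true := by decide +kernel
theorem D2_fa40_0 : fA D2 40 0 = true := by decide +kernel
theorem D2_fa60_0 : fA D2 60 0 = true := by decide +kernel
theorem D2_fa36_1 : fA D2 36 1 = true := by decide +kernel
theorem D2_fa64_2 : fA D2 64 2 = true := by decide +kernel
theorem D2_fa64_0 : fA D2 64 0 = true := by decide +kernel
theorem D2_fa32_0 : fA D2 32 0 = true := by decide +kernel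
theorem D2_fa68_2 : fA D2 68 2 = true := by decide +kernel
theorem D2_fa72_3 : fA D2 72 3 = true := by decide +kernel
theorem D2_fa72_1 : fA D2 72 1 = true := by decide +kernel
theorem D2_fa28_1 : fA D2 28 1 = true := by decide +kernel
theorem D2_fa76_1 : fA D2 76 1 = true := by decide +kernel
theorem D2_fa92_0 : fA D2 92 0 = true := by decide +kernel
theorem D2_fa80_1 : fA D2 80 1 = true := by decide +kernel
theorem D2_fa88_1 : fA D2 88 1 = true := by decide +kernel
theorem D2_fa84_1 : fA D2 84 1 = true := by decide +kernel
theorem D2_fw32 : fW D2 32 = true := by decide +kernel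
theorem D2_fi36 : fI D2 36 = true := by decide +kernel
theorem D2_fi48 : fI D2 48 = true := by decide +kernel
theorem D2_fi88 : fI D2 88 = true := by decide +kernel
theorem D2_fi76 : fI D2 76 = true := by decide +kernel

end Pool.Agent.Lib.MP_1b8c51_co.RY
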