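import Pool.Agent.Lib.MP_1b8c51_co.RYD2
import Pool.Agent.Lib.MP_1b8c51_co.RYFast

set_option autoImplicit false

namespace Pool.Agent.Lib.MP_1b8c51_co.RY

theorem D2_fv72 : fV D2 72 = true := by decide +kernel
theorem D2_fv84 : fV D2 84 = true := by decide +kernel
theorem D2_ff : chkF D2 = true := by decide +kernel
theorem D2_fv52 : fV D2 52 = true := by decide +kernel
theorem D2_fv112 : fV D2 112 = true := by decide +kernel
theorem D2_fv36 : fV D2 36 = true := by decide +kernel
theorem D2_fw72 : fW D2 72 = true := by decide +kernel
theorem D2_fa48_0 : fA D2 48 0 = true := by decide +kernel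
theorem D2_fa52_0 : fA D2 52 0 = true := by decide +kernel
theorem D2_fa56_2 : fA D2 56 2 = true := by decide +kernel
theorem D2_fw68 : fW D2 68 = true := by decide +kernel
theorem D2_fv32 : fV D2 32 = true := by decide +kernel
theorem D2_fa60_2 : fA D2 60 2 = true := by decide +kernel
theorem D2_fa36_3 : fA D2 36 3 = true := by decide +kernel
theorem D2_fa36_0 : fA D2 36 0 = true := by decide +kernel
theorem D2_fa32_3 : fA D2 32 3 = true := by decide +kernel
theorem D2_fa32_2 : fA D2 32 2 = true := by decide +kernel
theorem D2_fv28 : fV D2 28 = true := by decide +kernel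
theorem D2_fa68_0 : fA D2 68 0 = true := by decide +kernel
theorem D2_fa28_3 : fA D2 28 3 = true := by decide +kernel
theorem D2_fa76_3 : fA D2 76 3 = true := by decide +kernel
theorem D2_fa76_0 : fA D2 76 0 = true := by decide +kernel
theorem D2_fw40 : fW D2 40 = true := by decide +kernel
theorem D2_fa80_0 : fA D2 80 0 = true := by decide +kernel
theorem D2_fa88_0 : fA D2 88 0 = true := by decide +kernel
theorem D2_fa84_0 : fA D2 84 0 = true := by decide +kernel
theorem D2_fi32 : fI D2 32 = true := by decide +kernel
theorem D2_fw28 : fW D2 28 = true := by decide +kernel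
theorem D2_fi44 : fI D2 44 = true := by decide +kernel
theorem D2_fi84 : fI D2 84 = true := by decide +kernel
theorem D2_fi68 : fI D2 68 = true := by decide +kernel

end Pool.Agent.Lib.MP_1b8c51_co.RY
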