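import Pool.Agent.Lib.MP_1b8c51_co.RYD2
import Pool.Agent.Lib.MP_1b8c51_co.RYFast

set_option autoImplicit false

namespace Pool.Agent.Lib.MP_1b8c51_co.RY

theorem D2_fv76 : fV D2 76 = true := by decide +kernel
theorem D2_fv80 : fV D2 80 = true := by decide +kernel
theorem D2_fv96 : fV D2 96 = true := by decide +kernel
theorem D2_fv104 : fV D2 104 = true := by decide +kernel
theorem D2_fv44 : fV D2 44 = true := by decide +kernel
theorem D2_fv116 : fV D2 116 = true := by decide +kernel
theorem D2_fa48_1 : fA D2 48 1 = true := by decide +kernel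
theorem D2_fa52_1 : fA D2 52 1 = true := by decide +kernel
theorem D2_fa44_1 : fA D2 44 1 = true := by decide +kernel
theorem D2_fa56_1 : fA D2 56 1 = true := by decide +kernel
theorem D2_fa40_2 : fA D2 40 2 = true := by decide +kernel
theorem D2_fw64 : fW D2 64 = true := by decide +kernel
theorem D2_fa60_3 : fA D2 60 3 = true := by decide +kernel
theorem D2_fv120 : fV D2 120 = true := by decide +kernel
theorem D2_fw60 : fW D2 60 = true := by decide +kernel
theorem D2_fw56 : fW D2 56 = true := by decide +kernel
theorem D2_fw52 : fW D2 52 = true := by decide +kernel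
theorem D2_fa68_1 : fA D2 68 1 = true := by decide +kernel
theorem D2_fa72_2 : fA D2 72 2 = true := by decide +kernel
theorem D2_fa72_0 : fA D2 72 0 = true := by decide +kernel
theorem D2_fa28_0 : fA D2 28 0 = true := by decide +kernel
theorem D2_fa92_3 : fA D2 92 3 = true := by decide +kernel
theorem D2_fa92_2 : fA D2 92 2 = true := by decide +kernel
theorem D2_fa80_3 : fA D2 80 3 = true := by decide +kernel
theorem D2_fa88_3 : fA D2 88 3 = true := by decide +kernel
theorem D2_fa84_3 : fA D2 84 3 = true := by decide +kernel
theorem D2_fv124 : fV D2 124 = true := by decide +kernel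
theorem D2_fi28 : fI D2 28 = true := by decide +kernel
theorem D2_fi56 : fI D2 56 = true := by decide +kernel
theorem D2_fi60 : fI D2 60 = true := by decide +kernel
theorem D2_fi72 : fI D2 72 = true := by decide +kernel

end Pool.Agent.Lib.MP_1b8c51_co.RY
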