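import Pool.Agent.Lib.MP_1b8c51_co.RYD3
import Pool.Agent.Lib.MP_1b8c51_co.RYFast

set_option autoImplicit false

namespace Pool.Agent.Lib.MP_1b8c51_co.RY

theorem D3_fv68 : fV D3 68 = true := by decide +kernel
theorem D3_fv60 : fV D3 60 = true := by decide +kernel
theorem D3_fv56 : fV D3 56 = true := by decide +kernel
theorem D3_fv100 : fV D3 100 = true := by decide +kernel
theorem D3_fw72 : fW D3 72 = true := by decide +kernel
theorem D3_fw64 : fW D3 64 = true := by decide +kernel
theorem D3_fv116 : fV D3 116 = true := by decide +kernel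
theorem D3_fw52 : fW D3 52 = true := by decide +kernel
theorem D3_fa44_3 : fA D3 44 3 = true := by decide +kernel
theorem D3_fa48_3 : fA D3 48 3 = true := by decide +kernel
theorem D3_fa40_3 : fA D3 40 3 = true := by decide +kernel
theorem D3_fw40 : fW D3 40 = true := by decide +kernel
theorem D3_fa52_0 : fA D3 52 0 = true := by decide +kernel
theorem D3_fa56_3 : fA D3 56 3 = true := by decide +kernel
theorem D3_fa56_1 : fA D3 56 1 = true := by decide +kernel
theorem D3_fa32_2 : fA D3 32 2 = true := by decide +kernel
theorem D3_fa60_2 : fA D3 60 2 = true := by decide +kernel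
theorem D3_fa64_3 : fA D3 64 3 = true := by decide +kernel
theorem D3_fa64_1 : fA D3 64 1 = true := by decide +kernel
theorem D3_fa28_2 : fA D3 28 2 = true := by decide +kernel
theorem D3_fa68_1 : fA D3 68 1 = true := by decide +kernel
theorem D3_fa72_2 : fA D3 72 2 = true := by decide +kernel
theorem D3_fv124 : fV D3 124 = true := by decide +kernel
theorem D3_fa84_3 : fA D3 84 3 = true := by decide +kernel
theorem D3_fa84_0 : fA D3 84 0 = true := by decide +kernel
theorem D3_fa24_2 : fA D3 24 2 = true := by decide +kernel
theorem D3_fi28 : fI D3 28 = true := by decide +kernel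
theorem D3_fi24 : fI D3 24 = true := by decide +kernel
theorem D3_fi84 : fI D3 84 = true := by decide +kernel
theorem D3_fi80 : fI D3 80 = true := by decide +kernel
theorem D3_fi64 : fI D3 64 = true := by decide +kernel

end Pool.Agent.Lib.MP_1b8c51_co.RY
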