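import Pool.Agent.Lib.MP_1b8c51_co.RYD3
import Pool.Agent.Lib.MP_1b8c51_co.RYFast

set_option autoImplicit false

namespace Pool.Agent.Lib.MP_1b8c51_co.RY

theorem D3_fv72 : fV D3 72 = true := by decide +kernel
theorem D3_fv84 : fV D3 84 = true := by decide +kernel
theorem D3_ff : chkF D3 = true := by decide +kernel
theorem D3_fv52 : fV D3 52 = true := by decide +kernel
theorem D3_fv44 : fV D3 44 = true := by decide +kernel
theorem D3_fp24 : fP D3 24 = true := by decide +kernel
theorem D3_fw56 : fW D3 56 = true := by decide +kernel
theorem D3_fv36 : fV D3 36 = true := by decide +kernel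
theorem D3_fa44_2 : fA D3 44 2 = true := by decide +kernel
theorem D3_fa48_2 : fA D3 48 2 = true := by decide +kernel
theorem D3_fa40_2 : fA D3 40 2 = true := by decide +kernel
theorem D3_fa52_3 : fA D3 52 3 = true := by decide +kernel
theorem D3_fv120 : fV D3 120 = true := by decide +kernel
theorem D3_fa36_1 : fA D3 36 1 = true := by decide +kernel
theorem D3_fa56_0 : fA D3 56 0 = true := by decide +kernel
theorem D3_fa32_1 : fA D3 32 1 = true := by decide +kernel
theorem D3_fa60_1 : fA D3 60 1 = true := by decide +kernel
theorem D3_fa64_2 : fA D3 64 2 = true := by decide +kernel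
theorem D3_fa64_0 : fA D3 64 0 = true := by decide +kernel
theorem D3_fa28_1 : fA D3 28 1 = true := by decide +kernel
theorem D3_fa68_0 : fA D3 68 0 = true := by decide +kernel
theorem D3_fa72_1 : fA D3 72 1 = true := by decide +kernel
theorem D3_fa76_3 : fA D3 76 3 = true := by decide +kernel
theorem D3_fa76_1 : fA D3 76 1 = true := by decide +kernel
theorem D3_fa84_1 : fA D3 84 1 = true := by decide +kernel
theorem D3_fa80_1 : fA D3 80 1 = true := by decide +kernel
theorem D3_fa24_1 : fA D3 24 1 = true := by decide +kernel
theorem D3_fi40 : fI D3 40 = true := by decide +kernel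
theorem D3_fi52 : fI D3 52 = true := by decide +kernel
theorem D3_fi72 : fI D3 72 = true := by decide +kernel

end Pool.Agent.Lib.MP_1b8c51_co.RY
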