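import Pool.Agent.Lib.MP_1b8c51_co.RYD3
import Pool.Agent.Lib.MP_1b8c51_co.RYFast

set_option autoImplicit false

namespace Pool.Agent.Lib.MP_1b8c51_co.RY

theorem D3_fv76 : fV D3 76 = true := by decide +kernel
theorem D3_fv80 : fV D3 80 = true := by decide +kernel
theorem D3_fv96 : fV D3 96 = true := by decide +kernel
theorem D3_fv104 : fV D3 104 = true := by decide +kernel
theorem D3_fw76 : fW D3 76 = true := by decide +kernel
theorem D3_fv112 : fV D3 112 = true := by decide +kernel
theorem D3_fv40 : fV D3 40 = true := by decide +kernel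
theorem D3_fw44 : fW D3 44 = true := by decide +kernel
theorem D3_fv32 : fV D3 32 = true := by decide +kernel
theorem D3_fa44_0 : fA D3 44 0 = true := by decide +kernel
theorem D3_fa48_0 : fA D3 48 0 = true := by decide +kernel
theorem D3_fa40_0 : fA D3 40 0 = true := by decide +kernel
theorem D3_fa52_1 : fA D3 52 1 = true := by decide +kernel
theorem D3_fa36_0 : fA D3 36 0 = true := by decide +kernel
theorem D3_fw36 : fW D3 36 = true := by decide +kernel
theorem D3_fa32_3 : fA D3 32 3 = true := by decide +kernel
theorem D3_fa60_3 : fA D3 60 3 = true := by decide +kernel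
theorem D3_fa60_0 : fA D3 60 0 = true := by decide +kernel
theorem D3_fa28_3 : fA D3 28 3 = true := by decide +kernel
theorem D3_fa68_3 : fA D3 68 3 = true := by decide +kernel
theorem D3_fa68_2 : fA D3 68 2 = true := by decide +kernel
theorem D3_fa72_3 : fA D3 72 3 = true := by decide +kernel
theorem D3_fw24 : fW D3 24 = true := by decide +kernel
theorem D3_fa84_2 : fA D3 84 2 = true := by decide +kernel
theorem D3_fa80_2 : fA D3 80 2 = true := by decide +kernel
theorem D3_fa24_3 : fA D3 24 3 = true := by decide +kernel
theorem D3_fi32 : fI D3 32 = true := by decide +kernel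
theorem D3_fi36 : fI D3 36 = true := by decide +kernel
theorem D3_fi56 : fI D3 56 = true := by decide +kernel
theorem D3_fi76 : fI D3 76 = true := by decide +kernel
theorem D3_fi60 : fI D3 60 = true := by decide +kernel

end Pool.Agent.Lib.MP_1b8c51_co.RY
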