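import Pool.Agent.Lib.MP_1b8c51_co.RYD4
import Pool.Agent.Lib.MP_1b8c51_co.RYFast

set_option autoImplicit false

namespace Pool.Agent.Lib.MP_1b8c51_co.RY

theorem D4_fv68 : fV D4 68 = true := by decide +kernel
theorem D4_fv60 : fV D4 60 = true := by decide +kernel
theorem D4_fv56 : fV D4 56 = true := by decide +kernel
theorem D4_fw76 : fW D4 76 = true := by decide +kernel
theorem D4_fv48 : fV D4 48 = true := by decide +kernel
theorem D4_fw60 : fW D4 60 = true := by decide +kernel
theorem D4_fw48 : fW D4 48 = true := by decide +kernel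
theorem D4_fv40 : fV D4 40 = true := by decide +kernel
theorem D4_fa48_3 : fA D4 48 3 = true := by decide +kernel
theorem D4_fa48_1 : fA D4 48 1 = true := by decide +kernel
theorem D4_fa52_1 : fA D4 52 1 = true := by decide +kernel
theorem D4_fa44_1 : fA D4 44 1 = true := by decide +kernel
theorem D4_fa56_0 : fA D4 56 0 = true := by decide +kernel
theorem D4_fa40_0 : fA D4 40 0 = true := by decide +kernel
theorem D4_fa60_0 : fA D4 60 0 = true := by decide +kernel
theorem D4_fa36_1 : fA D4 36 1 = true := by decide +kernel
theorem D4_fa64_2 : fA D4 64 2 = true := by decide +kernel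
theorem D4_fa64_0 : fA D4 64 0 = true := by decide +kernel
theorem D4_fa68_3 : fA D4 68 3 = true := by decide +kernel
theorem D4_fa68_1 : fA D4 68 1 = true := by decide +kernel
theorem D4_fa72_0 : fA D4 72 0 = true := by decide +kernel
theorem D4_fa28_1 : fA D4 28 1 = true := by decide +kernel
theorem D4_fa76_1 : fA D4 76 1 = true := by decide +kernel
theorem D4_fa92_3 : fA D4 92 3 = true := by decide +kernel
theorem D4_fa92_0 : fA D4 92 0 = true := by decide +kernel
theorem D4_fa80_0 : fA D4 80 0 = true := by decide +kernel
theorem D4_fa84_3 : fA D4 84 3 = true := by decide +kernel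
theorem D4_fi40 : fI D4 40 = true := by decide +kernel
theorem D4_fi52 : fI D4 52 = true := by decide +kernel
theorem D4_fi92 : fI D4 92 = true := by decide +kernel
theorem D4_fi80 : fI D4 80 = true := by decide +kernel
theorem D4_fi64 : fI D4 64 = true := by decide +kernel

end Pool.Agent.Lib.MP_1b8c51_co.RY
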