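import Pool.Agent.Lib.MP_1b8c51_co.RYD4
import Pool.Agent.Lib.MP_1b8c51_co.RYFast

set_option autoImplicit false

namespace Pool.Agent.Lib.MP_1b8c51_co.RY

theorem D4_fv72 : fV D4 72 = true := by decide +kernel
theorem D4_fv84 : fV D4 84 = true := by decide +kernel
theorem D4_ff : chkF D4 = true := by decide +kernel
theorem D4_fv100 : fV D4 100 = true := by decide +kernel
theorem D4_fv104 : fV D4 104 = true := by decide +kernel
theorem D4_fp28 : fP D4 28 = true := by decide +kernel
theorem D4_fv112 : fV D4 112 = true := by decide +kernel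
theorem D4_fw44 : fW D4 44 = true := by decide +kernel
theorem D4_fa48_2 : fA D4 48 2 = true := by decide +kernel
theorem D4_fa48_0 : fA D4 48 0 = true := by decide +kernel
theorem D4_fa52_0 : fA D4 52 0 = true := by decide +kernel
theorem D4_fa56_3 : fA D4 56 3 = true := by decide +kernel
theorem D4_fa56_1 : fA D4 56 1 = true := by decide +kernel
theorem D4_fa40_1 : fA D4 40 1 = true := by decide +kernel
theorem D4_fa60_1 : fA D4 60 1 = true := by decide +kernel
theorem D4_fa36_2 : fA D4 36 2 = true := by decide +kernel
theorem D4_fa64_3 : fA D4 64 3 = true := by decide +kernel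
theorem D4_fa64_1 : fA D4 64 1 = true := by decide +kernel
theorem D4_fv28 : fV D4 28 = true := by decide +kernel
theorem D4_fa72_3 : fA D4 72 3 = true := by decide +kernel
theorem D4_fa72_2 : fA D4 72 2 = true := by decide +kernel
theorem D4_fa28_3 : fA D4 28 3 = true := by decide +kernel
theorem D4_fa76_3 : fA D4 76 3 = true := by decide +kernel
theorem D4_fi36 : fI D4 36 = true := by decide +kernel
theorem D4_fa92_1 : fA D4 92 1 = true := by decide +kernel
theorem D4_fa80_1 : fA D4 80 1 = true := by decide +kernel
theorem D4_fa88_1 : fA D4 88 1 = true := by decide +kernel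
theorem D4_fa84_1 : fA D4 84 1 = true := by decide +kernel
theorem D4_fi44 : fI D4 44 = true := by decide +kernel
theorem D4_fi84 : fI D4 84 = true := by decide +kernel
theorem D4_fi68 : fI D4 68 = true := by decide +kernel

end Pool.Agent.Lib.MP_1b8c51_co.RY
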