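import Pool.Agent.Lib.MP_1b8c51_co.RYD4
import Pool.Agent.Lib.MP_1b8c51_co.RYFast

set_option autoImplicit false

namespace Pool.Agent.Lib.MP_1b8c51_co.RY

theorem D4_fv76 : fV D4 76 = true := by decide +kernel
theorem D4_fv80 : fV D4 80 = true := by decide +kernel
theorem D4_fv96 : fV D4 96 = true := by decide +kernel
theorem D4_fw72 : fW D4 72 = true := by decide +kernel
theorem D4_fw68 : fW D4 68 = true := by decide +kernel
theorem D4_fw56 : fW D4 56 = true := by decide +kernel
theorem D4_fw52 : fW D4 52 = true := by decide +kernel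
theorem D4_fw40 : fW D4 40 = true := by decide +kernel
theorem D4_fw36 : fW D4 36 = true := by decide +kernel
theorem D4_fa52_3 : fA D4 52 3 = true := by decide +kernel
theorem D4_fa44_3 : fA D4 44 3 = true := by decide +kernel
theorem D4_fa44_0 : fA D4 44 0 = true := by decide +kernel
theorem D4_fa40_3 : fA D4 40 3 = true := by decide +kernel
theorem D4_fa40_2 : fA D4 40 2 = true := by decide +kernel
theorem D4_fa60_2 : fA D4 60 2 = true := by decide +kernel
theorem D4_fa36_3 : fA D4 36 3 = true := by decide +kernel
theorem D4_fa36_0 : fA D4 36 0 = true := by decide +kernel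
theorem D4_fa32_2 : fA D4 32 2 = true := by decide +kernel
theorem D4_fa32_0 : fA D4 32 0 = true := by decide +kernel
theorem D4_fa68_0 : fA D4 68 0 = true := by decide +kernel
theorem D4_fi32 : fI D4 32 = true := by decide +kernel
theorem D4_fa28_0 : fA D4 28 0 = true := by decide +kernel
theorem D4_fa76_0 : fA D4 76 0 = true := by decide +kernel
theorem D4_fa92_2 : fA D4 92 2 = true := by decide +kernel
theorem D4_fa80_3 : fA D4 80 3 = true := by decide +kernel
theorem D4_fa88_3 : fA D4 88 3 = true := by decide +kernel
theorem D4_fa88_0 : fA D4 88 0 = true := by decide +kernel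
theorem D4_fa84_0 : fA D4 84 0 = true := by decide +kernel
theorem D4_fi56 : fI D4 56 = true := by decide +kernel
theorem D4_fi60 : fI D4 60 = true := by decide +kernel
theorem D4_fi76 : fI D4 76 = true := by decide +kernel

end Pool.Agent.Lib.MP_1b8c51_co.RY
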