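import Pool.Agent.Lib.MP_1b8c51_co.RYD4f0
import Pool.Agent.Lib.MP_1b8c51_co.RYD4f1
import Pool.Agent.Lib.MP_1b8c51_co.RYD4f2
import Pool.Agent.Lib.MP_1b8c51_co.RYD4f3

set_option autoImplicit false

namespace Pool.Agent.Lib.MP_1b8c51_co.RY

theorem D4_fchecks : Checks D4 28 where
  hK := by decide
  hm := by decide
  hm' := by decide
  h8 := by decide
  h0 := by decide
  hW := by decide
  hX := by decide
  o1 := by unfold Ok; decide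
  o2 := by unfold Ok; decide
  o3 := rfl
  o4 := rfl
  cF := D4_ff
  cA N h1 h2 h3 := by
    replace h3 : N + 2 < 96 := h3
    rcases (show N = 28 ∨ N = 32 ∨ N = 36 ∨ N = 40 ∨ N = 44 ∨ N = 48 ∨ N = 52 ∨ N = 56 ∨ N = 60 ∨ N = 64 ∨ N = 68 ∨ N = 72 ∨ N = 76 ∨ N = 80 ∨ N = 84 ∨ N = 88 ∨ N = 92 by omega) with rfl | rfl | rfl | rfl | rfl | rfl | rfl | rfl | rfl | rfl | rfl | rfl | rfl | rfl | rfl | rfl | rfl
    · exact ⟨four (fA_to D4_fa28_0) (fA_to D4_fa28_1) (fA_to D4_fa28_2) (fA_to D4_fa28_3), fI_to D4_fi28⟩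
    · exact ⟨four (fA_to D4_fa32_0) (fA_to D4_fa32_1) (fA_to D4_fa32_2) (fA_to D4_fa32_3), fI_to D4_fi32⟩
    · exact ⟨four (fA_to D4_fa36_0) (fA_to D4_fa36_1) (fA_to D4_fa36_2) (fA_to D4_fa36_3), fI_to D4_fi36⟩
    · exact ⟨four (fA_to D4_fa40_0) (fA_to D4_fa40_1) (fA_to D4_fa40_2) (fA_to D4_fa40_3), fI_to D4_fi40⟩
    · exact ⟨four (fA_to D4_fa44_0) (fA_to D4_fa44_1) (fA_to D4_fa44_2) (fA_to D4_fa44_3), fI_to D4_fi44⟩
    · exact ⟨four (fA_to D4_fa48_0) (fA_to D4_fa48_1) (fA_to D4_fa48_2) (fA_to D4_fa48_3), fI_to D4_fi48⟩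
    · exact ⟨four (fA_to D4_fa52_0) (fA_to D4_fa52_1) (fA_to D4_fa52_2) (fA_to D4_fa52_3), fI_to D4_fi52⟩
    · exact ⟨four (fA_to D4_fa56_0) (fA_to D4_fa56_1) (fA_to D4_fa56_2) (fA_to D4_fa56_3), fI_to D4_fi56⟩
    · exact ⟨four (fA_to D4_fa60_0) (fA_to D4_fa60_1) (fA_to D4_fa60_2) (fA_to D4_fa60_3), fI_to D4_fi60⟩
    · exact ⟨four (fA_to D4_fa64_0) (fA_to D4_fa64_1) (fA_to D4_fa64_2) (fA_to D4_fa64_3), fI_to D4_fi64⟩
    · exact ⟨four (fA_to D4_fa68_0) (fA_to D4_fa68_1) (fA_to D4_fa68_2) (fA_to D4_fa68_3), fI_to D4_fi68⟩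
    · exact ⟨four (fA_to D4_fa72_0) (fA_to D4_fa72_1) (fA_to D4_fa72_2) (fA_to D4_fa72_3), fI_to D4_fi72⟩
    · exact ⟨four (fA_to D4_fa76_0) (fA_to D4_fa76_1) (fA_to D4_fa76_2) (fA_to D4_fa76_3), fI_to D4_fi76⟩
    · exact ⟨four (fA_to D4_fa80_0) (fA_to D4_fa80_1) (fA_to D4_fa80_2) (fA_to D4_fa80_3), fI_to D4_fi80⟩
    · exact ⟨four (fA_to D4_fa84_0) (fA_to D4_fa84_1) (fA_to D4_fa84_2) (fA_to D4_fa84_3), fI_to D4_fi84⟩
    · exact ⟨four (fA_to D4_fa88_0) (fA_to D4_fa88_1) (fA_to D4_fa88_2) (fA_to D4_fa88_3), fI_to D4_fi88⟩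
    · exact ⟨four (fA_to D4_fa92_0) (fA_to D4_fa92_1) (fA_to D4_fa92_2) (fA_to D4_fa92_3), fI_to D4_fi92⟩
  cV N h1 h2 h3 := by
    rcases (show N = 28 ∨ N = 32 ∨ N = 36 ∨ N = 40 ∨ N = 44 ∨ N = 48 ∨ N = 52 ∨ N = 56 ∨ N = 60 ∨ N = 64 ∨ N = 68 ∨ N = 72 ∨ N = 76 ∨ N = 80 ∨ N = 84 ∨ N = 88 ∨ N = 92 ∨ N = 96 ∨ N = 100 ∨ N = 104 ∨ N = 108 ∨ N = 112 ∨ N = 116 ∨ N = 120 ∨ N = 124 by omega) with rfl | rfl | rfl | rfl | rfl | rfl | rfl | rfl | rfl | rfl | rfl | rfl | rfl | rfl | rfl | rfl | rfl | rfl | rfl | rfl | rfl | rfl | rfl | rfl | rfl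
    · exact fV_to D4_fv28
    · exact fV_to D4_fv32
    · exact fV_to D4_fv36
    · exact fV_to D4_fv40
    · exact fV_to D4_fv44
    · exact fV_to D4_fv48
    · exact fV_to D4_fv52
    · exact fV_to D4_fv56
    · exact fV_to D4_fv60
    · exact fV_to D4_fv64
    · exact fV_to D4_fv68
    · exact fV_to D4_fv72
    · exact fV_to D4_fv76
    · exact fV_to D4_fv80
    · exact fV_to D4_fv84
    · exact fV_to D4_fv88
    · exact fV_to D4_fv92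
    · exact fV_to D4_fv96
    · exact fV_to D4_fv100
    · exact fV_to D4_fv104
    · exact fV_to D4_fv108
    · exact fV_to D4_fv112
    · exact fV_to D4_fv116
    · exact fV_to D4_fv120
    · exact fV_to D4_fv124
  cP N h1 h2 h3 := by
    replace h3 : N < 30 ∨ N < 32 := h3
    obtain rfl : N = 28 := by omega
    · exact fP_to D4_fp28
  cPV N h1 h2 h3 := by
    replace h3 : N < 78 := h3
    rcases (show N = 28 ∨ N = 32 ∨ N = 36 ∨ N = 40 ∨ N = 44 ∨ N = 48 ∨ N = 52 ∨ N = 56 ∨ N = 60 ∨ N = 64 ∨ N = 68 ∨ N = 72 ∨ N = 76 by omega) with rfl | rfl | rfl | rfl | rfl | rfl | rfl | rfl | rfl | rfl | rfl | rfl | rfl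
    · exact fW_to D4_fw28
    · exact fW_to D4_fw32
    · exact fW_to D4_fw36
    · exact fW_to D4_fw40
    · exact fW_to D4_fw44
    · exact fW_to D4_fw48
    · exact fW_to D4_fw52
    · exact fW_to D4_fw56
    · exact fW_to D4_fw60
    · exact fW_to D4_fw64
    · exact fW_to D4_fw68
    · exact fW_to D4_fw72
    · exact fW_to D4_fw76

end Pool.Agent.Lib.MP_1b8c51_co.RY
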