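import Pool.Agent.Lib.MP_1b8c51_co.RY_G
import Pool.Agent.Lib.MP_1b8c51_co.RYD1g
import Pool.Agent.Lib.MP_1b8c51_co.RYD2g
import Pool.Agent.Lib.MP_1b8c51_co.RYD3g
import Pool.Agent.Lib.MP_1b8c51_co.RYD4g

set_option autoImplicit false

namespace Pool.Agent.Lib.MP_1b8c51_co.RY

/-- the formula for the four infinite families -/
theorem g_big (r : ℕ) (hr : 29 ≤ r ∨ r = 21 ∨ r = 25 ∨ r = 27) :
    genus (deBruijn r 2) = ((r - 3) * (r + 1) * (5 * r - 8) + 23) / 24 := by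
  have h4 : r % 4 = 1 ∨ r % 4 = 2 ∨ r % 4 = 3 ∨ r % 4 = 0 := by omega
  rcases h4 with h4 | h4 | h4 | h4
  · obtain ⟨N, rfl⟩ : ∃ N, r = N + 1 := ⟨r - 1, by omega⟩
    exact st_FIN _ _ (by omega) (cert_all D1_fchecks (N := N) (by omega) (by omega))
  · obtain ⟨N, rfl⟩ : ∃ N, r = N + 2 := ⟨r - 2, by omega⟩
    exact st_FIN _ _ (by omega) (cert_all D2_fchecks (N := N) (by omega) (by omega))
  · obtain ⟨N, rfl⟩ : ∃ N, r = N + 3 := ⟨r - 3, by omega⟩
    exact st_FIN _ _ (by omega) (cert_all D3_fchecks (N := N) (by omega) (by omega))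
  · obtain ⟨N, rfl⟩ : ∃ N, r = N + 4 := ⟨r - 4, by omega⟩
    exact st_FIN _ _ (by omega) (cert_all D4_fchecks (N := N) (by omega) (by omega))

/-- from the formula in natural numbers to the ceiling -/
theorem to_ceil (r g : ℕ) (hr : 2 ≤ r) (h : g = ((r - 3) * (r + 1) * (5 * r - 8) + 23) / 24) :
    (g : ℤ) = ⌈((r : ℚ) - 3) * (r + 1) * (5 * r - 8) / 24⌉ := by
  rcases Nat.eq_or_lt_of_le hr with rfl | hr
  · rw [h, eq_comm, Int.ceil_eq_iff]
    norm_num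
  have e : ((r : ℚ) - 3) * (r + 1) * (5 * r - 8) = (((r - 3) * (r + 1) * (5 * r - 8) : ℕ) : ℚ) := by
    push_cast [Nat.cast_sub (show 3 ≤ r by omega), Nat.cast_sub (show 8 ≤ 5 * r by omega)]
    ring
  rw [h, e]
  generalize (r - 3) * (r + 1) * (5 * r - 8) = P
  symm
  rw [Int.ceil_eq_iff]
  have h1 : 24 * ((P + 23) / 24) ≤ P + 23 := by omega
  have h2 : P ≤ 24 * ((P + 23) / 24) := by omega
  generalize (P + 23) / 24 = g at h1 h2
  have h3 : (24 : ℚ) * g ≤ P + 23 := by exact_mod_cast h1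
  have h4 : (P : ℚ) ≤ 24 * g := by exact_mod_cast h2
  constructor <;> push_cast <;> linarith

end Pool.Agent.Lib.MP_1b8c51_co.RY
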