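import Pool.Agent.Lib.MP_1b8c51_co.UniC

set_option autoImplicit false

namespace Pool.Agent.Lib.MP_1b8c51_co.RY

/-- coded dart `(a, b, c, d)`: from the word `ab` to the word `cd` -/
abbrev Q : Type := ℕ × ℕ × ℕ × ℕ

/-- the coded dart is a dart of `deBruijn r 2` -/
def Ok (r : ℕ) (q : Q) : Prop :=
  q.1 < r ∧ q.2.1 < r ∧ q.2.2.1 < r ∧ q.2.2.2 < r ∧ ¬ (q.1 = q.2.2.1 ∧ q.2.1 = q.2.2.2) ∧
    (q.2.2.1 = q.2.1 ∨ q.2.2.2 = q.1)

/-- reversed dart -/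
def rev (q : Q) : Q := (q.2.2.1, q.2.2.2, q.1, q.2.1)

/-- a coded face map with triangles and quadrilaterals only, almost the largest possible number of
triangles, and at most one pinched vertex -/
structure Cert (r : ℕ) (φ : Q → Q) : Prop where
  ok : ∀ q, Ok r q → Ok r (φ q) ∧ (φ q).1 = q.2.2.1 ∧ (φ q).2.1 = q.2.2.2
  per : ∀ q, Ok r q → φ^[3] q = q ∨ φ^[4] q = q
  dir : ∀ a b c, a < r → b < r → c < r → a ≠ b → b ≠ c → a ≠ c →
    (φ (a, b, b, c) = (b, c, c, a) ∧ φ^[3] (a, b, b, c) = (a, b, b, c)) ∨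
    (φ (b, c, a, b) = (a, b, c, a) ∧ φ^[3] (b, c, a, b) = (b, c, a, b))
  cst : ∃ X : Finset Q, X.card ≤ 3 ∧ ∀ q, Ok r q → q.1 = q.2.1 → q ∉ X → φ^[3] q = q
  con : ∃ p0 q0 : Q, Ok r p0 ∧ Ok r q0 ∧ p0.1 = q0.1 ∧ p0.2.1 = q0.2.1 ∧
    ∀ E : Q → Q → Prop, Equivalence E → (∀ q, Ok r q → E q (φ (rev q))) → E p0 q0 →
      ∀ q q', Ok r q → Ok r q' → q.1 = q'.1 → q.2.1 = q'.2.1 → E q q'

/-- number of darts -/
def St_DC : Prop := ∀ r : ℕ, Fintype.card (Dt r 2) = r * (r - 1) * (2 * r + 1)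

/-- refined Euler count -/
def St_LB : Prop := ∀ r : ℕ, 3 ≤ r → ∀ σ : Equiv.Perm (Dt r 2), IsRotation (deBruijn r 2) σ →
  12 * faces (deBruijn r 2) σ ≤ 7 * ((r - 1) * r * (r + 1))

/-- the Euler characteristic of a rotation system is even -/
def St_PAR : Prop := ∀ r : ℕ, 2 ≤ r → ∀ σ : Equiv.Perm (Dt r 2), IsRotation (deBruijn r 2) σ →
  Even (r ^ 2 + Nat.card (deBruijn r 2).edgeSet + faces (deBruijn r 2) σ)

/-- one pinched vertex costs at most one face -/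
def St_MERGE : Prop := ∀ (r : ℕ) (π : Equiv.Perm (Dt r 2)) (d0 e0 : Dt r 2),
  (∀ d, (π d).fst = d.fst) → d0.fst = e0.fst →
  (∀ E : Dt r 2 → Dt r 2 → Prop, Equivalence E → (∀ d, E d (π d)) → E d0 e0 →
    ∀ d e, d.fst = e.fst → E d e) →
  ∃ σ, IsRotation (deBruijn r 2) σ ∧ faces (deBruijn r 2) π ≤ faces (deBruijn r 2) σ + 1

/-- from the coded map to a permutation of the darts, with the count of its faces -/
def St_CNT : Prop := ∀ (r : ℕ) (φ : Q → Q), 3 ≤ r → Cert r φ →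
  ∃ (π : Equiv.Perm (Dt r 2)) (d0 e0 : Dt r 2), (∀ d, (π d).fst = d.fst) ∧ d0.fst = e0.fst ∧
    (∀ E : Dt r 2 → Dt r 2 → Prop, Equivalence E → (∀ d, E d (π d)) → E d0 e0 →
      ∀ d e, d.fst = e.fst → E d e) ∧
    7 * ((r - 1) * r * (r + 1)) ≤ 12 * faces (deBruijn r 2) π + 9

/-- the genus formula from a certificate -/
def St_FIN : Prop := ∀ (r : ℕ) (φ : Q → Q), 3 ≤ r → Cert r φ →
  genus (deBruijn r 2) = ((r - 3) * (r + 1) * (5 * r - 8) + 23) / 24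

end Pool.Agent.Lib.MP_1b8c51_co.RY
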