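import Pool.Agent.Lib.MP_1b8c51_co.RYBase

set_option autoImplicit false

/-! The rotations of the rule are connected, for every size. -/

namespace Pool.Agent.Lib.MP_1b8c51_co.RY

def Con (r : ℕ) (R : Q → Q) (a b : ℕ) (p q : Q) : Prop :=
  ∀ E : Q → Q → Prop, Equivalence E → (∀ d, Ok r d → d.1 = a → d.2.1 = b → E d (R d)) → E p q →
    ∀ d e, Ok r d → Ok r e → d.1 = a → d.2.1 = b → e.1 = a → e.2.1 = b → E d e

lemma Con.any {r : ℕ} {R : Q → Q} {a b : ℕ} {p : Q} (h : Con r R a b p p) (p' q' : Q) :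
    Con r R a b p' q' := fun E hE h1 _ => h E hE h1 (hE.refl p)

section walk

variable {S Y : ℕ → ℕ → ℕ → ℕ → ℕ} {r a b : ℕ}

lemma bit_one (n i : ℕ) (h : (Nat.shiftLeft 1 n).testBit i = true) : i = n := by
  have : Nat.shiftLeft 1 n = 2 ^ n := Nat.one_shiftLeft n
  rw [this, Nat.testBit_two_pow] at h
  exact (of_decide_eq_true h).symm

lemma walk_sound (hok : ∀ d, Ok r d → d.1 = a → d.2.1 = b → Ok r (rotG S Y d)) (P : Q → Prop)
    (hP : ∀ d, Ok r d → d.1 = a → d.2.1 = b → P d → P (rotG S Y d)) (f : ℕ → Bool) (n : ℕ) :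
    ∀ c d M, Ok r (a, b, c, d) → P (a, b, c, d) →
      (∀ i, M.testBit i = true → ∃ e g, Ok r (a, b, e, g) ∧ cod b e g = i ∧ P (a, b, e, g)) →
      walk S Y a b n c d M f = true → ∃ M', f M' = true ∧
        ∀ i, M'.testBit i = true → ∃ e g, Ok r (a, b, e, g) ∧ cod b e g = i ∧ P (a, b, e, g) := by
  induction n with
  | zero => intro c d M _ _ h1 h2; exact ⟨M, h2, h1⟩
  | succ n ih =>
    intro c d M h0 h1 h2 h3
    have h4 : frc (Nat.lor M (Nat.shiftLeft 1 (cod b c d))) (fun M' =>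
      rotK S Y a b c d fun e g => walk S Y a b n e g M' f) = true := h3
    rw [frc_eq, rotK_eq] at h4
    refine ih _ _ _ (hok _ h0 rfl rfl) (hP _ h0 rfl rfl h1) (fun i hi => ?_) h4
    have h5 : (M ||| Nat.shiftLeft 1 (cod b c d)).testBit i = true := hi
    rw [Nat.testBit_or, Bool.or_eq_true] at h5
    rcases h5 with h5 | h5
    · exact h2 i h5
    · exact ⟨c, d, h0, (bit_one _ _ h5).symm, h1⟩

lemma cod_eq (b c d : ℕ) : cod b c d = if c = b then 2 * d else 2 * c + 1 := by
  simp only [cod, side_eq, third_eq]; split_ifs <;> rfl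

lemma full_sound {M : ℕ} (h : fullB r a b M = true) {P : Q → Prop}
    (hM : ∀ i, M.testBit i = true → ∃ e g, Ok r (a, b, e, g) ∧ cod b e g = i ∧ P (a, b, e, g))
    (d : Q) (hd : Ok r d) (h1 : d.1 = a) (h2 : d.2.1 = b) : P d := by
  obtain ⟨a', b', c, d⟩ := d
  obtain rfl : a' = a := h1
  obtain rfl : b' = b := h2
  rw [fullB, Nat.beq_eq] at h
  have h3 : (M ||| Nat.shiftLeft 1 (2 * b' + 1) |||
      sel (Nat.beq a' b') (Nat.shiftLeft 1 (2 * a')) 0) = 2 ^ (2 * r) - 1 := by
    rw [← Nat.one_shiftLeft]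
    exact Nat.eq_sub_of_add_eq h
  have h4 : (2 ^ (2 * r) - 1).testBit (cod b' c d) = true := by
    rw [Nat.testBit_two_pow_sub_one, decide_eq_true_eq, cod_eq]
    simp only [Ok] at hd
    split_ifs <;> omega
  rw [← h3, Nat.testBit_or, Nat.testBit_or, Bool.or_eq_true, Bool.or_eq_true, sel_beq] at h4
  rcases h4 with (h4 | h4) | h4
  · obtain ⟨e, g, k1, k2, k3⟩ := hM _ h4
    have : e = c ∧ g = d := by
      simp only [Ok, cod_eq] at hd k1 k2
      split_ifs at k2 <;> omega
    rwa [this.1, this.2] at k3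
  · have := bit_one _ _ h4
    rw [cod_eq] at this
    split_ifs at this <;> omega
  · split_ifs at h4
    · have := bit_one _ _ h4
      simp only [Ok, cod_eq] at hd this
      split_ifs at this <;> omega
    · simp at h4

lemma conB_sound (hr : 2 ≤ r) (ha : a < r) (hb : b < r)
    (hok : ∀ d, Ok r d → d.1 = a → d.2.1 = b → Ok r (rotG S Y d)) (h : conB S Y r a b = true)
    (p q : Q) : Con r (rotG S Y) a b p q := by
  intro E hE h1 _
  have h0 : Ok r (a, b, b, sel (Nat.beq b 0) 1 0) := by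
    rw [sel_beq]
    refine ⟨ha, hb, hb, ?_, fun h => ?_, Or.inl rfl⟩
    · show ite _ _ _ < r
      split_ifs <;> omega
    · have : b = ite _ _ _ := h.2
      split_ifs at this <;> omega
  obtain ⟨M, k1, k2⟩ := walk_sound hok (E (a, b, b, sel (Nat.beq b 0) 1 0))
    (fun d o d1 d2 h => hE.trans h (h1 d o d1 d2)) _ _ _ _ 0 h0 (hE.refl _) (by simp) h
  intro d e od oe d1 d2 e1 e2
  exact hE.trans (hE.symm (full_sound k1 k2 d od d1 d2)) (full_sound k1 k2 e oe e1 e2)

lemma conB2_sound {c d e f : ℕ} (o1 : Ok r (a, b, c, d)) (o2 : Ok r (a, b, e, f))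
    (hok : ∀ d, Ok r d → d.1 = a → d.2.1 = b → Ok r (rotG S Y d))
    (h : conB2 S Y r a b c d e f = true) : Con r (rotG S Y) a b (a, b, c, d) (a, b, e, f) := by
  intro E hE h1 h2
  have hP := fun d' o d1 d2 (h : E (a, b, c, d) d') => hE.trans h (h1 d' o d1 d2)
  obtain ⟨M, k1, k2⟩ := walk_sound hok (E (a, b, c, d)) hP _ _ _ _ 0 o1 (hE.refl _) (by simp) h
  obtain ⟨M', k3, k4⟩ := walk_sound hok (E (a, b, c, d)) hP _ _ _ _ M o2 h2 k2 k1
  intro d e od oe d1 d2 e1 e2
  exact hE.trans (hE.symm (full_sound k3 k4 d od d1 d2)) (full_sound k3 k4 e oe e1 e2)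

end walk

/-- the rule far from the vertex moves the third letter by a bounded amount, and joins `z` with
`z + 8` -/
structure FarOK (g : ℕ → ℕ → ℕ) : Prop where
  base : ∀ s z, s < 2 → g s z % 8 / 2 = 2
  per : ∀ s z, g s (z + 8) = g s z
  str : ∀ E : ℕ × ℕ → ℕ × ℕ → Prop, Equivalence E → ∀ s z, s < 2 → 16 ≤ z →
    (∀ s' z', s' < 2 → z ≤ z' + 8 → z' ≤ z + 16 →
      E (s', z') (g s' z' % 2, z' + g s' z' / 8 % 16 - 8)) → E (s, z) (s, z + 8)

section far

variable {D : Dat} {ca cb ab o : ℕ}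

lemma fb_per (s z : ℕ) {j : ℕ} (hj : j % 4 = 0) :
    fb D ca cb ab o s (z + j) = fb D ca cb ab o s z := by
  have : Nat.mod (z + j) 4 = Nat.mod z 4 := by
    show (z + j) % 4 = z % 4
    omega
  rw [fb, fb, this]

lemma reach_sound (E : ℕ × ℕ → ℕ × ℕ → Prop) (hE : Equivalence E) {lo hi s1 z1 j : ℕ}
    (hlo : 8 ≤ lo) (hj : j % 4 = 0)
    (hs : ∀ s' z', s' < 2 → lo + j ≤ z' → z' ≤ hi + j → E (s', z')
      (fb D ca cb ab o s' z' % 2, z' + fb D ca cb ab o s' z' / 8 % 16 - 8)) (n : ℕ) :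
    ∀ s z, s < 2 → reach D ca cb ab o lo hi s1 z1 n s z = true → E (s, z + j) (s1, z1 + j) := by
  induction n with
  | zero => intro s z _ h; exact absurd h Bool.false_ne_true
  | succ n ih =>
    intro s z h2 h
    have h1 : selB (eq2 s z s1 z1) true (selB (Nat.ble lo z) (selB (Nat.ble z hi)
      (frc (Nat.mod (fb D ca cb ab o s z) 2) fun s' => frc (fy D ca cb ab o s z) fun z' =>
        reach D ca cb ab o lo hi s1 z1 n s' z') false) false) = true := h
    simp only [selB_or, selB_and, eq2_true, Nat.ble_eq, frc_eq] at h1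
    rcases h1 with h1 | ⟨k1, k2, k3⟩
    · rw [h1.1, h1.2]; exact hE.refl _
    · have k4 := hs s (z + j) h2 (by omega) (by omega)
      have k5 := ih _ _ (Nat.mod_lt _ (by norm_num)) k3
      rw [fb_per s z hj] at k4
      refine hE.trans k4 ?_
      have k6 : z + j + fb D ca cb ab o s z / 8 % 16 - 8 = fy D ca cb ab o s z + j := by
        show _ = z + fb D ca cb ab o s z / 8 % 16 - 8 + j
        omega
      rw [k6]; exact k5

lemma farV_sound (h : farV D ca cb ab o = true) : FarOK (fb D ca cb ab o) := by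
  have h1 : ∀ s z, s < 2 → z < 4 → fb D ca cb ab o s z % 8 / 2 = 2 ∧
      (reach D ca cb ab o (z + 8) (z + 32) s (z + 24) 20 s (z + 16) = true ∨
        reach D ca cb ab o (z + 8) (z + 32) s (z + 16) 20 s (z + 24) = true) := fun s z hs hz => by
    have := allB_true (allB_true h s hs) z hz
    rw [selB_and, selB_or, Nat.beq_eq] at this
    exact this
  refine ⟨fun s z hs => ?_, fun s z => fb_per s z (by norm_num), fun E hE s z hs hz h2 => ?_⟩
  · have := fb_per (D := D) (ca := ca) (cb := cb) (ab := ab) (o := o) s (z % 4)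
      (j := z - z % 4) (by omega)
    rw [show z % 4 + (z - z % 4) = z by omega] at this
    rw [this]; exact (h1 s _ hs (by omega)).1
  · have k := fun z1 => reach_sound (D := D) (ca := ca) (cb := cb) (ab := ab) (o := o) E hE
      (lo := z % 4 + 8) (hi := z % 4 + 32) (s1 := s) (z1 := z1) (j := z - 16 - z % 4)
    rcases (h1 s (z % 4) hs (by omega)).2 with h3 | h3
    · have := k _ (by omega) (by omega) (fun s' z' a b c => h2 s' z' a (by omega) (by omega)) _ _ _
        hs h3
      rwa [show z % 4 + 16 + (z - 16 - z % 4) = z by omega,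
        show z % 4 + 24 + (z - 16 - z % 4) = z + 8 by omega] at this
    · have := k _ (by omega) (by omega) (fun s' z' a b c => h2 s' z' a (by omega) (by omega)) _ _ _
        hs h3
      rw [show z % 4 + 16 + (z - 16 - z % 4) = z by omega,
        show z % 4 + 24 + (z - 16 - z % 4) = z + 8 by omega] at this
      exact hE.symm this

lemma far_all (h : chkF D = true) {N a b : ℕ} (x : ℕ) (ha : a < N + D.k) (hb : b < N + D.k) :
    FarOK (fb D (cls N a) (cls N b) (cd D.K N a b) (ori N a b x)) := by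
  simp only [chkF, selB_and] at h
  obtain ⟨h1, h2, h3⟩ := h
  by_cases h4 : cd D.K N a b < far D.K
  · have h5 : cls N a < 4 := by
      rw [cd_eq, far_eq] at h4
      rw [cls_eq]
      split_ifs at * <;> omega
    have := farV_sound (allB_true (allB_true h1 _ h5) _ h4)
    have e : fb D (cls N a) (cls N b) (cd D.K N a b) (ori N a b x) =
        fb D (cls N a) 0 (cd D.K N a b) 0 := by
      funext s z
      simp only [fb, core, sel_ble, if_neg (not_le.2 h4), le_refl, if_true]
    rw [e]; exact this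
  · have h5 : cd D.K N a b = far D.K := by
      rw [cd_eq, far_eq] at *
      split_ifs at * <;> omega
    rw [h5]
    by_cases h6 : ori N a b x = 0
    · rw [h6]
      refine farV_sound (allB_true (allB_true h2 _ ?_) _ ?_) <;>
        simp only [cls_eq, Nat.add_eq] <;> split_ifs <;> omega
    · have h7 : ori N a b x = 1 ∧ cls N a < 4 ∧ cls N b < 4 := by
        simp only [ori_eq, cls_eq] at *
        split_ifs at * <;> omega
      rw [h7.1]
      exact farV_sound (allB_true (allB_true h3 _ h7.2.1) _ h7.2.2)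

lemma far_step {N a b s x : ℕ} (hs : s < 2) (h8 : 8 ≤ x) (hx : x + 8 ≤ N) (hb : x ≠ b)
    (h1 : cd D.K N a x = far D.K) (h2 : cd D.K N b x = far D.K) {g : ℕ → ℕ → ℕ}
    (hg : fb D (cls N a) (cls N b) (cd D.K N a b) (ori N a b x) = g) (G : FarOK g) :
    rotB D N (dart a b s x) = dart a b (g s x % 2) (x + g s x / 8 % 16 - 8) := by
  have e1 : side b (dart a b s x).2.2.1 = s := by
    simp only [dart_eq, side_eq]; split_ifs <;> simp_all; omega
  have e2 : third b (dart a b s x).2.2.1 (dart a b s x).2.2.2 = x := by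
    simp only [dart_eq, third_eq]; split_ifs <;> simp_all
  have e3 : byte D N a b s x = g s x := by
    rw [← hg, byte, fb, h1, h2, cls_eq N x, if_neg (by omega)]; rfl
  have e4 := G.base s x hs
  show dart a b (sB D N a b _ _) (yB D N a b _ _) = _
  rw [sB, yB, e1, e2, e3, newy_eq, if_pos (by omega), if_neg (by omega), add_eq, if_neg (by omega),
    if_pos (by omega), if_neg (by omega)]
  rfl

end far

lemma dart_of_ok {r : ℕ} {d : Q} (h : Ok r d) :
    d = dart d.1 d.2.1 (side d.2.1 d.2.2.1) (third d.2.1 d.2.2.1 d.2.2.2) ∧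
      side d.2.1 d.2.2.1 < 2 ∧ third d.2.1 d.2.2.1 d.2.2.2 < r := by
  obtain ⟨a, b, c, d⟩ := d
  simp only [Ok, dart_eq, side_eq, third_eq] at *
  by_cases h1 : c = b
  · simp [h1]; omega
  · have : d = a := by omega
    simp [h1, this]; omega

lemma ok_dart {r a b s x : ℕ} (ha : a < r) (hb : b < r) (hx : x < r) (h1 : x ≠ a) (h2 : x ≠ b) :
    Ok r (dart a b s x) := by
  simp only [dart_eq]; split_ifs
  · exact ⟨ha, hb, hb, hx, fun h => h2 h.2.symm, Or.inl rfl⟩
  · exact ⟨ha, hb, hx, ha, fun h => h1 h.1.symm, Or.inr rfl⟩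

lemma ok_of_ins {N k t p : ℕ} (ht : t ≤ N) {d : Q} (h : Ok (N + p + k) (mp (ins t p) d)) :
    Ok (N + k) d := by
  simp only [Ok, mp, ins] at *
  split_ifs at * <;> omega

lemma con_step {K N k t a b : ℕ} {S S' : ℕ → Prop} {R R' : Q → Q} {g : ℕ → ℕ → ℕ} {p q : Q}
    (E0 : Emb K N (N + 8) (ins t 8) S S') (G : FarOK g) (t1 : 28 ≤ t) (t2 : t + 25 ≤ N)
    (ha : a < N + k) (hb : b < N + k) (wa : Away N t 28 a) (wb : Away N t 28 b)
    (h1 : ∀ d, Ok (N + k) d → d.1 = a → d.2.1 = b → Away N t 14 (third b d.2.2.1 d.2.2.2) →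
      R' (mp (ins t 8) d) = mp (ins t 8) (R d))
    (h2 : ∀ s x, s < 2 → t ≤ x + 14 → x < t + 14 →
      R (dart a b s x) = dart a b (g s x % 2) (x + g s x / 8 % 16 - 8))
    (h3 : ∀ s x, s < 2 → t ≤ x + 16 → x < t + 24 → R' (dart (ins t 8 a) (ins t 8 b) s x) =
      dart (ins t 8 a) (ins t 8 b) (g s x % 2) (x + g s x / 8 % 16 - 8))
    (C : Con (N + k) R a b p q) :
    Con (N + 8 + k) R' (ins t 8 a) (ins t 8 b) (mp (ins t 8) p) (mp (ins t 8) q) := by
  intro E hE hs hpq
  have st : ∀ s x, s < 2 → t ≤ x + 16 → x < t + 24 → E (dart (ins t 8 a) (ins t 8 b) s x)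
      (dart (ins t 8 a) (ins t 8 b) (g s x % 2) (x + g s x / 8 % 16 - 8)) := by
    intro s x k1 k2 k3
    rw [← h3 s x k1 k2 k3]
    refine hs _ (ok_dart (E0.lt ha) (E0.lt hb) (by omega) ?_ ?_) rfl rfl <;>
      simp only [ins, Away] at * <;> split_ifs <;> omega
  have sr : ∀ s z, s < 2 → t ≤ z + 8 → z < t + 8 → E (dart (ins t 8 a) (ins t 8 b) s z)
      (dart (ins t 8 a) (ins t 8 b) s (z + 8)) := fun s z k1 k2 k3 =>
    G.str (fun u v => E (dart (ins t 8 a) (ins t 8 b) u.1 u.2) (dart (ins t 8 a) (ins t 8 b) v.1 v.2))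
      (hE.comap fun u : ℕ × ℕ => dart (ins t 8 a) (ins t 8 b) u.1 u.2) s z k1 (by omega)
      fun s' z' k4 k5 k6 => st s' z' k4 (by omega) (by omega)
  have C1 := C (fun u v => E (mp (ins t 8) u) (mp (ins t 8) v)) (hE.comap (mp (ins t 8))) (by
    intro d od d1 d2
    by_cases hw : Away N t 14 (third b d.2.2.1 d.2.2.2)
    · show E _ _
      rw [← h1 d od d1 d2 hw]
      exact hs _ (E0.ok od) (congrArg (ins t 8) d1) (congrArg (ins t 8) d2)
    obtain ⟨k1, k2, -⟩ := dart_of_ok od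
    rw [d1, d2] at k1
    rw [d2] at k2
    generalize side b d.2.2.1 = s at k1 k2
    generalize third b d.2.2.1 d.2.2.2 = x at k1 hw
    have k3 : t < x + 14 ∧ x < t + 14 := by simp only [Away] at hw; omega
    show E _ _
    rw [k1, h2 s x k2 (by omega) k3.2, mp_dart, mp_dart]
    have k4 : g s x / 8 % 16 < 16 := Nat.mod_lt _ (by norm_num)
    have k5 : g s x % 2 < 2 := Nat.mod_lt _ (by norm_num)
    by_cases k6 : x < t
    · rw [show ins t 8 x = x from if_pos k6]
      refine hE.trans (st s x k2 (by omega) (by omega)) ?_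
      by_cases k7 : x + g s x / 8 % 16 - 8 < t
      · rw [show ins t 8 _ = _ from if_pos k7]; exact hE.refl _
      · rw [show ins t 8 _ = _ from if_neg k7]; exact sr _ _ k5 (by omega) (by omega)
    · rw [show ins t 8 x = x + 8 from if_neg k6]
      have k8 := st s (x + 8) k2 (by omega) (by omega)
      rw [G.per, show x + 8 + g s x / 8 % 16 - 8 = x + g s x / 8 % 16 - 8 + 8 by omega] at k8
      refine hE.trans k8 ?_
      by_cases k7 : x + g s x / 8 % 16 - 8 < t
      · rw [show ins t 8 _ = _ from if_pos k7]; exact hE.symm (sr _ _ k5 (by omega) (by omega))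
      · rw [show ins t 8 _ = _ from if_neg k7]; exact hE.refl _) hpq
  have key : ∀ d', Ok (N + 8 + k) d' → d'.1 = ins t 8 a → d'.2.1 = ins t 8 b →
      ∃ d, Ok (N + k) d ∧ d.1 = a ∧ d.2.1 = b ∧ E d' (mp (ins t 8) d) := by
    intro d' od d1 d2
    obtain ⟨k1, k2, -⟩ := dart_of_ok od
    rw [d1, d2] at k1
    rw [d2] at k2
    generalize side (ins t 8 b) d'.2.2.1 = s at k1 k2
    generalize third (ins t 8 b) d'.2.2.1 d'.2.2.2 = x at k1
    by_cases k3 : t ≤ x ∧ x < t + 8
    · refine ⟨dart a b s x, ok_dart ha hb (by omega) ?_ ?_, rfl, rfl, ?_⟩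
      · simp only [Away] at wa; omega
      · simp only [Away] at wb; omega
      · rw [k1, mp_dart, show ins t 8 x = x + 8 from if_neg (by omega)]
        exact sr _ _ k2 (by omega) k3.2
    · have k4 : mp (ins t 8) (dart a b s (out t 8 x)) = d' := by
        rw [k1, mp_dart, show ins t 8 (out t 8 x) = x by
          simp only [ins, out]; split_ifs <;> omega]
      exact ⟨dart a b s (out t 8 x), ok_of_ins (by omega) (k4.symm ▸ od), rfl, rfl,
        k4.symm ▸ hE.refl _⟩
  intro d' e' od oe d1 d2 e1 e2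
  obtain ⟨d, k1, k2, k3, k4⟩ := key d' od d1 d2
  obtain ⟨e, l1, l2, l3, l4⟩ := key e' oe e1 e2
  exact hE.trans k4 (hE.trans (C1 d e k1 l1 k2 k3 l2 l3) (hE.symm l4))

variable {D : Dat}

lemma away_yB {N t m a b c d : ℕ} (hm : m ≤ 6) (t1 : 28 ≤ t) (t2 : t + 25 ≤ N)
    (wa : Away N t 28 a) (wb : Away N t 28 b) (wx : Away N t 14 (third b c d)) :
    Away N t m (yB D N a b c d) := by
  have ho : byte D N a b (side b c) (third b c d) / 8 % 16 < 16 := Nat.mod_lt _ (by norm_num)
  rw [yB, newy_eq]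
  generalize byte D N a b (side b c) (third b c d) / 8 % 16 = o at ho
  generalize third b c d = x at wx
  simp only [add_eq, Away] at *
  split_ifs <;> omega

lemma all_of_ok {r : ℕ} {S : ℕ → Prop} {d : Q} (h : Ok r d) (ha : S d.1) (hb : S d.2.1)
    (hx : S (third d.2.1 d.2.2.1 d.2.2.2)) : All S d := by
  rw [third_eq] at hx
  split_ifs at hx with h1
  · exact ⟨ha, hb, h1 ▸ hb, hx⟩
  · exact ⟨ha, hb, hx, (h.2.2.2.2.2.resolve_left h1) ▸ ha⟩

lemma all_dart {S : ℕ → Prop} {a b s y : ℕ} (ha : S a) (hb : S b) (hy : S y) :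
    All S (dart a b s y) := by
  rw [dart_eq]; split_ifs
  · exact ⟨ha, hb, hb, hy⟩
  · exact ⟨ha, hb, hy, ha⟩

lemma Away.mono {N t m m' z : ℕ} (h : Away N t m z) (hm : m' ≤ m) : Away N t m' z := by
  simp only [Away] at *; omega

lemma cd_far {K N u x : ℕ} (h : N ≤ u ∨ (u + K < x ∧ x + K < u + N) ∨ (x + K < u ∧ u + K < x + N)) :
    cd K N u x = far K := by
  simp only [cd_eq, dl_eq, far_eq]; split_ifs <;> omega

/-- the two far step hypotheses of `con_step` for the periodic rule -/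
lemma far_steps (hK : D.K < 2 * D.m) (hm : 5 ≤ D.m) (hm' : D.m ≤ 6) (hF : chkF D = true)
    {N t a b : ℕ} (t1 : 28 ≤ t) (t2 : t + 25 ≤ N) (ha : a < N + D.k) (hb : b < N + D.k)
    (wa : Away N t 28 a) (wb : Away N t 28 b) : ∃ g, FarOK g ∧
    (∀ s x, s < 2 → t ≤ x + 14 → x < t + 14 →
      rotB D N (dart a b s x) = dart a b (g s x % 2) (x + g s x / 8 % 16 - 8)) ∧
    (∀ s x, s < 2 → t ≤ x + 16 → x < t + 24 →
      rotB D (N + 8) (dart (ins t 8 a) (ins t 8 b) s x) =
        dart (ins t 8 a) (ins t 8 b) (g s x % 2) (x + g s x / 8 % 16 - 8)) := by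
  have G := far_all hF t ha hb
  have E0 := emb_ins (N := N) (t := t) (p := 8) hK hm (by omega) (by norm_num) (by omega)
  refine ⟨_, G, fun s x k1 k2 k3 => ?_, fun s x k1 k2 k3 => ?_⟩
  · refine far_step k1 (by omega) (by omega) ?_ (cd_far ?_) (cd_far ?_) ?_ G
    · simp only [Away] at wb; omega
    · simp only [Away] at wa; omega
    · simp only [Away] at wb; omega
    · congr 1
      simp only [ori_eq, dl_eq, Away] at *
      split_ifs <;> omega
  · refine far_step k1 (by omega) (by omega) ?_ (cd_far ?_) (cd_far ?_) ?_ G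
    · simp only [Away, ins] at *; split_ifs <;> omega
    · simp only [Away, ins] at *; split_ifs <;> omega
    · simp only [Away, ins] at *; split_ifs <;> omega
    · rw [E0.cls, E0.cls, E0.cd _ _ (wa.mono (by omega)) (wb.mono (by omega))]
      congr 1
      clear E0 G
      simp only [ori_eq, dl_eq, Away, ins] at *
      split_ifs <;> omega

lemma good_of_ok {N r : ℕ} {φ : Q → Q}
    (T : ∀ a b x, a < r → b < r → x < r → (a < N ∨ b < N ∨ x < N) → Trip N r φ a b x) {q : Q}
    (h : Ok r q) (hf : Fin4 N q) : Good N r φ q := by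
  obtain ⟨a, b, c, d⟩ := q
  simp only [Ok, Fin4] at h hf
  obtain ⟨h1, h2, h3, h4, h5, h6 | h6⟩ := h
  · subst h6; exact (T a c d h1 h2 h4 (by omega)).g1 h5
  · subst h6; exact (T c d b h3 h1 h2 (by omega)).g2 (by omega)

lemma ok_rev {r : ℕ} {q : Q} (h : Ok r q) : Ok r (rev q) := by
  simp only [Ok, rev] at *; omega

lemma red_large2 {N M p a b : ℕ} (hM : 4 ≤ M) (hN : 2 * (2 * M + p) ≤ N + 1)
    (h : a < 4 ∨ b < 4) : red N M p a b a = true := by
  simp only [red, redAt, selB_or, selB_and, aw_iff, Nat.ble_eq, Nat.add_eq]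
  omega

theorem conB_all (hK : D.K < 2 * D.m) (hm : 5 ≤ D.m) (hm' : D.m ≤ 6) (hF : chkF D = true) {N0 : ℕ}
    (h8 : 8 ≤ N0) (h0 : N0 ≤ 56)
    (T : ∀ N, N % 4 = 0 → N0 ≤ N → ∀ a b x, a < N + D.k → b < N + D.k → x < N + D.k →
      (a < N ∨ b < N ∨ x < N) → Trip N (N + D.k) (ph (rotB D N)) a b x)
    (hc : ∀ N, N % 4 = 0 → N0 ≤ N → N < 127 → chkV D N = true) (N : ℕ) :
    N % 4 = 0 → N0 ≤ N → ∀ a b p, a < N + D.k → b < N + D.k → (a < N ∨ b < N) →
      Con (N + D.k) (rotB D N) a b p p := by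
  induction N using Nat.strong_induction_on with
  | _ N ih =>
  intro h4 hN
  have hr : ∀ a b p, a < N + D.k → b < N + D.k → (a < 4 ∨ (N ≤ a ∧ b < 4)) →
      Con (N + D.k) (rotB D N) a b p p := by
    intro a b p ha hb hR
    have h1 : red N 28 8 a b a = true ∨ Con (N + D.k) (rotB D N) a b p p := by
      by_cases h2 : N < 127
      · have h3 : vtxB D N a b = true := by
          have h5 := hc N h4 hN h2
          rw [chkV, selB_and] at h5
          rcases hR with hR | ⟨hR, hR'⟩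
          · exact allB_true (allB_true h5.1 a hR) b hb
          · obtain ⟨i, rfl⟩ := Nat.exists_eq_add_of_le hR
            exact allB_true (allB_true h5.2 i (by omega)) b hR'
        rw [vtxB, selB_or] at h3
        refine h3.imp id fun h3 => conB_sound (by omega) ha hb (fun d od d1 d2 => ?_) h3 p p
        exact (good_of_ok (T N h4 hN) (ok_rev od) (by simp only [Fin4, rev]; omega)).ok
      · exact Or.inl (red_large2 (by omega) (by omega) (by omega))
    refine h1.elim (fun h1 => ?_) id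
    have h2 := red_le h1
    obtain ⟨N1, rfl⟩ : ∃ N1, N = N1 + 8 := ⟨N - 8, by omega⟩
    obtain ⟨t, a0, b0, -, t1, t2, t3, rfl, rfl, -, wa, wb, -⟩ := red_spec (by omega) h1
    have k : a0 < N1 + D.k ∧ b0 < N1 + D.k ∧ (a0 < N1 ∨ b0 < N1) ∧ t + 25 ≤ N1 := by
      simp only [ins, Away] at *; split_ifs at * <;> omega
    have E0 := emb_ins (N := N1) (t := t) (p := 8) hK hm (by omega) (by norm_num) t1
    obtain ⟨g, G, g1, g2⟩ := far_steps hK hm hm' hF t2 k.2.2.2 k.1 k.2.1 wa wb
    refine (con_step E0 G t2 k.2.2.2 k.1 k.2.1 wa wb (fun d od d1 d2 w => ?_) g1 g2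
      (ih N1 (by omega) (by omega) (by omega) a0 b0 p k.1 k.2.1 k.2.2.1)).any _ _
    subst d1 d2
    exact E0.rotB (all_of_ok od (wa.mono (by omega)) (wb.mono (by omega)) (w.mono (by omega)))
      (all_dart (wa.mono (by omega)) (wb.mono (by omega)) (away_yB hm' t2 k.2.2.2 wa wb w))
  intro a b p ha hb hf
  obtain ⟨j, j1, j2, j3⟩ := exists_rep (N := N) (a := a) (b := b) (x := a) (by omega)
  have C := hr _ _ p (sh_lt (j := N - j) (by omega) ha) (sh_lt (j := N - j) (by omega) hb)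
    (by unfold Rep at j3; omega)
  have E1 := emb_sh D.K (N := N) (by omega) h4 j1 j2
  have E2 := emb_sh D.K (N := N) (j := N - j) (by omega) h4 (by omega) (by omega)
  have inv : ∀ d, mp (sh N j) (mp (sh N (N - j)) d) = d := fun d => by simp only [mp, sh_sh j2]
  intro E hE hs _ d e od oe d1 d2 e1 e2
  have := C (fun u v => E (mp (sh N j) u) (mp (sh N j) v)) (hE.comap (mp (sh N j))) (by
    intro u ou u1 u2
    show E _ _
    rw [← E1.rotB ⟨trivial, trivial, trivial, trivial⟩ ⟨trivial, trivial, trivial, trivial⟩]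
    refine hs _ (E1.ok ou) ?_ ?_
    · show sh N j u.1 = a
      rw [u1, sh_sh j2]
    · show sh N j u.2.1 = b
      rw [u2, sh_sh j2]) (hE.refl _) _ _ (E2.ok od) (E2.ok oe) (congrArg (sh N (N - j)) d1)
      (congrArg (sh N (N - j)) d2) (congrArg (sh N (N - j)) e1) (congrArg (sh N (N - j)) e2)
  simpa only [inv] using this

end Pool.Agent.Lib.MP_1b8c51_co.RY
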