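import Pool.Agent.Lib.MP_1b8c51_co.RYD1
import Pool.Agent.Lib.MP_1b8c51_co.RYFast

set_option autoImplicit false

namespace Pool.Agent.Lib.MP_1b8c51_co.RY

theorem D1_fv64 : fV D1 64 = true := by decide +kernel
theorem D1_fv88 : fV D1 88 = true := by decide +kernel
theorem D1_fv92 : fV D1 92 = true := by decide +kernel
theorem D1_fv48 : fV D1 48 = true := by decide +kernel
theorem D1_fv108 : fV D1 108 = true := by decide +kernel
theorem D1_fa44_3 : fA D1 44 3 = true := by decide +kernel
theorem D1_fa44_1 : fA D1 44 1 = true := by decide +kernel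
theorem D1_fa48_1 : fA D1 48 1 = true := by decide +kernel
theorem D1_fa40_1 : fA D1 40 1 = true := by decide +kernel
theorem D1_fa52_1 : fA D1 52 1 = true := by decide +kernel
theorem D1_fa36_2 : fA D1 36 2 = true := by decide +kernel
theorem D1_fa56_2 : fA D1 56 2 = true := by decide +kernel
theorem D1_fa32_3 : fA D1 32 3 = true := by decide +kernel
theorem D1_fa60_3 : fA D1 60 3 = true := by decide +kernel
theorem D1_fa64_3 : fA D1 64 3 = true := by decide +kernel
theorem D1_fa64_0 : fA D1 64 0 = true := by decide +kernel
theorem D1_fa28_0 : fA D1 28 0 = true := by decide +kernel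
theorem D1_fv24 : fV D1 24 = true := by decide +kernel
theorem D1_fa72_0 : fA D1 72 0 = true := by decide +kernel
theorem D1_fa84_3 : fA D1 84 3 = true := by decide +kernel
theorem D1_fa84_0 : fA D1 84 0 = true := by decide +kernel
theorem D1_fa24_3 : fA D1 24 3 = true := by decide +kernel
theorem D1_fv20 : fV D1 20 = true := by decide +kernel
theorem D1_fa20_3 : fA D1 20 3 = true := by decide +kernel
theorem D1_fi32 : fI D1 32 = true := by decide +kernel
theorem D1_fi40 : fI D1 40 = true := by decide +kernel
theorem D1_fi52 : fI D1 52 = true := by decide +kernel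
theorem D1_fi68 : fI D1 68 = true := by decide +kernel
theorem D1_fw60 : fW D1 60 = true := by decide +kernel
theorem D1_fw44 : fW D1 44 = true := by decide +kernel
theorem D1_fw32 : fW D1 32 = true := by decide +kernel

end Pool.Agent.Lib.MP_1b8c51_co.RY
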