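import Pool.Agent.Lib.MP_1b8c51_co.RYD2
import Pool.Agent.Lib.MP_1b8c51_co.RYFast

set_option autoImplicit false

namespace Pool.Agent.Lib.MP_1b8c51_co.RY

theorem D2_fv64 : fV D2 64 = true := by decide +kernel
theorem D2_fv88 : fV D2 88 = true := by decide +kernel
theorem D2_fv92 : fV D2 92 = true := by decide +kernel
theorem D2_fv48 : fV D2 48 = true := by decide +kernel
theorem D2_fv108 : fV D2 108 = true := by decide +kernel
theorem D2_fw76 : fW D2 76 = true := by decide +kernel
theorem D2_fa48_3 : fA D2 48 3 = true := by decide +kernel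
theorem D2_fa52_3 : fA D2 52 3 = true := by decide +kernel
theorem D2_fa44_3 : fA D2 44 3 = true := by decide +kernel
theorem D2_fa44_0 : fA D2 44 0 = true := by decide +kernel
theorem D2_fa40_3 : fA D2 40 3 = true := by decide +kernel
theorem D2_fa40_1 : fA D2 40 1 = true := by decide +kernel
theorem D2_fa60_1 : fA D2 60 1 = true := by decide +kernel
theorem D2_fa36_2 : fA D2 36 2 = true := by decide +kernel
theorem D2_fa64_3 : fA D2 64 3 = true := by decide +kernel
theorem D2_fa64_1 : fA D2 64 1 = true := by decide +kernel
theorem D2_fa32_1 : fA D2 32 1 = true := by decide +kernel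
theorem D2_fa68_3 : fA D2 68 3 = true := by decide +kernel
theorem D2_fw48 : fW D2 48 = true := by decide +kernel
theorem D2_fw44 : fW D2 44 = true := by decide +kernel
theorem D2_fa28_2 : fA D2 28 2 = true := by decide +kernel
theorem D2_fa76_2 : fA D2 76 2 = true := by decide +kernel
theorem D2_fa92_1 : fA D2 92 1 = true := by decide +kernel
theorem D2_fa80_2 : fA D2 80 2 = true := by decide +kernel
theorem D2_fa88_2 : fA D2 88 2 = true := by decide +kernel
theorem D2_fa84_2 : fA D2 84 2 = true := by decide +kernel
theorem D2_fw36 : fW D2 36 = true := by decide +kernel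
theorem D2_fi40 : fI D2 40 = true := by decide +kernel
theorem D2_fi52 : fI D2 52 = true := by decide +kernel
theorem D2_fi92 : fI D2 92 = true := by decide +kernel
theorem D2_fi80 : fI D2 80 = true := by decide +kernel
theorem D2_fi64 : fI D2 64 = true := by decide +kernel

end Pool.Agent.Lib.MP_1b8c51_co.RY
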