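import Pool.Agent.Lib.MP_1b8c51_co.RYD3
import Pool.Agent.Lib.MP_1b8c51_co.RYFast

set_option autoImplicit false

namespace Pool.Agent.Lib.MP_1b8c51_co.RY

theorem D3_fv64 : fV D3 64 = true := by decide +kernel
theorem D3_fv88 : fV D3 88 = true := by decide +kernel
theorem D3_fv92 : fV D3 92 = true := by decide +kernel
theorem D3_fv48 : fV D3 48 = true := by decide +kernel
theorem D3_fv108 : fV D3 108 = true := by decide +kernel
theorem D3_fw68 : fW D3 68 = true := by decide +kernel
theorem D3_fw60 : fW D3 60 = true := by decide +kernel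
theorem D3_fw48 : fW D3 48 = true := by decide +kernel
theorem D3_fa44_1 : fA D3 44 1 = true := by decide +kernel
theorem D3_fa48_1 : fA D3 48 1 = true := by decide +kernel
theorem D3_fa40_1 : fA D3 40 1 = true := by decide +kernel
theorem D3_fa52_2 : fA D3 52 2 = true := by decide +kernel
theorem D3_fa36_3 : fA D3 36 3 = true := by decide +kernel
theorem D3_fa36_2 : fA D3 36 2 = true := by decide +kernel
theorem D3_fa56_2 : fA D3 56 2 = true := by decide +kernel
theorem D3_fv28 : fV D3 28 = true := by decide +kernel
theorem D3_fa32_0 : fA D3 32 0 = true := by decide +kernel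
theorem D3_fw32 : fW D3 32 = true := by decide +kernel
theorem D3_fw28 : fW D3 28 = true := by decide +kernel
theorem D3_fa28_0 : fA D3 28 0 = true := by decide +kernel
theorem D3_fv24 : fV D3 24 = true := by decide +kernel
theorem D3_fa72_0 : fA D3 72 0 = true := by decide +kernel
theorem D3_fa76_2 : fA D3 76 2 = true := by decide +kernel
theorem D3_fa76_0 : fA D3 76 0 = true := by decide +kernel
theorem D3_fa80_3 : fA D3 80 3 = true := by decide +kernel
theorem D3_fa80_0 : fA D3 80 0 = true := by decide +kernel
theorem D3_fa24_0 : fA D3 24 0 = true := by decide +kernel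
theorem D3_fi44 : fI D3 44 = true := by decide +kernel
theorem D3_fi48 : fI D3 48 = true := by decide +kernel
theorem D3_fi68 : fI D3 68 = true := by decide +kernel

end Pool.Agent.Lib.MP_1b8c51_co.RY
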