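import Pool.Agent.Lib.MP_1b8c51_co.RYD4
import Pool.Agent.Lib.MP_1b8c51_co.RYFast

set_option autoImplicit false

namespace Pool.Agent.Lib.MP_1b8c51_co.RY

theorem D4_fv64 : fV D4 64 = true := by decide +kernel
theorem D4_fv88 : fV D4 88 = true := by decide +kernel
theorem D4_fv92 : fV D4 92 = true := by decide +kernel
theorem D4_fv52 : fV D4 52 = true := by decide +kernel
theorem D4_fw64 : fW D4 64 = true := by decide +kernel
theorem D4_fv108 : fV D4 108 = true := by decide +kernel
theorem D4_fv44 : fV D4 44 = true := by decide +kernel
theorem D4_fv116 : fV D4 116 = true := by decide +kernel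
theorem D4_fv36 : fV D4 36 = true := by decide +kernel
theorem D4_fa52_2 : fA D4 52 2 = true := by decide +kernel
theorem D4_fa44_2 : fA D4 44 2 = true := by decide +kernel
theorem D4_fa56_2 : fA D4 56 2 = true := by decide +kernel
theorem D4_fw32 : fW D4 32 = true := by decide +kernel
theorem D4_fv32 : fV D4 32 = true := by decide +kernel
theorem D4_fa60_3 : fA D4 60 3 = true := by decide +kernel
theorem D4_fv120 : fV D4 120 = true := by decide +kernel
theorem D4_fw28 : fW D4 28 = true := by decide +kernel
theorem D4_fa32_3 : fA D4 32 3 = true := by decide +kernel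
theorem D4_fa32_1 : fA D4 32 1 = true := by decide +kernel
theorem D4_fa68_2 : fA D4 68 2 = true := by decide +kernel
theorem D4_fa72_1 : fA D4 72 1 = true := by decide +kernel
theorem D4_fa28_2 : fA D4 28 2 = true := by decide +kernel
theorem D4_fa76_2 : fA D4 76 2 = true := by decide +kernel
theorem D4_fi28 : fI D4 28 = true := by decide +kernel
theorem D4_fa80_2 : fA D4 80 2 = true := by decide +kernel
theorem D4_fa88_2 : fA D4 88 2 = true := by decide +kernel
theorem D4_fa84_2 : fA D4 84 2 = true := by decide +kernel
theorem D4_fv124 : fV D4 124 = true := by decide +kernel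
theorem D4_fi48 : fI D4 48 = true := by decide +kernel
theorem D4_fi88 : fI D4 88 = true := by decide +kernel
theorem D4_fi72 : fI D4 72 = true := by decide +kernel

end Pool.Agent.Lib.MP_1b8c51_co.RY
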