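import Pool.Agent.Lib.MP_1b8c51_co.RYBlue

set_option autoImplicit false

/-! The table driven rotation rule on the letters `0 .. N-1` (cyclic) and `N .. N+k-1`. -/

namespace Pool.Agent.Lib.MP_1b8c51_co.RY

noncomputable section

def sel (b : Bool) (x y : ℕ) : ℕ := Bool.rec y x b
def selB (b x y : Bool) : Bool := Bool.rec y x b
def frc (n : ℕ) (f : ℕ → Bool) : Bool := Nat.rec (f 0) (fun m _ => f (Nat.succ m)) n
def allB (n : ℕ) (f : ℕ → Bool) : Bool := Nat.rec true (fun i ih => Bool.rec false ih (f i)) n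

structure Dat where
  K : ℕ
  m : ℕ
  k : ℕ
  W : ℕ
  full : Bool
  TA : ℕ
  TB : ℕ
  TC : ℕ
  TD : ℕ
  TE : ℕ
  TF : ℕ
  TG : ℕ
  TP : ℕ
  X : List Q
  p0 : Q
  q0 : Q

def dl (N u v : ℕ) : ℕ := sel (Nat.ble u v) (Nat.sub v u) (Nat.sub (Nat.add v N) u)

def cls (N z : ℕ) : ℕ := sel (Nat.ble N z) (Nat.add 4 (Nat.sub z N)) (Nat.mod z 4)

def far (K : ℕ) : ℕ := Nat.add (Nat.mul 2 K) 1

def cd (K N u v : ℕ) : ℕ :=
  sel (Nat.ble N u) (far K) (sel (Nat.ble N v) (far K)
    (sel (Nat.ble (dl N u v) K) (dl N u v)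
      (sel (Nat.ble N (Nat.add (dl N u v) K)) (Nat.add K (Nat.sub N (dl N u v))) (far K))))

def ori (N a b x : ℕ) : ℕ :=
  sel (Nat.ble N a) 0 (sel (Nat.ble N b) 0 (sel (Nat.ble N x) 0
    (sel (Nat.ble (dl N a x) (dl N a b)) 0 1)))

def look (T i : ℕ) : ℕ := Nat.mod (Nat.shiftRight T (Nat.mul 8 i)) 256

def ix (B s c u v : ℕ) (C : ℕ) : ℕ :=
  Nat.add (Nat.mul (Nat.add (Nat.mul (Nat.add (Nat.mul s 8) c) B) u) C) v

def core (D : Dat) (s ca cb cx ab ax bx o : ℕ) : ℕ :=
  sel (Nat.ble (far D.K) ab)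
    (sel (Nat.ble (far D.K) ax)
      (sel (Nat.ble (far D.K) bx)
        (look D.TG (Nat.add (Nat.mul (ix 8 s ca cb cx 8) 2) o))
        (look D.TF (ix (far D.K) s cb bx ca 8)))
      (sel (Nat.ble (far D.K) bx)
        (look D.TE (ix (far D.K) s ca ax cb 8))
        (look D.TD (ix (far D.K) s ca ax bx (far D.K)))))
    (sel (Nat.ble (far D.K) ax)
      (sel (Nat.ble (far D.K) bx)
        (look D.TC (ix (far D.K) s ca ab cx 8))
        (look D.TB (ix (far D.K) s ca ab bx (far D.K))))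
      (look D.TA (ix (far D.K) s ca ab ax (far D.K))))

/-- `z + o - 8` modulo `N` -/
def add (N z o : ℕ) : ℕ :=
  sel (Nat.ble N z) z
    (sel (Nat.ble 8 (Nat.add z o))
      (sel (Nat.ble (Nat.add N 8) (Nat.add z o)) (Nat.sub (Nat.add z o) (Nat.add N 8))
        (Nat.sub (Nat.add z o) 8))
      (Nat.sub (Nat.add (Nat.add z o) N) 8))

def side (b c : ℕ) : ℕ := sel (Nat.beq c b) 0 1
def third (b c d : ℕ) : ℕ := sel (Nat.beq c b) d c

def byte (D : Dat) (N a b s x : ℕ) : ℕ :=
  core D s (cls N a) (cls N b) (cls N x) (cd D.K N a b) (cd D.K N a x) (cd D.K N b x) (ori N a b x)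

/-- the new letter -/
def newy (N a b x w : ℕ) : ℕ :=
  sel (Nat.ble 4 (Nat.mod w 8))
    (sel (Nat.ble 6 (Nat.mod w 8)) (Nat.add N (Nat.mod (Nat.div w 8) 16))
      (add N x (Nat.mod (Nat.div w 8) 16)))
    (sel (Nat.ble 2 (Nat.mod w 8)) (add N b (Nat.mod (Nat.div w 8) 16))
      (add N a (Nat.mod (Nat.div w 8) 16)))

def dart (a b s x : ℕ) : Q := (a, b, sel (Nat.beq s 0) b x, sel (Nat.beq s 0) x a)

/-- side of the next neighbour, periodic rule -/
def sB (D : Dat) (N a b c d : ℕ) : ℕ := Nat.mod (byte D N a b (side b c) (third b c d)) 2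
/-- letter of the next neighbour, periodic rule -/
def yB (D : Dat) (N a b c d : ℕ) : ℕ :=
  newy N a b (third b c d) (byte D N a b (side b c) (third b c d))

def rotB (D : Dat) (N : ℕ) (q : Q) : Q :=
  dart q.1 q.2.1 (sB D N q.1 q.2.1 q.2.2.1 q.2.2.2) (yB D N q.1 q.2.1 q.2.2.1 q.2.2.2)

def inW (W N z : ℕ) : Bool := selB (Nat.ble N z) true (Nat.blt z W)
def enc (W N z : ℕ) : ℕ := sel (Nat.ble N z) (Nat.add W (Nat.sub z N)) z
def dec (W N z : ℕ) : ℕ := sel (Nat.ble W z) (Nat.add N (Nat.sub z W)) z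
def decQ (W N : ℕ) (q : Q) : Q := (dec W N q.1, dec W N q.2.1, dec W N q.2.2.1, dec W N q.2.2.2)

/-- vertices at which the rule may be changed -/
def pv (D : Dat) (N a b : ℕ) : Bool :=
  selB (selB (Nat.ble N a) true (selB (Nat.ble N b) true D.full))
    (selB (inW D.W N a) (inW D.W N b) false) false

/-- entry of the table of changes, `0` if there is none -/
def pat (D : Dat) (N a b c d : ℕ) : ℕ :=
  sel (pv D N a b) (sel (inW D.W N (third b c d))
    (look D.TP (ix (Nat.add D.W D.k) 0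
      (Nat.add (Nat.mul (enc D.W N a) 2) (side b c)) (enc D.W N b) (enc D.W N (third b c d))
      (Nat.add D.W D.k))) 0) 0

def sP (D : Dat) (N a b c d : ℕ) : ℕ :=
  sel (Nat.beq (pat D N a b c d) 0) (sB D N a b c d) (Nat.mod (pat D N a b c d) 2)
def yP (D : Dat) (N a b c d : ℕ) : ℕ :=
  sel (Nat.beq (pat D N a b c d) 0) (yB D N a b c d)
    (dec D.W N (Nat.sub (Nat.div (pat D N a b c d) 2) 1))

def rotP (D : Dat) (N : ℕ) (q : Q) : Q :=
  dart q.1 q.2.1 (sP D N q.1 q.2.1 q.2.2.1 q.2.2.2) (yP D N q.1 q.2.1 q.2.2.1 q.2.2.2)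

/-! Boolean checks. `S`, `Y` give the side and letter of the next neighbour. -/

/-- continuation form of one rotation step at the vertex `ab` -/
def rotK (S Y : ℕ → ℕ → ℕ → ℕ → ℕ) (a b c d : ℕ) (f : ℕ → ℕ → Bool) : Bool :=
  frc (Y a b c d) fun y => selB (Nat.beq (S a b c d) 0) (f b y) (f y a)

def eq2 (a b c d : ℕ) : Bool := selB (Nat.beq a c) (Nat.beq b d) false

def nr (N u z : ℕ) : Bool :=
  selB (Nat.ble N u) false (selB (Nat.ble (dl N u z) 8) true (Nat.ble (dl N z u) 8))

def near (N a b x z : ℕ) : Bool :=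
  selB (Nat.ble N z) true (selB (nr N a z) true (selB (nr N b z) true (nr N x z)))

def fin4 (N a b c d : ℕ) : Bool :=
  selB (Nat.blt a N) true (selB (Nat.blt b N) true (selB (Nat.blt c N) true (Nat.blt d N)))

def ok2 (r c d e f : ℕ) : Bool :=
  selB (Nat.blt e r) (selB (Nat.blt f r) (selB (eq2 c d e f) false true) false) false

/-- the face of the dart `(a, b, c, d)` with third letter `x` closes up, periodic rule -/
def goodB (D : Dat) (N a b c d x : ℕ) : Bool :=
  rotK (sB D N) (yB D N) c d a b fun e1 f1 => rotK (sB D N) (yB D N) e1 f1 c d fun e2 f2 =>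
  rotK (sB D N) (yB D N) e2 f2 e1 f1 fun e3 f3 =>
    selB (ok2 (Nat.add N D.k) c d e1 f1) (selB (fin4 N c d e1 f1)
      (selB (near N a b x e1) (selB (near N a b x f1) (selB (near N a b x e2) (selB (near N a b x f2)
        (selB (selB (eq2 e2 f2 a b) (eq2 e3 f3 c d) false) true
          (selB (Nat.beq a b) false (selB (eq2 e3 f3 a b)
            (rotK (sB D N) (yB D N) e3 f3 e2 f2 fun e4 f4 => eq2 e4 f4 c d) false)))
        false) false) false) false) false) false

/-- the directed triangle `ab, bx, xa` is a face -/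
def dir1 (S Y : ℕ → ℕ → ℕ → ℕ → ℕ) (a b x : ℕ) : Bool :=
  selB (rotK S Y b x a b fun e f => eq2 e f x a)
    (selB (rotK S Y x a b x fun e f => eq2 e f a b) (rotK S Y a b x a fun e f => eq2 e f b x) false)
    false

/-- the reversed directed triangle is a face -/
def dir2 (S Y : ℕ → ℕ → ℕ → ℕ → ℕ) (a b x : ℕ) : Bool :=
  selB (rotK S Y a b b x fun e f => eq2 e f x a)
    (selB (rotK S Y x a a b fun e f => eq2 e f b x) (rotK S Y b x x a fun e f => eq2 e f a b) false)
    false

/-- `u` is away from a block of `p` letters placed at distance `M` after `z` -/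
def aw (N M p z u : ℕ) : Bool :=
  selB (Nat.ble N u) true (selB (Nat.ble u z)
    (Nat.ble (Nat.add z (Nat.add (Nat.mul 2 M) p)) (Nat.add u N))
    (Nat.ble (Nat.add z (Nat.add (Nat.mul 2 M) p)) u))

def redAt (N M p z u v : ℕ) : Bool :=
  selB (Nat.ble (Nat.add z (Nat.add M p)) N)
    (selB (aw N M p z z) (selB (aw N M p z u) (aw N M p z v) false) false) false

def red (N M p a b x : ℕ) : Bool :=
  selB (redAt N M p a b x) true (selB (redAt N M p b a x) true (redAt N M p x a b))

def tripB (D : Dat) (N a b x : ℕ) : Bool :=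
  selB (red N (Nat.add D.m 8) 4 a b x) true
    (selB (selB (Nat.beq a b) true (selB (Nat.beq b x) true (Nat.beq a x)))
      (selB (selB (Nat.beq a b) (Nat.beq b x) false) true
        (selB (goodB D N a b b x x) (goodB D N b x a b a) false))
      (selB (dir1 (sB D N) (yB D N) a b x) (goodB D N b x a b a)
        (selB (dir2 (sB D N) (yB D N) a b x) (goodB D N a b b x x) false)))

/-- all triples with first letter `a` -/
def chkA (D : Dat) (N a : ℕ) : Bool :=
  allB (Nat.add N D.k) fun b => allB (Nat.add N D.k) fun x => tripB D N a b x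

/-- all triples with an infinite first letter -/
def chkI (D : Dat) (N : ℕ) : Bool :=
  allB D.k fun i => selB (allB 4 fun b => allB (Nat.add N D.k) fun x => tripB D N (Nat.add N i) b x)
    (allB D.k fun j => allB 4 fun x => tripB D N (Nat.add N i) (Nat.add N j) x) false

/-! Connectivity checks. -/

def cod (b c d : ℕ) : ℕ := Nat.add (Nat.mul 2 (third b c d)) (side b c)

/-- the set of neighbours met in `n` rotation steps -/
def walk (S Y : ℕ → ℕ → ℕ → ℕ → ℕ) (a b n : ℕ) : ℕ → ℕ → ℕ → (ℕ → Bool) → Bool :=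
  Nat.rec (fun _ _ M f => f M)
    (fun _ ih c d M f => frc (Nat.lor M (Nat.shiftLeft 1 (cod b c d))) fun M' =>
      rotK S Y a b c d fun e g => ih e g M' f) n

def fullB (r a b M : ℕ) : Bool :=
  Nat.beq (Nat.add (Nat.lor (Nat.lor M (Nat.shiftLeft 1 (Nat.add (Nat.mul 2 b) 1)))
    (sel (Nat.beq a b) (Nat.shiftLeft 1 (Nat.mul 2 a)) 0)) 1) (Nat.shiftLeft 1 (Nat.mul 2 r))

/-- the rotation at the vertex `ab` is one cycle -/
def conB (S Y : ℕ → ℕ → ℕ → ℕ → ℕ) (r a b : ℕ) : Bool :=
  walk S Y a b (Nat.mul 2 r) b (sel (Nat.beq b 0) 1 0) 0 (fullB r a b)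

/-- the rotation at the vertex `ab` has the neighbours `cd` and `ef` on all its cycles -/
def conB2 (S Y : ℕ → ℕ → ℕ → ℕ → ℕ) (r a b c d e f : ℕ) : Bool :=
  walk S Y a b (Nat.mul 2 r) c d 0 fun M => walk S Y a b (Nat.mul 2 r) e f M (fullB r a b)

def vtxB (D : Dat) (N a b : ℕ) : Bool :=
  selB (red N 28 8 a b a) true (conB (sB D N) (yB D N) (Nat.add N D.k) a b)

/-- all vertices with a finite letter, periodic rule -/
def chkV (D : Dat) (N : ℕ) : Bool :=
  selB (allB 4 fun a => allB (Nat.add N D.k) fun b => vtxB D N a b)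
    (allB D.k fun i => allB 4 fun b => vtxB D N (Nat.add N i) b) false

/-- the vertices at which the rule may be changed -/
def chkPV (D : Dat) (N : ℕ) : Bool :=
  allB (Nat.add D.W D.k) fun i => allB (Nat.add D.W D.k) fun j =>
    selB (pv D N (dec D.W N i) (dec D.W N j))
      (selB (eq2 i j D.p0.1 D.p0.2.1)
        (conB2 (sP D N) (yP D N) (Nat.add N D.k) (dec D.W N i) (dec D.W N j)
          (dec D.W N D.p0.2.2.1) (dec D.W N D.p0.2.2.2) (dec D.W N D.q0.2.2.1)
          (dec D.W N D.q0.2.2.2))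
        (conB (sP D N) (yP D N) (Nat.add N D.k) (dec D.W N i) (dec D.W N j))) true

/-- table entry for a third letter far from the vertex -/
def fb (D : Dat) (ca cb ab o s z : ℕ) : ℕ :=
  core D s ca cb (Nat.mod z 4) ab (far D.K) (far D.K) o

def fy (D : Dat) (ca cb ab o s z : ℕ) : ℕ :=
  Nat.sub (Nat.add z (Nat.mod (Nat.div (fb D ca cb ab o s z) 8) 16)) 8

def reach (D : Dat) (ca cb ab o lo hi s1 z1 n : ℕ) : ℕ → ℕ → Bool :=
  Nat.rec (fun _ _ => false)
    (fun _ ih s z => selB (eq2 s z s1 z1) true (selB (Nat.ble lo z) (selB (Nat.ble z hi)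
      (frc (Nat.mod (fb D ca cb ab o s z) 2) fun s' => frc (fy D ca cb ab o s z) fun z' => ih s' z')
      false) false)) n

def farV (D : Dat) (ca cb ab o : ℕ) : Bool :=
  allB 2 fun s => allB 4 fun z =>
    selB (Nat.beq (Nat.div (Nat.mod (fb D ca cb ab o s z) 8) 2) 2)
      (selB (reach D ca cb ab o (Nat.add z 8) (Nat.add z 32) s (Nat.add z 24) 20 s (Nat.add z 16))
        true
        (reach D ca cb ab o (Nat.add z 8) (Nat.add z 32) s (Nat.add z 16) 20 s (Nat.add z 24)))
      false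

def chkF (D : Dat) : Bool :=
  selB (allB 4 fun ca => allB (far D.K) fun ab => farV D ca 0 ab 0)
    (selB (allB (Nat.add 4 D.k) fun ca => allB (Nat.add 4 D.k) fun cb => farV D ca cb (far D.K) 0)
      (allB 4 fun ca => allB 4 fun cb => farV D ca cb (far D.K) 1) false) false

/-! Checks for the darts whose face is changed. -/

/-- the face of the dart `(a, b, c, d)` is a changed one -/
def isP (D : Dat) (N a b c d : ℕ) : Bool := selB (Nat.beq (pat D N c d a b) 0) false true

def memX (D : Dat) (N a b c d : ℕ) : Bool :=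
  List.rec false (fun q _ ih => selB (selB (eq2 a b (dec D.W N q.1) (dec D.W N q.2.1))
    (eq2 c d (dec D.W N q.2.2.1) (dec D.W N q.2.2.2)) false) true ih) D.X

def goodP (D : Dat) (N a b c d : ℕ) : Bool :=
  selB (isP D N a b c d)
    (selB (rotK (sP D N) (yP D N) c d a b fun e1 f1 => rotK (sP D N) (yP D N) e1 f1 c d fun e2 f2 =>
      rotK (sP D N) (yP D N) e2 f2 e1 f1 fun e3 f3 =>
        selB (ok2 (Nat.add N D.k) c d e1 f1) (selB (isP D N c d e1 f1)
          (selB (selB (eq2 e2 f2 a b) (eq2 e3 f3 c d) false) true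
            (selB (selB (Nat.beq a b) (memX D N a b c d) true) (selB (eq2 e3 f3 a b)
              (rotK (sP D N) (yP D N) e3 f3 e2 f2 fun e4 f4 => eq2 e4 f4 c d) false) false))
          false) false)
      (selB (fin4 N a b c d)
        (rotK (sB D N) (yB D N) c d a b fun e f => isP D N c d e f) true) false)
    (fin4 N a b c d)

def tripP (D : Dat) (N a b x : ℕ) : Bool :=
  selB (selB (Nat.beq a b) (Nat.beq b x) false) true
    (selB (goodP D N a b b x) (selB (goodP D N b x a b)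
      (selB (selB (Nat.beq a b) true (selB (Nat.beq b x) true (Nat.beq a x))) true
        (selB (dir1 (sP D N) (yP D N) a b x) true (dir2 (sP D N) (yP D N) a b x))) false) false)

def chkP (D : Dat) (N : ℕ) : Bool :=
  allB (Nat.add D.W D.k) fun i => allB (Nat.add D.W D.k) fun j => allB (Nat.add D.W D.k) fun l =>
    tripP D N (dec D.W N i) (dec D.W N j) (dec D.W N l)

end

end Pool.Agent.Lib.MP_1b8c51_co.RY
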