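import Pool.Agent.Lib.MP_1b8c51_co.RYDefs

set_option autoImplicit false

/-! Letter maps that commute with the rule: the cyclic shift and the insertion of a block. -/

namespace Pool.Agent.Lib.MP_1b8c51_co.RY

lemma sel_ble (u v x y : ℕ) : sel (Nat.ble u v) x y = if u ≤ v then x else y := by
  by_cases h : u ≤ v
  · rw [if_pos h, Nat.ble_eq_true_of_le h]; rfl
  · rw [if_neg h, show Nat.ble u v = false from by simpa [← Bool.not_eq_true] using h]; rfl

lemma sel_beq (u v x y : ℕ) : sel (Nat.beq u v) x y = if u = v then x else y := by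
  by_cases h : u = v
  · rw [if_pos h, h, Nat.beq_refl]; rfl
  · rw [if_neg h, show Nat.beq u v = false from by simpa [← Bool.not_eq_true] using h]; rfl

lemma sel_eq (b : Bool) (x y : ℕ) : sel b x y = if b = true then x else y := by cases b <;> rfl

lemma selB_true (b x y : Bool) :
    selB b x y = true ↔ (b = true ∧ x = true) ∨ (¬ b = true ∧ y = true) := by
  cases b <;> simp [selB]

lemma selB_and (b x : Bool) : selB b x false = true ↔ b = true ∧ x = true := by
  cases b <;> simp [selB]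

lemma selB_or (b y : Bool) : selB b true y = true ↔ b = true ∨ y = true := by
  cases b <;> simp [selB]

lemma frc_eq (n : ℕ) (f : ℕ → Bool) : frc n f = f n := by cases n <;> rfl

lemma allB_true {n : ℕ} {f : ℕ → Bool} (h : allB n f = true) : ∀ i, i < n → f i = true := by
  induction n with
  | zero => intro i hi; omega
  | succ n ih =>
    have h1 : selB (f n) (allB n f) false = true := h
    rw [selB_and] at h1
    intro i hi
    rcases Nat.lt_succ_iff_lt_or_eq.1 hi with h2 | h2
    · exact ih h1.2 i h2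
    · rw [h2]; exact h1.1

lemma eq2_true (a b c d : ℕ) : eq2 a b c d = true ↔ a = c ∧ b = d := by
  simp [eq2, selB_and]

lemma dl_eq (N u v : ℕ) : dl N u v = if u ≤ v then v - u else v + N - u := sel_ble _ _ _ _

lemma cls_eq (N z : ℕ) : cls N z = if N ≤ z then 4 + (z - N) else z % 4 := sel_ble _ _ _ _

lemma far_eq (K : ℕ) : far K = 2 * K + 1 := rfl

lemma cd_eq (K N u v : ℕ) : cd K N u v = if N ≤ u then 2 * K + 1 else if N ≤ v then 2 * K + 1 else
    if dl N u v ≤ K then dl N u v else if N ≤ dl N u v + K then K + (N - dl N u v)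
    else 2 * K + 1 := by
  simp only [cd, sel_ble]; rfl

lemma ori_eq (N a b x : ℕ) : ori N a b x = if N ≤ a then 0 else if N ≤ b then 0 else
    if N ≤ x then 0 else if dl N a x ≤ dl N a b then 0 else 1 := by
  simp only [ori, sel_ble]

lemma add_eq (N z o : ℕ) : add N z o = if N ≤ z then z else if 8 ≤ z + o then
    (if N + 8 ≤ z + o then z + o - (N + 8) else z + o - 8) else z + o + N - 8 := by
  simp only [add, sel_ble]; rfl

lemma side_eq (b c : ℕ) : side b c = if c = b then 0 else 1 := sel_beq _ _ _ _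

lemma third_eq (b c d : ℕ) : third b c d = if c = b then d else c := sel_beq _ _ _ _

lemma newy_eq (N a b x w : ℕ) : newy N a b x w = if 4 ≤ w % 8 then
    (if 6 ≤ w % 8 then N + w / 8 % 16 else add N x (w / 8 % 16)) else
    (if 2 ≤ w % 8 then add N b (w / 8 % 16) else add N a (w / 8 % 16)) := by
  simp only [newy, sel_ble]; rfl

lemma dart_eq (a b s x : ℕ) : dart a b s x = if s = 0 then (a, b, b, x) else (a, b, x, a) := by
  simp only [dart, sel_beq]; split_ifs <;> rfl

lemma enc_eq (W N z : ℕ) : enc W N z = if N ≤ z then W + (z - N) else z := sel_ble _ _ _ _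

lemma dec_eq (W N z : ℕ) : dec W N z = if W ≤ z then N + (z - W) else z := sel_ble _ _ _ _

lemma inW_true (W N z : ℕ) : inW W N z = true ↔ N ≤ z ∨ z < W := by
  simp [inW, selB_or, Nat.blt_eq]

def mp (f : ℕ → ℕ) (q : Q) : Q := (f q.1, f q.2.1, f q.2.2.1, f q.2.2.2)

def Nr (N u z : ℕ) : Prop := u < N ∧ (dl N u z ≤ 8 ∨ dl N z u ≤ 8)

structure Emb (K N N' : ℕ) (f : ℕ → ℕ) (S S' : ℕ → Prop) : Prop where
  inj : ∀ u v, f u = f v → u = v
  inf : ∀ j, f (N + j) = N' + j
  fin : ∀ u, u < N → f u < N'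
  cls : ∀ u, cls N' (f u) = cls N u
  cd : ∀ u v, S u → S v → cd K N' (f u) (f v) = cd K N u v
  ori : ∀ a b x, ori N' (f a) (f b) (f x) = ori N a b x
  add : ∀ z o, o < 16 → S z → S (add N z o) → add N' (f z) o = f (add N z o)
  nr : ∀ u z, z < N → S' u → Nr N u z → Nr N' (f u) (f z) ∧ S z
  sub : ∀ u, S' u → S u
  top : ∀ u, N ≤ u → S u

/-- cyclic shift by `j` -/
def sh (N j z : ℕ) : ℕ := if z < N then (if z + j < N then z + j else z + j - N) else z

lemma dl_sh {N j u v : ℕ} (hj : j ≤ N) (hu : u < N) (hv : v < N) :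
    dl N (sh N j u) (sh N j v) = dl N u v := by
  simp only [dl_eq, sh, if_pos hu, if_pos hv]; split_ifs <;> omega

lemma sh_le {N j u : ℕ} (hj : j ≤ N) : N ≤ sh N j u ↔ N ≤ u := by
  simp only [sh]; split_ifs <;> omega

lemma emb_sh (K : ℕ) {N j : ℕ} (h8 : 8 ≤ N) (hN : N % 4 = 0) (h4 : j % 4 = 0) (hj : j ≤ N) :
    Emb K N N (sh N j) (fun _ => True) (fun _ => True) where
  inj u v := by simp only [sh]; split_ifs <;> omega
  inf i := by simp [sh]
  fin u hu := by have := sh_le (u := u) hj; omega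
  cls u := by simp only [cls_eq, sh]; split_ifs <;> omega
  cd u v _ _ := by
    simp only [cd_eq, sh_le hj]
    by_cases hu : N ≤ u
    · simp [hu]
    by_cases hv : N ≤ v
    · simp [hv]
    rw [dl_sh hj (by omega) (by omega)]
  ori a b x := by
    simp only [ori_eq, sh_le hj]
    by_cases ha : N ≤ a
    · simp [ha]
    by_cases hb : N ≤ b
    · simp [hb]
    by_cases hx : N ≤ x
    · simp [hx]
    rw [dl_sh hj (by omega) (by omega), dl_sh hj (by omega) (by omega)]
  add z o ho _ _ := by simp only [add_eq, sh]; split_ifs <;> omega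
  nr u z hz _ h := by
    have := sh_le (u := u) hj
    have h1 := h.1
    refine ⟨⟨by omega, ?_⟩, trivial⟩
    rw [dl_sh hj h1 hz, dl_sh hj hz h1]
    exact h.2
  sub _ _ := trivial
  top _ _ := trivial

/-- insertion of `p` letters at the place `t` -/
def ins (t p z : ℕ) : ℕ := if z < t then z else z + p

def Away (N t M z : ℕ) : Prop :=
  N ≤ z ∨ (z + M ≤ t ∧ t + M ≤ z + N) ∨ (t + M ≤ z ∧ z + M ≤ t + N)

lemma ins_le {N t p u : ℕ} (ht : t ≤ N) : N + p ≤ ins t p u ↔ N ≤ u := by
  simp only [ins]; split_ifs <;> omega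

lemma emb_ins {K m N t p : ℕ} (hK : K < 2 * m) (hm : 5 ≤ m) (h8 : 8 ≤ N) (h4 : p % 4 = 0)
    (ht : t ≤ N) : Emb K N (N + p) (ins t p) (Away N t m) (Away N t (m + 8)) where
  inj u v := by simp only [ins]; split_ifs <;> omega
  inf i := by simp only [ins]; split_ifs <;> omega
  fin u hu := by simp only [ins]; split_ifs <;> omega
  cls u := by simp only [cls_eq, ins]; split_ifs <;> omega
  cd u v h1 h2 := by
    simp only [cd_eq, ins_le ht]
    by_cases hu : N ≤ u
    · simp [hu]
    by_cases hv : N ≤ v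
    · simp [hv]
    simp only [if_neg hu, if_neg hv, dl_eq, ins, Away] at *
    split_ifs <;> omega
  ori a b x := by
    simp only [ori_eq, ins_le ht]
    by_cases ha : N ≤ a
    · simp [ha]
    by_cases hb : N ≤ b
    · simp [hb]
    by_cases hx : N ≤ x
    · simp [hx]
    simp only [if_neg ha, if_neg hb, if_neg hx, dl_eq, ins]
    split_ifs <;> omega
  add z o ho h1 h2 := by
    simp only [add_eq, ins, Away] at *
    split_ifs at * <;> omega
  nr u z hz h1 h := by
    simp only [Nr, dl_eq, ins, Away] at *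
    split_ifs at * <;> omega
  sub u h := by simp only [Away] at *; omega
  top u h := Or.inl h

section comm

variable {K N N' : ℕ} {f : ℕ → ℕ} {S S' : ℕ → Prop}

lemma Emb.side (E : Emb K N N' f S S') (b c : ℕ) : side (f b) (f c) = side b c := by
  simp only [side_eq]
  by_cases h : c = b
  · simp [h]
  · rw [if_neg h, if_neg fun h1 => h (E.inj _ _ h1)]

lemma Emb.third (E : Emb K N N' f S S') (b c d : ℕ) :
    third (f b) (f c) (f d) = f (third b c d) := by
  simp only [third_eq]
  by_cases h : c = b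
  · simp [h]
  · rw [if_neg h, if_neg fun h1 => h (E.inj _ _ h1)]

lemma mp_dart (f : ℕ → ℕ) (a b s x : ℕ) : mp f (dart a b s x) = dart (f a) (f b) s (f x) := by
  simp only [dart_eq]; split_ifs <;> rfl

lemma third_S {b c d : ℕ} (hc : S c) (hd : S d) : S (third b c d) := by
  rw [third_eq]; split_ifs <;> assumption

lemma dart_S {a b s y : ℕ} (h1 : S (dart a b s y).2.2.1) (h2 : S (dart a b s y).2.2.2) : S y := by
  rw [dart_eq] at h1 h2; split_ifs at h1 h2 <;> assumption

lemma Emb.byte {D : Dat} (E : Emb D.K N N' f S S') {a b x : ℕ} (s : ℕ) (ha : S a) (hb : S b)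
    (hx : S x) : byte D N' (f a) (f b) s (f x) = byte D N a b s x := by
  simp only [RY.byte, E.cls, E.ori, E.cd _ _ ha hb, E.cd _ _ ha hx, E.cd _ _ hb hx]

lemma Emb.newy (E : Emb K N N' f S S') {a b x : ℕ} (w : ℕ) (ha : S a) (hb : S b)
    (hx : S x) (hy : S (newy N a b x w)) :
    newy N' (f a) (f b) (f x) w = f (newy N a b x w) := by
  have ho : w / 8 % 16 < 16 := Nat.mod_lt _ (by norm_num)
  simp only [newy_eq] at *
  split_ifs at *
  · rw [E.inf]
  · exact E.add _ _ ho hx hy
  · exact E.add _ _ ho hb hy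
  · exact E.add _ _ ho ha hy

lemma Emb.sB {D : Dat} (E : Emb D.K N N' f S S') {a b c d : ℕ} (ha : S a) (hb : S b) (hc : S c)
    (hd : S d) : sB D N' (f a) (f b) (f c) (f d) = sB D N a b c d := by
  simp only [RY.sB, E.side, E.third, E.byte _ ha hb (third_S hc hd)]

lemma Emb.yB {D : Dat} (E : Emb D.K N N' f S S') {a b c d : ℕ} (ha : S a) (hb : S b) (hc : S c)
    (hd : S d) (hy : S (yB D N a b c d)) :
    yB D N' (f a) (f b) (f c) (f d) = f (yB D N a b c d) := by
  simp only [RY.yB, E.side, E.third, E.byte _ ha hb (third_S hc hd)]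
  exact E.newy _ ha hb (third_S hc hd) hy

def All (S : ℕ → Prop) (q : Q) : Prop := S q.1 ∧ S q.2.1 ∧ S q.2.2.1 ∧ S q.2.2.2

lemma Emb.rotB {D : Dat} (E : Emb D.K N N' f S S') {q : Q} (h : All S q)
    (h' : All S (rotB D N q)) : rotB D N' (mp f q) = mp f (rotB D N q) := by
  obtain ⟨ha, hb, hc, hd⟩ := h
  have hy := dart_S h'.2.2.1 h'.2.2.2
  simp only [RY.rotB, mp_dart]
  simp only [mp, E.sB ha hb hc hd, E.yB ha hb hc hd hy]

end comm

section patch

variable {D : Dat} {N t p : ℕ}

lemma inW_ins (hW : D.W ≤ t) (ht : t ≤ N) (z : ℕ) :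
    inW D.W (N + p) (ins t p z) = inW D.W N z := by
  rw [Bool.eq_iff_iff, inW_true, inW_true, ins]; split_ifs <;> omega

lemma enc_ins (hW : D.W ≤ t) (ht : t ≤ N) {z : ℕ} (h : inW D.W N z = true) :
    enc D.W (N + p) (ins t p z) = enc D.W N z := by
  rw [inW_true] at h
  simp only [enc_eq, ins]; split_ifs <;> omega

lemma dec_ins (hW : D.W ≤ t) (ht : t ≤ N) (z : ℕ) :
    dec D.W (N + p) z = ins t p (dec D.W N z) := by
  simp only [dec_eq, ins]; split_ifs <;> omega

lemma pv_true (N a b : ℕ) : pv D N a b = true ↔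
    (N ≤ a ∨ N ≤ b ∨ D.full = true) ∧ (N ≤ a ∨ a < D.W) ∧ (N ≤ b ∨ b < D.W) := by
  simp only [pv, selB_and, selB_or, inW_true, Nat.ble_eq]

lemma pv_ins (hW : D.W ≤ t) (ht : t ≤ N) (a b : ℕ) :
    pv D (N + p) (ins t p a) (ins t p b) = pv D N a b := by
  rw [Bool.eq_iff_iff, pv_true, pv_true, ins_le ht, ins_le ht, ← inW_true, ← inW_true,
    ← ins_le (p := p) (u := a) ht, ← ins_le (p := p) (u := b) ht, ← inW_true, ← inW_true,
    inW_ins hW ht, inW_ins hW ht]

lemma pat_ins {S S' : ℕ → Prop} (E : Emb D.K N (N + p) (ins t p) S S') (hW : D.W ≤ t) (ht : t ≤ N)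
    (a b c d : ℕ) :
    pat D (N + p) (ins t p a) (ins t p b) (ins t p c) (ins t p d) = pat D N a b c d := by
  simp only [pat, sel_eq, pv_ins hW ht, E.side, E.third, inW_ins hW ht]
  split_ifs with h1 h2
  · have h3 := (pv_true N a b).1 h1
    rw [enc_ins hW ht ((inW_true _ _ _).2 h3.2.1), enc_ins hW ht ((inW_true _ _ _).2 h3.2.2),
      enc_ins hW ht h2]
  · rfl
  · rfl

lemma rotP_ins {S S' : ℕ → Prop} (E : Emb D.K N (N + p) (ins t p) S S') (hW : D.W ≤ t)
    (ht : t ≤ N) {q : Q} (h : All S q) (h' : All S (rotP D N q)) :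
    rotP D (N + p) (mp (ins t p) q) = mp (ins t p) (rotP D N q) := by
  obtain ⟨ha, hb, hc, hd⟩ := h
  have hy := dart_S h'.2.2.1 h'.2.2.2
  simp only [rotP, mp_dart]
  simp only [mp, sP, yP, pat_ins E hW ht, sel_beq] at hy ⊢
  split_ifs at hy ⊢
  · rw [E.sB ha hb hc hd, E.yB ha hb hc hd hy]
  · rw [dec_ins hW ht]

lemma rotP_eq {q : Q} (h : pat D N q.1 q.2.1 q.2.2.1 q.2.2.2 = 0) : rotP D N q = rotB D N q := by
  simp only [rotP, rotB, sP, yP, sel_beq, if_pos h]

lemma pat_inW {a b c d : ℕ} (h : pat D N a b c d ≠ 0) :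
    pv D N a b = true ∧ inW D.W N (third b c d) = true := by
  simp only [pat, sel_eq] at h
  split_ifs at h with h1 h2
  · exact ⟨h1, h2⟩
  · exact absurd rfl h
  · exact absurd rfl h

end patch

end Pool.Agent.Lib.MP_1b8c51_co.RY
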