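import Pool.Agent.Lib.MP_1b8c51_co.RYCon

set_option autoImplicit false

/-! The changed rule gives a certificate for every size. -/

namespace Pool.Agent.Lib.MP_1b8c51_co.RY

variable {D : Dat} {N : ℕ}

def IsP (D : Dat) (N : ℕ) (q : Q) : Prop := pat D N q.2.2.1 q.2.2.2 q.1 q.2.1 ≠ 0

def InW (D : Dat) (N z : ℕ) : Prop := N ≤ z ∨ z < D.W

lemma isP_true (a b c d : ℕ) : isP D N a b c d = true ↔ IsP D N (a, b, c, d) := by
  simp [isP, selB_true, IsP]

lemma memX_sound {a b c d : ℕ} (h : memX D N a b c d = true) :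
    (a, b, c, d) ∈ D.X.map (decQ D.W N) := by
  rw [memX] at h
  generalize D.X = L at h
  induction L with
  | nil => exact absurd h Bool.false_ne_true
  | cons q L ih =>
    have h1 : selB (selB (eq2 a b (dec D.W N q.1) (dec D.W N q.2.1))
      (eq2 c d (dec D.W N q.2.2.1) (dec D.W N q.2.2.2)) false) true _ = true := h
    rw [selB_or, selB_and, eq2_true, eq2_true] at h1
    rw [List.map_cons, List.mem_cons]
    refine h1.imp (fun h => ?_) ih
    rw [h.1.1, h.1.2, h.2.1, h.2.2]; rfl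

lemma IsP.inW {r : ℕ} {q : Q} (h : IsP D N q) (o : Ok r q) : All (InW D N) q := by
  obtain ⟨h1, h2⟩ := pat_inW h
  rw [pv_true] at h1
  rw [inW_true, third_eq] at h2
  have h3 := o.2.2.2.2.2
  refine ⟨?_, ?_, h1.2.1, h1.2.2⟩
  · split_ifs at h2 with h4
    · exact h4 ▸ h1.2.2
    · exact h2
  · split_ifs at h2 with h4
    · exact h2
    · exact (h3.resolve_right fun h => h4 h.symm) ▸ h1.2.1

structure GP (D : Dat) (N : ℕ) (q : Q) : Prop where
  ok : IsP D N q → Ok (N + D.k) (ph (rotP D N) q)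
  isp : IsP D N q → IsP D N (ph (rotP D N) q)
  cl : IsP D N q → ph (rotP D N) (ph (rotP D N) (ph (rotP D N) q)) = q ∨
    ((q.1 = q.2.1 → q ∈ D.X.map (decQ D.W N)) ∧
      ph (rotP D N) (ph (rotP D N) (ph (rotP D N) (ph (rotP D N) q))) = q)
  old : IsP D N q → Fin4 N q → IsP D N (ph (rotB D N) q)
  fin : ¬ IsP D N q → Fin4 N q

lemma goodP_sound {q : Q} (hq : Ok (N + D.k) q)
    (h : goodP D N q.1 q.2.1 q.2.2.1 q.2.2.2 = true) : GP D N q := by
  rw [goodP, selB_true, isP_true, fin4_true] at h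
  rcases h with ⟨h0, h⟩ | ⟨h0, h⟩
  swap
  · exact ⟨fun k => absurd k h0, fun k => absurd k h0, fun k => absurd k h0, fun k => absurd k h0,
      fun _ => h⟩
  rw [selB_and] at h
  obtain ⟨h, h'⟩ := h
  rw [phK, selB_true, isP_true] at h'
  have hold : Fin4 N q → IsP D N (ph (rotB D N) q) := fun k => by
    rcases h' with h' | h'
    · exact h'.2
    · exact absurd ((fin4_true _ _ _ _ _).2 k) h'.1
  set φ := ph (rotG (sP D N) (yP D N)) with hφ
  rw [phK, ← hφ] at h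
  erw [phK _ _ (φ q), ← hφ, phK _ _ (φ (φ q)), ← hφ, phK _ _ (φ (φ (φ q))), ← hφ] at h
  simp only [selB_and] at h
  obtain ⟨h1, h2, h7⟩ := h
  refine ⟨fun _ => ok_ph _ _ hq h1, fun _ => (isP_true _ _ _ _).1 h2, fun _ => ?_, fun _ => hold,
    fun k => absurd h0 k⟩
  rw [selB_or, selB_and, eq2_true, eq2_true, selB_and, selB_and, eq2_true, eq2_true] at h7
  rw [rotP_G, ← hφ]
  rcases h7 with h7 | h7
  · left
    rw [hφ, ph_eta, ← hφ, h7.1.1, h7.1.2, h7.2.1, h7.2.2]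
  · right
    refine ⟨fun k => ?_, ?_⟩
    · have := h7.1
      rw [selB_true, Nat.beq_eq] at this
      exact memX_sound (this.resolve_right fun h => h.1 k).2
    · rw [hφ, ph_eta, ← hφ, h7.2.1.1, h7.2.1.2, h7.2.2.1, h7.2.2.2]

structure AllP (D : Dat) (N : ℕ) : Prop where
  gp : ∀ q, Ok (N + D.k) q → All (InW D N) q → GP D N q
  dir : ∀ a b x, a < N + D.k → b < N + D.k → x < N + D.k → InW D N a → InW D N b → InW D N x →
    a ≠ b → b ≠ x → a ≠ x → Dir1 (ph (rotP D N)) a b x ∨ Dir2 (ph (rotP D N)) a b x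

lemma exists_dec (_hW : D.W ≤ N) {z : ℕ} (h : z < N + D.k) (h1 : InW D N z) :
    ∃ i, i < D.W + D.k ∧ dec D.W N i = z := by
  refine ⟨enc D.W N z, ?_⟩
  simp only [enc_eq, dec_eq, InW] at *
  split_ifs <;> omega

lemma chkP_sound (hW : D.W ≤ N) (h : chkP D N = true) : AllP D N := by
  have h1 : ∀ a b x, a < N + D.k → b < N + D.k → x < N + D.k → InW D N a → InW D N b →
      InW D N x → tripP D N a b x = true := by
    intro a b x ha hb hx wa wb wx
    obtain ⟨i, hi, rfl⟩ := exists_dec hW ha wa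
    obtain ⟨j, hj, rfl⟩ := exists_dec hW hb wb
    obtain ⟨l, hl, rfl⟩ := exists_dec hW hx wx
    exact allB_true (allB_true (allB_true h i hi) j hj) l hl
  refine ⟨fun q o w => goodP_sound o ?_, fun a b x ha hb hx wa wb wx k1 k2 k3 => ?_⟩
  · obtain ⟨a, b, c, d⟩ := q
    obtain ⟨o1, o2, o3, o4, o5, o6 | o6⟩ := o
    · obtain rfl : c = b := o6
      have := h1 a c d o1 o2 o4 w.1 w.2.1 w.2.2.2
      simp only [tripP, selB_or, selB_and, Nat.beq_eq] at this
      exact (this.resolve_left o5).1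
    · obtain rfl : d = a := o6
      have := h1 c d b o3 o1 o2 w.2.2.1 w.1 w.2.1
      simp only [tripP, selB_or, selB_and, Nat.beq_eq] at this
      exact (this.resolve_left fun h => o5 ⟨h.1.symm, h.2.symm⟩).2.1
  · have := h1 a b x ha hb hx wa wb wx
    simp only [tripP, selB_or, selB_and, Nat.beq_eq] at this
    have := ((this.resolve_left fun h => k1 h.1).2.2.resolve_left (by tauto))
    exact this.imp (dir1_sound _ _) (dir2_sound _ _)

lemma mp_rev (f : ℕ → ℕ) (q : Q) : rev (mp f q) = mp f (rev q) := rfl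

lemma allP_step (hK : D.K < 2 * D.m) (hm : 5 ≤ D.m) (hN : D.W + 2 * D.m ≤ N) (A : AllP D N) :
    AllP D (N + 4) := by
  have E := emb_ins (N := N) (t := D.W + D.m) (p := 4) hK hm (by omega) (by norm_num) (by omega)
  set t := D.W + D.m with ht
  have hW : D.W ≤ t := by omega
  have htN : t ≤ N := by omega
  have aw : ∀ z, InW D N z → Away N t D.m z := fun z h => by simp only [InW, Away] at *; omega
  have aw4 : ∀ q, All (InW D N) q → All (Away N t D.m) q := fun q h =>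
    ⟨aw _ h.1, aw _ h.2.1, aw _ h.2.2.1, aw _ h.2.2.2⟩
  have ip : ∀ q, IsP D (N + 4) (mp (ins t 4) q) ↔ IsP D N q := fun q => by
    simp only [IsP, mp, pat_ins E hW htN]
  have cP : ∀ q, All (Away N t D.m) q → All (Away N t D.m) (ph (rotP D N) q) →
      ph (rotP D (N + 4)) (mp (ins t 4) q) = mp (ins t 4) (ph (rotP D N) q) := fun q h h' =>
    rotP_ins E hW htN (q := rev q) ⟨h.2.2.1, h.2.2.2, h.1, h.2.1⟩ h'
  have back : ∀ z, InW D (N + 4) z → ins t 4 (out t 4 z) = z ∧ InW D N (out t 4 z) := fun z h => by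
    simp only [InW, ins, out] at *; split_ifs <;> omega
  have lt : ∀ z, ins t 4 z < N + 4 + D.k → z < N + D.k := fun z h => by
    simp only [ins] at *; split_ifs at * <;> omega
  refine ⟨fun q' o' w' => ?_, fun a b x ha hb hx wa wb wx k1 k2 k3 => ?_⟩
  · obtain ⟨q, rfl, w⟩ : ∃ q, mp (ins t 4) q = q' ∧ All (InW D N) q :=
      ⟨mp (out t 4) q', by
        simp only [mp, (back _ w'.1).1, (back _ w'.2.1).1, (back _ w'.2.2.1).1, (back _ w'.2.2.2).1],
        (back _ w'.1).2, (back _ w'.2.1).2, (back _ w'.2.2.1).2, (back _ w'.2.2.2).2⟩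
    have o := ok_of_ins htN o'
    have G := A.gp q o w
    have st : ∀ u, Ok (N + D.k) u → IsP D N u → (Ok (N + D.k) (ph (rotP D N) u) ∧
        IsP D N (ph (rotP D N) u)) ∧ ph (rotP D (N + 4)) (mp (ins t 4) u) =
          mp (ins t 4) (ph (rotP D N) u) := fun u k1 k2 => by
      have G := A.gp u k1 (k2.inW k1)
      exact ⟨⟨G.ok k2, G.isp k2⟩, cP u (aw4 _ (k2.inW k1)) (aw4 _ ((G.isp k2).inW (G.ok k2)))⟩
    refine ⟨fun k => ?_, fun k => ?_, fun k => ?_, fun k f => ?_, fun k => ?_⟩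
    · have := st q o ((ip q).1 k)
      rw [this.2]; exact E.ok this.1.1
    · have := st q o ((ip q).1 k)
      rw [this.2, ip]; exact this.1.2
    · have s1 := st q o ((ip q).1 k)
      have s2 := st _ s1.1.1 s1.1.2
      have s3 := st _ s2.1.1 s2.1.2
      have s4 := st _ s3.1.1 s3.1.2
      rw [s1.2, s2.2, s3.2, s4.2]
      refine (G.cl ((ip q).1 k)).imp (fun h => by rw [h]) fun h => ⟨fun h1 => ?_, by rw [h.2]⟩
      obtain ⟨u, u1, u2⟩ := List.mem_map.1 (h.1 (E.inj _ _ h1))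
      refine List.mem_map.2 ⟨u, u1, ?_⟩
      rw [← u2]
      simp only [decQ, mp, dec_ins hW htN]
    · have f1 : Fin4 N q := by
        simp only [Fin4, mp, ins] at *; split_ifs at * <;> omega
      have k1 := G.old ((ip q).1 k) f1
      have k2 : All (InW D N) (ph (rotB D N) q) := by
        obtain ⟨h1, h2⟩ := pat_inW k1
        rw [pv_true] at h1
        exact ⟨w.2.2.1, w.2.2.2, h1.2.1, h1.2.2⟩
      rw [E.phB q (aw4 _ w) (aw4 _ k2), ip]; exact k1
    · exact E.fin4 (G.fin fun h => k ((ip q).2 h))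
  · obtain ⟨a1, a2⟩ := back a wa
    obtain ⟨b1, b2⟩ := back b wb
    obtain ⟨x1, x2⟩ := back x wx
    have := (A.dir _ _ _ (lt _ (a1.symm ▸ ha)) (lt _ (b1.symm ▸ hb)) (lt _ (x1.symm ▸ hx)) a2 b2 x2
      (fun h => k1 (by rw [← a1, h, b1])) (fun h => k2 (by rw [← b1, h, x1]))
      (fun h => k3 (by rw [← a1, h, x1]))).imp (Dir1.emb cP (aw _ a2) (aw _ b2) (aw _ x2))
        (Dir2.emb cP (aw _ a2) (aw _ b2) (aw _ x2))
    rwa [a1, b1, x1] at this

theorem allP_all (hK : D.K < 2 * D.m) (hm : 5 ≤ D.m) {N0 : ℕ} (hW : D.W ≤ N0)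
    (hc : ∀ N, N % 4 = 0 → N0 ≤ N → (N < D.W + 2 * D.m + 4 ∨ N < N0 + 4) → chkP D N = true)
    (N : ℕ) : N % 4 = 0 → N0 ≤ N → AllP D N := by
  induction N using Nat.strong_induction_on with
  | _ N ih =>
  intro h4 hN
  by_cases h : N < D.W + 2 * D.m + 4 ∨ N < N0 + 4
  · exact chkP_sound (by omega) (hc N h4 hN h)
  · obtain ⟨N1, rfl⟩ : ∃ N1, N = N1 + 4 := ⟨N - 4, by omega⟩
    exact allP_step hK hm (by omega) (ih N1 (by omega) (by omega) (by omega))

lemma ph_eq {q : Q} (h : ¬ IsP D N q) : ph (rotP D N) q = ph (rotB D N) q :=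
  rotP_eq (q := rev q) (not_not.1 h)

section one

variable (T : ∀ a b x, a < N + D.k → b < N + D.k → x < N + D.k → (a < N ∨ b < N ∨ x < N) →
  Trip N (N + D.k) (ph (rotB D N)) a b x) (A : AllP D N)

include A in
lemma fin_of {q : Q} (o : Ok (N + D.k) q) (h : ¬ IsP D N q) : Fin4 N q := by
  by_contra h1
  refine h1 ((A.gp q o ?_).fin h)
  simp only [Fin4, All, InW] at *; omega

include T A in
lemma nonP_step {q : Q} (o : Ok (N + D.k) q) (h : ¬ IsP D N q) :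
    Ok (N + D.k) (ph (rotB D N) q) ∧ ¬ IsP D N (ph (rotB D N) q) := by
  have G0 := good_of_ok T o (fin_of A o h)
  refine ⟨G0.ok, fun k1 => h ?_⟩
  have G1 := good_of_ok T G0.ok G0.fin
  have G2 := good_of_ok T G1.ok G1.fin
  have k2 := (A.gp _ G0.ok (k1.inW G0.ok)).old k1 G0.fin
  have k3 := (A.gp _ G1.ok (k2.inW G1.ok)).old k2 G1.fin
  have k4 := (A.gp _ G2.ok (k3.inW G2.ok)).old k3 G2.fin
  rcases G0.cl with e | e
  · rwa [e] at k3
  · rwa [e.2] at k4

include T A in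
lemma ok_P {q : Q} (o : Ok (N + D.k) q) : Ok (N + D.k) (ph (rotP D N) q) := by
  by_cases h : IsP D N q
  · exact (A.gp q o (h.inW o)).ok h
  · rw [ph_eq h]; exact (nonP_step T A o h).1

include T A in
lemma cl_P {q : Q} (o : Ok (N + D.k) q) : (ph (rotP D N))^[3] q = q ∨
    ((q.1 = q.2.1 → q ∈ D.X.map (decQ D.W N)) ∧ (ph (rotP D N))^[4] q = q) := by
  by_cases h : IsP D N q
  · exact (A.gp q o (h.inW o)).cl h
  · have s1 := nonP_step T A o h
    have s2 := nonP_step T A s1.1 s1.2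
    have s3 := nonP_step T A s2.1 s2.2
    show ph _ (ph _ (ph _ q)) = q ∨ _ ∧ ph _ (ph _ (ph _ (ph _ q))) = q
    rw [ph_eq h, ph_eq s1.2, ph_eq s2.2, ph_eq s3.2]
    exact (good_of_ok T o (fin_of A o h)).cl.imp id fun k => ⟨fun e => absurd e k.1, k.2⟩

include T A in
lemma dir_P {a b x : ℕ} (ha : a < N + D.k) (hb : b < N + D.k) (hx : x < N + D.k) (k1 : a ≠ b)
    (k2 : b ≠ x) (k3 : a ≠ x) : Dir1 (ph (rotP D N)) a b x ∨ Dir2 (ph (rotP D N)) a b x := by
  by_cases h : InW D N a ∧ InW D N b ∧ InW D N x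
  · exact A.dir a b x ha hb hx h.1 h.2.1 h.2.2 k1 k2 k3
  have n : ∀ q, Ok (N + D.k) q → (All (InW D N) q → InW D N a ∧ InW D N b ∧ InW D N x) →
      ph (rotP D N) q = ph (rotB D N) q := fun q o w => ph_eq fun p => h (w (p.inW o))
  refine ((T a b x ha hb hx (by simp only [InW] at h; omega)).dir k1 k2 k3).imp
    (fun h => ⟨?_, ?_, ?_⟩) fun h => ⟨?_, ?_, ?_⟩
  · rw [n _ ⟨ha, hb, hb, hx, fun h => k1 h.1, Or.inl rfl⟩ fun w => ⟨w.1, w.2.1, w.2.2.2⟩, h.1]
  · rw [n _ ⟨hb, hx, hx, ha, fun h => k2 h.1, Or.inl rfl⟩ fun w => ⟨w.2.2.2, w.1, w.2.1⟩, h.2.1]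
  · rw [n _ ⟨hx, ha, ha, hb, fun h => k3 h.1.symm, Or.inl rfl⟩ fun w => ⟨w.2.1, w.2.2.2, w.1⟩, h.2.2]
  · rw [n _ ⟨hb, hx, ha, hb, fun h => k1 h.1.symm, Or.inr rfl⟩ fun w => ⟨w.2.2.1, w.1, w.2.1⟩, h.1]
  · rw [n _ ⟨ha, hb, hx, ha, fun h => k3 h.1, Or.inr rfl⟩ fun w => ⟨w.1, w.2.1, w.2.2.1⟩, h.2.1]
  · rw [n _ ⟨hx, ha, hb, hx, fun h => k2 h.1.symm, Or.inr rfl⟩ fun w => ⟨w.2.1, w.2.2.1, w.1⟩, h.2.2]

end one

lemma dec_inj {W N i j : ℕ} (hW : W ≤ N) (h : dec W N i = dec W N j) : i = j := by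
  simp only [dec_eq] at h; split_ifs at h <;> omega

lemma ok_dec {W N k : ℕ} (hW : W ≤ N) {q : Q} (h : Ok (W + k) q) : Ok (N + k) (decQ W N q) := by
  have lt : ∀ z, z < W + k → dec W N z < N + k := fun z h => by
    simp only [dec_eq]; split_ifs <;> omega
  obtain ⟨h1, h2, h3, h4, h5, h6⟩ := h
  exact ⟨lt _ h1, lt _ h2, lt _ h3, lt _ h4, fun h => h5 ⟨dec_inj hW h.1, dec_inj hW h.2⟩,
    h6.imp (congrArg (dec W N)) (congrArg (dec W N))⟩

lemma rotP_far {a b s x : ℕ} (_hs : s < 2) (hb : x ≠ b) (h1 : D.W ≤ x) (h2 : x < N) :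
    rotP D N (dart a b s x) = rotB D N (dart a b s x) := by
  refine rotP_eq (not_not.1 fun h => ?_)
  have h3 := (pat_inW h).2
  have e2 : third b (dart a b s x).2.2.1 (dart a b s x).2.2.2 = x := by
    simp only [dart_eq, third_eq]; split_ifs <;> simp_all
  erw [e2, inW_true] at h3
  omega

theorem conP_all (hK : D.K < 2 * D.m) (hm : 5 ≤ D.m) (hm' : D.m ≤ 6) (hF : chkF D = true) {N0 : ℕ}
    (h8 : 8 ≤ N0) (h0 : N0 ≤ 56) (hW : D.W ≤ N0) (o1 : Ok (D.W + D.k) D.p0)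
    (o2 : Ok (D.W + D.k) D.q0) (o3 : D.p0.1 = D.q0.1) (o4 : D.p0.2.1 = D.q0.2.1)
    (hok : ∀ N, N % 4 = 0 → N0 ≤ N → ∀ q, Ok (N + D.k) q → Ok (N + D.k) (ph (rotP D N) q))
    (hc : ∀ N, N % 4 = 0 → N0 ≤ N → N < D.W + 64 → chkPV D N = true) (N : ℕ) :
    N % 4 = 0 → N0 ≤ N → ∀ a b, a < N + D.k → b < N + D.k → pv D N a b = true →
      Con (N + D.k) (rotP D N) a b (decQ D.W N D.p0) (decQ D.W N D.q0) := by
  induction N using Nat.strong_induction_on with
  | _ N ih =>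
  intro h4 hN a b ha hb hp
  have hp' := (pv_true N a b).1 hp
  by_cases h : N < D.W + 64
  · obtain ⟨i, hi, rfl⟩ := exists_dec (D := D) (by omega) ha hp'.2.1
    obtain ⟨j, hj, rfl⟩ := exists_dec (D := D) (by omega) hb hp'.2.2
    have h1 := allB_true (allB_true (hc N h4 hN h) i hi) j hj
    have h2 : ∀ d, Ok (N + D.k) d → d.1 = dec D.W N i → d.2.1 = dec D.W N j →
        Ok (N + D.k) (rotG (sP D N) (yP D N) d) := fun d o _ _ => hok N h4 hN _ (ok_rev o)
    rw [selB_true, selB_true, eq2_true] at h1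
    rcases h1 with ⟨-, ⟨h1, h3⟩ | ⟨-, h3⟩⟩ | h1
    · have k1 := ok_dec (N := N) (by omega) o1
      have k2 := ok_dec (N := N) (by omega) o2
      simp only [decQ, ← o3, ← o4, ← h1.1, ← h1.2] at k1 k2 ⊢
      exact conB2_sound k1 k2 h2 h3
    · exact conB_sound (by omega) ha hb h2 h3 _ _
    · exact absurd hp h1.1
  · obtain ⟨N1, rfl⟩ : ∃ N1, N = N1 + 8 := ⟨N - 8, by omega⟩
    set t := D.W + 28 with ht
    have hWt : D.W ≤ t := by omega
    have htN : t ≤ N1 := by omega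
    have back : ∀ z, z < N1 + 8 + D.k → (N1 + 8 ≤ z ∨ z < D.W) → ∃ u, ins t 8 u = z ∧
        u < N1 + D.k ∧ Away N1 t 28 u := fun z k1 k2 => ⟨out t 8 z, by
      simp only [ins, out, Away]; split_ifs <;> omega⟩
    obtain ⟨a0, rfl, a1, wa⟩ := back a ha hp'.2.1
    obtain ⟨b0, rfl, b1, wb⟩ := back b hb hp'.2.2
    rw [pv_ins hWt htN] at hp
    have E0 := emb_ins (N := N1) (t := t) (p := 8) hK hm (by omega) (by norm_num) htN
    obtain ⟨g, G, g1, g2⟩ := far_steps (t := t) hK hm hm' hF (by omega) (by omega) a1 b1 wa wb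
    have := con_step (R := rotP D N1) (R' := rotP D (N1 + 8)) E0 G (by omega) (by omega) a1 b1 wa wb
      (fun d od d1 d2 w => ?_) (fun s x k1 k2 k3 => ?_) (fun s x k1 k2 k3 => ?_)
      (ih N1 (by omega) (by omega) (by omega) a0 b0 a1 b1 hp)
    · simpa only [decQ, mp, dec_ins hWt htN] using this
    · subst d1 d2
      refine rotP_ins E0 hWt htN
        (all_of_ok od (wa.mono (by omega)) (wb.mono (by omega)) (w.mono (by omega)))
        (all_dart (wa.mono (by omega)) (wb.mono (by omega)) ?_)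
      rw [yP, sel_beq]
      split_ifs
      · exact away_yB hm' (by omega) (by omega) wa wb w
      · simp only [dec_eq, Away]; split_ifs <;> omega
    · rw [rotP_far k1 (by simp only [Away] at wb; omega) (by omega) (by omega)]
      exact g1 s x k1 k2 k3
    · rw [rotP_far k1 (by simp only [Away, ins] at *; split_ifs <;> omega) (by omega) (by omega)]
      exact g2 s x k1 k2 k3

lemma four {P : ℕ → Prop} (h0 : P 0) (h1 : P 1) (h2 : P 2) (h3 : P 3) : ∀ a, a < 4 → P a := by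
  intro a ha
  interval_cases a <;> assumption

structure Checks (D : Dat) (N0 : ℕ) : Prop where
  hK : D.K < 2 * D.m
  hm : 5 ≤ D.m
  hm' : D.m ≤ 6
  h8 : 8 ≤ N0
  h0 : N0 ≤ 2 * (D.m + 8)
  hW : D.W ≤ N0
  hX : D.X.length ≤ 3
  o1 : Ok (D.W + D.k) D.p0
  o2 : Ok (D.W + D.k) D.q0
  o3 : D.p0.1 = D.q0.1
  o4 : D.p0.2.1 = D.q0.2.1
  cF : chkF D = true
  cA : ∀ N, N % 4 = 0 → N0 ≤ N → N + 2 < 3 * (2 * (D.m + 8) + 4) →
    (∀ a, a < 4 → chkA D N a = true) ∧ chkI D N = true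
  cV : ∀ N, N % 4 = 0 → N0 ≤ N → N < 127 → chkV D N = true
  cP : ∀ N, N % 4 = 0 → N0 ≤ N → (N < D.W + 2 * D.m + 4 ∨ N < N0 + 4) → chkP D N = true
  cPV : ∀ N, N % 4 = 0 → N0 ≤ N → N < D.W + 64 → chkPV D N = true

theorem cert_all {N0 : ℕ} (C : Checks D N0) (h4 : N % 4 = 0) (hN : N0 ≤ N) :
    Cert (N + D.k) (ph (rotP D N)) := by
  have T := trip_all C.hK C.hm C.h8 C.h0 C.cA
  have A := allP_all C.hK C.hm C.hW C.cP
  have h56 : N0 ≤ 56 := by have := C.h0; have := C.hm'; omega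
  have hW : D.W ≤ N := C.hW.trans hN
  refine ⟨fun q o => ⟨ok_P (T N h4 hN) (A N h4 hN) o, rfl, rfl⟩,
    fun q o => (cl_P (T N h4 hN) (A N h4 hN) o).imp id fun h => h.2,
    fun a b c ha hb hc k1 k2 k3 => ?_, ?_, ?_⟩
  · refine (dir_P (T N h4 hN) (A N h4 hN) ha hb hc k1 k2 k3).imp (fun h => ⟨h.1, ?_⟩)
      fun h => ⟨h.1, ?_⟩
    · show ph _ (ph _ (ph _ _)) = _
      rw [h.1, h.2.1, h.2.2]
    · show ph _ (ph _ (ph _ _)) = _
      rw [h.1, h.2.1, h.2.2]
  · refine ⟨(D.X.map (decQ D.W N)).toFinset, (List.toFinset_card_le _).trans ?_,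
      fun q o e n => (cl_P (T N h4 hN) (A N h4 hN) o).resolve_right fun h => n ?_⟩
    · rw [List.length_map]; exact C.hX
    · exact List.mem_toFinset.2 (h.1 e)
  · refine ⟨decQ D.W N D.p0, decQ D.W N D.q0, ok_dec hW C.o1, ok_dec hW C.o2,
      congrArg (dec D.W N) C.o3, congrArg (dec D.W N) C.o4, fun E hE hs hp q q' o o' e1 e2 => ?_⟩
    by_cases h : pv D N q.1 q.2.1 = true
    · exact conP_all C.hK C.hm C.hm' C.cF C.h8 h56 C.hW C.o1 C.o2 C.o3 C.o4
        (fun N a b _ o => ok_P (T N a b) (A N a b) o) C.cPV N h4 hN _ _ o.1 o.2.1 h E hE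
        (fun d od _ _ => hs d od) hp q q' o o' rfl rfl e1.symm e2.symm
    · refine conB_all C.hK C.hm C.hm' C.cF C.h8 h56 T C.cV N h4 hN _ _ q o.1 o.2.1 ?_ E hE
        (fun d od d1 d2 => ?_) (hE.refl _) q q' o o' rfl rfl e1.symm e2.symm
      · rw [pv_true] at h; omega
      · rw [← rotP_eq (not_not.1 fun k => h (d1 ▸ d2 ▸ (pat_inW k).1))]
        exact hs d od

end Pool.Agent.Lib.MP_1b8c51_co.RY
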