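import Pool.Agent.Lib.MP_1b8c51_co.ExA
import Pool.Agent.Lib.MP_1b8c51_co.RYBlue

set_option autoImplicit false

namespace Pool.Agent.Lib.MP_1b8c51_co.RY

open Finset Function Equiv

/-! The graph side: from a coded face map to the genus formula. -/

namespace G

section swap

variable {D : Type} [Fintype D] [DecidableEq D]

lemma orbits_le_swap (f : Perm D) (a b : D) : Nat.card (Quotient (Perm.SameCycle.setoid f)) ≤
    Nat.card (Quotient (Perm.SameCycle.setoid (f * swap a b))) + 1 := by
  classical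
  let h : D → Quotient (Perm.SameCycle.setoid f) := fun x =>
    if f.SameCycle b x then Quotient.mk _ a else Quotient.mk _ x
  have h0 : ∀ x, h (f x) = h x := fun x => by
    simp only [h, Perm.sameCycle_apply_right]
    split_ifs
    · rfl
    · exact Quotient.sound (Perm.sameCycle_apply_left.2 (Perm.SameCycle.refl _ _))
  have hab : h a = h b := by
    simp only [h, if_pos (Perm.SameCycle.refl f b), ite_self]
  have h1 : ∀ x, h ((f * swap a b) x) = h x := fun x => by
    rw [Perm.mul_apply, h0]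
    by_cases ha : x = a
    · rw [ha, swap_apply_left, hab]
    · by_cases hb : x = b
      · rw [hb, swap_apply_right, hab]
      · rw [swap_apply_of_ne_of_ne ha hb]
  have h2 : ∀ n x, h ((f * swap a b)^[n] x) = h x := fun n x => by
    induction n with
    | zero => rfl
    | succ n ih => rw [iterate_succ_apply', h1, ih]
  let g : Quotient (Perm.SameCycle.setoid (f * swap a b)) → Quotient (Perm.SameCycle.setoid f) :=
    Quotient.lift h (by
      intro x y (k : (f * swap a b).SameCycle x y)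
      obtain ⟨n, rfl⟩ := exists_iterate_of_sameCycle k
      exact (h2 n x).symm)
  rw [← Finite.card_option]
  refine Nat.card_le_card_of_surjective (fun o => Option.elim o (Quotient.mk _ b) g) ?_
  rintro ⟨x⟩
  by_cases k : f.SameCycle b x
  · exact ⟨none, Quotient.sound k⟩
  · exact ⟨some (Quotient.mk _ x), if_neg k⟩

lemma same_swap (f : Perm D) {a b : D} (h : ¬ f.SameCycle a b) :
    (f * swap a b).SameCycle a b := by
  have key : ∀ n, (f * swap a b).SameCycle a b ∨ (f * swap a b).SameCycle a (f^[n + 1] b) := by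
    intro n
    induction n with
    | zero =>
      refine Or.inr ?_
      have : f^[0 + 1] b = (f * swap a b) a := by simp
      rw [this]
      exact Perm.sameCycle_apply_right.2 (Perm.SameCycle.refl _ _)
    | succ n ih =>
      refine ih.elim Or.inl fun k => ?_
      by_cases hb : f^[n + 1] b = b
      · exact Or.inl (by rwa [hb] at k)
      · have ha : f^[n + 1] b ≠ a := fun e => h (e ▸ (sameCycle_iterate f b (n + 1)).symm)
        have : f^[n + 1 + 1] b = (f * swap a b) (f^[n + 1] b) := by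
          rw [Perm.mul_apply, swap_apply_of_ne_of_ne ha hb, iterate_succ_apply' f (n + 1)]
        rw [this]
        exact Or.inr (Perm.sameCycle_apply_right.2 k)
  obtain ⟨n, hn⟩ := Nat.exists_eq_succ_of_ne_zero (period_pos f b).ne'
  have := key n
  rw [show n + 1 = minimalPeriod f b from hn.symm, iterate_minimalPeriod] at this
  exact this.elim id id

end swap

variable {r : ℕ}

/-- code of a dart -/
def enc (d : Dt r 2) : Q := (d.fst 0, d.fst 1, d.snd 0, d.snd 1)

lemma enc_inj : Injective (enc (r := r)) := fun d e h => by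
  simp only [enc, Prod.mk.injEq, ← Fin.ext_iff] at h
  exact dart_ext (ext_two.2 ⟨h.1, h.2.1⟩) (ext_two.2 h.2.2)

lemma ok_enc (d : Dt r 2) : Ok r (enc d) := by
  have h := adj_iff.1 d.adj
  simp only [arc_two, Ne, ext_two, Fin.ext_iff] at h
  exact ⟨Fin.is_lt _, Fin.is_lt _, Fin.is_lt _, Fin.is_lt _, h.1, h.2.imp id Eq.symm⟩

lemma exists_enc {q : Q} (h : Ok r q) : ∃ d : Dt r 2, enc d = q := by
  obtain ⟨h1, h2, h3, h4, h5, h6⟩ := h
  refine ⟨⟨(![⟨_, h1⟩, ⟨_, h2⟩], ![⟨_, h3⟩, ⟨_, h4⟩]), adj_iff.2 ?_⟩, rfl⟩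
  simp only [arc_two, Ne, ext_two, Fin.ext_iff]
  exact ⟨h5, h6.imp id Eq.symm⟩

lemma fst_eq {d e : Dt r 2} : d.fst = e.fst ↔ (enc d).1 = (enc e).1 ∧ (enc d).2.1 = (enc e).2.1 := by
  simp only [enc, ext_two, Fin.ext_iff]

lemma not_both {x y : Wd r 2} (h : (deBruijn r 2).Adj x y) (a : x 0 = x 1) (b : y 0 = y 1) :
    False := by
  have h := adj_iff.1 h
  simp only [arc_two, Ne, ext_two, Fin.ext_iff] at h a b
  omega

lemma count {φ : Q → Q} (hr : 3 ≤ r) (C : Cert r φ) (f : Perm (Dt r 2))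
    (hf : ∀ d, enc (f d) = φ (enc d)) :
    7 * ((r - 1) * r * (r + 1)) ≤ 12 * Nat.card (Quotient (Perm.SameCycle.setoid f)) + 9 := by
  classical
  have hit : ∀ n d, enc (f^[n] d) = φ^[n] (enc d) := fun n d => by
    induction n with
    | zero => rfl
    | succ n ih => rw [iterate_succ_apply', iterate_succ_apply', hf, ih]
  have hfst : ∀ d, (f d).fst = d.snd := fun d => by
    have := (C.ok _ (ok_enc d)).2
    rw [← hf] at this
    exact ext_two.2 ⟨Fin.ext this.1, Fin.ext this.2⟩
  let A : Finset (Dt r 2) := univ.filter fun d => f^[3] d = d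
  have h1 := orbits_ge_three_four f A Aᶜ disjoint_compl_right (fun d hd => (mem_filter.1 hd).2)
    fun d hd => enc_inj (by
      rw [hit]
      refine (C.per _ (ok_enc d)).resolve_left fun k => mem_compl.1 hd ?_
      exact mem_filter.2 ⟨mem_univ _, enc_inj (by rw [hit, k])⟩)
  have hA : ∀ d, d ∈ A ↔ f (f (f d)) = d := fun d => by simp [A]
  let S0 := A.filter fun d => d.fst 0 = d.fst 1
  let S1 := A.filter fun d => d.snd 0 = d.snd 1
  let S2 := A.filter fun d => (f d).snd 0 = (f d).snd 1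
  let S3 := A.filter fun d => d.fst 0 ≠ d.fst 1 ∧ d.snd 0 ≠ d.snd 1 ∧ (f d).snd 0 ≠ (f d).snd 1
  have a1 : S0.card ≤ S1.card := card_le_card_of_injOn (fun d => f (f d)) (fun d hd => by
    obtain ⟨k1, k2⟩ := mem_filter.1 (mem_coe.1 hd)
    have k3 := (hA d).1 k1
    refine mem_coe.2 (mem_filter.2 ⟨(hA _).2 (by simp only [k3]), ?_⟩)
    rw [← hfst, k3]
    exact k2) (f.injective.comp f.injective).injOn
  have a2 : S0.card ≤ S2.card := card_le_card_of_injOn f (fun d hd => by
    obtain ⟨k1, k2⟩ := mem_filter.1 (mem_coe.1 hd)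
    have k3 := (hA d).1 k1
    refine mem_coe.2 (mem_filter.2 ⟨(hA _).2 (by simp only [k3]), ?_⟩)
    rw [← hfst, k3]
    exact k2) f.injective.injOn
  have a0 : 2 * r ^ 2 ≤ S0.card + 3 + 2 * r := by
    obtain ⟨X, hX, hc⟩ := C.cst
    have k1 := Ex.card_loop (r := r) 1
    have k2 : (univ.filter fun d => arc ((1 : Perm (Dt r 2)) d).fst ((1 : Perm (Dt r 2)) d).fst) ⊆
        S0 ∪ univ.filter fun d => enc d ∈ X := fun d hd => by
      have k : d.fst 0 = d.fst 1 := arc_two.1 (mem_filter.1 hd).2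
      by_cases hx : enc d ∈ X
      · exact mem_union_right _ (mem_filter.2 ⟨mem_univ _, hx⟩)
      · refine mem_union_left _ (mem_filter.2 ⟨mem_filter.2 ⟨mem_univ _, enc_inj ?_⟩, k⟩)
        rw [hit]
        exact hc _ (ok_enc d) (congrArg Fin.val k) hx
    have k3 : (univ.filter fun d : Dt r 2 => enc d ∈ X).card ≤ X.card :=
      card_le_card_of_injOn enc (fun d hd => (mem_filter.1 (mem_coe.1 hd)).2) enc_inj.injOn
    have k4 := (card_le_card k2).trans (card_union_le _ _)
    omega
  have a3 : (r - 2) * ((r - 1) * r) ≤ S3.card := by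
    have k : ∀ p : Fin 3 ↪ Fin r, ∃ d ∈ S3, enc d = ((p 0 : ℕ), (p 1 : ℕ), (p 1 : ℕ), (p 2 : ℕ)) ∨
        enc d = ((p 1 : ℕ), (p 2 : ℕ), (p 0 : ℕ), (p 1 : ℕ)) := fun p => by
      have e1 : (p 0 : ℕ) ≠ p 1 := fun e => by simpa using p.injective (Fin.ext e)
      have e2 : (p 1 : ℕ) ≠ p 2 := fun e => by simpa using p.injective (Fin.ext e)
      have e3 : (p 0 : ℕ) ≠ p 2 := fun e => by simpa using p.injective (Fin.ext e)
      rcases C.dir _ _ _ (p 0).is_lt (p 1).is_lt (p 2).is_lt e1 e2 e3 with k | k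
      · obtain ⟨d, hd⟩ := exists_enc (r := r) (q := (p 0, p 1, p 1, p 2))
          ⟨(p 0).is_lt, (p 1).is_lt, (p 1).is_lt, (p 2).is_lt, fun e => e1 e.1, Or.inl rfl⟩
        have k1 := hf d
        rw [hd, k.1] at k1
        refine ⟨d, mem_filter.2 ⟨mem_filter.2 ⟨mem_univ _, enc_inj (by rw [hit, hd, k.2])⟩, ?_⟩,
          Or.inl hd⟩
        simp only [enc, Prod.mk.injEq] at hd k1
        simp only [Ne, Fin.ext_iff]
        omega
      · obtain ⟨d, hd⟩ := exists_enc (r := r) (q := (p 1, p 2, p 0, p 1))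
          ⟨(p 1).is_lt, (p 2).is_lt, (p 0).is_lt, (p 1).is_lt, fun e => e1 e.1.symm, Or.inr rfl⟩
        have k1 := hf d
        rw [hd, k.1] at k1
        refine ⟨d, mem_filter.2 ⟨mem_filter.2 ⟨mem_univ _, enc_inj (by rw [hit, hd, k.2])⟩, ?_⟩,
          Or.inr hd⟩
        simp only [enc, Prod.mk.injEq] at hd k1
        simp only [Ne, Fin.ext_iff]
        omega
    choose g hg1 hg2 using k
    have k2 : (univ : Finset (Fin 3 ↪ Fin r)).card ≤ S3.card :=
      card_le_card_of_injOn g (fun p _ => hg1 p) fun p _ p' _ h => by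
        have e3 : ∀ p : Fin 3 ↪ Fin r, (p 0 : ℕ) ≠ p 2 := fun p e => by
          simpa using p.injective (Fin.ext e)
        have b1 := hg2 p
        have b2 := hg2 p'
        have b3 := e3 p
        have b4 := e3 p'
        rw [← h] at b2
        have : (p 0 : ℕ) = p' 0 ∧ (p 1 : ℕ) = p' 1 ∧ (p 2 : ℕ) = p' 2 := by
          rcases b1 with b1 | b1 <;> rw [b1] at b2 <;> simp only [Prod.mk.injEq] at b2 <;> omega
        ext i
        fin_cases i
        exacts [this.1, this.2.1, this.2.2]
    rw [card_univ, Fintype.card_embedding_eq, Fintype.card_fin, Fintype.card_fin] at k2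
    simpa [Nat.descFactorial] using k2
  have a4 : S0.card + S1.card + S2.card + S3.card ≤ A.card := by
    have d1 : Disjoint S0 S1 := disjoint_left.2 fun d h h' =>
      not_both d.adj (mem_filter.1 h).2 (mem_filter.1 h').2
    have d2 : Disjoint (S0 ∪ S1) S2 := disjoint_left.2 fun d h h' => by
      obtain ⟨k1, k2⟩ := mem_filter.1 h'
      rcases mem_union.1 h with h | h
      · have := (f (f d)).adj
        rw [hfst, ← hfst (f (f d)), (hA d).1 k1] at this
        exact not_both this k2 (mem_filter.1 h).2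
      · have := (f d).adj
        rw [hfst] at this
        exact not_both this (mem_filter.1 h).2 k2
    have d3 : Disjoint (S0 ∪ S1 ∪ S2) S3 := disjoint_left.2 fun d h h' => by
      obtain ⟨-, k1, k2, k3⟩ := mem_filter.1 h'
      rcases mem_union.1 h with h | h
      · rcases mem_union.1 h with h | h
        exacts [k1 (mem_filter.1 h).2, k2 (mem_filter.1 h).2]
      · exact k3 (mem_filter.1 h).2
    rw [← card_union_of_disjoint d1, ← card_union_of_disjoint d2, ← card_union_of_disjoint d3]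
    exact card_le_card (union_subset (union_subset (union_subset (filter_subset _ _)
      (filter_subset _ _)) (filter_subset _ _)) (filter_subset _ _))
  have h2 := card_add_card_compl A
  have h3 := Ex.card_darts (r := r)
  have h4 : 4 * A.card + 3 * Aᶜ.card ≤ 12 * Nat.card (Quotient (Perm.SameCycle.setoid f)) := by
    have : (4 * A.card + 3 * Aᶜ.card : ℝ) ≤
        12 * Nat.card (Quotient (Perm.SameCycle.setoid f)) := by linarith
    exact_mod_cast this
  obtain ⟨s, rfl⟩ : ∃ s, r = s + 2 := ⟨r - 2, by omega⟩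
  have e1 : s + 2 - 1 = s + 1 := rfl
  rw [Nat.add_sub_cancel, e1] at a3
  rw [e1]
  nlinarith

end G

theorem st_DC : St_DC := fun r => by
  have h := Ex.card_darts (r := r)
  rcases r with _ | r
  · simpa using h
  · rw [Nat.add_sub_cancel]
    nlinarith

theorem st_LB : St_LB := fun r hr σ hσ => by
  have h := Ex.faces_le hσ (by omega)
  obtain ⟨s, rfl⟩ : ∃ s, r = s + 1 := ⟨r - 1, by omega⟩
  rw [Nat.add_sub_cancel]
  nlinarith

theorem st_PAR : St_PAR := fun _ hr _ hσ => Nat.even_iff.2 (Ex.euler_even hσ hr)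

theorem st_MERGE : St_MERGE := fun r π d0 e0 h1 h2 h3 => by
  classical
  by_cases h : π.SameCycle d0 e0
  · exact ⟨π, ⟨h1, h3 _ (Perm.SameCycle.setoid π).iseqv
      (fun d => sameCycle_iterate π d 1) h⟩, Nat.le_succ _⟩
  · have k := G.same_swap π h
    refine ⟨π * swap d0 e0, ⟨fun d => ?_, h3 _ (Perm.SameCycle.setoid _).iseqv (fun d => ?_) k⟩, ?_⟩
    · rw [Perm.mul_apply, h1]
      by_cases ha : d = d0
      · rw [ha, swap_apply_left, h2]
      · by_cases hb : d = e0
        · rw [hb, swap_apply_right, h2]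
        · rw [swap_apply_of_ne_of_ne ha hb]
    · have k2 : π d = (π * swap d0 e0) (swap d0 e0 d) := by simp
      change (π * swap d0 e0).SameCycle d (π d)
      rw [k2, Perm.sameCycle_apply_right]
      by_cases ha : d = d0
      · rwa [ha, swap_apply_left]
      · by_cases hb : d = e0
        · rw [hb, swap_apply_right]
          exact k.symm
        · rw [swap_apply_of_ne_of_ne ha hb]
    · let α : Perm (Dt r 2) :=
        Function.Involutive.toPerm SimpleGraph.Dart.symm SimpleGraph.Dart.symm_involutive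
      have k2 : π * swap d0 e0 * α = π * α * swap (α⁻¹ d0) (α⁻¹ e0) := by
        rw [swap_apply_apply]
        simp [mul_assoc]
      have k3 := G.orbits_le_swap (π * α) (α⁻¹ d0) (α⁻¹ e0)
      rw [← k2] at k3
      exact k3

theorem st_CNT : St_CNT := fun r φ hr C => by
  classical
  choose f hf using fun d : Dt r 2 => G.exists_enc (C.ok _ (G.ok_enc d)).1
  have hit : ∀ n d, G.enc (f^[n] d) = φ^[n] (G.enc d) := fun n d => by
    induction n with
    | zero => rfl
    | succ n ih => rw [iterate_succ_apply', iterate_succ_apply', hf, ih]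
  have hs : Surjective f := fun d => by
    rcases C.per _ (G.ok_enc d) with k | k
    · exact ⟨f^[2] d, G.enc_inj (by rw [← iterate_succ_apply' f, hit, k])⟩
    · exact ⟨f^[3] d, G.enc_inj (by rw [← iterate_succ_apply' f, hit, k])⟩
  let F : Perm (Dt r 2) := Equiv.ofBijective f (Finite.surjective_iff_bijective.1 hs)
  let α : Perm (Dt r 2) :=
    Function.Involutive.toPerm SimpleGraph.Dart.symm SimpleGraph.Dart.symm_involutive
  have hπ : ∀ d, G.enc ((F * α) d) = φ (rev (G.enc d)) := fun d => hf d.symm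
  obtain ⟨p0, q0, hp, hq, e1, e2, hc⟩ := C.con
  obtain ⟨d0, rfl⟩ := G.exists_enc hp
  obtain ⟨e0, rfl⟩ := G.exists_enc hq
  refine ⟨F * α, d0, e0, fun d => G.fst_eq.2 ?_, G.fst_eq.2 ⟨e1, e2⟩, fun E hE k1 k2 d e k3 => ?_, ?_⟩
  · rw [hπ]
    exact (C.ok _ (G.ok_enc d.symm)).2
  · have := hc (fun q q' => q = q' ∨ ∃ d e, G.enc d = q ∧ G.enc e = q' ∧ E d e)
      ⟨fun _ => Or.inl rfl, fun h => h.imp Eq.symm fun ⟨d, e, a, b, c⟩ => ⟨e, d, b, a, hE.symm c⟩,
        fun h h' => by
          rcases h with rfl | ⟨d, e, rfl, rfl, c⟩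
          · exact h'
          · rcases h' with rfl | ⟨d', e', a, rfl, c'⟩
            · exact Or.inr ⟨d, e, rfl, rfl, c⟩
            · exact Or.inr ⟨d, e', rfl, rfl, hE.trans c (G.enc_inj a ▸ c')⟩⟩
      (fun q hq => by
        obtain ⟨d, rfl⟩ := G.exists_enc hq
        exact Or.inr ⟨d, _, rfl, hπ d, k1 d⟩) (Or.inr ⟨d0, e0, rfl, rfl, k2⟩) _ _
      (G.ok_enc d) (G.ok_enc e) (G.fst_eq.1 k3).1 (G.fst_eq.1 k3).2
    rcases this with k | ⟨d', e', a, b, c⟩
    · rw [G.enc_inj k]
      exact hE.refl _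
    · rwa [← G.enc_inj a, ← G.enc_inj b]
  · have k : F * α * α = F := by
      ext1 d
      simp [α]
    have := G.count hr C F hf
    rw [← k] at this
    exact this

theorem st_FIN : St_FIN := fun r φ hr C => by
  obtain ⟨π, d0, e0, h1, h2, h3, h4⟩ := st_CNT r φ hr C
  obtain ⟨σ, hσ, h5⟩ := st_MERGE r π d0 e0 h1 h2 h3
  have h6 := Ex.lower (r := r) (by omega)
  obtain ⟨s, rfl⟩ : ∃ s, r = s + 3 := ⟨r - 3, by omega⟩
  have e1 : s + 3 - 1 = s + 2 := rfl
  have e2 : 5 * (s + 3) - 8 = 5 * s + 7 := by omega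
  rw [e1] at h4
  have h7 := Ex.upper hσ (by omega) (by nlinarith)
  have h8 : s * (s + 3 + 1) * (5 * s + 7) + 18 * (s + 3) ^ 2 = 5 * (s + 3) ^ 3 + (s + 3) + 24 := by
    ring
  rw [Nat.add_sub_cancel, e2]
  omega

end Pool.Agent.Lib.MP_1b8c51_co.RY
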