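import Pool.Agent.Lib.MP_1b8c51_co.RYCon
import Pool.Agent.Lib.MP_1b8c51_co.RY_G

set_option autoImplicit false

/-! A checker for one explicit rotation system, given by a table. -/

namespace Pool.Agent.Lib.MP_1b8c51_co.RY

open Finset Function Equiv

noncomputable section

def frcN (n : ℕ) (f : ℕ → ℕ) : ℕ := Nat.rec (f 0) (fun m _ => f (Nat.succ m)) n

def sumB (n : ℕ) (f : ℕ → ℕ) : ℕ := Nat.rec 0 (fun i ih => Nat.add ih (f i)) n

def tb (T r a b c d : ℕ) : ℕ :=
  look T (Nat.add (Nat.mul (Nat.add (Nat.mul a r) b) (Nat.mul 2 r)) (cod b c d))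

def tS (T r a b c d : ℕ) : ℕ := Nat.mod (tb T r a b c d) 2
def tY (T r a b c d : ℕ) : ℕ := Nat.div (tb T r a b c d) 2

/-- length of the face walk until the dart `(a, b, c, d)` is met, `0` if that fails -/
def ret (T r a b c d k : ℕ) : ℕ → ℕ → ℕ → ℕ → ℕ → ℕ :=
  Nat.rec (fun _ _ _ _ _ => 0)
    (fun _ ih n u v e f => frcN (tb T r e f u v) fun w =>
      frcN (sel (Nat.beq (Nat.mod w 2) 0) f (Nat.div w 2)) fun g =>
      frcN (sel (Nat.beq (Nat.mod w 2) 0) (Nat.div w 2) e) fun h =>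
        sel (ok2 r e f g h)
          (sel (selB (eq2 e f a b) (eq2 g h c d) false) n (ih (Nat.succ n) e f g h)) 0) k

def wt (T r B a b c d : ℕ) : ℕ :=
  frcN (ret T r a b c d 12 1 a b c d) fun n => sel (Nat.beq n 0) 0 (Nat.add B (Nat.div 27720 n))

def tot (T r B : ℕ) : ℕ :=
  sumB r fun a => sumB r fun b => sumB r fun x =>
    Nat.add (sel (eq2 a b b x) 0 (wt T r B a b b x)) (sel (Nat.beq x b) 0 (wt T r B a b x a))

def chkS (T r : ℕ) : Bool :=
  selB (Nat.blt (7 * r ^ 3 * 27720 + 12 * (55440 * r ^ 3) * (r * (r - 1) * (2 * r + 1)))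
      (12 * tot T r (55440 * r ^ 3) + (7 * r + 24) * 27720))
    (allB r fun a => allB r fun b => conB (tS T r) (tY T r) r a b) false

end

lemma frcN_eq (n : ℕ) (f : ℕ → ℕ) : frcN n f = f n := by cases n <;> rfl

lemma sumB_eq (n : ℕ) (f : ℕ → ℕ) : sumB n f = ∑ i ∈ range n, f i := by
  induction n with
  | zero => rfl
  | succ n ih => rw [sum_range_succ, ← ih]; rfl

variable {T r : ℕ}

lemma ret_succ (a b c d k n u v e f : ℕ) : ret T r a b c d (k + 1) n u v e f =
    frcN (tb T r e f u v) fun w =>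
      frcN (sel (Nat.beq (Nat.mod w 2) 0) f (Nat.div w 2)) fun g =>
      frcN (sel (Nat.beq (Nat.mod w 2) 0) (Nat.div w 2) e) fun h =>
        sel (ok2 r e f g h) (sel (selB (eq2 e f a b) (eq2 g h c d) false) n
          (ret T r a b c d k (Nat.succ n) e f g h)) 0 := rfl

lemma ret_sound (a b c d k : ℕ) : ∀ (n : ℕ) (q : Q), Ok r q →
    ret T r a b c d k n q.1 q.2.1 q.2.2.1 q.2.2.2 ≠ 0 →
    Ok r (ph (rotG (tS T r) (tY T r)) q) ∧ ∃ j, ret T r a b c d k n q.1 q.2.1 q.2.2.1 q.2.2.2 = n + j ∧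
      (ph (rotG (tS T r) (tY T r)))^[j + 1] q = (a, b, c, d) := by
  induction k with
  | zero => intro n q _ h; exact absurd rfl h
  | succ k ih =>
    intro n q hq h
    set φ := ph (rotG (tS T r) (tY T r)) with hφ
    have e : ret T r a b c d (k + 1) n q.1 q.2.1 q.2.2.1 q.2.2.2 =
        sel (ok2 r q.2.2.1 q.2.2.2 (φ q).2.2.1 (φ q).2.2.2)
          (sel (selB (eq2 q.2.2.1 q.2.2.2 a b) (eq2 (φ q).2.2.1 (φ q).2.2.2 c d) false) n
            (ret T r a b c d k (n + 1) q.2.2.1 q.2.2.2 (φ q).2.2.1 (φ q).2.2.2)) 0 := by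
      refine (ret_succ ..).trans ?_
      rw [frcN_eq, frcN_eq, frcN_eq]
      rfl
    rw [e] at h ⊢
    rw [sel_eq] at h ⊢
    split_ifs at h ⊢ with h1
    swap
    · exact absurd rfl h
    have o := ok_ph _ _ hq h1
    refine ⟨o, ?_⟩
    rw [sel_eq] at h ⊢
    split_ifs at h ⊢ with h2
    · rw [selB_and, eq2_true, eq2_true] at h2
      refine ⟨0, rfl, ?_⟩
      change φ q = _
      rw [hφ, ph_eta, ← hφ, h2.1.1, h2.1.2, h2.2.1, h2.2.2]
    · obtain ⟨-, j, k1, k2⟩ := ih (n + 1) (φ q) o h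
      exact ⟨j + 1, k1.trans (by omega), k2⟩

/-- length of the face of a coded dart -/
noncomputable def len (T r : ℕ) (q : Q) : ℕ :=
  ret T r q.1 q.2.1 q.2.2.1 q.2.2.2 12 1 q.1 q.2.1 q.2.2.1 q.2.2.2

lemma wt_eq (B : ℕ) (q : Q) : wt T r B q.1 q.2.1 q.2.2.1 q.2.2.2 =
    if len T r q = 0 then 0 else B + 27720 / len T r q := by
  rw [wt, frcN_eq, sel_beq]
  rfl

lemma len_sound {q : Q} (hq : Ok r q) (h : len T r q ≠ 0) :
    Ok r (ph (rotG (tS T r) (tY T r)) q) ∧ (ph (rotG (tS T r) (tY T r)))^[len T r q] q = q := by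
  obtain ⟨o, j, k1, k2⟩ := ret_sound q.1 q.2.1 q.2.2.1 q.2.2.2 12 1 q hq h
  refine ⟨o, ?_⟩
  rw [len, k1, add_comm]
  exact k2

lemma tot_le (B : ℕ) : tot T r B ≤ ∑ d : Dt r 2,
    wt T r B (G.enc d).1 (G.enc d).2.1 (G.enc d).2.2.1 (G.enc d).2.2.2 := by
  classical
  let w : Q → ℕ := fun q => wt T r B q.1 q.2.1 q.2.2.1 q.2.2.2
  let I : Finset (ℕ × ℕ × ℕ) := range r ×ˢ range r ×ˢ range r
  let I0 := I.filter fun p => ¬ (p.1 = p.2.1 ∧ p.2.1 = p.2.2)
  let I1 := I.filter fun p => ¬ p.2.2 = p.2.1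
  let f0 : ℕ × ℕ × ℕ → Q := fun p => (p.1, p.2.1, p.2.1, p.2.2)
  let f1 : ℕ × ℕ × ℕ → Q := fun p => (p.1, p.2.1, p.2.2, p.1)
  have h0 : tot T r B = ∑ p ∈ I0, w (f0 p) + ∑ p ∈ I1, w (f1 p) := by
    simp only [I0, I1, I, sum_filter, sum_product, ← sum_add_distrib, tot, sumB_eq]
    refine sum_congr rfl fun a _ => sum_congr rfl fun b _ => sum_congr rfl fun x _ => ?_
    simp only [sel_eq, eq2_true, ite_not, Nat.beq_eq]
    rfl
  have i0 : Set.InjOn f0 I0 := fun p _ q _ h => by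
    simp only [f0, Prod.mk.injEq] at h
    exact Prod.ext h.1 (Prod.ext h.2.1 h.2.2.2)
  have i1 : Set.InjOn f1 I1 := fun p _ q _ h => by
    simp only [f1, Prod.mk.injEq] at h
    exact Prod.ext h.1 (Prod.ext h.2.1 h.2.2.1)
  have hd : Disjoint (I0.image f0) (I1.image f1) := by
    refine disjoint_left.2 fun q a b => ?_
    obtain ⟨p, -, rfl⟩ := mem_image.1 a
    obtain ⟨p', hp, e⟩ := mem_image.1 b
    simp only [f0, f1, Prod.mk.injEq] at e
    exact (mem_filter.1 hp).2 (e.2.2.1.trans e.2.1.symm)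
  rw [h0, ← sum_image (f := w) i0, ← sum_image (f := w) i1, ← sum_union hd,
    ← sum_image (f := w) (s := univ) (G.enc_inj (r := r)).injOn]
  refine sum_le_sum_of_subset fun q hq => ?_
  have o : Ok r q := by
    rcases mem_union.1 hq with a | a
    · obtain ⟨p, hp, rfl⟩ := mem_image.1 a
      simp only [I0, I, mem_filter, mem_product, mem_range] at hp
      exact ⟨hp.1.1, hp.1.2.1, hp.1.2.1, hp.1.2.2, hp.2, Or.inl rfl⟩
    · obtain ⟨p, hp, rfl⟩ := mem_image.1 a
      simp only [I1, I, mem_filter, mem_product, mem_range] at hp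
      exact ⟨hp.1.1, hp.1.2.1, hp.1.2.2, hp.1.1, fun h => hp.2 (h.1.symm.trans h.2.symm),
        Or.inr rfl⟩
  obtain ⟨d, rfl⟩ := G.exists_enc o
  exact mem_image_of_mem _ (mem_univ d)

theorem tab_exact (T r : ℕ) (hr : 3 ≤ r) (h : chkS T r = true) :
    genus (deBruijn r 2) = ((r - 3) * (r + 1) * (5 * r - 8) + 23) / 24 := by
  classical
  rw [chkS, selB_and, Nat.blt_eq, ← st_DC r] at h
  obtain ⟨h1, h2⟩ := h
  have h3 := tot_le (T := T) (r := r) (55440 * r ^ 3)
  simp only [wt_eq] at h3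
  have hD := Ex.card_darts (r := r)
  have hr3 : 7 * r + 24 ≤ 7 * r ^ 3 := by nlinarith [Nat.mul_le_mul hr hr]
  have hall : ∀ d : Dt r 2, len T r (G.enc d) ≠ 0 := fun d0 k => by
    have a : ∑ d : Dt r 2, (if len T r (G.enc d) = 0 then 0 else
        55440 * r ^ 3 + 27720 / len T r (G.enc d)) ≤
        (univ.erase d0).card • (55440 * r ^ 3 + 27720) := by
      rw [← add_sum_erase _ _ (mem_univ d0), if_pos k, zero_add]
      refine sum_le_card_nsmul _ _ _ fun d _ => ?_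
      split_ifs
      · exact Nat.zero_le _
      · exact Nat.add_le_add_left (Nat.div_le_self _ _) _
    have b := card_erase_add_one (mem_univ d0)
    rw [card_univ] at b
    rw [smul_eq_mul] at a
    rw [← b] at h1 hD
    generalize (univ.erase d0).card = m at a h1 hD
    generalize r ^ 3 = c at a h1 h3 hD hr3
    nlinarith
  simp only [if_neg (hall _), sum_add_distrib, sum_const, card_univ, smul_eq_mul] at h3
  set φ := ph (rotG (tS T r) (tY T r)) with hφ
  have hs := fun d : Dt r 2 => len_sound (G.ok_enc d) (hall d)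
  choose f hf using fun d : Dt r 2 => G.exists_enc (hs d).1
  have hit : ∀ n d, G.enc (f^[n] d) = φ^[n] (G.enc d) := fun n d => by
    induction n with
    | zero => rfl
    | succ n ih => rw [iterate_succ_apply', iterate_succ_apply', hf, ih]
  have hret : ∀ d, f^[len T r (G.enc d)] d = d := fun d => G.enc_inj (by rw [hit, (hs d).2])
  have hsur : Surjective f := fun d => by
    obtain ⟨n, hn⟩ := Nat.exists_eq_succ_of_ne_zero (hall d)
    exact ⟨f^[n] d, by rw [← iterate_succ_apply' f, ← hn, hret]⟩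
  let F : Perm (Dt r 2) := Equiv.ofBijective f (Finite.surjective_iff_bijective.1 hsur)
  let α : Perm (Dt r 2) :=
    Function.Involutive.toPerm SimpleGraph.Dart.symm SimpleGraph.Dart.symm_involutive
  have hπ : ∀ d, G.enc ((F * α) d) = rotG (tS T r) (tY T r) (G.enc d) := fun d => hf d.symm
  have hok : ∀ q, Ok r q → Ok r (rotG (tS T r) (tY T r) q) := fun q o => by
    obtain ⟨d, rfl⟩ := G.exists_enc o
    exact hπ d ▸ G.ok_enc _
  have hrot : IsRotation (deBruijn r 2) (F * α) := by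
    refine ⟨fun d => G.fst_eq.2 (by rw [hπ]; exact ⟨rfl, rfl⟩), fun d e k => ?_⟩
    have o := G.ok_enc d
    have hE := (Perm.SameCycle.setoid (F * α)).iseqv
    have := conB_sound (by omega) o.1 o.2.1 (fun q oq _ _ => hok q oq)
      (allB_true (allB_true h2 _ o.1) _ o.2.1) (G.enc d) (G.enc d)
      (fun q q' => q = q' ∨ ∃ d e, G.enc d = q ∧ G.enc e = q' ∧ (F * α).SameCycle d e)
      ⟨fun _ => Or.inl rfl, fun h => h.imp Eq.symm fun ⟨d, e, a, b, c⟩ => ⟨e, d, b, a, c.symm⟩,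
        fun h h' => by
          rcases h with rfl | ⟨d, e, rfl, rfl, c⟩
          · exact h'
          · rcases h' with rfl | ⟨d', e', a, rfl, c'⟩
            · exact Or.inr ⟨d, e, rfl, rfl, c⟩
            · exact Or.inr ⟨d, e', rfl, rfl, c.trans (G.enc_inj a ▸ c')⟩⟩
      (fun q hq _ _ => by
        obtain ⟨d, rfl⟩ := G.exists_enc hq
        exact Or.inr ⟨d, _, rfl, hπ d, sameCycle_iterate (F * α) d 1⟩) (Or.inl rfl) _ _
      o (G.ok_enc e) rfl rfl (G.fst_eq.1 k).1.symm (G.fst_eq.1 k).2.symm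
    rcases this with k | ⟨d', e', a, b, c⟩
    · rw [G.enc_inj k]
    · rwa [← G.enc_inj a, ← G.enc_inj b]
  have hF := card_orbits_ge_sum F (fun d => ((27720 / len T r (G.enc d) : ℕ) : ℝ) / 27720)
    fun d => by
      have hp : 0 < (orb F d).card := card_pos.2 ⟨d, by simp [orb, Perm.SameCycle.refl]⟩
      have hp' : (0 : ℝ) < (orb F d).card := by exact_mod_cast hp
      refine (sum_le_card_nsmul _ _ (1 / ((orb F d).card : ℝ)) fun e he => ?_).trans ?_
      · have a : (orb F d).card ≤ len T r (G.enc e) :=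
          card_orb_le F he (Nat.pos_of_ne_zero (hall e)) (hret e)
        have b : 27720 / len T r (G.enc e) * (orb F d).card ≤ 27720 :=
          (Nat.mul_le_mul_left _ a).trans (Nat.div_mul_le_self _ _)
        rw [div_le_div_iff₀ (by norm_num) hp', one_mul]
        exact_mod_cast b
      · rw [nsmul_eq_mul, mul_one_div, div_self hp'.ne']
  have k : F * α * α = F := by
    ext1 d
    simp [α]
  have hF' : ∑ d : Dt r 2, 27720 / len T r (G.enc d) ≤ faces (deBruijn r 2) (F * α) * 27720 := by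
    rw [← sum_div, div_le_iff₀ (by norm_num), ← k] at hF
    exact_mod_cast hF
  have h7 := Ex.upper hrot (by omega) (by nlinarith)
  have h6 := Ex.lower (r := r) (by omega)
  obtain ⟨s, rfl⟩ : ∃ s, r = s + 3 := ⟨r - 3, by omega⟩
  have e2 : 5 * (s + 3) - 8 = 5 * s + 7 := by omega
  have h8 : s * (s + 3 + 1) * (5 * s + 7) + 18 * (s + 3) ^ 2 = 5 * (s + 3) ^ 3 + (s + 3) + 24 := by
    ring
  rw [Nat.add_sub_cancel, e2]
  omega

end Pool.Agent.Lib.MP_1b8c51_co.RY
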