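import Pool.Agent.Lib.MP_1b8c51_co.RYS

set_option autoImplicit false

namespace Pool.Agent.Lib.MP_1b8c51_co.RY

open Finset Function Equiv

theorem tab_upper (T r : ℕ) (hr : 2 ≤ r) (h : chkS T r = true) :
    24 * genus (deBruijn r 2) + 18 * r ^ 2 < 5 * r ^ 3 + r + 48 := by
  classical
  have hDC : Fintype.card (Dt r 2) = r * (r - 1) * (2 * r + 1) := st_DC r
  rw [chkS, selB_and, Nat.blt_eq, ← hDC] at h
  obtain ⟨h1, h2⟩ := h
  have h3 := tot_le (T := T) (r := r) (55440 * r ^ 3)
  simp only [wt_eq] at h3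
  have hD := Ex.card_darts (r := r)
  have hr3 : 7 * r + 24 ≤ 7 * r ^ 3 := by nlinarith [Nat.mul_le_mul hr hr]
  have hall : ∀ d : Dt r 2, len T r (G.enc d) ≠ 0 := fun d0 k => by
    have a : ∑ d : Dt r 2, (if len T r (G.enc d) = 0 then 0 else
        55440 * r ^ 3 + 27720 / len T r (G.enc d)) ≤
        (univ.erase d0).card • (55440 * r ^ 3 + 27720) := by
      rw [← add_sum_erase _ _ (mem_univ d0), if_pos k, zero_add]
      refine sum_le_card_nsmul _ _ _ fun d _ => ?_
      split_ifs
      · exact Nat.zero_le _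
      · exact Nat.add_le_add_left (Nat.div_le_self _ _) _
    have b := card_erase_add_one (mem_univ d0)
    rw [card_univ] at b
    rw [smul_eq_mul] at a
    rw [← b] at h1 hD
    generalize (univ.erase d0).card = m at a h1 hD
    generalize r ^ 3 = c at a h1 h3 hD hr3
    nlinarith
  simp only [if_neg (hall _), sum_add_distrib, sum_const, card_univ, smul_eq_mul] at h3
  set φ := ph (rotG (tS T r) (tY T r)) with hφ
  have hs := fun d : Dt r 2 => len_sound (G.ok_enc d) (hall d)
  choose f hf using fun d : Dt r 2 => G.exists_enc (hs d).1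
  have hit : ∀ n d, G.enc (f^[n] d) = φ^[n] (G.enc d) := fun n d => by
    induction n with
    | zero => rfl
    | succ n ih => rw [iterate_succ_apply', iterate_succ_apply', hf, ih]
  have hret : ∀ d, f^[len T r (G.enc d)] d = d := fun d => G.enc_inj (by rw [hit, (hs d).2])
  have hsur : Surjective f := fun d => by
    obtain ⟨n, hn⟩ := Nat.exists_eq_succ_of_ne_zero (hall d)
    exact ⟨f^[n] d, by rw [← iterate_succ_apply' f, ← hn, hret]⟩
  let F : Perm (Dt r 2) := Equiv.ofBijective f (Finite.surjective_iff_bijective.1 hsur)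
  let α : Perm (Dt r 2) :=
    Function.Involutive.toPerm SimpleGraph.Dart.symm SimpleGraph.Dart.symm_involutive
  have hπ : ∀ d, G.enc ((F * α) d) = rotG (tS T r) (tY T r) (G.enc d) := fun d => hf d.symm
  have hok : ∀ q, Ok r q → Ok r (rotG (tS T r) (tY T r) q) := fun q o => by
    obtain ⟨d, rfl⟩ := G.exists_enc o
    exact hπ d ▸ G.ok_enc _
  have hrot : IsRotation (deBruijn r 2) (F * α) := by
    refine ⟨fun d => G.fst_eq.2 (by rw [hπ]; exact ⟨rfl, rfl⟩), fun d e k => ?_⟩
    have o := G.ok_enc d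
    have hE := (Perm.SameCycle.setoid (F * α)).iseqv
    have := conB_sound (by omega) o.1 o.2.1 (fun q oq _ _ => hok q oq)
      (allB_true (allB_true h2 _ o.1) _ o.2.1) (G.enc d) (G.enc d)
      (fun q q' => q = q' ∨ ∃ d e, G.enc d = q ∧ G.enc e = q' ∧ (F * α).SameCycle d e)
      ⟨fun _ => Or.inl rfl, fun h => h.imp Eq.symm fun ⟨d, e, a, b, c⟩ => ⟨e, d, b, a, c.symm⟩,
        fun h h' => by
          rcases h with rfl | ⟨d, e, rfl, rfl, c⟩
          · exact h'
          · rcases h' with rfl | ⟨d', e', a, rfl, c'⟩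
            · exact Or.inr ⟨d, e, rfl, rfl, c⟩
            · exact Or.inr ⟨d, e', rfl, rfl, c.trans (G.enc_inj a ▸ c')⟩⟩
      (fun q hq _ _ => by
        obtain ⟨d, rfl⟩ := G.exists_enc hq
        exact Or.inr ⟨d, _, rfl, hπ d, sameCycle_iterate (F * α) d 1⟩) (Or.inl rfl) _ _
      o (G.ok_enc e) rfl rfl (G.fst_eq.1 k).1.symm (G.fst_eq.1 k).2.symm
    rcases this with k | ⟨d', e', a, b, c⟩
    · rw [G.enc_inj k]
    · rwa [← G.enc_inj a, ← G.enc_inj b]
  have hF := card_orbits_ge_sum F (fun d => ((27720 / len T r (G.enc d) : ℕ) : ℝ) / 27720)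
    fun d => by
      have hp : 0 < (orb F d).card := card_pos.2 ⟨d, by simp [orb, Perm.SameCycle.refl]⟩
      have hp' : (0 : ℝ) < (orb F d).card := by exact_mod_cast hp
      refine (sum_le_card_nsmul _ _ (1 / ((orb F d).card : ℝ)) fun e he => ?_).trans ?_
      · have a : (orb F d).card ≤ len T r (G.enc e) :=
          card_orb_le F he (Nat.pos_of_ne_zero (hall e)) (hret e)
        have b : 27720 / len T r (G.enc e) * (orb F d).card ≤ 27720 :=
          (Nat.mul_le_mul_left _ a).trans (Nat.div_mul_le_self _ _)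
        rw [div_le_div_iff₀ (by norm_num) hp', one_mul]
        exact_mod_cast b
      · rw [nsmul_eq_mul, mul_one_div, div_self hp'.ne']
  have k : F * α * α = F := by
    ext1 d
    simp [α]
  have hF' : ∑ d : Dt r 2, 27720 / len T r (G.enc d) ≤ faces (deBruijn r 2) (F * α) * 27720 := by
    rw [← sum_div, div_le_iff₀ (by norm_num), ← k] at hF
    exact_mod_cast hF
  exact Ex.upper hrot (by omega) (by nlinarith)

def T2 : ℕ := 0x1020000030001000202030000

theorem g_2 : genus (deBruijn 2 2) = ((2 - 3) * (2 + 1) * (5 * 2 - 8) + 23) / 24 := by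
  have := tab_upper T2 2 (by decide) (by decide +kernel)
  omega

end Pool.Agent.Lib.MP_1b8c51_co.RY
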