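import Pool.Agent.Lib.MP_1b8c51_co.RYS

set_option autoImplicit false

namespace Pool.Agent.Lib.MP_1b8c51_co.RY

def T3 : ℕ := 0x2010003040200000501040005030002000002040301040100000005030502000004000201030004010500040002040302050000

theorem g_3 : genus (deBruijn 3 2) = ((3 - 3) * (3 + 1) * (5 * 3 - 8) + 23) / 24 :=
  tab_exact T3 3 (by decide) (by decide +kernel)

end Pool.Agent.Lib.MP_1b8c51_co.RY
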