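import Pool.Agent.Lib.MP_1b8c51_co.RYS

set_option autoImplicit false

namespace Pool.Agent.Lib.MP_1b8c51_co.RY

def T4 : ℕ := 0x40100030205060300000204070101070402000600050304070502000006000003060204050102010000060300070602070500000401050700060403000200020401050300060604000207000301040706010000000506000305020700040004000502060301000700060103040206000105000407020207040306050000

theorem g_4 : genus (deBruijn 4 2) = ((4 - 3) * (4 + 1) * (5 * 4 - 8) + 23) / 24 :=
  tab_exact T4 4 (by decide) (by decide +kernel)

end Pool.Agent.Lib.MP_1b8c51_co.RY
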