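import Pool.Agent.Lib.MP_1b8c51_co.RYS

set_option autoImplicit false

namespace Pool.Agent.Lib.MP_1b8c51_co.RY

def T5 : ℕ := 0x601040300050207080600040205000309010801020700060903000401060407090500080002030509070400020800060000060807050403020108050000020904010003070903000008060402010409050806020000070104090600020507030008000205070108060300040509000803020006040100070209000006030801060900020705000408010800040709050603000200040207060501030008020900000806050403010009080400020703060100090401060500000807080203070605090000040006010704000208050301090002080504030006080402070000010309060802040701050006000904070609080302050000

theorem g_5 : genus (deBruijn 5 2) = ((5 - 3) * (5 + 1) * (5 * 5 - 8) + 23) / 24 :=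
  tab_exact T5 5 (by decide) (by decide +kernel)

end Pool.Agent.Lib.MP_1b8c51_co.RY
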