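import Pool.Agent.Lib.MP_1b8c51_co.RYS

set_option autoImplicit false

namespace Pool.Agent.Lib.MP_1b8c51_co.RY

def T6 : ℕ := 0x6090805040100030207070b000406080105020a000309030806000a0b05020100040a0408000609000207030b01010b050906020407000a0008030508000b070409020a000600080701060a040209030005060300000a07000b020504010a060b090002040105030008090b01030604000a020700080a0708020604090500000b010a00050903070406020b00080000080a09070406020503010a0800060b05040302000701080b0a010000020504090003010b080403070006020a00090a020709050104060008000b0a02080b0600090507030004000605090307040a020100080a0100020604070b050300080a0308000004090502060b010a09060308070000000b0201050b080a0609010700040002090b0807060403050200000a00020801060409050703000a010b000a03070406020800050a020805000004060b0903010a020709060b000801030004060b08070a010005000004090a07030906080400050b00020004080006030105020a09070a0200000605040807030b01010b050900080403020a00060a06080b01070000020403090a0908000b0704020006050108050a09060b020704030000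

theorem g_6 : genus (deBruijn 6 2) = ((6 - 3) * (6 + 1) * (5 * 6 - 8) + 23) / 24 :=
  tab_exact T6 6 (by decide) (by decide +kernel)

end Pool.Agent.Lib.MP_1b8c51_co.RY
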