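import Pool.Agent.Lib.MP_1b8c51_co.RYS

set_option autoImplicit false

namespace Pool.Agent.Lib.MP_1b8c51_co.RY

def T7 : ℕ := 0x8030407000b0a010605020905010002080c060904070d03000a0b030a0100060d07040c0208000503050d0b0801000a04060209000c09070a0c080306040000020b0d0101090a070802060c0d050004000b070b0a000d0906050403020c000800060509080c0b0704030201000a00070000060102050c09080d04030c08030d0000060a040702050b010c030901080d00040b05020a00060c0a01030b09060d0008020400070b0d0705080a06010402000c00090c090d0708050600040a0b03000200000a070b050603040c020809010c0800040307060a09050201000d02010c050000040d00030a07060b090d0a06010b000c0408020500030c040a01070d060b0002090300080c050a080d010907040b000600020c07090b05030608040d0200000a00080a05070903010406020b000c070d000c080509030401020a00060c0b0a060002010504080703000d0409000d0a030000020b0c0108050c01070b08040d09000a020600030c060a02080d050b0409000007010c000a0308060b0d07050209000400020a0c08010604090b050300070c0a000608030507010d020400090c04050b000a06030701020d00080c0b0a09080400000d0302060501060302070c0b0801000000090a0d0c010a0d050906020b0700080004050d0a040800060b03090207000c000a030b0802060c0409010700050c050000080a060d0402070903010c070a080004060103050d0b00020c060a02030900080401050d000b030d0a0908070602000c0b010004080b040100050a09060d00000c070c020a0d080b030704000905000600040a00080b06090105020c07030c03000801090600040a02070d05010d0a03000c0608040b020005070c000a0508060002040d01030b090c090a04080001070006020d030b0c02010b080706050400000a090d0a050609020d0c030807040b0000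

theorem g_7 : genus (deBruijn 7 2) = ((7 - 3) * (7 + 1) * (5 * 7 - 8) + 23) / 24 :=
  tab_exact T7 7 (by decide) (by decide +kernel)

end Pool.Agent.Lib.MP_1b8c51_co.RY
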