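import Pool.Agent.Lib.MP_1b8c51_co.RYS

set_option autoImplicit false

namespace Pool.Agent.Lib.MP_1b8c51_co.RY

def T8 : ℕ := 0x90a010207060d08050c0b0403030b00040a0c0f0906000705020e08010e09070d000c080a0603000502040f0105000c020d0b000a0f0704080e0306010e060f0d080b03090000040a020c0501010f0c020a040b090d07000e0803000609020a0d0f0b080e050704010006000c0d080c0b0a00060902070e050f03000400060901020b080c0507040a0d03000e0a03000006090e010207040f0805000b0e010f0200060d090c0708050403000a000f03080a0e0004060b0705020c0d010e080b0d0a040209000c0f05010300060d0f0c04070b080e0600000a090302010e08070a040b0c0906020d0500000f01050f0c030d0b08060a0704090200000e00020c08050e06090b07040a0103000d0b0f000009040807060c02050e030a010807000f00000c05060d0e03020904010e0a040d0f07000006080b05020c03010e000b0d0a05030900080406020f0c010a0f020d010c080e090700060b0300040e08010d0a020b0904070f05000c0006040f0c020d0b080e060007050903000a000c0b0d0a04030600070805020e09010e0c000a010b080f0907040206030005090f0c0a0002050d0e0704080103000604010c07060f000002050a0d0e03000b000f0c060a0d0b0e00020905080304010e08090d0c0b0f04060a0000020703010d0f0c020a04070906000e0500080b01050f0e0d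090b08000307040a020c000600080c020a040d09060e070500030b01050f0006000b080e0907040a020c03010d0f0c09000e0804010a0205070300060a0f060d070b000c0500040302080e010e05000d04030c0b0000080102090a0f0e080f0d0a0600090b03000c020407010e0b080d0a0c070906010f0500040002070f0c00060b0e090d08040a050300020004070d090b080e06000305020c0a010e080002010b0a090507040c0f0300060e0a050d0008070906000f020c030401020f0c010a0800060d07040b0503000e0d0f0c02050b0806000e01090a0300040a0f0c07000d0803020b00000e010609040f000d0c0b08020609070a000e05010e030f0d0a04050908070b000206000c00000c0e0a07040906080305020d0b01010f000e030b080c02070a05090400060c0f070d0004080e06000905020a03010e080f0d010b00020c07040a05030006030f0c02090b0805000a04000d060e010e040a0d060b020903070008010c000f0e05060b0a010c09000f08070000040d0e00030d0a040b0906020c05070f0008000a010d000b0c090807040e020503060e0200080a0f0b09060001050403070c0e08060d000003090507040a020c0f010b0f0c020a04000e0d07060501030008080f000d0a06010900040305020c0b0e010f0c0a0e0b080d0604000209030007060f0c00090b080e01070402000a0d050a0d0205060b08030c09040f0e070000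

theorem g_8 : genus (deBruijn 8 2) = ((8 - 3) * (8 + 1) * (5 * 8 - 8) + 23) / 24 :=
  tab_exact T8 8 (by decide) (by decide +kernel)

end Pool.Agent.Lib.MP_1b8c51_co.RY
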