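import Pool.Agent.Lib.MP_1b8c51_co.RYS

set_option autoImplicit false

namespace Pool.Agent.Lib.MP_1b8c51_co.RY

def T9 : ℕ := 0xa0d0c0b06090807020504010e03000f03080006110d0a0c05090107040b020e0010100e000f000a110b080306040905020c07010f040e0a0c1000021109060801050d030007100a0e08030d0c0b00061107040f020005010b00090f0c030a060810000e110502040d0110060e0c010d0a040f09080700021103000b070c0e00090d050b080f06020410000a11011002110f0c070a080d0906000b050403000e0000030b0f0d0a1008050e07040602090c01020d00000a0b060104090c110807100300050511070c00000f0b080a061004020e030901100a0d030c04000e07090600110502080f010711050f0c100a02000e0601040b0d0300080f110b05030d0a0e0109000c040602080010100e0906010d0a1108040f07000c0b0300021004110f0c090a02080e060b070500000d0110040e00030d110b080a09070f050206000c000e070f01100a080c0906040d050b030002091100100c060a0e080003070b0502040d0102050e0100000a11080b000906070403100f0d11050f0c0a00061009010704030208000e10080e030c000d0b000a06040f050211070110010e0a050f110b0d09000804020c0300060b110e0403080a060f090d07001002000c011007090f110d050b08020601040e000c000a0e110d0f0700030b040906080c050210000a000c0e05080d0f070b09061004010a0300021000000c090d110b0805060e040a0207030110000e0200080a0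c0f091107040605030b010e09100f0c0100000607020d00050811040301110a0f050d0308000c0b0704060210000e10060e040b0d090f0800000a0305020c11010311090f0c04010b0810060e000a020d00070b110e040c1007010f09060a0d0500080002100a070f0c0e05020d09061104000b030008000a070f0c0e030b0d100604080502000901100300080c06050b11090107040e020d000a0a110e100006090b030c0f0700050204080105110e00090d00100802060a040c0f0307010e01000f100b0a0d0000061104070c05020309110e040c0a010b0806000210050d03000f10040e11030d0a0f080c0907000602000b01100d080f0c020a06010b110709050004000e07110e0c080d0a000f0406020b05090300100008060f0c0e0a0104090b0307050210000d071100040c0e0a000810030d0b05020609011006070f0004030b080a010e09050211000c100c0e030f0d0008050911070401020a0006100c010f070d0a0e000406080b05110300020a050411000f100b080d000002030e090c010d110e100c0a060b01090f0400080703000210020e08110d0a000709050b040c00060f010f110e090c03050b08000d070410020a000600060e0c050d030b080a0f07091002000401100900000c0a040b080e06020d07110305010311050f00100a080409060c0b00020e0701100f0e090c0600040802010711050d03000a06110e00040d0a10000205070f080b030c0101110b0f030d0a0c05090010040e020600080a0d08010e0f0c0b100706090000021100030511090f0c0b0a0008060d070402000e100110000e0c07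0d0a110f09060b04080503000200040e100c09020b080a060d0005070f0301100e00020b0d0a041109060c0305010700080b110e0600020a05080f0107040c0903001003110e02050d0000080a060c04100f09070110020e110c08030b00000f0704060d0a050110080e060c020a0f0b09000401051103000d1008110f0c0e0d0b0309060a00000204070106010a05080d00110c0b1007040900000e0f0911030f0c0e0a10080602070d050b00000400020e0c000d0a0801090f0704060b0305100111000a100d050b0807060c04020903000e100c010f000e0a08030906110b05020700041005110f010d000c08060007040a020e09030f110e0a030d010b0010060400050208070c100b090f0c060a0508020000040e0d0311010211070f080d0a0c00090610000e01030b040d110e020c04070b0f09060801050010000a06090e110c0f040d0a0b0807100302050000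

theorem g_9 : genus (deBruijn 9 2) = ((9 - 3) * (9 + 1) * (5 * 9 - 8) + 23) / 24 :=
  tab_exact T9 9 (by decide) (by decide +kernel)

end Pool.Agent.Lib.MP_1b8c51_co.RY
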