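import Pool.Agent.Lib.MP_1b8c51_co.Final

set_option autoImplicit false

namespace Pool.Agent.Lib.MP_1b8c51_co

open Finset Function

section general

variable {D : Type} [Fintype D]

lemma card_orbits_ge_sum (φ : Equiv.Perm D) (w : D → ℝ) (h : ∀ d, ∑ e ∈ orb φ d, w e ≤ 1) :
    ∑ d, w d ≤ (Nat.card (Quotient (Equiv.Perm.SameCycle.setoid φ)) : ℝ) := by
  classical
  let _ : Fintype (Quotient (Equiv.Perm.SameCycle.setoid φ)) := Fintype.ofFinite _
  rw [Nat.card_eq_fintype_card, ← Finset.sum_fiberwise_of_maps_to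
    (t := (univ : Finset (Quotient (Equiv.Perm.SameCycle.setoid φ))))
    (g := fun d => Quotient.mk (Equiv.Perm.SameCycle.setoid φ) d) (fun _ _ => mem_univ _)]
  have : ((Fintype.card (Quotient (Equiv.Perm.SameCycle.setoid φ)) : ℕ) : ℝ) =
      ∑ _q : Quotient (Equiv.Perm.SameCycle.setoid φ), (1 : ℝ) := by simp
  rw [this]
  refine Finset.sum_le_sum (fun q _ => ?_)
  obtain ⟨d, rfl⟩ := Quotient.exists_rep q
  refine le_trans (le_of_eq (Finset.sum_congr ?_ (fun _ _ => rfl))) (h d)
  ext x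
  simp only [orb, mem_filter, mem_univ, true_and]
  rw [Quotient.eq]
  exact ⟨fun h1 => Equiv.Perm.SameCycle.symm h1, fun h1 => h1.symm⟩

lemma card_orb_le (φ : Equiv.Perm D) {d e : D} (he : e ∈ orb φ d) {k : ℕ} (hk : 0 < k)
    (h : φ^[k] e = e) : (orb φ d).card ≤ k := by
  classical
  have h1 : φ.SameCycle d e := by simpa [orb] using he
  rw [orb_eq h1]
  refine le_trans (card_le_card (t := (range k).image fun i => φ^[i] e) fun x hx => ?_)
    (card_image_le.trans (card_range k).le)
  obtain ⟨n, rfl⟩ := exists_iterate_of_sameCycle (show φ.SameCycle e x by simpa [orb] using hx)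
  exact mem_image.2 ⟨n % k, mem_range.2 (Nat.mod_lt _ hk), IsPeriodicPt.iterate_mod_apply h n⟩

lemma orbits_ge_three_four (φ : Equiv.Perm D) (A B : Finset D) (hAB : Disjoint A B)
    (hA : ∀ d ∈ A, φ^[3] d = d) (hB : ∀ d ∈ B, φ^[4] d = d) :
    (A.card : ℝ) / 3 + B.card / 4 ≤ Nat.card (Quotient (Equiv.Perm.SameCycle.setoid φ)) := by
  classical
  refine le_trans (le_of_eq ?_) (card_orbits_ge_sum φ
    (fun d => (if d ∈ A then 1 / 3 else 0) + if d ∈ B then 1 / 4 else 0) fun d => ?_)
  · simp [sum_add_distrib, div_eq_mul_inv]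
  · have key : ∀ k : ℕ, 0 < k → (orb φ d).card ≤ k → (∀ e ∈ orb φ d,
        ((if e ∈ A then 1 / 3 else 0) + if e ∈ B then 1 / 4 else 0 : ℝ) ≤ 1 / k) →
        ∑ e ∈ orb φ d, ((if e ∈ A then 1 / 3 else 0) + if e ∈ B then 1 / 4 else 0 : ℝ) ≤ 1 := by
      intro k hk h1 h2
      refine (sum_le_card_nsmul _ _ _ h2).trans ?_
      have h3 : (0 : ℝ) < k := by exact_mod_cast hk
      rw [nsmul_eq_mul, mul_one_div, div_le_one h3]
      exact_mod_cast h1
    by_cases h1 : ∃ e ∈ orb φ d, e ∈ A
    · obtain ⟨e, he, h1⟩ := h1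
      refine key 3 (by norm_num) (card_orb_le φ he (by norm_num) (hA e h1)) fun x _ => ?_
      have := fun h => disjoint_left.1 hAB (h : x ∈ A)
      split_ifs <;> first | norm_num; done | tauto
    push Not at h1
    by_cases h2 : ∃ e ∈ orb φ d, e ∈ B
    · obtain ⟨e, he, h2⟩ := h2
      refine key 4 (by norm_num) (card_orb_le φ he (by norm_num) (hB e h2)) fun x hx => ?_
      rw [if_neg (h1 x hx)]
      split_ifs <;> norm_num
    · push Not at h2
      rw [sum_eq_zero fun x hx => by rw [if_neg (h1 x hx), if_neg (h2 x hx), add_zero]]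
      norm_num

/-- the cyclic successor with respect to a key is a rotation -/
lemma exists_rot_key {V : Type} (v : D → V) (κ : D → ℕ)
    (hκ : ∀ d e, v d = v e → κ d = κ e → d = e) :
    ∃ σ : Equiv.Perm D, (∀ d, v (σ d) = v d) ∧ (∀ d e, v d = v e → σ.SameCycle d e) ∧
      ∀ d e, v d = v e → κ e = κ d + 1 → σ d = e := by
  classical
  have h1 : ∀ d : D, ∃ τ : D, v τ = v d ∧
      (∀ e, v e = v d → κ d < κ e → κ d < κ τ ∧ κ τ ≤ κ e) ∧
      ((∀ e, v e = v d → κ e ≤ κ d) → ∀ e, v e = v d → κ τ ≤ κ e) := by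
    intro d
    by_cases h : ∃ e, v e = v d ∧ κ d < κ e
    · obtain ⟨e, he⟩ := h
      obtain ⟨τ, h2, h3⟩ := exists_min_image (univ.filter fun e => v e = v d ∧ κ d < κ e) κ
        ⟨e, by simpa using he⟩
      simp only [mem_filter, mem_univ, true_and, and_imp] at h2 h3
      exact ⟨τ, h2.1, fun e a b => ⟨h2.2, h3 e a b⟩, fun a => absurd (a e he.1) (by omega)⟩
    · obtain ⟨τ, h2, h3⟩ := exists_min_image (univ.filter fun e => v e = v d) κ ⟨d, by simp⟩
      simp only [mem_filter, mem_univ, true_and] at h2 h3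
      exact ⟨τ, h2, fun e a b => absurd ⟨e, a, b⟩ h, fun _ => h3⟩
  choose τ t1 t2 t3 using h1
  have h2 : ∀ (N : ℕ) d e, v d = v e → κ d ≤ κ e → κ e - κ d ≤ N → ∃ n, τ^[n] d = e := by
    intro N
    induction N with
    | zero => intro d e a b c; exact ⟨0, hκ d e a (by omega)⟩
    | succ N ih =>
      intro d e a b c
      rcases b.lt_or_eq with b | b
      · obtain ⟨k1, k2⟩ := t2 d e a.symm b
        obtain ⟨n, hn⟩ := ih (τ d) e ((t1 d).trans a) k2 (by omega)
        exact ⟨n + 1, hn⟩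
      · exact ⟨0, hκ d e a b⟩
  obtain ⟨σ, s1, s2, s3⟩ := exists_rot v (fun _ => True) τ (fun d _ => t1 d) fun d e _ a => by
    obtain ⟨M, m1, m2⟩ := exists_max_image (univ.filter fun e => v e = v d) κ ⟨d, by simp⟩
    simp only [mem_filter, mem_univ, true_and] at m1 m2
    obtain ⟨n, hn⟩ := h2 _ d M m1.symm (m2 d rfl) le_rfl
    obtain ⟨m, hm⟩ := h2 _ (τ M) e ((t1 M).trans (m1.trans a))
      (t3 M (fun x hx => m2 x (hx.trans m1)) e (a.symm.trans m1.symm)) le_rfl
    exact ⟨m + 1 + n, by rw [iterate_add_apply, hn, iterate_succ_apply, hm]⟩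
  refine ⟨σ, s1, s2, fun d e a b => ?_⟩
  obtain ⟨k1, k2⟩ := t2 d e a.symm (by omega)
  rw [s3 d trivial]
  exact hκ _ _ ((t1 d).trans a) (by omega)

end general

section groups

variable {G : Type} [AddCommGroup G] [Fintype G] [DecidableEq G]

lemma exists_pos (d : G) : ∃ pos : G → ℕ, Injective pos ∧
    (univ.filter fun c => pos (c + d) ≠ pos c + 1).card * addOrderOf d ≤ Fintype.card G := by
  classical
  set H := AddSubgroup.zmultiples d with hH
  have h0 : 0 < addOrderOf d := addOrderOf_pos d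
  have h1 : ∀ c : G, ∃ k < addOrderOf d, c = (c : G ⧸ H).out + k • d := by
    intro c
    have h2 : -(c : G ⧸ H).out + c ∈ H := QuotientAddGroup.eq.1 (Quotient.out_eq' _)
    rw [hH, mem_zmultiples_iff_mem_range_addOrderOf] at h2
    obtain ⟨k, hk, e⟩ := mem_image.1 h2
    exact ⟨k, mem_range.1 hk, by rw [e]; abel⟩
  choose k k1 k2 using h1
  have hk : ∀ (c : G) (j : ℕ), j < addOrderOf d → c = (c : G ⧸ H).out + j • d → k c = j :=
    fun c j hj e => nsmul_injOn_Iio_addOrderOf (k1 c) hj (add_left_cancel ((k2 c).symm.trans e))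
  let q : G ⧸ H → ℕ := fun x => Fintype.equivFin (G ⧸ H) x
  have hq : Injective q := fun x y h => (Fintype.equivFin (G ⧸ H)).injective (Fin.ext h)
  refine ⟨fun c => q c * addOrderOf d + k c, fun a b h => ?_, ?_⟩
  · have e1 := congrArg (· / addOrderOf d) h
    have e2 := congrArg (· % addOrderOf d) h
    simp only [Nat.mul_add_mod_self_right, Nat.mod_eq_of_lt (k1 _)] at e2
    simp only [mul_comm _ (addOrderOf d), Nat.mul_add_div h0, Nat.div_eq_of_lt (k1 _),
      add_zero] at e1
    rw [k2 a, k2 b, hq e1, e2]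
  · have h3 : (univ.filter fun c => q ((c + d : G) : G ⧸ H) * addOrderOf d + k (c + d) ≠
        q c * addOrderOf d + k c + 1).card ≤ Fintype.card (G ⧸ H) := by
      have h4 : ∀ c : G, q ((c + d : G) : G ⧸ H) * addOrderOf d + k (c + d) ≠
          q c * addOrderOf d + k c + 1 → k c + 1 = addOrderOf d := by
        intro c hc
        by_contra h5
        have h6 : ((c + d : G) : G ⧸ H) = c :=
          QuotientAddGroup.mk_add_of_mem c (AddSubgroup.mem_zmultiples d)
        have h7 := k1 c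
        rw [hk (c + d) (k c + 1) (by omega) (by
          rw [h6, succ_nsmul, ← add_assoc, ← k2 c]), h6] at hc
        exact hc rfl
      refine card_le_card_of_injOn (t := univ) (fun c => (c : G ⧸ H)) (fun _ _ => mem_univ _)
        fun a ha b hb h => ?_
      have a1 := h4 a (by simpa using ha)
      have b1 := h4 b (by simpa using hb)
      simp only at h
      rw [k2 a, k2 b, h, show k a = k b by omega]
    refine (Nat.mul_le_mul_right _ h3).trans (le_of_eq ?_)
    rw [← Nat.card_eq_fintype_card, ← Nat.card_eq_fintype_card, ← Nat.card_zmultiples,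
      AddSubgroup.card_eq_card_quotient_mul_card_addSubgroup H]

lemma card_small_order [IsAddCyclic G] (K : ℕ) :
    (univ.filter fun d : G => addOrderOf d ≤ K).card ≤ K * K := by
  refine le_trans (card_le_card (t := (Icc 1 K).biUnion fun m => univ.filter fun d : G => m • d = 0)
    fun d hd => ?_) (card_biUnion_le.trans ?_)
  · exact mem_biUnion.2 ⟨addOrderOf d, mem_Icc.2 ⟨addOrderOf_pos d, by simpa using hd⟩, by simp⟩
  · refine (sum_le_card_nsmul _ _ K fun m hm => ?_).trans (by simp)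
    exact (IsAddCyclic.card_nsmul_eq_zero_le (mem_Icc.1 hm).1).trans (mem_Icc.1 hm).2

end groups

end Pool.Agent.Lib.MP_1b8c51_co
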