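import Pool.Agent.Lib.MP_1b8c51_co.UniA

set_option autoImplicit false

namespace Pool.Agent.Lib.MP_1b8c51_co

open Finset Function

variable {r t : ℕ}

/-! Lower bounds from the count of triangular faces. -/

lemma fst_fp {σ : Equiv.Perm (Dt r t)} (hσ : IsRotation (deBruijn r t) σ) (d : Dt r t) :
    (fp σ d).fst = d.snd := by rw [fp_apply, hσ.1]; rfl

lemma dart_ext {d e : Dt r t} (h1 : d.fst = e.fst) (h2 : d.snd = e.snd) : d = e :=
  SimpleGraph.Dart.ext _ _ (Prod.ext h1 h2)

open Classical in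
lemma card_two_le {σ : Equiv.Perm (Dt r t)} (hσ : IsRotation (deBruijn r t) σ) :
    (univ.filter fun d => (fp σ)^[2] d = d).card ≤ r ^ t := by
  have : r ^ t = (univ : Finset (Wd r t)).card := by simp
  rw [this]
  refine card_le_card_of_injOn (fun d => d.snd) (fun _ _ => mem_univ _) fun d hd e _ h => ?_
  have h1 : fp σ (fp σ d) = d := by simpa using hd
  have h2 : σ d.symm = d.symm := by
    refine dart_ext (hσ.1 _) ?_
    have := fst_fp hσ (fp σ d)
    rw [h1] at this
    exact this.symm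
  have h3 := (hσ.2 d.symm e.symm h).eq_of_left h2
  exact SimpleGraph.Dart.symm_involutive.injective h3

open Classical in
lemma faces_le_tri {σ : Equiv.Perm (Dt r t)} (hσ : IsRotation (deBruijn r t) σ) :
    (faces (deBruijn r t) σ : ℝ) ≤ (Fintype.card (Dt r t) : ℝ) / 4 +
      (univ.filter fun d => (fp σ)^[3] d = d).card / 12 + r ^ t / 4 := by
  let w : Dt r t → ℝ := fun d => 1 / 4 + (if (fp σ)^[3] d = d then 1 / 12 else 0) +
    if (fp σ)^[2] d = d then 1 / 4 else 0
  have hw : ∀ d, 1 / 4 ≤ w d := fun d => by simp only [w]; split_ifs <;> norm_num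
  refine (card_orbits_le (fp σ) w fun d => ?_).trans ?_
  · refine le_trans ?_ (sum_range_le_orb (fp σ) w (fun d => by linarith [hw d]) d)
    have h0 := period_pos (fp σ) d
    have h1 : ∀ i, (fp σ)^[minimalPeriod (fp σ) d] ((fp σ)^[i] d) = (fp σ)^[i] d := fun i => by
      rw [← iterate_add_apply, add_comm, iterate_add_apply, iterate_minimalPeriod]
    have key : ∀ c : ℝ, (∀ i, c ≤ w ((fp σ)^[i] d)) → 1 ≤ minimalPeriod (fp σ) d * c →
        1 ≤ ∑ i ∈ range (minimalPeriod (fp σ) d), w ((fp σ)^[i] d) := fun c h2 h3 =>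
      h3.trans (by simpa using card_nsmul_le_sum (range (minimalPeriod (fp σ) d)) _ c fun i _ => h2 i)
    rcases (show minimalPeriod (fp σ) d = 1 ∨ minimalPeriod (fp σ) d = 2 ∨
      minimalPeriod (fp σ) d = 3 ∨ 4 ≤ minimalPeriod (fp σ) d by omega) with h | h | h | h
    · have h2 := h1 0
      rw [h] at h2
      have h3 := fst_fp hσ d
      simp only [iterate_one, iterate_zero, id] at h2
      rw [h2] at h3
      exact absurd h3 d.adj.ne
    · refine key (1 / 2) (fun i => ?_) (by rw [h]; norm_num)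
      simp only [w, if_pos (h ▸ h1 i)]
      split_ifs <;> norm_num
    · refine key (1 / 3) (fun i => ?_) (by rw [h]; norm_num)
      simp only [w, if_pos (h ▸ h1 i)]
      split_ifs <;> norm_num
    · have : (4 : ℝ) ≤ minimalPeriod (fp σ) d := by exact_mod_cast h
      exact key (1 / 4) (fun i => hw _) (by linarith)
  · have h2 : ((univ.filter fun d => (fp σ)^[2] d = d).card : ℝ) ≤ r ^ t := by
      exact_mod_cast card_two_le hσ
    simp only [w, sum_add_distrib, ← sum_filter, sum_const, nsmul_eq_mul, card_univ]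
    linarith

lemma trans_loop {x y z : Wd r t} (h1 : arc x y) (h2 : arc y z) (h3 : arc x z) : arc y y :=
  fun i j h => by rw [h1 i j h, ← h3 i j h, h2 i j h]

lemma tri_cases {x y z : Wd r t} (h1 : (deBruijn r t).Adj x y) (h2 : (deBruijn r t).Adj y z)
    (h3 : (deBruijn r t).Adj z x) (a : ¬ arc x x) (b : ¬ arc y y) (c : ¬ arc z z) :
    (arc x y ∧ arc y z ∧ arc z x) ∨ (arc y x ∧ arc z y ∧ arc x z) := by
  have k := @trans_loop r t
  rcases (adj_iff.1 h1).2 with h1 | h1 <;> rcases (adj_iff.1 h2).2 with h2 | h2 <;>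
    rcases (adj_iff.1 h3).2 with h3 | h3
  · exact Or.inl ⟨h1, h2, h3⟩
  · exact absurd (k h1 h2 h3) b
  · exact absurd (k h3 h1 h2) a
  · exact absurd (k h3 h2 h1) c
  · exact absurd (k h2 h3 h1) c
  · exact absurd (k h1 h3 h2) a
  · exact absurd (k h2 h1 h3) b
  · exact Or.inr ⟨h1, h2, h3⟩

open Classical in
lemma card_loop_darts (hr : 1 ≤ r) (ht : 1 ≤ t) (g : Equiv.Perm (Dt r t)) :
    ((univ.filter fun d => arc (g d).fst (g d).fst).card : ℝ) ≤ 2 * r ^ 2 := by
  have h1 := sum_fst_le (r := r) ht (fun x => if arc x x then 1 else 0)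
    fun x => by split_ifs <;> norm_num
  have h2 : ((univ.filter fun x : Wd r t => arc x x).card : ℝ) ≤ r := by
    have := (card_le_card (s := univ.filter fun x : Wd r t => arc x x) fun x hx => ?_).trans (card_Per (t := t) hr (p := 0) (q := 1) one_pos)
    · exact_mod_cast this.trans_eq (pow_one r)
    · simp only [mem_filter, mem_univ, true_and] at hx ⊢
      exact fun i j _ h => hx i j (by omega)
  rw [← Equiv.sum_comp g] at h1
  simp only [sum_boole] at h1
  have : (0 : ℝ) ≤ r := by positivity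
  nlinarith

/-- darts of triangular faces that avoid the constant words -/
def Tri (σ : Equiv.Perm (Dt r t)) (d : Dt r t) : Prop :=
  (fp σ)^[3] d = d ∧ ¬ arc d.fst d.fst ∧ ¬ arc d.snd d.snd ∧ ¬ arc (fp σ d).snd (fp σ d).snd

open Classical in
lemma card_three_le {σ : Equiv.Perm (Dt r t)} (hσ : IsRotation (deBruijn r t) σ) (hr : 1 ≤ r)
    (ht : 1 ≤ t) : ((univ.filter fun d => (fp σ)^[3] d = d).card : ℝ) ≤
      (univ.filter (Tri σ)).card + 6 * r ^ 2 := by
  have h1 := card_loop_darts hr ht 1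
  have h2 := card_loop_darts hr ht (fp σ)
  have h3 := card_loop_darts hr ht (fp σ * fp σ)
  have h4 : (univ.filter fun d => (fp σ)^[3] d = d) ⊆ univ.filter (Tri σ) ∪
      (univ.filter fun d => arc ((1 : Equiv.Perm (Dt r t)) d).fst ((1 : Equiv.Perm (Dt r t)) d).fst) ∪
      (univ.filter fun d => arc (fp σ d).fst (fp σ d).fst) ∪
      (univ.filter fun d => arc ((fp σ * fp σ) d).fst ((fp σ * fp σ) d).fst) := by
    intro d hd
    simp only [mem_filter, mem_univ, true_and, mem_union, Equiv.Perm.coe_mul, comp_apply,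
      Equiv.Perm.coe_one, id, fst_fp hσ, Tri] at hd ⊢
    tauto
  have h5 := (card_le_card h4).trans ((card_union_le _ _).trans (Nat.add_le_add_right
    ((card_union_le _ _).trans (Nat.add_le_add_right (card_union_le _ _) _)) _))
  have h6 := (Nat.cast_le (α := ℝ)).2 h5
  simp only [Nat.cast_add] at h6
  linarith

lemma Tri.cases {σ : Equiv.Perm (Dt r t)} (hσ : IsRotation (deBruijn r t) σ) {d : Dt r t}
    (h : Tri σ d) : (arc d.fst d.snd ∧ arc d.snd (fp σ d).snd ∧ arc (fp σ d).snd d.fst) ∨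
      (arc d.snd d.fst ∧ arc (fp σ d).snd d.snd ∧ arc d.fst (fp σ d).snd) := by
  have h1 : fp σ (fp σ (fp σ d)) = d := h.1
  refine tri_cases d.adj (fst_fp hσ d ▸ (fp σ d).adj) ?_ h.2.1 h.2.2.1 h.2.2.2
  have h2 := (fp σ (fp σ d)).adj
  rwa [fst_fp hσ, ← fst_fp hσ (fp σ (fp σ d)), h1] at h2

lemma cyc_unique (ht : 3 ≤ t) {x y z y' z' : Wd r t} (a : arc x y) (b : arc y z) (c : arc z x)
    (a' : arc x y') (b' : arc y' z') (c' : arc z' x) : y = y' := by
  funext i
  by_cases hi : (i : ℕ) + 1 < t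
  · rw [a i ⟨i + 1, hi⟩ rfl, a' i ⟨i + 1, hi⟩ rfl]
  · have hi' := i.2
    rw [← b ⟨t - 2, by omega⟩ i (by simp; omega), ← b' ⟨t - 2, by omega⟩ i (by simp; omega),
      ← c ⟨t - 3, by omega⟩ ⟨t - 2, by omega⟩ (by simp; omega),
      ← c' ⟨t - 3, by omega⟩ ⟨t - 2, by omega⟩ (by simp; omega)]

open Classical in
lemma card_tri_le {σ : Equiv.Perm (Dt r t)} (hσ : IsRotation (deBruijn r t) σ) (ht : 3 ≤ t) :
    (univ.filter (Tri σ)).card ≤ 2 * r ^ t := by
  let A : Finset (Dt r t) := univ.filter fun d => ∃ z, arc d.fst d.snd ∧ arc d.snd z ∧ arc z d.fst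
  have hA : A.card ≤ r ^ t := by
    have : r ^ t = (univ : Finset (Wd r t)).card := by simp
    rw [this]
    refine card_le_card_of_injOn (fun d => d.fst) (fun _ _ => mem_univ _) fun d hd e he h => ?_
    obtain ⟨z, a, b, c⟩ := (mem_filter.1 hd).2
    obtain ⟨z', a', b', c'⟩ := (mem_filter.1 he).2
    simp only at h
    rw [← h] at a' c'
    exact dart_ext h (cyc_unique ht a b c a' b' c')
  have h1 : univ.filter (Tri σ) ⊆ A ∪ A.image SimpleGraph.Dart.symm := fun d hd => by
    rcases Tri.cases hσ (mem_filter.1 hd).2 with h | h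
    · exact mem_union_left _ (mem_filter.2 ⟨mem_univ _, _, h⟩)
    · exact mem_union_right _ (mem_image.2 ⟨d.symm,
        mem_filter.2 ⟨mem_univ _, _, h.1, h.2.2, h.2.1⟩, d.symm_symm⟩)
  have h2 := (card_le_card h1).trans (card_union_le _ _)
  have h3 := card_image_le (s := A) (f := SimpleGraph.Dart.symm)
  omega

lemma exists_min_rot (r t : ℕ) : ∃ σ, IsRotation (deBruijn r t) σ ∧
    (Fintype.card (Dt r t) : ℝ) / 2 + 2 ≤
      r ^ t + faces (deBruijn r t) σ + 2 * genus (deBruijn r t) := by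
  have hne : {g : ℕ | ∃ σ : Equiv.Perm (deBruijn r t).Dart, IsRotation (deBruijn r t) σ ∧
      Nat.card (deBruijn r t).edgeSet + 2 ≤
        Nat.card (Wd r t) + faces (deBruijn r t) σ + 2 * g}.Nonempty := by
    obtain ⟨σ, s1, s2, _⟩ := exists_rot (fun d : Dt r t => d.fst) (fun _ => False) id
      (fun _ h => h.elim) (fun _ _ h => h.elim)
    exact ⟨Nat.card (deBruijn r t).edgeSet + 1, σ, ⟨s1, s2⟩, by omega⟩
  obtain ⟨σ, hσ, h0⟩ := Nat.sInf_mem hne
  have h1 : Nat.card (deBruijn r t).edgeSet + 2 ≤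
      Nat.card (Wd r t) + faces (deBruijn r t) σ + 2 * genus (deBruijn r t) := h0
  rw [card_vertices] at h1
  have h2 : (Nat.card (deBruijn r t).edgeSet : ℝ) + 2 ≤
      r ^ t + faces (deBruijn r t) σ + 2 * genus (deBruijn r t) := by exact_mod_cast h1
  have h6 : (Fintype.card (Dt r t) : ℝ) = 2 * Nat.card (deBruijn r t).edgeSet := by
    exact_mod_cast card_darts_eq
  exact ⟨σ, hσ, by linarith⟩

theorem lower_three (hr : 2 ≤ r) (ht : 3 ≤ t) :
    ((r : ℝ) - 1) * r ^ t / 4 - r ^ t ≤ genus (deBruijn r t) := by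
  classical
  obtain ⟨σ, hσ, h1⟩ := exists_min_rot r t
  have h2 := faces_le_tri hσ
  have h3 := card_three_le hσ (by omega) (by omega)
  have h4 : ((univ.filter (Tri σ)).card : ℝ) ≤ 2 * r ^ t := by exact_mod_cast card_tri_le hσ ht
  have h5 := card_darts_ge (r := r) (t := t) (by omega) (by omega)
  have hr' : (2 : ℝ) ≤ r := by exact_mod_cast hr
  have h6 : (r : ℝ) ^ 3 ≤ r ^ t := pow_le_pow_right₀ (by linarith) ht
  have h7 : (r : ℝ) ^ 2 ≤ r ^ 3 := pow_le_pow_right₀ (by linarith) (by norm_num)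
  have h8 : (0 : ℝ) ≤ r ^ 2 := by positivity
  nlinarith

lemma two_card_le (S : Finset (Dt r t)) (h : ∀ d ∈ S, d.symm ∉ S) :
    2 * S.card ≤ Fintype.card (Dt r t) := by
  classical
  have h1 : Disjoint S (S.image SimpleGraph.Dart.symm) := disjoint_right.2 fun d hd => by
    obtain ⟨e, he, rfl⟩ := mem_image.1 hd
    exact h e he
  have h2 := card_le_univ (S ∪ S.image SimpleGraph.Dart.symm)
  rw [card_union_of_disjoint h1,
    card_image_of_injective _ SimpleGraph.Dart.symm_involutive.injective] at h2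
  omega

lemma arc_two {x y : Wd r 2} : arc x y ↔ y 0 = x 1 :=
  ⟨fun h => h 0 1 rfl, fun h i j hij => by
    obtain rfl : i = 0 := by omega
    obtain rfl : j = 1 := by omega
    exact h⟩

lemma ext_two {x y : Wd r 2} : x = y ↔ x 0 = y 0 ∧ x 1 = y 1 := by
  simp [funext_iff, Fin.forall_fin_two]

lemma Tri.symm_not {σ : Equiv.Perm (Dt r 2)} (hσ : IsRotation (deBruijn r 2) σ) {d : Dt r 2}
    (h : Tri σ d) (h' : Tri σ d.symm) : False := by
  have h1 : (fp σ d.symm).snd = (fp σ d).snd := by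
    have a := h.cases hσ
    have b := h'.cases hσ
    have c := h.2.2.2
    have e := h'.2.2.2
    change (arc d.snd d.fst ∧ arc d.fst _ ∧ arc _ d.snd) ∨
      (arc d.fst d.snd ∧ arc _ d.fst ∧ arc d.snd _) at b
    simp only [arc_two, ext_two, Fin.ext_iff] at *
    omega
  have h2 : fp σ (fp σ (fp σ d.symm)) = d.symm := h'.1
  have h3 : fp σ (fp σ d.symm) = (fp σ d).symm := by
    refine dart_ext (by rw [fst_fp hσ, h1]; rfl) ?_
    rw [← fst_fp hσ, h2]
    exact (fst_fp hσ d).symm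
  rw [h3, fp_apply, SimpleGraph.Dart.symm_symm] at h2
  have h4 : ∀ n, σ^[n] d.symm = d.symm ∨ σ^[n] d.symm = fp σ d := fun n => by
    induction n with
    | zero => exact Or.inl rfl
    | succ n ih =>
      rw [iterate_succ_apply']
      rcases ih with e | e <;> rw [e]
      exacts [Or.inr rfl, Or.inl h2]
  have h5 : arc (fun _ => d.snd 1 : Wd r 2) (fun _ => d.snd 1) := fun _ _ _ => rfl
  have h6 : (deBruijn r 2).Adj d.snd (fun _ => d.snd 1) :=
    adj_iff.2 ⟨fun e => h.2.2.1 (by rw [e]; exact h5), Or.inl (arc_two.2 rfl)⟩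
  obtain ⟨n, hn⟩ := exists_iterate_of_sameCycle (hσ.2 d.symm ⟨(_, _), h6⟩ rfl)
  rcases h4 n with e | e <;> rw [hn] at e
  · have := congrArg (fun x : Dt r 2 => x.snd) e
    exact h.2.1 (by simp only at this; change _ = d.fst at this; rw [← this]; exact h5)
  · have := congrArg (fun x : Dt r 2 => x.snd) e
    exact h.2.2.2 (by simp only at this; rw [← this]; exact h5)

end Pool.Agent.Lib.MP_1b8c51_co
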