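import Pool.Agent.Lib.MP_1b8c51_co.UniB

set_option autoImplicit false

namespace Pool.Agent.Lib.MP_1b8c51_co

open Finset Function

variable {r n : ℕ}

/-! Words of length two. -/

lemma adj_two {a b : Fin r} (h : a ≠ b) (c : Fin r) : (deBruijn r 2).Adj ![a, b] ![b, c] :=
  adj_iff.2 ⟨fun e => h (congrFun e 0), Or.inl (arc_two.2 rfl)⟩

/-- forward darts with three distinct letters -/
def Fw (d : Dt r 2) : Prop :=
  d.snd 0 = d.fst 1 ∧ d.fst 0 ≠ d.fst 1 ∧ d.fst 1 ≠ d.snd 1 ∧ d.fst 0 ≠ d.snd 1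

lemma card_rel_le (f : Fin r → Fin r → Fin r) :
    (univ.filter fun p : Fin r × Fin r × Fin r => p.2.2 = f p.1 p.2.1).card ≤ r ^ 2 := by
  have : r ^ 2 = (univ : Finset (Fin r × Fin r)).card := by simp [sq]
  rw [this]
  refine card_le_card_of_injOn (fun p => (p.1, p.2.1)) (fun _ _ => mem_univ _) ?_
  rintro ⟨a, b, c⟩ h ⟨a', b', c'⟩ h' e
  simp only [coe_filter, mem_univ, true_and, Set.mem_ofPred_eq, Prod.mk.injEq] at h h' e ⊢
  exact ⟨e.1, e.2, by rw [h, h', e.1, e.2]⟩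

lemma card_diag_le :
    (univ.filter fun p : Fin r × Fin r × Fin r => p.1 = p.2.1).card ≤ r ^ 2 := by
  have : r ^ 2 = (univ : Finset (Fin r × Fin r)).card := by simp [sq]
  rw [this]
  refine card_le_card_of_injOn (fun p => p.2) (fun _ _ => mem_univ _) ?_
  rintro ⟨a, b, c⟩ h ⟨a', b', c'⟩ h' e
  simp only [coe_filter, mem_univ, true_and, Set.mem_ofPred_eq, Prod.mk.injEq] at h h' e ⊢
  exact ⟨by rw [h, h', e.1], e⟩

open Classical in
lemma card_Fw : r ^ 3 ≤ (univ.filter (Fw (r := r))).card + 3 * r ^ 2 := by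
  have h1 : (univ : Finset (Fin r × Fin r × Fin r)) ⊆
      (univ.filter (Fw (r := r))).image (fun d => (d.fst 0, d.fst 1, d.snd 1)) ∪
      (univ.filter fun p => p.1 = p.2.1) ∪ (univ.filter fun p => p.2.2 = p.2.1) ∪
      univ.filter fun p => p.2.2 = p.1 := by
    rintro ⟨a, b, c⟩ -
    by_contra h
    simp only [mem_union, mem_filter, mem_univ, true_and, not_or, mem_image] at h
    exact h.1.1.1 ⟨⟨(_, _), adj_two h.1.1.2 c⟩, ⟨rfl, h.1.1.2, Ne.symm h.1.2, Ne.symm h.2⟩, rfl⟩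
  have h5 := (card_le_card h1).trans ((card_union_le _ _).trans (Nat.add_le_add_right
    ((card_union_le _ _).trans (Nat.add_le_add_right (card_union_le _ _) _)) _))
  have h2 := card_rel_le (r := r) fun _ b => b
  have h3 := card_rel_le (r := r) fun a _ => a
  have h4 := card_diag_le (r := r)
  have h6 := card_image_le (s := univ.filter (Fw (r := r)))
    (f := fun d => (d.fst 0, d.fst 1, d.snd 1))
  have h7 : (univ : Finset (Fin r × Fin r × Fin r)).card = r ^ 3 := by simp; ring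
  omega

theorem lower_two (hr : 2 ≤ r) : 5 * (r : ℝ) ^ 3 / 24 - 2 * r ^ 2 ≤ genus (deBruijn r 2) := by
  classical
  obtain ⟨σ, hσ, h1⟩ := exists_min_rot r 2
  have h2 := faces_le_tri hσ
  have h3 := card_three_le hσ (by omega) (by omega)
  have h4 : 2 * ((univ.filter (Tri σ)).card : ℝ) ≤ Fintype.card (Dt r 2) := by
    exact_mod_cast two_card_le (univ.filter (Tri σ)) fun d hd hd' =>
      Tri.symm_not hσ (mem_filter.1 hd).2 (mem_filter.1 hd').2
  have h5 : 2 * ((univ.filter (Fw (r := r))).card : ℝ) ≤ Fintype.card (Dt r 2) := by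
    exact_mod_cast two_card_le (univ.filter (Fw (r := r))) fun d hd hd' =>
      (mem_filter.1 hd).2.2.2.2 (mem_filter.1 hd').2.1
  have h6 : (r : ℝ) ^ 3 ≤ (univ.filter (Fw (r := r))).card + 3 * r ^ 2 := by exact_mod_cast card_Fw
  have h8 : (0 : ℝ) ≤ r ^ 2 := by positivity
  linarith

section construction

variable (pos : Fin (n + 1) → Fin (n + 1) → ℕ)

/-- position of a dart in the rotation at its initial vertex -/
def key (d : Dt (n + 1) 2) : ℕ :=
  if d.snd 0 = d.fst 1 then 2 * pos (d.fst 0 - d.fst 1) (d.snd 1) + 1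
  else 2 * pos (d.fst 0 - d.fst 1) (d.snd 0)

lemma key_inj (h : ∀ x, Injective (pos x)) (d e : Dt (n + 1) 2) (h1 : d.fst = e.fst)
    (h2 : key pos d = key pos e) : d = e := by
  have a := (adj_iff.1 d.adj).2
  have b := (adj_iff.1 e.adj).2
  simp only [arc_two] at a b
  refine dart_ext h1 (ext_two.2 ?_)
  unfold key at h2
  rw [← h1] at h2 b
  split_ifs at h2 with k1 k2 k2
  · exact ⟨k1.trans k2.symm, h (d.fst 0 - d.fst 1) (by omega)⟩
  · omega
  · omega
  · exact ⟨h (d.fst 0 - d.fst 1) (by omega),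
      (a.resolve_left k1).symm.trans (b.resolve_left k2)⟩

/-- one step along a quadrilateral face -/
def rho (p : Fin (n + 1) × Fin (n + 1) × Fin (n + 1)) : Fin (n + 1) × Fin (n + 1) × Fin (n + 1) :=
  (p.2.2 + (p.1 - p.2.1), p.1, p.2.1)

lemma rho_four (p : Fin (n + 1) × Fin (n + 1) × Fin (n + 1)) : rho (rho (rho (rho p))) = p := by
  obtain ⟨a, b, c⟩ := p
  simp only [rho, Prod.mk.injEq]
  refine ⟨?_, ?_, ?_⟩ <;> abel

/-- triples at which the step is regular -/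
def Reg (p : Fin (n + 1) × Fin (n + 1) × Fin (n + 1)) : Prop :=
  p.1 ≠ p.2.1 ∧ p.2.2 + (p.1 - p.2.1) ≠ p.2.1 ∧
    pos (p.1 - p.2.1) (p.2.2 + (p.1 - p.2.1)) = pos (p.1 - p.2.1) p.2.2 + 1

/-- the backward dart of a triple -/
def Bw (p : Fin (n + 1) × Fin (n + 1) × Fin (n + 1)) (d : Dt (n + 1) 2) : Prop :=
  d.fst = ![p.2.1, p.2.2] ∧ d.snd = ![p.1, p.2.1]

variable {pos} {σ : Equiv.Perm (Dt (n + 1) 2)}
  (hσ : ∀ d e, d.fst = e.fst → key pos e = key pos d + 1 → σ d = e)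
include hσ

lemma step_bw {p : Fin (n + 1) × Fin (n + 1) × Fin (n + 1)} {d : Dt (n + 1) 2} (h : Bw p d)
    (hp : Reg pos p) : Bw (rho p) (fp σ d) := by
  obtain ⟨a, b, c⟩ := p
  obtain ⟨⟨x, y⟩, hxy⟩ := d
  obtain ⟨h1, h2⟩ := h
  obtain ⟨k1, k2, k3⟩ := hp
  simp only at h1 h2 k1 k2 k3
  subst h1 h2
  have h3 : (deBruijn (n + 1) 2).Adj ![a, b] ![c + (a - b), a] :=
    adj_iff.2 ⟨fun e => k1 (congrFun e 1).symm, Or.inr (arc_two.2 rfl)⟩
  rw [fp_apply, hσ (SimpleGraph.Dart.symm ⟨(_, _), hxy⟩) ⟨(![a, b], ![c + (a - b), a]), h3⟩ rfl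
    (by simp [key, k2, k3, SimpleGraph.Dart.symm]; ring)]
  exact ⟨rfl, rfl⟩

lemma step_fw {d : Dt (n + 1) 2} (h : Fw d) :
    (fp σ d).fst = d.snd ∧ (fp σ d).snd = ![d.snd 1, d.fst 0] := by
  obtain ⟨⟨x, y⟩, hxy⟩ := d
  obtain ⟨h1, h2, h3, h4⟩ := h
  simp only at h1 h2 h3 h4
  have h5 : (deBruijn (n + 1) 2).Adj y ![y 1, x 0] :=
    adj_iff.2 ⟨fun e => h3 (h1.symm.trans (congrFun e 0)), Or.inl (arc_two.2 rfl)⟩
  rw [fp_apply, hσ (SimpleGraph.Dart.symm ⟨(_, _), hxy⟩) ⟨(y, ![y 1, x 0]), h5⟩ rfl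
    (by simp [key, h4, SimpleGraph.Dart.symm])]
  exact ⟨rfl, rfl⟩

lemma step_fw' {d : Dt (n + 1) 2} (h : Fw d) : Fw (fp σ d) := by
  obtain ⟨a, b⟩ := step_fw hσ h
  obtain ⟨h1, h2, h3, h4⟩ := h
  unfold Fw
  rw [a, b, h1]
  exact ⟨rfl, h3, h4.symm, h2.symm⟩

lemma three_fw {d : Dt (n + 1) 2} (h : Fw d) : (fp σ)^[3] d = d := by
  have h1 := step_fw' hσ h
  have h2 := step_fw' hσ h1
  obtain ⟨a1, b1⟩ := step_fw hσ h
  obtain ⟨a2, b2⟩ := step_fw hσ h1
  obtain ⟨a3, b3⟩ := step_fw hσ h2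
  change fp σ (fp σ (fp σ d)) = d
  refine dart_ext ?_ ?_
  · rw [a3, b2, a1, b1, h.1]; exact ext_two.2 ⟨rfl, rfl⟩
  · rw [b3, a2, b2, a1, b1]; exact ext_two.2 ⟨rfl, rfl⟩

end construction

lemma card_irreg (K : ℕ) (hK : 0 < K) : ∃ pos : Fin (n + 1) → Fin (n + 1) → ℕ,
    (∀ x, Injective (pos x)) ∧ ((univ.filter fun p : Fin (n + 1) × Fin (n + 1) × Fin (n + 1) =>
      pos (p.1 - p.2.1) (p.2.2 + (p.1 - p.2.1)) ≠ pos (p.1 - p.2.1) p.2.2 + 1).card : ℝ) ≤
        K * K * (n + 1) ^ 2 + (n + 1) ^ 3 / K := by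
  have : IsAddCyclic (Fin (n + 1)) := inferInstanceAs (IsAddCyclic (ZMod (n + 1)))
  choose pos h1 h2 using exists_pos (G := Fin (n + 1))
  refine ⟨pos, h1, ?_⟩
  have hK' : (0 : ℝ) < K := by exact_mod_cast hK
  have h3 : ∀ x, ((univ.filter fun c => pos x (c + x) ≠ pos x c + 1).card : ℝ) ≤
      (if addOrderOf x ≤ K then (n + 1 : ℝ) else 0) + (n + 1) / K := fun x => by
    split_ifs with h
    · have h4 : ((univ.filter fun c => pos x (c + x) ≠ pos x c + 1).card : ℝ) ≤ n + 1 := by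
        exact_mod_cast (card_le_univ _).trans_eq (Fintype.card_fin _)
      have : (0 : ℝ) ≤ (n + 1) / K := by positivity
      linarith
    · rw [zero_add, le_div_iff₀ hK']
      have h4 := (Nat.mul_le_mul_left _ (not_le.1 h).le).trans (h2 x)
      rw [Fintype.card_fin] at h4
      exact_mod_cast h4
  have h4 : ((univ.filter fun d : Fin (n + 1) => addOrderOf d ≤ K).card : ℝ) ≤ K * K := by
    exact_mod_cast card_small_order (G := Fin (n + 1)) K
  have h5 : ∑ x, ((univ.filter fun c => pos x (c + x) ≠ pos x c + 1).card : ℝ) ≤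
      K * K * (n + 1) + (n + 1) ^ 2 / K := by
    refine (sum_le_sum fun x _ => h3 x).trans ?_
    simp only [sum_add_distrib, ← sum_filter, sum_const, nsmul_eq_mul, card_univ, Fintype.card_fin]
    have : (0 : ℝ) ≤ n + 1 := by positivity
    push_cast
    rw [sq, mul_div_assoc]
    nlinarith
  rw [card_filter, Fintype.sum_prod_type]
  simp only [Fintype.sum_prod_type]
  simp only [← card_filter]
  push_cast
  refine (sum_le_card_nsmul _ _ (K * K * (n + 1) + (n + 1) ^ 2 / K : ℝ) fun a _ => ?_).trans ?_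
  · refine le_trans (le_of_eq ?_) h5
    exact Equiv.sum_comp (Equiv.subLeft a)
      fun x => ((univ.filter fun c => pos x (c + x) ≠ pos x c + 1).card : ℝ)
  · simp only [card_univ, Fintype.card_fin, nsmul_eq_mul]
    push_cast
    exact le_of_eq (by ring)

theorem upper_two (K : ℕ) (hK : 0 < K) : (genus (deBruijn (n + 1) 2) : ℝ) ≤
    5 * (n + 1) ^ 3 / 24 + (3 + K * K) * (n + 1) ^ 2 + (n + 1) ^ 3 / K := by
  classical
  obtain ⟨pos, h1, h2⟩ := card_irreg (n := n) K hK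
  obtain ⟨σ, s1, s2, s3⟩ := exists_rot_key (fun d : Dt (n + 1) 2 => d.fst) (key pos) (key_inj pos h1)
  let T := Fin (n + 1) × Fin (n + 1) × Fin (n + 1)
  let B : Finset (Dt (n + 1) 2) := univ.filter fun d => ∃ p : T, Bw p d ∧ Reg pos p ∧
    Reg pos (rho p) ∧ Reg pos (rho (rho p)) ∧ Reg pos (rho (rho (rho p)))
  have h3 := orbits_ge_three_four (fp σ) (univ.filter Fw) B (disjoint_left.2 fun d hd hd' => by
      obtain ⟨p, ⟨a, b⟩, -⟩ := (mem_filter.1 hd').2
      exact (mem_filter.1 hd).2.2.2.2 (by rw [a, b]; rfl))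
    (fun d hd => three_fw s3 (mem_filter.1 hd).2) fun d hd => by
      obtain ⟨p, a, b1, b2, b3, b4⟩ := (mem_filter.1 hd).2
      have := step_bw s3 (step_bw s3 (step_bw s3 (step_bw s3 a b1) b2) b3) b4
      rw [rho_four] at this
      exact dart_ext (this.1.trans a.1.symm) (this.2.trans a.2.symm)
  have hinj : Injective (rho : T → T) := fun p q h => by rw [← rho_four p, ← rho_four q, h]
  let N : Finset T := univ.filter fun p => ¬ Reg pos p
  have hN : (N.card : ℝ) ≤ (2 + K * K) * (n + 1) ^ 2 + (n + 1) ^ 3 / K := by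
    have a1 : N ⊆ (univ.filter fun p : T => p.1 = p.2.1) ∪
        (univ.filter fun p : T => p.2.2 = p.2.1 - (p.1 - p.2.1)) ∪ univ.filter fun p : T =>
        pos (p.1 - p.2.1) (p.2.2 + (p.1 - p.2.1)) ≠ pos (p.1 - p.2.1) p.2.2 + 1 := fun p hp => by
      simp only [N, Reg, mem_filter, mem_univ, true_and, mem_union, eq_sub_iff_add_eq] at hp ⊢
      tauto
    have a2 := (card_le_card a1).trans ((card_union_le _ _).trans
      (Nat.add_le_add_right ((card_union_le _ _).trans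
        (Nat.add_le_add card_diag_le (card_rel_le fun a b => b - (a - b)))) _))
    have a3 := (Nat.cast_le (α := ℝ)).2 a2
    simp only [Nat.cast_add, Nat.cast_pow, Nat.cast_one] at a3
    linarith
  have hpre : ∀ f : T → T, Injective f → (univ.filter fun p => ¬ Reg pos (f p)).card ≤ N.card :=
    fun f hf => card_le_card_of_injOn f (fun p hp => by simpa [N] using hp) hf.injOn
  have hB : (n + 1) ^ 3 ≤ B.card + 4 * N.card := by
    have a1 : (univ : Finset T) ⊆ B.image (fun d => (d.snd 0, d.snd 1, d.fst 1)) ∪ N ∪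
        (univ.filter fun p => ¬ Reg pos (rho p)) ∪ (univ.filter fun p => ¬ Reg pos (rho (rho p))) ∪
        univ.filter fun p => ¬ Reg pos (rho (rho (rho p))) := by
      rintro ⟨a, b, c⟩ -
      by_contra h
      simp only [N, B, mem_union, mem_filter, mem_univ, true_and, not_or, mem_image, not_not] at h
      exact h.1.1.1.1 ⟨⟨(_, _), (adj_two h.1.1.1.2.1 c).symm⟩,
        ⟨(a, b, c), ⟨rfl, rfl⟩, h.1.1.1.2, h.1.1.2, h.1.2, h.2⟩, rfl⟩
    have a2 := (card_le_card a1).trans ((card_union_le _ _).trans (Nat.add_le_add_right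
      ((card_union_le _ _).trans (Nat.add_le_add_right ((card_union_le _ _).trans
        (Nat.add_le_add_right (card_union_le _ _) _)) _)) _))
    have a3 := hpre _ hinj
    have a4 := hpre _ (hinj.comp hinj)
    have a5 := hpre _ (hinj.comp (hinj.comp hinj))
    have a6 := card_image_le (s := B) (f := fun d => (d.snd 0, d.snd 1, d.fst 1))
    have a7 : (univ : Finset T).card = (n + 1) ^ 3 := by simp [T]; ring
    simp only [comp] at a4 a5
    omega
  have hB' : ((n + 1 : ℝ)) ^ 3 ≤ B.card + 4 * N.card := by exact_mod_cast hB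
  have hA : ((n + 1 : ℝ)) ^ 3 ≤ (univ.filter (Fw (r := n + 1))).card + 3 * (n + 1) ^ 2 := by
    exact_mod_cast card_Fw (r := n + 1)
  refine genus_le_of (σ := σ) ⟨s1, s2⟩ (by norm_num) h3 (by positivity) ?_
  have a1 : (1 : ℝ) ≤ (n + 1) ^ 2 := one_le_pow₀ (by linarith [(Nat.cast_nonneg n : (0 : ℝ) ≤ n)])
  have a2 : (0 : ℝ) ≤ (n + 1) ^ 3 / K := by positivity
  have a3 : (0 : ℝ) ≤ K * K * (n + 1) ^ 2 := by positivity
  push_cast
  nlinarith

end Pool.Agent.Lib.MP_1b8c51_co
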