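import Pool.Agent.Lib.MP_1b8c51_co.UniC

set_option autoImplicit false

namespace Pool.Agent.Lib.MP_1b8c51_co

variable {r t : ℕ}

lemma uniform_two {ε : ℝ} (hε : 0 < ε) : ∃ R : ℕ, ∀ r : ℕ, R ≤ r →
    |(genus (deBruijn r 2) : ℝ) - 5 * r ^ 3 / 24| ≤ ε * (5 * r ^ 3 / 24) := by
  obtain ⟨K, hK⟩ := exists_nat_gt (10 / ε)
  have hK0 : (0 : ℝ) < K := lt_trans (by positivity) hK
  obtain ⟨R, hR⟩ := exists_nat_gt (10 * (3 + K * K) / ε : ℝ)
  refine ⟨R + 2, fun r hr => ?_⟩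
  have h1 := lower_two (r := r) (by omega)
  obtain ⟨n, rfl⟩ : ∃ n, r = n + 1 := ⟨r - 1, by omega⟩
  have h2 := upper_two (n := n) K (by exact_mod_cast hK0)
  have h3 : (R : ℝ) ≤ n + 1 := by exact_mod_cast (by omega : R ≤ n + 1)
  push_cast at h1 ⊢
  generalize (n + 1 : ℝ) = x at *
  rw [div_lt_iff₀ hε] at hK hR
  have hx : 0 < x := by nlinarith [mul_pos hK0 hK0]
  have h4 : x ^ 3 / K ≤ ε * x ^ 3 / 10 := by
    rw [div_le_div_iff₀ hK0 (by norm_num)]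
    nlinarith [pow_pos hx 3]
  have h5 : (3 + K * K) * x ^ 2 ≤ ε * x ^ 3 / 10 := by
    have : 10 * (3 + K * K) ≤ x * ε := by nlinarith
    nlinarith [pow_pos hx 2]
  have h6 : 0 ≤ (K * K : ℝ) * x ^ 2 := by positivity
  have h7 : 0 ≤ ε * x ^ 3 := by positivity
  rw [abs_le]
  constructor <;> nlinarith [pow_pos hx 2]

lemma upper_all (hr : 2 ≤ r) (ht : 1 ≤ t) :
    (genus (deBruijn r t) : ℝ) ≤ ((r : ℝ) - 1) * r ^ t / 4 + 2 * r ^ 3 := by
  obtain ⟨n, rfl⟩ : ∃ n, r = n + 1 := ⟨r - 1, by omega⟩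
  have hn : (1 : ℝ) ≤ n := by exact_mod_cast (by omega : 1 ≤ n)
  have h1 : ((n + 1 : ℝ)) ^ 3 + (n + 1) ^ 2 + 2 ≤ 2 * (n + 1) ^ 3 := by nlinarith [sq_nonneg (n : ℝ)]
  push_cast
  rw [add_sub_cancel_right]
  rcases Nat.even_or_odd n with h | h
  · have := upper_odd h.two_dvd ht
    linarith
  · have h2 := upper_even h.add_one.two_dvd ht
    have h3 : (0 : ℝ) ≤ (n + 1) ^ t / (t + 1) := by positivity
    linarith

lemma uniform_three {ε : ℝ} (hε : 0 < ε) : ∃ N : ℕ, ∀ r t : ℕ, 2 ≤ r → 3 ≤ t → N ≤ r ^ t →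
    |(genus (deBruijn r t) : ℝ) - (r - 1) * r ^ t / 4| ≤ ε * ((r - 1) * r ^ t / 4) := by
  obtain ⟨M, hM⟩ := exists_nat_gt (16 / ε)
  obtain ⟨T, hT⟩ := exists_nat_gt (4 * (1 + 5000 * (M : ℝ) ^ 3) / ε)
  rw [div_lt_iff₀ hε] at hM hT
  refine ⟨M ^ 3 + M ^ T, fun r t hr ht hN => abs_le.2 ⟨?_, ?_⟩⟩
  · have hr' : (2 : ℝ) ≤ r := by exact_mod_cast hr
    have hV : (0 : ℝ) < r ^ t := by positivity
    rcases le_or_gt M r with h | h
    · have h1 := lower_three hr ht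
      have h2 : (M : ℝ) ≤ r := by exact_mod_cast h
      have h3 : 4 ≤ ε * (r - 1) := by nlinarith
      nlinarith
    · have h1 := lower hr (show 1 ≤ t by omega)
      have h2 : T ≤ t := by
        by_contra h2
        have h3 : r ^ t ≤ M ^ t := Nat.pow_le_pow_left h.le t
        have h4 : M ^ t ≤ M ^ T := Nat.pow_le_pow_right (by omega) (by omega)
        have h5 : 0 < M ^ 3 := Nat.pow_pos (by omega)
        omega
      have h3 : (T : ℝ) ≤ t := by exact_mod_cast h2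
      have h4 : (3 : ℝ) ≤ t := by exact_mod_cast ht
      have h5 : (r : ℝ) ^ 3 ≤ M ^ 3 := by exact_mod_cast Nat.pow_le_pow_left h.le 3
      have h6 : (r : ℝ) ^ t / t ^ 2 ≤ r ^ t / t :=
        div_le_div_of_nonneg_left hV.le (by linarith) (by nlinarith)
      have h7 : 5000 * (r : ℝ) ^ 3 * (r ^ t / t ^ 2) ≤ 5000 * M ^ 3 * (r ^ t / t) :=
        mul_le_mul (by linarith) h6 (by positivity) (by positivity)
      have h8 : (1 + 5000 * (M : ℝ) ^ 3) * (r ^ t / t) ≤ ε * r ^ t / 4 := by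
        rw [← mul_div_assoc, div_le_div_iff₀ (by linarith) (by norm_num)]
        have : 4 * (1 + 5000 * (M : ℝ) ^ 3) ≤ t * ε := by nlinarith
        nlinarith
      have h9 : 0 ≤ ε * r ^ t * (r - 2) := mul_nonneg (by positivity) (by linarith)
      nlinarith
  · have hr' : (2 : ℝ) ≤ r := by exact_mod_cast hr
    have h1 := upper_all hr (show 1 ≤ t by omega)
    obtain ⟨s, rfl⟩ : ∃ s, t = s + 2 := ⟨t - 2, by omega⟩
    have h2 : M ≤ r ^ s := by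
      by_contra h2
      have h3 : (r ^ s) ^ 3 < M ^ 3 := Nat.pow_lt_pow_left (by omega) (by norm_num)
      have h4 : r ^ (s + 2) ≤ r ^ (s * 3) := Nat.pow_le_pow_right (by omega) (by omega)
      rw [pow_mul] at h4
      omega
    have h3 : (M : ℝ) ≤ r ^ s := by exact_mod_cast h2
    have h4 : 16 ≤ ε * r ^ s := by nlinarith
    have h5 : (0 : ℝ) < r ^ 2 := by positivity
    have h6 : 16 * ((r - 1) * r ^ 2) ≤ ε * r ^ s * ((r - 1) * r ^ 2 : ℝ) :=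
      mul_le_mul_of_nonneg_right h4 (mul_nonneg (by linarith) h5.le)
    rw [pow_add] at h1 ⊢
    nlinarith

theorem uniform {ε : ℝ} (hε : 0 < ε) : ∃ N : ℕ, ∀ r t : ℕ, 2 ≤ r → 2 ≤ t → N ≤ r ^ t →
    |(genus (deBruijn r t) : ℝ) -
      (if t = 2 then 5 * (r : ℝ) ^ 3 / 24 else ((r : ℝ) - 1) * r ^ t / 4)| ≤
      ε * (if t = 2 then 5 * (r : ℝ) ^ 3 / 24 else ((r : ℝ) - 1) * r ^ t / 4) := by
  obtain ⟨R, hR⟩ := uniform_two hε
  obtain ⟨N, hN⟩ := uniform_three hε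
  refine ⟨R ^ 2 + N, fun r t hr ht h => ?_⟩
  split_ifs with h2
  · subst h2
    exact hR r (by
      by_contra h3
      have : r ^ 2 < R ^ 2 := Nat.pow_lt_pow_left (by omega) (by norm_num)
      omega)
  · exact hN r t hr (by omega) (by omega)

end Pool.Agent.Lib.MP_1b8c51_co
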