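import Pool.Agent.Lib.MP_1b8c51_co.LowerSum

set_option autoImplicit false

namespace Pool.Agent.Lib.MP_1b8c51_co

open Finset Function

variable {n t : ℕ}

def par (a : Fin (n + 1)) : ZMod 2 := ((a : ℕ) : ZMod 2)

def Sm {k : ℕ} (e : Wd (n + 1) k) : ZMod 2 := ∑ i, par (e i)

def chi (m : Md (n + 1) t) : ZMod 2 := Sm m.1 + if m.2 then 0 else 1

def mate (c : ZMod 2) (a : Fin (n + 1)) : Fin (n + 1) := if par a = c then a + 1 else a - 1

def stop (c : ZMod 2) (a o : Fin (n + 1)) : Fin (n + 1) := if par a = c then o - 1 else o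

def rotL (e : Wd (n + 1) (t + 1)) : Wd (n + 1) (t + 1) := fun i => e (i + 1)

def rotR (e : Wd (n + 1) (t + 1)) : Wd (n + 1) (t + 1) := fun i => e (i - 1)

/-- the face map of the model -/
def psi (off : Wd (n + 1) t → Fin (n + 1)) (m : Md (n + 1) t) : Md (n + 1) t :=
  if m.2 then
    if m.1 0 = stop (chi m) (m.1 0) (off (suf m.1)) then (rotL m.1, true)
    else (update m.1 0 (mate (chi m) (m.1 0)), false)
  else
    if m.1 (Fin.last t) = stop (chi m) (m.1 (Fin.last t)) (off (pre m.1)) then (rotR m.1, false)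
    else (update m.1 (Fin.last t) (mate (chi m) (m.1 (Fin.last t))), true)

lemma pre_rotL (e : Wd (n + 1) (t + 1)) : pre (rotL e) = suf e := by
  funext i; simp [pre, suf, rotL]

lemma rotL_rotR (e : Wd (n + 1) (t + 1)) : rotL (rotR e) = e := by
  funext i; simp [rotL, rotR]

lemma rotR_rotL (e : Wd (n + 1) (t + 1)) : rotR (rotL e) = e := by
  funext i; simp [rotL, rotR]

lemma suf_rotR (e : Wd (n + 1) (t + 1)) : suf (rotR e) = pre e := by
  rw [← pre_rotL, rotL_rotR]

lemma rotL_last (e : Wd (n + 1) (t + 1)) : rotL e (Fin.last t) = e 0 := by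
  simp [rotL]

lemma rotR_zero (e : Wd (n + 1) (t + 1)) : rotR e 0 = e (Fin.last t) := by
  rw [← rotL_last (rotR e), rotL_rotR]

lemma suf_update (e : Wd (n + 1) (t + 1)) (a : Fin (n + 1)) : suf (update e 0 a) = suf e := by
  funext i; simp [suf]

lemma pre_update (e : Wd (n + 1) (t + 1)) (a : Fin (n + 1)) :
    pre (update e (Fin.last t) a) = pre e := by
  funext i; simp [pre]

lemma Sm_suf (e : Wd (n + 1) (t + 1)) : Sm e = par (e 0) + Sm (suf e) := by
  simp [Sm, Fin.sum_univ_succ, suf]

lemma Sm_pre (e : Wd (n + 1) (t + 1)) : Sm e = Sm (pre e) + par (e (Fin.last t)) := by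
  simp [Sm, Fin.sum_univ_castSucc, pre]

lemma vtx_psi (off : Wd (n + 1) t → Fin (n + 1)) (m : Md (n + 1) t) :
    vtx (psi off m) = vtx (flp m) := by
  obtain ⟨e, b⟩ := m
  cases b
  · simp only [psi, Bool.false_eq_true, if_false]
    split_ifs
    · exact suf_rotR e
    · exact pre_update e _
  · simp only [psi, if_true]
    split_ifs
    · exact pre_rotL e
    · exact suf_update e (mate (chi (e, true)) (e 0))

lemma flp_flp (m : Md (n + 1) t) : flp (flp m) = m := by
  obtain ⟨e, b⟩ := m
  simp [flp]

lemma val_add_one {u : Fin (n + 1)} (h : u ≠ -1) : ((u + 1 : Fin (n + 1)) : ℕ) = u + 1 := by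
  refine Fin.val_add_one_of_lt (lt_of_le_of_ne (Fin.le_last u) ?_)
  intro h'
  apply h
  ext
  rw [h', Fin.coe_neg_one, Fin.val_last]

lemma val_sub_one {u : Fin (n + 1)} (h : u ≠ 0) : ((u - 1 : Fin (n + 1)) : ℕ) + 1 = u := by
  rw [← val_add_one, sub_add_cancel]
  intro h'
  apply h
  rw [← sub_add_cancel u 1, h', neg_add_cancel]

def kin (u : Fin (n + 1)) : ZMod (2 * (n + 1)) := ((u : ℕ) : ZMod (2 * (n + 1)))

def kap (off : Wd (n + 1) t → Fin (n + 1)) (m : Md (n + 1) t) : ZMod (2 * (n + 1)) :=
  (if Sm (vtx m) = 0 then 1 else -1) *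
    (if m.2 then -1 - kin (m.1 (Fin.last t) - off (vtx m)) else kin (m.1 0 - off (vtx m)))

lemma kin_add_one {u : Fin (n + 1)} (h : u ≠ -1) : kin (u + 1) = kin u + 1 := by
  simp only [kin, val_add_one h]; push_cast; ring

lemma kin_sub_one {u : Fin (n + 1)} (h : u ≠ 0) : kin (u - 1) = kin u - 1 := by
  simp only [kin]; rw [← val_sub_one h]; push_cast; ring

lemma kin_zero : kin (0 : Fin (n + 1)) = 0 := by simp [kin]

lemma kin_neg_one : -1 - kin (-1 : Fin (n + 1)) = kin (-1 : Fin (n + 1)) + 1 := by
  have h : ((2 * (n + 1) : ℕ) : ZMod (2 * (n + 1))) = 0 := ZMod.natCast_self _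
  simp only [kin, Fin.coe_neg_one]
  push_cast at h
  linear_combination (-1 : ZMod (2 * (n + 1))) * h

lemma zmod2 (a : ZMod 2) : a = 0 ∨ a = 1 := by revert a; decide

lemma kap_step (off : Wd (n + 1) t → Fin (n + 1)) (m : Md (n + 1) t) :
    kap off (psi off (flp m)) = kap off m + 1 := by
  have hv : vtx (psi off (flp m)) = vtx m := by rw [vtx_psi, flp_flp]
  obtain ⟨e, b⟩ := m
  unfold kap
  rw [hv]
  cases b
  · have hx : vtx (e, false) = suf e := rfl
    have hc : chi ((e, true) : Md (n + 1) t) = par (e 0) + Sm (suf e) := by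
      simp [chi, Sm_suf e]
    simp only [hx, flp, Bool.not_false, psi, if_true, Bool.false_eq_true, if_false, hc, stop, mate]
    by_cases hs : Sm (suf e) = 0
    · simp only [hs, add_zero, if_true, one_mul]
      by_cases h : e 0 = off (suf e) - 1
      · have h' : e 0 - off (suf e) = -1 := by rw [h]; abel
        simp only [if_pos h, if_true, rotL_last, h', kin_neg_one]
      · have h' : e 0 - off (suf e) ≠ -1 := fun h' => h (by rw [sub_eq_add_neg, ← h']; abel)
        simp only [if_neg h, Bool.false_eq_true, if_false, update_self]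
        rw [← kin_add_one h']; congr 1; abel
    · have hs' : ¬ (par (e 0) = par (e 0) + Sm (suf e)) := by simpa using hs
      simp only [if_neg hs, if_neg hs']
      by_cases h : e 0 = off (suf e)
      · have h' : e 0 - off (suf e) = 0 := by rw [h]; abel
        simp only [if_pos h, if_true, rotL_last, h', kin_zero]; ring
      · have h' : e 0 - off (suf e) ≠ 0 := fun h' => h (sub_eq_zero.1 h')
        simp only [if_neg h, Bool.false_eq_true, if_false, update_self]
        rw [show e 0 - 1 - off (suf e) = e 0 - off (suf e) - 1 by abel, kin_sub_one h']; ring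
  · have hx : vtx (e, true) = pre e := rfl
    have hc : chi ((e, false) : Md (n + 1) t) = par (e (Fin.last t)) + (Sm (pre e) + 1) := by
      simp only [chi, Sm_pre e, Bool.false_eq_true, if_false]; ring
    simp only [hx, flp, Bool.not_true, psi, if_true, Bool.false_eq_true, if_false, hc, stop, mate]
    by_cases hs : Sm (pre e) = 0
    · have hs' : ¬ (par (e (Fin.last t)) = par (e (Fin.last t)) + (Sm (pre e) + 1)) := by
        rw [hs]; simp
      simp only [if_pos hs, if_neg hs', one_mul]
      by_cases h : e (Fin.last t) = off (pre e)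
      · have h' : e (Fin.last t) - off (pre e) = 0 := by rw [h]; abel
        simp only [if_pos h, Bool.false_eq_true, if_false, rotR_zero, h', kin_zero]; ring
      · have h' : e (Fin.last t) - off (pre e) ≠ 0 := fun h' => h (sub_eq_zero.1 h')
        simp only [if_neg h, if_true, update_self]
        rw [show e (Fin.last t) - 1 - off (pre e) = e (Fin.last t) - off (pre e) - 1 by abel,
          kin_sub_one h']; ring
    · have hs1 : Sm (pre e) + 1 = 0 := by
        rcases zmod2 (Sm (pre e)) with h | h
        · exact absurd h hs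
        · rw [h]; decide
      simp only [if_neg hs, hs1, add_zero, if_true]
      by_cases h : e (Fin.last t) = off (pre e) - 1
      · have h' : e (Fin.last t) - off (pre e) = -1 := by rw [h]; abel
        simp only [if_pos h, Bool.false_eq_true, if_false, rotR_zero, h', kin_neg_one]; ring
      · have h' : e (Fin.last t) - off (pre e) ≠ -1 :=
          fun h' => h (by rw [sub_eq_add_neg, ← h']; abel)
        simp only [if_neg h, if_true, update_self]
        rw [show e (Fin.last t) + 1 - off (pre e) = e (Fin.last t) - off (pre e) + 1 by abel,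
          kin_add_one h']; ring

lemma kin_inj {u v : Fin (n + 1)} (h : kin u = kin v) : u = v := by
  unfold kin at h
  rw [ZMod.natCast_eq_natCast_iff'] at h
  rw [Nat.mod_eq_of_lt (by omega), Nat.mod_eq_of_lt (by omega)] at h
  exact Fin.ext h

lemma kin_ne (u v : Fin (n + 1)) : kin u ≠ -1 - kin v := by
  intro h
  have : (((u : ℕ) + v + 1 : ℕ) : ZMod (2 * (n + 1))) = 0 := by
    unfold kin at h
    push_cast
    rw [h]; ring
  rw [ZMod.natCast_eq_zero_iff] at this
  have := Nat.le_of_dvd (by omega) this
  omega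

lemma kap_inj (off : Wd (n + 1) t → Fin (n + 1)) {m m' : Md (n + 1) t} (h1 : vtx m = vtx m')
    (h2 : kap off m = kap off m') : m = m' := by
  obtain ⟨e, b⟩ := m
  obtain ⟨e', b'⟩ := m'
  unfold kap at h2
  rw [← h1] at h2
  have hu : IsUnit (if Sm (vtx (e, b)) = 0 then (1 : ZMod (2 * (n + 1))) else -1) := by
    split_ifs
    · exact isUnit_one
    · exact isUnit_one.neg
  have h3 := hu.mul_left_cancel h2
  cases b <;> cases b' <;> simp only [Bool.false_eq_true, if_false, if_true] at h3
  · have h4 : e 0 = e' 0 := sub_left_injective (kin_inj h3)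
    have h5 : suf e = suf e' := h1
    congr 1
    funext i
    exact Fin.cases h4 (fun j => congrFun h5 j) i
  · exact absurd h3 (kin_ne _ _)
  · exact absurd h3.symm (kin_ne _ _)
  · have h4 : e (Fin.last t) = e' (Fin.last t) :=
      sub_left_injective (kin_inj (sub_right_injective h3))
    have h5 : pre e = pre e' := h1
    congr 1
    funext i
    exact Fin.lastCases h4 (fun j => congrFun h5 j) i

lemma rho_trans (off : Wd (n + 1) t → Fin (n + 1)) {m m' : Md (n + 1) t} (h : vtx m = vtx m') :
    ∃ k, (fun m => psi off (flp m))^[k] m = m' := by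
  have h1 : ∀ k, vtx ((fun m => psi off (flp m))^[k] m) = vtx m ∧
      kap off ((fun m => psi off (flp m))^[k] m) = kap off m + k := by
    intro k
    induction k with
    | zero => simp
    | succ k ih =>
      rw [iterate_succ_apply']
      refine ⟨by rw [vtx_psi, flp_flp, ih.1], ?_⟩
      rw [kap_step, ih.2]; push_cast; ring
  refine ⟨(kap off m' - kap off m).val, kap_inj off ((h1 _).1.trans h) ?_⟩
  rw [(h1 _).2, ZMod.natCast_zmod_val]; ring

open Classical in
theorem faces_ge (ht : 1 ≤ t) (off : Wd (n + 1) t → Fin (n + 1)) {Λ : Type} [DecidableEq Λ]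
    (L : Md (n + 1) t → Λ) (hL : ∀ m, L (psi off m) = L m) :
    ∃ σ, IsRotation (deBruijn (n + 1) t) σ ∧
      (univ.image L).card ≤ faces (deBruijn (n + 1) t) σ + (n + 1) ^ 2 * (2 * (n + 1)) := by
  choose lift hlift using mu_surj (r := n + 1) ht
  have hv : ∀ m : Md (n + 1) t, vtx (psi off (flp m)) = vtx m := fun m => by rw [vtx_psi, flp_flp]
  let τ : Dt (n + 1) t → Dt (n + 1) t := fun d =>
    if h : Good d.fst then mu (psi off (flp (lift d))) (by rw [hv, (hlift d).1]; exact h) else d
  have hlm : ∀ m h, lift (mu m h) = m := fun m h =>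
    (mu_inj ht h (hlift (mu m h)).1.symm (hlift (mu m h)).2.symm).symm
  have hτ : ∀ m h, τ (mu m h) = mu (psi off (flp m)) (by rw [hv]; exact h) := by
    intro m h
    have h' : Good (mu m h).fst := h
    simp only [τ, dif_pos h', hlm]
  have hml : ∀ (d : Dt (n + 1) t) (h : Good (vtx (lift d))), mu (lift d) h = d := by
    intro d h
    apply SimpleGraph.Dart.ext
    exact Prod.ext (hlift d).1 (hlift d).2
  have hτk : ∀ m h k h', τ^[k] (mu m h) = mu ((fun m => psi off (flp m))^[k] m) h' := by
    intro m h k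
    induction k with
    | zero => intro _; rfl
    | succ k ih =>
      intro h'
      have h2 : Good (vtx ((fun m => psi off (flp m))^[k] m)) := by
        rw [iterate_succ_apply', hv] at h'; exact h'
      rw [iterate_succ_apply', ih h2, hτ]
      congr 1
      exact (iterate_succ_apply' (fun m => psi off (flp m)) k m).symm
  obtain ⟨σ, s1, s2, s3⟩ := exists_rot (fun d : Dt (n + 1) t => d.fst) Good τ
    (fun d hd => by
      simp only [τ, dif_pos hd]
      show vtx _ = _
      rw [hv, (hlift d).1])
    (fun d e hd hde => by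
      have h1 : Good (vtx (lift d)) := by rw [(hlift d).1]; exact hd
      have h2 : Good (vtx (lift e)) := by rw [(hlift e).1, ← hde]; exact hd
      obtain ⟨k, hk⟩ := rho_trans off (show vtx (lift d) = vtx (lift e) by
        rw [(hlift d).1, (hlift e).1]; exact hde)
      refine ⟨k, ?_⟩
      rw [← hml d h1, hτk _ _ k (by rw [hk]; exact h2)]
      refine Eq.trans ?_ (hml e h2)
      congr 1)
  refine ⟨σ, ⟨s1, s2⟩, ?_⟩
  have h1 := card_orbits_ge (fp σ) (psi off) (fun m => Good (vtx m)) mu
    (fun m hm m' hm' h => by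
      have h1 : (vtx m, vtx (flp m)) = (vtx m', vtx (flp m')) := congrArg (fun d => d.toProd) h
      simp only [Prod.mk.injEq] at h1
      exact mu_inj ht hm h1.1 h1.2)
    (fun m hm hm' => by
      have h2 : Good (vtx (flp m)) := by rw [← vtx_psi off]; exact hm'
      have h3 : (mu m hm).symm = mu (flp m) h2 := by
        apply SimpleGraph.Dart.ext
        refine Prod.ext rfl ?_
        show vtx m = vtx (flp (flp m))
        rw [flp_flp]
      rw [fp_apply, h3, s3 _ h2, hτ]
      congr 1
      rw [flp_flp]) L hL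
  refine h1.trans (Nat.add_le_add_left ?_ _)
  have h2 : univ.filter (fun m : Md (n + 1) t => ¬ Good (vtx m)) ⊆
      (univ.filter (fun x : Wd (n + 1) t => ¬ Good x)).biUnion
        (fun x => univ.filter (fun m : Md (n + 1) t => vtx m = x)) := by
    intro m hm
    simp only [mem_biUnion, mem_filter, mem_univ, true_and] at hm ⊢
    exact ⟨_, hm, rfl⟩
  refine (Finset.card_le_card h2).trans ((Finset.card_biUnion_le_card_mul _ _ (2 * (n + 1))
    (fun x _ => (card_fibre_vtx x).le)).trans (Nat.mul_le_mul_right _ (card_bad (by omega))))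

end Pool.Agent.Lib.MP_1b8c51_co
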