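import Pool.Agent.Lib.MP_1b8c51_co.General

set_option autoImplicit false

namespace Pool.Agent.Lib.MP_1b8c51_co

open Finset Function

variable {r t : ℕ}

abbrev Wd (r t : ℕ) : Type := Fin t → Fin r

def arc (x y : Wd r t) : Prop := ∀ i j : Fin t, (j : ℕ) = i + 1 → y i = x j

lemma adj_iff {x y : Wd r t} : (deBruijn r t).Adj x y ↔ x ≠ y ∧ (arc x y ∨ arc y x) := by
  simp [deBruijn, SimpleGraph.fromRel_adj, arc]

noncomputable instance dartFintype : Fintype (deBruijn r t).Dart := by
  classical
  exact SimpleGraph.Dart.fintype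

def pre (e : Wd r (t + 1)) : Wd r t := fun i => e i.castSucc
def suf (e : Wd r (t + 1)) : Wd r t := fun i => e i.succ

lemma arc_pre_suf (e : Wd r (t + 1)) : arc (pre e) (suf e) := by
  intro i j hij
  simp only [pre, suf]
  congr 1
  ext
  simp [hij]

lemma pre_suf_inj (ht : 1 ≤ t) {e e' : Wd r (t + 1)} (h1 : pre e = pre e') (h2 : suf e = suf e') :
    e = e' := by
  funext i
  refine Fin.cases ?_ (fun j => congrFun h2 j) i
  exact congrFun h1 ⟨0, ht⟩

lemma exists_edge (ht : 1 ≤ t) {x y : Wd r t} (h : arc x y) :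
    ∃ e : Wd r (t + 1), pre e = x ∧ suf e = y := by
  refine ⟨Fin.cons (x ⟨0, ht⟩) y, ?_, ?_⟩
  · funext i
    obtain ⟨i, hi⟩ := i
    cases i with
    | zero => rfl
    | succ i =>
      have : (⟨i + 1, hi⟩ : Fin t).castSucc = (⟨i, by omega⟩ : Fin t).succ := rfl
      simp only [pre, this, Fin.cons_succ]
      exact h _ _ rfl
  · funext i
    simp [suf]

/-- the word is periodic with period `q - p` from position `p` on -/
def Per (p q : ℕ) (x : Wd r t) : Prop :=
  ∀ i j : Fin t, p ≤ (i : ℕ) → (j : ℕ) + p = i + q → x i = x j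

open Classical in
lemma card_Per (hr : 1 ≤ r) {p q : ℕ} (hpq : p < q) :
    (univ.filter (fun x : Wd r t => Per p q x)).card ≤ r ^ q := by
  have : r ^ q = (univ : Finset (Wd r q)).card := by simp
  rw [this]
  refine Finset.card_le_card_of_injOn
    (fun x => fun i : Fin q => if h : (i : ℕ) < t then x ⟨i, h⟩ else ⟨0, hr⟩)
    (fun _ _ => by simp) ?_
  intro x hx y hy hxy
  have hx' : Per p q x := by simpa using hx
  have hy' : Per p q y := by simpa using hy
  have : ∀ n (hn : n < t), x ⟨n, hn⟩ = y ⟨n, hn⟩ := by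
    intro n
    induction n using Nat.strong_induction_on with
    | _ n ih =>
      intro hn
      by_cases hq : n < q
      · have := congrFun hxy ⟨n, hq⟩
        simpa [hn] using this
      · have h1 := hx' ⟨n - (q - p), by omega⟩ ⟨n, hn⟩ (by simp; omega) (by simp; omega)
        have h2 := hy' ⟨n - (q - p), by omega⟩ ⟨n, hn⟩ (by simp; omega) (by simp; omega)
        rw [← h1, ← h2]
        exact ih _ (by omega) _
  funext i
  exact this i.1 i.2

lemma run_fwd (v : ℕ → Wd r t) (s k : ℕ) (h : ∀ i < k, arc (v (s + i)) (v (s + i + 1))) :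
    ∀ i j : Fin t, (j : ℕ) = i + k → v (s + k) i = v s j := by
  induction k with
  | zero => intro i j hij; congr 1; ext; simp [hij]
  | succ k ih =>
    intro i j hij
    have h1 := h k (Nat.lt_succ_self k) i ⟨i + 1, by omega⟩ rfl
    rw [← add_assoc, h1]
    exact ih (fun i hi => h i (by omega)) _ _ (by simp; omega)

lemma run_bwd (v : ℕ → Wd r t) (s k : ℕ) (h : ∀ i < k, arc (v (s + i + 1)) (v (s + i))) :
    ∀ i j : Fin t, (j : ℕ) = i + k → v s i = v (s + k) j := by
  induction k with
  | zero => intro i j hij; congr 1; ext; simp [hij]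
  | succ k ih =>
    intro i j hij
    have h1 := h k (Nat.lt_succ_self k) ⟨i + k, by omega⟩ j (by simp; omega)
    rw [← add_assoc, ← h1]
    exact ih (fun i hi => h i (by omega)) _ _ rfl

/-- a vertex that carries no loop and no double edge -/
def Good (x : Wd r t) : Prop := ∀ y, ¬ (arc x y ∧ arc y x)

lemma per_of_not_good {x : Wd r t} (h : ¬ Good x) : Per 0 2 x := by
  simp only [Good, not_forall, not_not] at h
  obtain ⟨y, h1, h2⟩ := h
  intro i j _ hij
  have a1 := h2 i ⟨i + 1, by omega⟩ rfl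
  have a2 := h1 ⟨i + 1, by omega⟩ j (by simp; omega)
  rw [a1, a2]

open Classical in
lemma card_bad (hr : 1 ≤ r) : (univ.filter (fun x : Wd r t => ¬ Good x)).card ≤ r ^ 2 := by
  refine le_trans (Finset.card_le_card ?_) (card_Per (t := t) hr (p := 0) (q := 2) (by omega))
  intro x hx
  simp only [mem_filter, mem_univ, true_and] at hx ⊢
  exact per_of_not_good hx

/-- darts of the multigraph: an edge word with a direction -/
abbrev Md (r t : ℕ) : Type := Wd r (t + 1) × Bool

def vtx (m : Md r t) : Wd r t := if m.2 then pre m.1 else suf m.1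

def flp (m : Md r t) : Md r t := (m.1, !m.2)

lemma adj_vtx {m : Md r t} (h : Good (vtx m) ∨ Good (vtx (flp m))) :
    (deBruijn r t).Adj (vtx m) (vtx (flp m)) := by
  obtain ⟨e, b⟩ := m
  have ha := arc_pre_suf e
  rw [adj_iff]
  cases b
  · refine ⟨?_, Or.inr ha⟩
    intro he
    have he' : suf e = pre e := he
    rcases h with h | h
    · exact h (pre e) ⟨by show arc (suf e) (pre e); rw [he'] at ha ⊢; exact ha, ha⟩
    · exact h (suf e) ⟨ha, by show arc (suf e) (pre e); rw [he'] at ha ⊢; exact ha⟩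
  · refine ⟨?_, Or.inl ha⟩
    intro he
    have he' : pre e = suf e := he
    rcases h with h | h
    · exact h (suf e) ⟨ha, by show arc (suf e) (pre e); rw [he'] at ha ⊢; exact ha⟩
    · exact h (pre e) ⟨by show arc (suf e) (pre e); rw [he'] at ha ⊢; exact ha, ha⟩

def mu (m : Md r t) (h : Good (vtx m)) : (deBruijn r t).Dart :=
  ⟨(vtx m, vtx (flp m)), adj_vtx (Or.inl h)⟩

lemma mu_inj (ht : 1 ≤ t) {m m' : Md r t} (h : Good (vtx m)) (h1 : vtx m = vtx m')
    (h2 : vtx (flp m) = vtx (flp m')) : m = m' := by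
  obtain ⟨e, b⟩ := m
  obtain ⟨e', b'⟩ := m'
  cases b <;> cases b' <;> simp only [vtx, flp] at h h1 h2 <;> simp at h h1 h2
  · rw [pre_suf_inj ht h2 h1]
  · exfalso
    refine h (pre e) ⟨?_, arc_pre_suf e⟩
    rw [h1, h2]; exact arc_pre_suf e'
  · exfalso
    refine h (suf e) ⟨arc_pre_suf e, ?_⟩
    rw [h1, h2]; exact arc_pre_suf e'
  · rw [pre_suf_inj ht h1 h2]

lemma mu_surj (ht : 1 ≤ t) (d : (deBruijn r t).Dart) :
    ∃ m : Md r t, vtx m = d.fst ∧ vtx (flp m) = d.snd := by
  rcases (adj_iff.1 d.adj).2 with h | h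
  · obtain ⟨e, h1, h2⟩ := exists_edge ht h
    exact ⟨(e, true), h1, h2⟩
  · obtain ⟨e, h1, h2⟩ := exists_edge ht h
    exact ⟨(e, false), h2, h1⟩

lemma card_fibre_vtx (x : Wd r t) :
    (univ.filter (fun m : Md r t => vtx m = x)).card = 2 * r := by
  have : 2 * r = (univ : Finset (Fin r × Bool)).card := by simp [mul_comm]
  rw [this]
  refine Finset.card_bij' (fun m _ => (if m.2 then m.1 (Fin.last t) else m.1 0, m.2))
    (fun k _ => (if k.2 then Fin.snoc (α := fun _ => Fin r) x k.1 else Fin.cons k.1 x, k.2))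
    (fun _ _ => mem_univ _) ?_ ?_ ?_
  · rintro ⟨a, b⟩ _
    cases b
    · simp only [mem_filter, mem_univ, true_and, vtx]
      funext i; simp [suf]
    · simp only [mem_filter, mem_univ, true_and, vtx]
      funext i; simp [pre]
  · rintro ⟨e, b⟩ h
    simp only [mem_filter, mem_univ, true_and, vtx] at h
    cases b
    · simp only [Bool.false_eq_true, if_false] at h ⊢
      subst h
      congr 1
      exact Fin.cons_self_tail e
    · simp only [if_true] at h ⊢
      subst h
      congr 1
      exact Fin.snoc_init_self e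
  · rintro ⟨a, b⟩ _
    cases b <;> simp

lemma card_darts_at (ht : 1 ≤ t) (x : Wd r t) :
    (univ.filter (fun d : (deBruijn r t).Dart => d.fst = x)).card ≤ 2 * r := by
  classical
  rw [← card_fibre_vtx x]
  choose f hf using mu_surj (r := r) ht
  refine Finset.card_le_card_of_injOn f ?_ ?_
  · intro d hd
    have : d.fst = x := by simpa using hd
    simp [(hf d).1, this]
  · intro d _ d' _ h
    apply SimpleGraph.Dart.ext
    apply Prod.ext
    · rw [← (hf d).1, ← (hf d').1, h]
    · rw [← (hf d).2, ← (hf d').2, h]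

lemma card_darts_at_good (ht : 1 ≤ t) {x : Wd r t} (hx : Good x) :
    2 * r ≤ (univ.filter (fun d : (deBruijn r t).Dart => d.fst = x)).card := by
  classical
  rw [← card_fibre_vtx x, ← Fintype.card_coe]
  rw [← Fintype.card_coe]
  refine Fintype.card_le_of_injective
    (fun m => ⟨mu m.1 (by rw [(mem_filter.1 m.2).2]; exact hx),
      by simp only [mem_filter, mem_univ, true_and]; exact (mem_filter.1 m.2).2⟩) ?_
  intro m m' h
  have h1 : (vtx m.1, vtx (flp m.1)) = (vtx m'.1, vtx (flp m'.1)) :=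
    congrArg (fun d : {d // d ∈ univ.filter (fun d : (deBruijn r t).Dart => d.fst = x)} =>
      d.1.toProd) h
  simp only [Prod.mk.injEq] at h1
  exact Subtype.ext (mu_inj ht (by rw [(mem_filter.1 m.2).2]; exact hx) h1.1 h1.2)

end Pool.Agent.Lib.MP_1b8c51_co
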